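import Mathlib

open Metric Set Filter Topology

namespace Pool.Agent.Helper269.HinfA

/-- bounded holomorphic on the unit disc -/
def BH (f : ℂ → ℂ) : Prop :=
  DifferentiableOn ℂ f (ball 0 1) ∧ ∃ C, ∀ z ∈ ball (0 : ℂ) 1, ‖f z‖ ≤ C

theorem BH.add {f g : ℂ → ℂ} (hf : BH f) (hg : BH g) : BH (fun z => f z + g z) := by
  obtain ⟨h1, C1, h2⟩ := hf
  obtain ⟨h3, C2, h4⟩ := hg
  exact ⟨h1.add h3, C1 + C2, fun z hz => (norm_add_le _ _).trans (add_le_add (h2 z hz) (h4 z hz))⟩

theorem BH.mul {f g : ℂ → ℂ} (hf : BH f) (hg : BH g) : BH (fun z => f z * g z) := by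
  obtain ⟨h1, C1, h2⟩ := hf
  obtain ⟨h3, C2, h4⟩ := hg
  refine ⟨h1.mul h3, C1 * C2, fun z hz => ?_⟩
  rw [norm_mul]
  exact mul_le_mul (h2 z hz) (h4 z hz) (norm_nonneg _) ((norm_nonneg _).trans (h2 z hz))

theorem BH.const (c : ℂ) : BH (fun _ => c) :=
  ⟨differentiableOn_const c, ‖c‖, fun _ _ => le_rfl⟩

theorem BH.pow {f : ℂ → ℂ} (hf : BH f) (n : ℕ) : BH (fun z => f z ^ n) := by
  induction n with
  | zero => simpa using BH.const 1
  | succ n ih => simpa [pow_succ] using ih.mul hf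

theorem BH.sum {ι : Type*} (s : Finset ι) {f : ι → ℂ → ℂ} (hf : ∀ i ∈ s, BH (f i)) :
    BH (fun z => ∑ i ∈ s, f i z) := by
  classical
  induction s using Finset.induction_on with
  | empty => simpa using BH.const 0
  | insert a s ha ih =>
    simp only [Finset.sum_insert ha]
    exact (hf a (Finset.mem_insert_self _ _)).add
      (ih fun i hi => hf i (Finset.mem_insert_of_mem hi))

theorem BH.congr {f g : ℂ → ℂ} (hf : BH f) (h : ∀ z ∈ ball (0 : ℂ) 1, g z = f z) : BH g := by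
  obtain ⟨h1, C1, h2⟩ := hf
  exact ⟨h1.congr h, C1, fun z hz => by rw [h z hz]; exact h2 z hz⟩

noncomputable def ep (z : ℂ) : ℂ := 1 - z
noncomputable def yy (z : ℂ) : ℂ := - Complex.sin (Complex.log (1 - z))
noncomputable def GG (z : ℂ) : ℂ := Complex.exp (-(Complex.log (1 - z)) ^ 2)

theorem slit {z : ℂ} (hz : z ∈ ball (0 : ℂ) 1) : 1 - z ∈ Complex.slitPlane := by
  left
  rw [mem_ball_zero_iff] at hz
  have := Complex.re_le_norm z
  simp only [Complex.sub_re, Complex.one_re]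
  linarith

theorem ep_ne {z : ℂ} (hz : z ∈ ball (0 : ℂ) 1) : ep z ≠ 0 :=
  Complex.slitPlane_ne_zero (slit hz)

theorem GG_ne (z : ℂ) : GG z ≠ 0 := Complex.exp_ne_zero _

theorem diff_log : DifferentiableOn ℂ (fun z => Complex.log (1 - z)) (ball 0 1) := by
  intro z hz
  apply DifferentiableAt.differentiableWithinAt
  exact ((differentiableAt_const _).sub differentiableAt_id).clog (slit hz)

theorem BH_ep : BH ep := by
  refine ⟨?_, 2, fun z hz => ?_⟩
  · exact (differentiableOn_const _).sub differentiableOn_id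
  · rw [mem_ball_zero_iff] at hz
    unfold ep
    calc ‖1 - z‖ ≤ ‖(1 : ℂ)‖ + ‖z‖ := norm_sub_le _ _
      _ ≤ 2 := by rw [norm_one]; linarith

theorem norm_sin_le (w : ℂ) : ‖Complex.sin w‖ ≤ Real.exp |w.im| := by
  have h : Complex.sin w = (Complex.exp (-w * Complex.I) - Complex.exp (w * Complex.I)) *
      Complex.I / 2 := rfl
  rw [h, norm_div, norm_mul, Complex.norm_I, mul_one]
  have h1 : ‖Complex.exp (-w * Complex.I)‖ ≤ Real.exp |w.im| := by
    rw [Complex.norm_exp]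
    apply Real.exp_le_exp.mpr
    simpa using le_abs_self w.im
  have h2 : ‖Complex.exp (w * Complex.I)‖ ≤ Real.exp |w.im| := by
    rw [Complex.norm_exp]
    apply Real.exp_le_exp.mpr
    simpa using neg_le_abs w.im
  have h3 := norm_sub_le (Complex.exp (-w * Complex.I)) (Complex.exp (w * Complex.I))
  have h4 : ‖(2 : ℂ)‖ = 2 := by simp
  rw [h4]
  linarith

theorem BH_yy : BH yy := by
  refine ⟨?_, Real.exp Real.pi, fun z hz => ?_⟩
  · exact (diff_log.csin).neg
  · unfold yy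
    rw [norm_neg]
    refine (norm_sin_le _).trans (Real.exp_le_exp.mpr ?_)
    rw [Complex.log_im]
    exact Complex.abs_arg_le_pi _

theorem BH_GG (m : ℕ) : BH (fun z => GG z * (ep z)⁻¹ ^ m) := by
  have hG : DifferentiableOn ℂ GG (ball 0 1) := (diff_log.pow 2).neg.cexp
  have he : DifferentiableOn ℂ (fun z => (ep z)⁻¹) (ball 0 1) :=
    BH_ep.1.inv fun z hz => ep_ne hz
  refine ⟨hG.mul (he.pow m), Real.exp (Real.pi ^ 2 + (m : ℝ) ^ 2 / 4), fun z hz => ?_⟩
  set l := Complex.log (1 - z) with hl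
  have h1 : ep z = Complex.exp l := by
    rw [hl, Complex.exp_log (Complex.slitPlane_ne_zero (slit hz))]; rfl
  have h2 : GG z * (ep z)⁻¹ ^ m = Complex.exp (-l ^ 2 + -(m : ℂ) * l) := by
    rw [h1, ← Complex.exp_neg, ← Complex.exp_nat_mul, Complex.exp_add]
    unfold GG
    rw [← hl]
    congr 2
    ring
  change ‖GG z * (ep z)⁻¹ ^ m‖ ≤ _
  rw [h2, Complex.norm_exp]
  apply Real.exp_le_exp.mpr
  have h3 : (-l ^ 2 + -(m : ℂ) * l).re = -(l.re ^ 2 - l.im ^ 2) - m * l.re := by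
    simp [pow_two, Complex.mul_re]
    ring
  rw [h3]
  have h4 : |l.im| ≤ Real.pi := by
    rw [hl, Complex.log_im]; exact Complex.abs_arg_le_pi _
  have h5 : l.im ^ 2 ≤ Real.pi ^ 2 := by
    rw [← sq_abs]
    exact pow_le_pow_left₀ (abs_nonneg _) h4 2
  nlinarith [sq_nonneg (l.re + m / 2)]

/-- the parameter -/
noncomputable def TT (z : ℂ) : ℂ := yy z / ep z

theorem BH_poly (P : Polynomial ℂ) (m : ℕ) (hP : P.natDegree ≤ m) :
    BH (fun z => ep z ^ m * P.eval (TT z)) := by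
  have h : BH (fun z => ∑ i ∈ Finset.range (m + 1), P.coeff i * (yy z ^ i * ep z ^ (m - i))) :=
    BH.sum _ fun i _ => (BH.const _).mul ((BH_yy.pow i).mul (BH_ep.pow (m - i)))
  refine h.congr fun z hz => ?_
  rw [Polynomial.eval_eq_sum_range' (Nat.lt_succ_of_le hP), Finset.mul_sum]
  refine Finset.sum_congr rfl fun i hi => ?_
  have hi' : i ≤ m := by
    rw [Finset.mem_range] at hi; omega
  have he := ep_ne hz
  unfold TT
  have h2 : ep z ^ m = ep z ^ (m - i) * ep z ^ i := by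
    rw [← pow_add]; congr 1; omega
  rw [h2, div_pow]
  field_simp

theorem BH_Gpoly (P : Polynomial ℂ) (m : ℕ) :
    BH (fun z => GG z * (ep z)⁻¹ ^ m * P.eval (TT z)) := by
  have h := (BH_GG (m + P.natDegree)).mul (BH_poly P P.natDegree le_rfl)
  refine h.congr fun z hz => ?_
  have he := ep_ne hz
  rw [pow_add]
  have h2 : (ep z)⁻¹ ^ P.natDegree * ep z ^ P.natDegree = 1 := by
    rw [← mul_pow, inv_mul_cancel₀ he, one_pow]
  calc GG z * (ep z)⁻¹ ^ m * P.eval (TT z)
      = GG z * (ep z)⁻¹ ^ m * ((ep z)⁻¹ ^ P.natDegree * ep z ^ P.natDegree) * P.eval (TT z) := by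
        rw [h2, mul_one]
    _ = _ := by ring

/-- small numbers -/
noncomputable def eh (n : ℕ) : ℝ := Real.exp (-(2 * Real.pi * ((n : ℝ) + 1)))

theorem eh_pos (n : ℕ) : 0 < eh n := Real.exp_pos _

theorem eh_tendsto : Tendsto eh atTop (𝓝 0) := by
  unfold eh
  apply Real.tendsto_exp_neg_atTop_nhds_zero.comp
  apply Tendsto.const_mul_atTop (by positivity)
  exact tendsto_atTop_add_const_right _ _ tendsto_natCast_atTop_atTop

/-- parametrisation -/
noncomputable def zt (n : ℕ) (s : ℂ) : ℂ := 1 - Complex.exp (-(((n + 1 : ℕ) : ℂ) * (2 * Real.pi) + s))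

theorem zt_diff (n : ℕ) : Differentiable ℂ (zt n) := by
  unfold zt
  fun_prop

theorem im_bound {s : ℂ} (hs : s ∈ ball (0 : ℂ) 1) : |s.im| < 1 := by
  rw [mem_ball_zero_iff] at hs
  exact (Complex.abs_im_le_norm s).trans_lt hs

theorem re_bound {s : ℂ} (hs : s ∈ ball (0 : ℂ) 1) : |s.re| < 1 := by
  rw [mem_ball_zero_iff] at hs
  exact (Complex.abs_re_le_norm s).trans_lt hs

theorem zt_mem (n : ℕ) {s : ℂ} (hs : s ∈ ball (0 : ℂ) 1) : zt n s ∈ ball (0 : ℂ) 1 := by
  rw [mem_ball_zero_iff]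
  have him := im_bound hs
  have hre := re_bound hs
  set w : ℂ := -(((n + 1 : ℕ) : ℂ) * (2 * Real.pi) + s) with hw
  have hwre : w.re = -(((n : ℝ) + 1) * (2 * Real.pi) + s.re) := by
    rw [hw]
    have : (((n + 1 : ℕ) : ℂ) * (2 * Real.pi)) = ((((n : ℝ) + 1) * (2 * Real.pi) : ℝ) : ℂ) := by
      push_cast; ring
    rw [this, Complex.neg_re, Complex.add_re, Complex.ofReal_re]
  have hwim : w.im = - s.im := by
    rw [hw]
    have : (((n + 1 : ℕ) : ℂ) * (2 * Real.pi)) = ((((n : ℝ) + 1) * (2 * Real.pi) : ℝ) : ℂ) := by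
      push_cast; ring
    rw [this, Complex.neg_im, Complex.add_im, Complex.ofReal_im, zero_add]
  have hwneg : w.re < 0 := by
    rw [hwre]
    have h1 := (abs_lt.mp hre).1
    have h2 : (3 : ℝ) < Real.pi := Real.pi_gt_three
    have h3 : (0 : ℝ) ≤ n := Nat.cast_nonneg n
    nlinarith
  have hE : Real.exp w.re < 1 := by
    rw [Real.exp_lt_one_iff]; exact hwneg
  have hEp := Real.exp_pos w.re
  have hcos : 1 / 2 < Real.cos w.im := by
    rw [hwim, Real.cos_neg]
    have h1 := Real.one_sub_sq_div_two_le_cos (x := s.im)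
    have h2 : s.im ^ 2 < 1 := by
      rw [← sq_abs]
      have := abs_nonneg s.im
      nlinarith
    linarith
  have hsq : ‖1 - Complex.exp w‖ ^ 2 < 1 := by
    rw [← Complex.normSq_eq_norm_sq, Complex.normSq_apply]
    rw [Complex.sub_re, Complex.sub_im, Complex.one_re, Complex.one_im, Complex.exp_re,
      Complex.exp_im]
    have h3 := Real.sin_sq_add_cos_sq w.im
    have h4 : (1 - Real.exp w.re * Real.cos w.im) * (1 - Real.exp w.re * Real.cos w.im) +
        (0 - Real.exp w.re * Real.sin w.im) * (0 - Real.exp w.re * Real.sin w.im)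
        = 1 + Real.exp w.re * (Real.exp w.re - 2 * Real.cos w.im) := by
      have : (1 - Real.exp w.re * Real.cos w.im) * (1 - Real.exp w.re * Real.cos w.im) +
        (0 - Real.exp w.re * Real.sin w.im) * (0 - Real.exp w.re * Real.sin w.im)
        = 1 - 2 * (Real.exp w.re * Real.cos w.im) +
          Real.exp w.re ^ 2 * (Real.sin w.im ^ 2 + Real.cos w.im ^ 2) := by ring
      rw [this, h3]; ring
    rw [h4]
    have : Real.exp w.re * (Real.exp w.re - 2 * Real.cos w.im) < 0 :=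
      mul_neg_of_pos_of_neg hEp (by linarith)
    linarith
  have : zt n s = 1 - Complex.exp w := rfl
  rw [this]
  have h0 := norm_nonneg (1 - Complex.exp w)
  nlinarith

theorem log_zt (n : ℕ) {s : ℂ} (hs : s ∈ ball (0 : ℂ) 1) :
    Complex.exp (-s) * (eh n : ℂ) = 1 - zt n s ∧
      yy (zt n s) = Complex.sin s := by
  have him := im_bound hs
  set w : ℂ := -(((n + 1 : ℕ) : ℂ) * (2 * Real.pi) + s) with hw
  have hwim : w.im = - s.im := by
    rw [hw]
    have : (((n + 1 : ℕ) : ℂ) * (2 * Real.pi)) = ((((n : ℝ) + 1) * (2 * Real.pi) : ℝ) : ℂ) := by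
      push_cast; ring
    rw [this, Complex.neg_im, Complex.add_im, Complex.ofReal_im, zero_add]
  have h1 : 1 - zt n s = Complex.exp w := by
    unfold zt
    rw [← hw]; ring
  constructor
  · rw [h1, hw]
    unfold eh
    rw [Complex.ofReal_exp, ← Complex.exp_add]
    congr 1
    push_cast
    ring
  · unfold yy
    rw [h1]
    have h2 : (3 : ℝ) < Real.pi := Real.pi_gt_three
    have h3 := abs_lt.mp him
    rw [Complex.log_exp (by rw [hwim]; linarith) (by rw [hwim]; linarith), hw, Complex.sin_neg,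
      neg_neg, add_comm, Complex.sin_add_nat_mul_two_pi]

theorem ep_zt (n : ℕ) {s : ℂ} (hs : s ∈ ball (0 : ℂ) 1) :
    ep (zt n s) = Complex.exp (-s) * (eh n : ℂ) := by
  rw [(log_zt n hs).1]; rfl

/-- nodes -/
theorem node_exists (e : ℝ) (he : 0 < e) (j : ℕ) (hj : 2 * (j : ℝ) * e ≤ 1 / 2) :
    ∃ t ∈ Icc (0 : ℝ) (2 * j * e), Real.sin t = j * e * Real.exp (-t) := by
  have hj0 : (0 : ℝ) ≤ j := Nat.cast_nonneg j
  have hb : (0 : ℝ) ≤ 2 * j * e := by positivity
  have hc : ContinuousOn (fun t : ℝ => Real.sin t - j * e * Real.exp (-t)) (Icc 0 (2 * j * e)) := by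
    fun_prop
  have h0 : (fun t : ℝ => Real.sin t - j * e * Real.exp (-t)) 0 ≤ 0 := by
    simp
    positivity
  have h1 : 0 ≤ (fun t : ℝ => Real.sin t - j * e * Real.exp (-t)) (2 * j * e) := by
    simp only
    have h2 : 2 * (j : ℝ) * e ≤ Real.pi / 2 := by
      have := Real.pi_gt_three; linarith
    have h3 := Real.mul_le_sin hb h2
    have h4 : (1 : ℝ) / 2 ≤ 2 / Real.pi := by
      rw [div_le_div_iff₀ (by norm_num) Real.pi_pos]
      have := Real.pi_le_four; linarith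
    have h5 : Real.exp (-(2 * (j : ℝ) * e)) ≤ 1 := by
      rw [Real.exp_le_one_iff]; linarith
    have h6 : (j : ℝ) * e * Real.exp (-(2 * (j : ℝ) * e)) ≤ j * e :=
      mul_le_of_le_one_right (by positivity) h5
    have h7 : (1 : ℝ) / 2 * (2 * j * e) ≤ 2 / Real.pi * (2 * j * e) := by gcongr
    linarith
  obtain ⟨t, ht, hft⟩ := intermediate_value_Icc hb hc ⟨h0, h1⟩
  refine ⟨t, ht, ?_⟩
  have : Real.sin t - j * e * Real.exp (-t) = 0 := hft
  linarith

theorem TT_node {n : ℕ} {j : ℕ} {t : ℝ} (ht : (t : ℂ) ∈ ball (0 : ℂ) 1)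
    (h : Real.sin t = j * eh n * Real.exp (-t)) : TT (zt n t) = j := by
  unfold TT
  rw [(log_zt n ht).2, ep_zt n ht]
  have h1 : Complex.sin (t : ℂ) = ((j : ℝ) * eh n * Real.exp (-t) : ℝ) := by
    rw [← h, Complex.ofReal_sin]
  rw [h1]
  push_cast
  have h2 : Complex.exp (-(t : ℂ)) ≠ 0 := Complex.exp_ne_zero _
  have h3 : (eh n : ℂ) ≠ 0 := by
    exact_mod_cast (eh_pos n).ne'
  field_simp

end Pool.Agent.Helper269.HinfA
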