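import Mathlib

open Metric Set Filter Topology

namespace Pool.Agent.Helper269.HinfB

/-- disc involution -/
noncomputable def xx (b z : ℂ) : ℂ := (b - z) / (1 - b * z)

noncomputable def bt (k : ℕ) : ℝ := 1 - (1 / 4) ^ (k + 1)

theorem bt_lt (k : ℕ) : bt k < 1 := by
  unfold bt
  have : (0 : ℝ) < (1 / 4) ^ (k + 1) := by positivity
  linarith

theorem bt_pos (k : ℕ) : 0 < bt k := by
  unfold bt
  have : ((1 : ℝ) / 4) ^ (k + 1) < 1 := pow_lt_one₀ (by norm_num) (by norm_num) (by omega)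
  linarith

theorem bt_inj {k l : ℕ} (h : bt k = bt l) : k = l := by
  unfold bt at h
  have h1 : ((1 : ℝ) / 4) ^ (k + 1) = (1 / 4) ^ (l + 1) := by linarith
  have h2 := pow_right_injective₀ (a := (1 : ℝ) / 4) (by norm_num) (by norm_num) h1
  omega

theorem bt_mem (k : ℕ) : (bt k : ℂ) ∈ ball (0 : ℂ) 1 := by
  rw [mem_ball_zero_iff, Complex.norm_real, Real.norm_of_nonneg (bt_pos k).le]
  exact bt_lt k

theorem den_lower {b : ℝ} (hb0 : 0 ≤ b) (hb : b < 1) {z : ℂ} (_ : z ∈ ball (0 : ℂ) 1) :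
    1 - ‖z‖ ≤ ‖1 - (b : ℂ) * z‖ := by
  have h1 : ‖(b : ℂ) * z‖ ≤ ‖z‖ := by
    rw [norm_mul, Complex.norm_real, Real.norm_of_nonneg hb0]
    exact mul_le_of_le_one_left (norm_nonneg _) hb.le
  have h2 := norm_sub_norm_le (1 : ℂ) ((b : ℂ) * z)
  rw [norm_one] at h2
  linarith

theorem den_ne {b : ℝ} (hb0 : 0 ≤ b) (hb : b < 1) {z : ℂ} (hz : z ∈ ball (0 : ℂ) 1) :
    1 - (b : ℂ) * z ≠ 0 := by
  have h1 := den_lower hb0 hb hz
  rw [mem_ball_zero_iff] at hz
  intro h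
  rw [h, norm_zero] at h1
  linarith

theorem xx_norm {b : ℝ} (hb0 : 0 ≤ b) (hb : b < 1) {z : ℂ} (hz : z ∈ ball (0 : ℂ) 1) :
    xx b z ∈ ball (0 : ℂ) 1 := by
  have hd := den_ne hb0 hb hz
  rw [mem_ball_zero_iff] at hz ⊢
  unfold xx
  rw [norm_div, div_lt_one (norm_pos_iff.mpr hd)]
  have h1 : ‖(b : ℂ) - z‖ ^ 2 < ‖1 - (b : ℂ) * z‖ ^ 2 := by
    rw [← Complex.normSq_eq_norm_sq, ← Complex.normSq_eq_norm_sq, Complex.normSq_apply,
      Complex.normSq_apply]
    have h2 : ‖z‖ ^ 2 < 1 := by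
      have := norm_nonneg z
      nlinarith
    rw [← Complex.normSq_eq_norm_sq, Complex.normSq_apply] at h2
    simp only [Complex.sub_re, Complex.ofReal_re, Complex.sub_im, Complex.ofReal_im, Complex.one_re,
      Complex.mul_re, Complex.one_im, Complex.mul_im]
    have h3 : b ^ 2 < 1 := by nlinarith
    nlinarith [mul_pos (sub_pos.mpr h2) (sub_pos.mpr h3)]
  exact lt_of_pow_lt_pow_left₀ 2 (norm_nonneg _) h1

theorem xx_invol {b : ℝ} (hb0 : 0 ≤ b) (hb : b < 1) {z : ℂ} (hz : z ∈ ball (0 : ℂ) 1) :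
    xx b (xx b z) = z := by
  have hd := den_ne hb0 hb hz
  have hd2 := den_ne hb0 hb (xx_norm hb0 hb hz)
  unfold xx at hd2 ⊢
  have h3 : (1 : ℂ) - b ^ 2 ≠ 0 := by
    have : (1 : ℝ) - b ^ 2 ≠ 0 := by nlinarith
    exact_mod_cast this
  have h4 : 1 - (b : ℂ) * ((b - z) / (1 - b * z)) = (1 - b ^ 2) / (1 - b * z) := by
    field_simp
    ring
  have h5 : (b : ℂ) - (b - z) / (1 - b * z) = z * (1 - b ^ 2) / (1 - b * z) := by
    field_simp
    ring
  rw [h4, h5, div_div_div_cancel_right₀ hd, mul_div_assoc, div_self h3, mul_one]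

theorem xx_diff {b : ℝ} (hb0 : 0 ≤ b) (hb : b < 1) :
    DifferentiableOn ℂ (xx b) (ball 0 1) := by
  unfold xx
  apply DifferentiableOn.div
  · fun_prop
  · fun_prop
  · intro z hz; exact den_ne hb0 hb hz

theorem xx_sub_one {b : ℝ} (hb0 : 0 ≤ b) (hb : b < 1) {z : ℂ} (hz : z ∈ ball (0 : ℂ) 1) :
    ‖xx b z - 1‖ ≤ 2 * (1 - b) / (1 - ‖z‖) := by
  have hd := den_ne hb0 hb hz
  have hl := den_lower hb0 hb hz
  rw [mem_ball_zero_iff] at hz
  have h1 : xx b z - 1 = -((1 - b) * (1 + z)) / (1 - b * z) := by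
    unfold xx
    field_simp
    ring
  rw [h1, norm_div, norm_neg, norm_mul]
  have h2 : ‖(1 : ℂ) - b‖ = 1 - b := by
    have : (1 : ℂ) - b = ((1 - b : ℝ) : ℂ) := by push_cast; ring
    rw [this, Complex.norm_real, Real.norm_of_nonneg (by linarith)]
  have h3 : ‖1 + z‖ ≤ 2 := by
    have := norm_add_le (1 : ℂ) z
    rw [norm_one] at this
    linarith
  rw [h2]
  have h4 : (1 - b) * ‖1 + z‖ ≤ 2 * (1 - b) := by nlinarith
  have h5 : 0 < 1 - ‖z‖ := by linarith
  have h6 : 0 ≤ 2 * (1 - b) := by linarith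
  exact div_le_div₀ h6 h4 h5 hl

theorem pow_sub_one_norm {w : ℂ} (hw : ‖w‖ ≤ 1) (m : ℕ) : ‖w ^ m - 1‖ ≤ m * ‖w - 1‖ := by
  induction m with
  | zero => simp
  | succ m ih =>
    have h1 : w ^ (m + 1) - 1 = w * (w ^ m - 1) + (w - 1) := by ring
    rw [h1]
    calc ‖w * (w ^ m - 1) + (w - 1)‖ ≤ ‖w * (w ^ m - 1)‖ + ‖w - 1‖ := norm_add_le _ _
      _ ≤ 1 * (m * ‖w - 1‖) + ‖w - 1‖ := by
        rw [norm_mul]
        gcongr
      _ = ((m + 1 : ℕ) : ℝ) * ‖w - 1‖ := by push_cast; ring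

/-- factors -/
noncomputable def fac (e : ℕ → ℕ) (k : ℕ) (z : ℂ) : ℂ := xx (bt k) z ^ e k

theorem fac_bound {e : ℕ → ℕ} (he : ∀ k, e k ≤ k) {r : ℝ} (hr1 : r < 1) (k : ℕ) {z : ℂ}
    (hz : z ∈ ball (0 : ℂ) 1) (hzr : ‖z‖ ≤ r) :
    ‖fac e k z - 1‖ ≤ (k : ℝ) * (1 / 4) ^ k * (1 / (1 - r)) := by
  have h0 := xx_norm (bt_pos k).le (bt_lt k) hz
  rw [mem_ball_zero_iff] at h0
  have h1 := pow_sub_one_norm h0.le (e k)
  have h2 := xx_sub_one (bt_pos k).le (bt_lt k) hz
  have h3 : (e k : ℝ) ≤ k := by exact_mod_cast he k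
  have h4 : (1 : ℝ) - bt k = (1 / 4) ^ (k + 1) := by unfold bt; ring
  have h5 : 0 < 1 - r := by linarith
  have h6 : 2 * (1 - bt k) / (1 - ‖z‖) ≤ (1 / 4) ^ k * (1 / (1 - r)) := by
    rw [h4]
    have : 2 * ((1 : ℝ) / 4) ^ (k + 1) / (1 - ‖z‖) ≤ 2 * ((1 : ℝ) / 4) ^ (k + 1) / (1 - r) := by
      gcongr
    refine this.trans ?_
    rw [pow_succ]
    have h7 : (0 : ℝ) < (1 / 4) ^ k := by positivity
    rw [div_eq_mul_one_div]
    have h8 : 0 < 1 / (1 - r) := by positivity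
    nlinarith [mul_pos h7 h8]
  unfold fac
  calc ‖xx (bt k) z ^ e k - 1‖ ≤ e k * ‖xx (bt k) z - 1‖ := h1
    _ ≤ k * ((1 / 4) ^ k * (1 / (1 - r))) := by
      apply mul_le_mul h3 (h2.trans h6) (norm_nonneg _) (Nat.cast_nonneg _)
    _ = _ := by ring

theorem summable_aux (c : ℝ) : Summable (fun k : ℕ => (k : ℝ) * (1 / 4) ^ k * c) := by
  apply Summable.mul_right
  have := summable_pow_mul_geometric_of_norm_lt_one 1 (r := (1 / 4 : ℝ)) (by
    rw [Real.norm_of_nonneg (by norm_num)]; norm_num)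
  simpa using this

/-- the product -/
noncomputable def PP (e : ℕ → ℕ) (z : ℂ) : ℂ := ∏' k, fac e k z

theorem PP_summable {e : ℕ → ℕ} (he : ∀ k, e k ≤ k) {z : ℂ} (hz : z ∈ ball (0 : ℂ) 1) :
    Summable fun k => ‖fac e k z - 1‖ := by
  have hz' : ‖z‖ < 1 := by rwa [mem_ball_zero_iff] at hz
  exact Summable.of_nonneg_of_le (fun k => norm_nonneg _)
    (fun k => fac_bound he hz' k hz le_rfl) (summable_aux _)

theorem PP_multipliable {e : ℕ → ℕ} (he : ∀ k, e k ≤ k) {z : ℂ} (hz : z ∈ ball (0 : ℂ) 1) :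
    Multipliable fun k => fac e k z := by
  have := multipliable_one_add_of_summable (PP_summable he hz)
  simpa using this

theorem fac_diff (e : ℕ → ℕ) (k : ℕ) : DifferentiableOn ℂ (fac e k) (ball 0 1) :=
  (xx_diff (bt_pos k).le (bt_lt k)).pow _

theorem PP_diff {e : ℕ → ℕ} (he : ∀ k, e k ≤ k) : DifferentiableOn ℂ (PP e) (ball 0 1) := by
  intro z hz
  have hz' : ‖z‖ < 1 := by rwa [mem_ball_zero_iff] at hz
  obtain ⟨r, hr1, hr2⟩ := exists_between hz'
  have hr0 : 0 < r := lt_of_le_of_lt (norm_nonneg _) hr1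
  have hsub : ball (0 : ℂ) r ⊆ ball (0 : ℂ) 1 := ball_subset_ball hr2.le
  have h := Summable.hasProdLocallyUniformlyOn_nat_one_add
    (f := fun k (z : ℂ) => fac e k z - 1) (K := ball (0 : ℂ) r) isOpen_ball
    (summable_aux (1 / (1 - r)))
    (Eventually.of_forall fun k w hw => fac_bound he hr2 k (hsub hw)
      (by rw [mem_ball_zero_iff] at hw; exact hw.le))
    (fun k => (((fac_diff e k).mono hsub).sub (differentiableOn_const _)).continuousOn)
  have hd : DifferentiableOn ℂ (fun x => ∏' i, (1 + (fac e i x - 1))) (ball (0 : ℂ) r) := by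
    refine h.differentiableOn (Eventually.of_forall fun s => ?_) isOpen_ball
    simpa [Finset.prod_fn] using
      DifferentiableOn.finsetProd (fun i _ => (fac_diff e i).mono hsub)
  have h2 : (fun x => ∏' i, (1 + (fac e i x - 1))) = PP e := by
    funext x
    simp [PP]
  rw [h2] at hd
  exact (hd.differentiableAt (isOpen_ball.mem_nhds (by rwa [mem_ball_zero_iff]))).differentiableWithinAt

theorem fac_norm (e : ℕ → ℕ) (k : ℕ) {z : ℂ} (hz : z ∈ ball (0 : ℂ) 1) : ‖fac e k z‖ ≤ 1 := by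
  have h0 := xx_norm (bt_pos k).le (bt_lt k) hz
  rw [mem_ball_zero_iff] at h0
  unfold fac
  rw [norm_pow]
  exact pow_le_one₀ (norm_nonneg _) h0.le

theorem PP_norm {e : ℕ → ℕ} (he : ∀ k, e k ≤ k) {z : ℂ} (hz : z ∈ ball (0 : ℂ) 1) :
    ‖PP e z‖ ≤ 1 := by
  have h := (PP_multipliable he hz).hasProd
  have h2 := (continuous_norm.tendsto _).comp h
  refine le_of_tendsto h2 (Eventually.of_forall fun s => ?_)
  simp only [Function.comp]
  rw [norm_prod]
  exact Finset.prod_le_one (fun _ _ => norm_nonneg _) (fun i _ => fac_norm e i hz)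

theorem upd_le {e : ℕ → ℕ} (he : ∀ k, e k ≤ k) (k : ℕ) : ∀ l, Function.update e k 0 l ≤ l := by
  intro l
  by_cases h : l = k
  · subst h; simp
  · rw [Function.update_of_ne h]; exact he l

theorem PP_split {e : ℕ → ℕ} (he : ∀ k, e k ≤ k) (k : ℕ) {z : ℂ} (hz : z ∈ ball (0 : ℂ) 1) :
    PP e z = xx (bt k) z ^ e k * PP (Function.update e k 0) z := by
  have hupd : Function.update (fun l => fac e l z) k 1 = fun l => fac (Function.update e k 0) l z := by
    funext l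
    by_cases h : l = k
    · subst h; simp [fac]
    · rw [Function.update_of_ne h]
      unfold fac
      rw [Function.update_of_ne h]
  have hm : Multipliable (Function.update (fun l => fac e l z) k 1) := by
    rw [hupd]; exact PP_multipliable (upd_le he k) hz
  unfold PP
  rw [hm.tprod_eq_mul_tprod_ite' k]
  congr 1
  apply tprod_congr
  intro l
  by_cases h : l = k
  · subst h; simp [fac]
  · rw [if_neg h]
    unfold fac
    rw [Function.update_of_ne h]

theorem PP_ne {e : ℕ → ℕ} (he : ∀ k, e k ≤ k) (k : ℕ) (hk : e k = 0) : PP e (bt k) ≠ 0 := by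
  have hz := bt_mem k
  have h := tprod_one_add_ne_zero_of_summable (f := fun l => fac e l (bt k) - 1) (fun l => by
    simp only [add_sub_cancel]
    unfold fac
    by_cases h : l = k
    · subst h; rw [hk]; simp
    · apply pow_ne_zero
      unfold xx
      apply div_ne_zero
      · rw [sub_ne_zero]
        intro h2
        have h3 : bt l = bt k := by exact_mod_cast h2
        exact h (bt_inj h3)
      · exact den_ne (bt_pos l).le (bt_lt l) hz) (PP_summable he hz)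
  simpa [PP] using h

end Pool.Agent.Helper269.HinfB
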