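import Mathlib
import Pool.Agent.Helper269.HinfA

open Metric Set Filter Topology

namespace Pool.Agent.Helper269.HinfC

open Pool.Agent.Helper269.HinfA

theorem tsum_diff {E : Type*} [NormedAddCommGroup E] [NormedSpace ℂ E]
    {f : ℕ → E → ℂ} {v : ℕ → ℝ} (hv : Summable v)
    (hf : ∀ m, DifferentiableOn ℂ (f m) (ball 0 1))
    (hb : ∀ m, ∀ z ∈ ball (0 : E) 1, ‖f m z‖ ≤ v m) :
    DifferentiableOn ℂ (fun z => ∑' m, f m z) (ball 0 1) := by
  intro z hz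
  have hz' : ‖z‖ < 1 := by rwa [mem_ball_zero_iff] at hz
  obtain ⟨r, hr1, hr2⟩ := exists_between hz'
  have hr0 : 0 < r := lt_of_le_of_lt (norm_nonneg _) hr1
  have hsub : ball (0 : E) r ⊆ ball (0 : E) 1 := ball_subset_ball hr2.le
  have hv0 : ∀ m, 0 ≤ v m := fun m => (norm_nonneg _).trans (hb m 0 (by simp))
  have hder : ∀ m, ∀ w ∈ ball (0 : E) r, ‖fderiv ℂ (f m) w‖ ≤ 2 * v m / (1 - r) := by
    intro m w hw
    rw [mem_ball_zero_iff] at hw
    have hsub2 : ball w (1 - r) ⊆ ball (0 : E) 1 := by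
      intro y hy
      rw [mem_ball, dist_eq_norm] at hy
      rw [mem_ball_zero_iff]
      calc ‖y‖ = ‖(y - w) + w‖ := by rw [sub_add_cancel]
        _ ≤ ‖y - w‖ + ‖w‖ := norm_add_le _ _
        _ < 1 := by linarith
    have hw1 : w ∈ ball (0 : E) 1 := by rw [mem_ball_zero_iff]; linarith
    apply Complex.norm_fderiv_le_div_of_mapsTo_ball ((hf m).mono hsub2) _ (by linarith)
    intro y hy
    rw [mem_closedBall, dist_eq_norm]
    have h1 := hb m y (hsub2 hy)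
    have h2 := hb m w hw1
    have h3 := norm_sub_le (f m y) (f m w)
    linarith
  have hsum2 : Summable fun m => 2 * v m / (1 - r) := (hv.mul_left 2).div_const _
  have h := hasFDerivAt_tsum_of_isPreconnected (𝕜 := ℂ) (f := f) (f' := fun m w => fderiv ℂ (f m) w)
    (x := z) (x₀ := z)
    hsum2 (isOpen_ball (x := (0 : E)) (ε := r))
    ((convex_ball (0 : E) r).isPreconnected)
    (fun m w hw => ((hf m).differentiableAt (isOpen_ball.mem_nhds (hsub hw))).hasFDerivAt)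
    hder (by rwa [mem_ball_zero_iff])
    (Summable.of_norm_bounded hv fun m => hb m z hz) (by rwa [mem_ball_zero_iff])
  exact h.differentiableAt.differentiableWithinAt

/-- bounded holomorphic on the bidisc (unit ball of sup norm) -/
def B2 (f : ℂ × ℂ → ℂ) : Prop :=
  DifferentiableOn ℂ f (ball 0 1) ∧ ∃ C, ∀ z ∈ ball (0 : ℂ × ℂ) 1, ‖f z‖ ≤ C

theorem B2.add {f g : ℂ × ℂ → ℂ} (hf : B2 f) (hg : B2 g) : B2 (fun z => f z + g z) := by
  obtain ⟨h1, C1, h2⟩ := hf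
  obtain ⟨h3, C2, h4⟩ := hg
  exact ⟨h1.add h3, C1 + C2, fun z hz => (norm_add_le _ _).trans (add_le_add (h2 z hz) (h4 z hz))⟩

theorem B2.mul {f g : ℂ × ℂ → ℂ} (hf : B2 f) (hg : B2 g) : B2 (fun z => f z * g z) := by
  obtain ⟨h1, C1, h2⟩ := hf
  obtain ⟨h3, C2, h4⟩ := hg
  refine ⟨h1.mul h3, C1 * C2, fun z hz => ?_⟩
  rw [norm_mul]
  exact mul_le_mul (h2 z hz) (h4 z hz) (norm_nonneg _) ((norm_nonneg _).trans (h2 z hz))

theorem B2.const (c : ℂ) : B2 (fun _ => c) :=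
  ⟨differentiableOn_const c, ‖c‖, fun _ _ => le_rfl⟩

theorem B2.neg {f : ℂ × ℂ → ℂ} (hf : B2 f) : B2 (fun z => - f z) := by
  obtain ⟨h1, C1, h2⟩ := hf
  exact ⟨h1.neg, C1, fun z hz => by rw [norm_neg]; exact h2 z hz⟩

theorem B2.pow {f : ℂ × ℂ → ℂ} (hf : B2 f) (n : ℕ) : B2 (fun z => f z ^ n) := by
  induction n with
  | zero => simpa using B2.const 1
  | succ n ih => simpa [pow_succ] using ih.mul hf

theorem B2.sum {ι : Type*} (s : Finset ι) {f : ι → ℂ × ℂ → ℂ} (hf : ∀ i ∈ s, B2 (f i)) :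
    B2 (fun z => ∑ i ∈ s, f i z) := by
  classical
  induction s using Finset.induction_on with
  | empty => simpa using B2.const 0
  | insert a s ha ih =>
    simp only [Finset.sum_insert ha]
    exact (hf a (Finset.mem_insert_self _ _)).add
      (ih fun i hi => hf i (Finset.mem_insert_of_mem hi))

theorem fst_mem {z : ℂ × ℂ} (hz : z ∈ ball (0 : ℂ × ℂ) 1) : z.1 ∈ ball (0 : ℂ) 1 := by
  rw [mem_ball_zero_iff] at hz ⊢
  exact (norm_fst_le z).trans_lt hz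

theorem snd_mem {z : ℂ × ℂ} (hz : z ∈ ball (0 : ℂ × ℂ) 1) : z.2 ∈ ball (0 : ℂ) 1 := by
  rw [mem_ball_zero_iff] at hz ⊢
  exact (norm_snd_le z).trans_lt hz

theorem pair_mem {a b : ℂ} (ha : a ∈ ball (0 : ℂ) 1) (hb : b ∈ ball (0 : ℂ) 1) :
    (a, b) ∈ ball (0 : ℂ × ℂ) 1 := by
  rw [mem_ball_zero_iff] at *
  rw [Prod.norm_def]
  exact max_lt ha hb

theorem B2.fst {f : ℂ → ℂ} (hf : BH f) : B2 (fun z => f z.1) := by
  obtain ⟨h1, C, h2⟩ := hf
  exact ⟨h1.comp differentiableOn_fst fun z hz => fst_mem hz, C, fun z hz => h2 _ (fst_mem hz)⟩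

theorem B2.snd {f : ℂ → ℂ} (hf : BH f) : B2 (fun z => f z.2) := by
  obtain ⟨h1, C, h2⟩ := hf
  exact ⟨h1.comp differentiableOn_snd fun z hz => snd_mem hz, C, fun z hz => h2 _ (snd_mem hz)⟩

theorem B2.tsum {f : ℕ → ℂ × ℂ → ℂ} {v : ℕ → ℝ} (hv : Summable v)
    (hf : ∀ m, DifferentiableOn ℂ (f m) (ball 0 1))
    (hb : ∀ m, ∀ z ∈ ball (0 : ℂ × ℂ) 1, ‖f m z‖ ≤ v m) :
    B2 (fun z => ∑' m, f m z) :=
  ⟨tsum_diff hv hf hb, ∑' m, v m, fun z hz =>
    (norm_tsum_le_tsum_norm (Summable.of_nonneg_of_le (fun _ => norm_nonneg _)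
      (fun m => hb m z hz) hv)).trans
    (Summable.tsum_le_tsum (fun m => hb m z hz)
      (Summable.of_nonneg_of_le (fun _ => norm_nonneg _) (fun m => hb m z hz) hv) hv)⟩

end Pool.Agent.Helper269.HinfC
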