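import Mathlib

open Metric Set Filter Topology

namespace Pool.Agent.Helper269.HinfD

/-- dslope of a bounded holomorphic function -/
theorem dslope_bound {f : ℂ → ℂ} {M : ℝ} {a : ℂ}
    (hf : DifferentiableOn ℂ f (ball 0 1)) (hM : ∀ s ∈ ball (0 : ℂ) 1, ‖f s‖ ≤ M)
    (ha : ‖a‖ ≤ 1 / 2) :
    DifferentiableOn ℂ (dslope f a) (ball 0 1) ∧
      ∀ s ∈ ball (0 : ℂ) 1, ‖dslope f a s‖ ≤ 4 * M := by
  have ha' : a ∈ ball (0 : ℂ) 1 := by
    rw [mem_ball_zero_iff]; linarith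
  have hd : DifferentiableOn ℂ (dslope f a) (ball 0 1) :=
    (Complex.differentiableOn_dslope (isOpen_ball.mem_nhds ha')).mpr hf
  refine ⟨hd, ?_⟩
  intro s hs
  have hM0 : 0 ≤ M := le_trans (norm_nonneg _) (hM s hs)
  have hs1 : ‖s‖ < 1 := by rwa [mem_ball_zero_iff] at hs
  -- for each r with max ‖s‖ (3/4) < r < 1
  have key : ∀ r : ℝ, ‖s‖ < r → 3 / 4 < r → r < 1 → ‖dslope f a s‖ ≤ 2 * M / (r - 1 / 2) := by
    intro r hr1 hr2 hr3
    have hr0 : 0 < r := by linarith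
    have hb : Bornology.IsBounded (ball (0 : ℂ) r) := isBounded_ball
    have hsub : closure (ball (0 : ℂ) r) ⊆ ball (0 : ℂ) 1 := by
      rw [closure_ball (0 : ℂ) hr0.ne']
      exact closedBall_subset_ball hr3
    have hdc : DiffContOnCl ℂ (dslope f a) (ball (0 : ℂ) r) :=
      DifferentiableOn.diffContOnCl (hd.mono hsub)
    refine Complex.norm_le_of_forall_mem_frontier_norm_le hb hdc ?_ ?_
    · intro z hz
      rw [frontier_ball (0 : ℂ) hr0.ne'] at hz
      have hzr : ‖z‖ = r := by simpa using hz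
      have hza : r - 1 / 2 ≤ ‖z - a‖ := by
        have := norm_sub_norm_le z a
        linarith
      have hne : z ≠ a := by
        intro h
        rw [h, sub_self, norm_zero] at hza
        linarith
      have hz1 : z ∈ ball (0 : ℂ) 1 := by
        rw [mem_ball_zero_iff, hzr]; exact hr3
      rw [dslope_of_ne _ hne, slope_def_field, norm_div]
      have h1 : ‖f z - f a‖ ≤ 2 * M := by
        have := norm_sub_le (f z) (f a)
        have h2 := hM z hz1
        have h3 := hM a ha'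
        linarith
      have hpos : 0 < r - 1 / 2 := by linarith
      gcongr
    · apply subset_closure
      rw [mem_ball_zero_iff]; exact hr1
  -- let r → 1
  have hlim : Tendsto (fun r : ℝ => 2 * M / (r - 1 / 2)) (𝓝[<] 1) (𝓝 (2 * M / (1 - 1 / 2))) := by
    apply tendsto_nhdsWithin_of_tendsto_nhds
    apply Tendsto.div tendsto_const_nhds _ (by norm_num)
    exact (tendsto_id).sub tendsto_const_nhds
  have hev : ∀ᶠ r in 𝓝[<] (1 : ℝ), ‖dslope f a s‖ ≤ 2 * M / (r - 1 / 2) := by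
    have h1 : ∀ᶠ r in 𝓝[<] (1 : ℝ), ‖s‖ < r :=
      nhdsWithin_le_nhds (lt_mem_nhds hs1)
    have h2 : ∀ᶠ r in 𝓝[<] (1 : ℝ), 3 / 4 < r :=
      nhdsWithin_le_nhds (lt_mem_nhds (by norm_num))
    have h3 : ∀ᶠ r in 𝓝[<] (1 : ℝ), r < 1 := self_mem_nhdsWithin
    filter_upwards [h1, h2, h3] with r hr1 hr2 hr3 using key r hr1 hr2 hr3
  have := ge_of_tendsto hlim hev
  calc ‖dslope f a s‖ ≤ 2 * M / (1 - 1 / 2) := this
    _ = 4 * M := by ring

/-- Schwarz type bound for functions with several zeros -/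
theorem zeros_bound (j : ℕ) : ∀ (T : ℂ → ℂ) (M : ℝ) (a : ℕ → ℂ),
    DifferentiableOn ℂ T (ball 0 1) → (∀ s ∈ ball (0 : ℂ) 1, ‖T s‖ ≤ M) →
    (∀ i < j, ‖a i‖ ≤ 1 / 2) → (∀ i < j, T (a i) = 0) →
    (∀ i < j, ∀ i' < j, i ≠ i' → a i ≠ a i') →
    ∀ s ∈ ball (0 : ℂ) 1, ‖T s‖ ≤ M * 4 ^ j * ∏ i ∈ Finset.range j, ‖s - a i‖ := by
  induction j with
  | zero =>
    intro T M a hT hM _ _ _ s hs
    simpa using hM s hs
  | succ j ih =>
    intro T M a hT hM ha h0 hne s hs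
    obtain ⟨hd, hb⟩ := dslope_bound hT hM (ha j (Nat.lt_succ_self j))
    have h1 := ih (dslope T (a j)) (4 * M) a hd hb (fun i hi => ha i (Nat.lt_succ_of_lt hi))
      (fun i hi => by
        have hij : a i ≠ a j := hne i (Nat.lt_succ_of_lt hi) j (Nat.lt_succ_self j) hi.ne
        rw [dslope_of_ne _ hij, slope_def_field, h0 i (Nat.lt_succ_of_lt hi),
          h0 j (Nat.lt_succ_self j)]
        simp)
      (fun i hi i' hi' hii => hne i (Nat.lt_succ_of_lt hi) i' (Nat.lt_succ_of_lt hi') hii) s hs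
    have h2 : T s = (s - a j) * dslope T (a j) s := by
      have := sub_smul_dslope T (a j) s
      rw [smul_eq_mul, h0 j (Nat.lt_succ_self j), sub_zero] at this
      exact this.symm
    rw [h2, norm_mul, Finset.prod_range_succ]
    calc ‖s - a j‖ * ‖dslope T (a j) s‖
        ≤ ‖s - a j‖ * (4 * M * 4 ^ j * ∏ i ∈ Finset.range j, ‖s - a i‖) := by gcongr
      _ = M * 4 ^ (j + 1) * ((∏ i ∈ Finset.range j, ‖s - a i‖) * ‖s - a j‖) := by ring

/-- separately holomorphic bounded functions -/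
def Sep (φ : ℂ → ℂ → ℂ) (M : ℝ) : Prop :=
  (∀ s ∈ ball (0 : ℂ) 1, DifferentiableOn ℂ (fun x => φ s x) (ball 0 1)) ∧
  (∀ x ∈ ball (0 : ℂ) 1, DifferentiableOn ℂ (fun s => φ s x) (ball 0 1)) ∧
  ∀ s ∈ ball (0 : ℂ) 1, ∀ x ∈ ball (0 : ℂ) 1, ‖φ s x‖ ≤ M

theorem zero_mem : (0 : ℂ) ∈ ball (0 : ℂ) 1 := by simp

theorem Sep.slope {φ : ℂ → ℂ → ℂ} {M : ℝ} (h : Sep φ M) :
    Sep (fun s x => dslope (φ s) 0 x) (4 * M) := by
  obtain ⟨h1, h2, h3⟩ := h
  have hA : ∀ s ∈ ball (0 : ℂ) 1, DifferentiableOn ℂ (dslope (φ s) 0) (ball 0 1) ∧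
      ∀ x ∈ ball (0 : ℂ) 1, ‖dslope (φ s) 0 x‖ ≤ 4 * M := fun s hs =>
    dslope_bound (h1 s hs) (h3 s hs) (by simp)
  have hne : ∀ x ∈ ball (0 : ℂ) 1, x ≠ 0 →
      DifferentiableOn ℂ (fun s => dslope (φ s) 0 x) (ball 0 1) := by
    intro x hx hx0
    have : (fun s => dslope (φ s) 0 x) = fun s => (φ s x - φ s 0) / (x - 0) := by
      funext s
      rw [dslope_of_ne _ hx0, slope_def_field]
    rw [this]
    exact ((h2 x hx).sub (h2 0 zero_mem)).div_const _
  refine ⟨fun s hs => (hA s hs).1, ?_, fun s hs x hx => (hA s hs).2 x hx⟩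
  intro x hx
  by_cases hx0 : x = 0
  swap
  · exact hne x hx hx0
  subst hx0
  -- limit argument
  set xn : ℕ → ℂ := fun n => (1 / ((n : ℂ) + 2)) with hxn
  have hxn_norm : ∀ n : ℕ, ‖xn n‖ = 1 / ((n : ℝ) + 2) := by
    intro n
    simp only [hxn]
    rw [norm_div, norm_one]
    congr 1
    have : ((n : ℂ) + 2) = (((n : ℝ) + 2 : ℝ) : ℂ) := by push_cast; ring
    rw [this, Complex.norm_real, Real.norm_of_nonneg (by positivity)]
  have hxn_mem : ∀ n, xn n ∈ ball (0 : ℂ) 1 := by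
    intro n
    rw [mem_ball_zero_iff, hxn_norm, div_lt_one (by positivity)]
    have : (0 : ℝ) ≤ n := Nat.cast_nonneg n
    linarith
  have hxn_ne : ∀ n, xn n ≠ 0 := by
    intro n h0
    have := hxn_norm n
    rw [h0, norm_zero] at this
    have h4 : (0 : ℝ) < 1 / ((n : ℝ) + 2) := by positivity
    linarith
  have hunif : TendstoUniformlyOn (fun (n : ℕ) (s : ℂ) => dslope (φ s) 0 (xn n))
      (fun s => dslope (φ s) 0 0) atTop (ball (0 : ℂ) 1) := by
    rw [Metric.tendstoUniformlyOn_iff]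
    intro e he
    have hM0 : 0 ≤ M := le_trans (norm_nonneg _) (h3 0 zero_mem 0 zero_mem)
    have hlim : Tendsto (fun n : ℕ => 16 * M * (1 / ((n : ℝ) + 2))) atTop (𝓝 (16 * M * 0)) := by
      apply Tendsto.const_mul
      have := tendsto_one_div_add_atTop_nhds_zero_nat (𝕜 := ℝ)
      have h5 := this.comp (tendsto_add_atTop_nat 1)
      refine h5.congr ?_
      intro n
      simp only [Function.comp]
      push_cast
      congr 1
      ring
    rw [mul_zero] at hlim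
    filter_upwards [hlim.eventually (gt_mem_nhds he)] with n hn s hs
    rw [dist_eq_norm, ← norm_neg, neg_sub]
    obtain ⟨hd, hb⟩ := hA s hs
    obtain ⟨-, hb2⟩ := dslope_bound (a := 0) hd hb (by simp)
    have h6 := hb2 (xn n) (hxn_mem n)
    have h7 : dslope (φ s) 0 (xn n) - dslope (φ s) 0 0
        = (xn n - 0) * dslope (dslope (φ s) 0) 0 (xn n) := by
      have := sub_smul_dslope (dslope (φ s) 0) 0 (xn n)
      rw [smul_eq_mul] at this
      exact this.symm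
    rw [h7, norm_mul, sub_zero, hxn_norm]
    calc 1 / ((n : ℝ) + 2) * ‖dslope (dslope (φ s) 0) 0 (xn n)‖
        ≤ 1 / ((n : ℝ) + 2) * (4 * (4 * M)) := by gcongr
      _ = 16 * M * (1 / ((n : ℝ) + 2)) := by ring
      _ < e := hn
  exact hunif.tendstoLocallyUniformlyOn.differentiableOn
    (Eventually.of_forall fun n => hne (xn n) (hxn_mem n) (hxn_ne n)) isOpen_ball

/-- iterated slope in second variable -/
noncomputable def itS (φ : ℂ → ℂ → ℂ) : ℕ → ℂ → ℂ → ℂ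
  | 0 => φ
  | p + 1 => fun s x => dslope (itS φ p s) 0 x

theorem Sep.itS {φ : ℂ → ℂ → ℂ} {M : ℝ} (h : Sep φ M) (p : ℕ) : Sep (itS φ p) (4 ^ p * M) := by
  induction p with
  | zero => simpa [HinfD.itS] using h
  | succ p ih =>
    have := ih.slope
    have h2 : (4 : ℝ) ^ (p + 1) * M = 4 * (4 ^ p * M) := by ring
    rw [h2]
    exact this

theorem dslope_mul_id {f g : ℂ → ℂ} (hg : DifferentiableOn ℂ g (ball 0 1))
    (hfg : ∀ x ∈ ball (0 : ℂ) 1, f x = x * g x) :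
    ∀ x ∈ ball (0 : ℂ) 1, dslope f 0 x = g x := by
  intro x hx
  have hf0 : f 0 = 0 := by rw [hfg 0 zero_mem]; simp
  by_cases hx0 : x = 0
  · subst hx0
    rw [dslope_same]
    have hga : HasDerivAt g (deriv g 0) 0 :=
      (hg.differentiableAt (isOpen_ball.mem_nhds zero_mem)).hasDerivAt
    have h1 : HasDerivAt (fun x => x * g x) (1 * g 0 + 0 * deriv g 0) 0 :=
      (hasDerivAt_id (0 : ℂ)).mul hga
    have h2 : f =ᶠ[𝓝 0] fun x => x * g x :=
      Filter.eventually_of_mem (isOpen_ball.mem_nhds zero_mem) hfg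
    rw [h2.deriv_eq, h1.deriv]
    ring
  · rw [dslope_of_ne _ hx0, slope_def_field, hf0, hfg x hx]
    field_simp
    ring

theorem itS_of_pow {φ : ℂ → ℂ → ℂ} {s : ℂ} {q : ℂ → ℂ} {p : ℕ}
    (hq : DifferentiableOn ℂ q (ball 0 1))
    (h : ∀ x ∈ ball (0 : ℂ) 1, φ s x = x ^ p * q x) :
    ∀ i ≤ p, ∀ x ∈ ball (0 : ℂ) 1, itS φ i s x = x ^ (p - i) * q x := by
  intro i
  induction i with
  | zero => intro _ x hx; simpa [HinfD.itS] using h x hx
  | succ i ih =>
    intro hi x hx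
    have ih' := ih (by omega)
    have hd : DifferentiableOn ℂ (fun x => x ^ (p - (i + 1)) * q x) (ball 0 1) :=
      (differentiableOn_id.pow _).mul hq
    have := dslope_mul_id (f := itS φ i s) hd (fun y hy => by
      rw [ih' y hy]
      have h1 : p - i = (p - (i + 1)) + 1 := by omega
      rw [h1, pow_succ]; ring) x hx
    simpa [HinfD.itS] using this

/-- main estimate -/
theorem coeff_bound {φ : ℂ → ℂ → ℂ} {M : ℝ} (hφ : Sep φ M) {k j : ℕ} (hj : j ≤ k)
    {a : ℕ → ℂ} (ha : ∀ i ≤ j, ‖a i‖ ≤ 1 / 2)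
    (hne : ∀ i < j, ∀ i' < j, i ≠ i' → a i ≠ a i')
    {q : ℕ → ℂ → ℂ} (hq : ∀ i ≤ j, DifferentiableOn ℂ (q i) (ball 0 1))
    (h : ∀ i ≤ j, ∀ x ∈ ball (0 : ℂ) 1, φ (a i) x = x ^ (k - i) * q i x) :
    ‖q j 0‖ ≤ M * 4 ^ k * ∏ i ∈ Finset.range j, ‖a j - a i‖ := by
  have hS := hφ.itS (k - j)
  have hball : ∀ i ≤ j, a i ∈ ball (0 : ℂ) 1 := by
    intro i hi
    rw [mem_ball_zero_iff]
    linarith [ha i hi]
  have h1 := zeros_bound j (fun s => itS φ (k - j) s 0) (4 ^ (k - j) * M) a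
    (hS.2.1 0 zero_mem) (fun s hs => hS.2.2 s hs 0 zero_mem)
    (fun i hi => ha i hi.le)
    (fun i hi => by
      have := itS_of_pow (hq i hi.le) (h i hi.le) (k - j) (by omega) 0 zero_mem
      simp only [this]
      rw [zero_pow (by omega), zero_mul])
    hne (a j) (hball j le_rfl)
  have h2 := itS_of_pow (hq j le_rfl) (h j le_rfl) (k - j) le_rfl 0 zero_mem
  simp only [h2, Nat.sub_self, pow_zero, one_mul] at h1
  calc ‖q j 0‖ ≤ 4 ^ (k - j) * M * 4 ^ j * ∏ i ∈ Finset.range j, ‖a j - a i‖ := h1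
    _ = M * 4 ^ k * ∏ i ∈ Finset.range j, ‖a j - a i‖ := by
      have : (4 : ℝ) ^ k = 4 ^ (k - j) * 4 ^ j := by
        rw [← pow_add]; congr 1; omega
      rw [this]; ring

end Pool.Agent.Helper269.HinfD
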