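import Mathlib
import Pool.Agent.Helper269.HinfA
import Pool.Agent.Helper269.HinfB
import Pool.Agent.Helper269.HinfC
import Pool.Agent.Helper269.HinfD

open Metric Set Filter Topology

namespace Pool.Agent.Helper269.HinfF

open Polynomial
open Pool.Agent.Helper269.HinfA Pool.Agent.Helper269.HinfB Pool.Agent.Helper269.HinfC

noncomputable def dP (k : ℕ) : ℂ[X] := Lagrange.nodal (Finset.range k) (fun i : ℕ => (i : ℂ))

noncomputable def eP (k j : ℕ) : ℂ[X] := Lagrange.basis (Finset.range k) (fun i : ℕ => (i : ℂ)) j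

theorem injOn' (k : ℕ) : Set.InjOn (fun i : ℕ => (i : ℂ)) (Finset.range k) :=
  Nat.cast_injective.injOn

theorem dP_natDegree (k : ℕ) : (dP k).natDegree = k := by
  simp [dP, Lagrange.natDegree_nodal]

theorem eP_natDegree {k j : ℕ} (hj : j < k) : (eP k j).natDegree ≤ k - 1 := by
  rw [eP, Lagrange.natDegree_basis (injOn' k) (Finset.mem_range.mpr hj)]
  simp

theorem eP_self {k j : ℕ} (hj : j < k) : (eP k j).eval (j : ℂ) = 1 :=
  Lagrange.eval_basis_self (injOn' k) (Finset.mem_range.mpr hj)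

theorem eP_ne {k i j : ℕ} (hij : i ≠ j) (hj : j < k) : (eP k i).eval (j : ℂ) = 0 :=
  Lagrange.eval_basis_of_ne (v := fun i : ℕ => (i : ℂ)) hij (Finset.mem_range.mpr hj)

theorem dP_node {k j : ℕ} (hj : j < k) : (dP k).eval (j : ℂ) = 0 :=
  Lagrange.eval_nodal_at_node (v := fun i : ℕ => (i : ℂ)) (Finset.mem_range.mpr hj)

theorem dP_eval_self (k : ℕ) : (dP k).eval (k : ℂ) ≠ 0 := by
  apply Lagrange.eval_nodal_not_at_node
  intro i hi h
  rw [Finset.mem_range] at hi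
  have : k = i := by exact_mod_cast h
  omega

theorem dvd_of_zero {k : ℕ} {P : ℂ[X]} (h : ∀ i < k, P.eval (i : ℂ) = 0) : dP k ∣ P := by
  unfold dP
  rw [Lagrange.nodal_eq]
  apply Finset.prod_dvd_of_coprime
  · intro i _ j _ hij
    exact pairwise_coprime_X_sub_C (s := fun i : ℕ => (i : ℂ)) Nat.cast_injective hij
  · intro i hi
    rw [dvd_iff_isRoot]
    exact h i (Finset.mem_range.mp hi)

theorem rP_exists {k i j : ℕ} (hi : i < k) (hj : j < k) :
    ∃ r : ℂ[X], eP k i * eP k j = (if i = j then eP k j else 0) + dP k * r := by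
  have h : dP k ∣ eP k i * eP k j - (if i = j then eP k j else 0) := by
    apply dvd_of_zero
    intro b hb
    by_cases hij : i = j
    · subst hij
      rw [if_pos rfl]
      by_cases hib : i = b
      · subst hib
        rw [eval_sub, eval_mul, eP_self hi]; ring
      · rw [eval_sub, eval_mul, eP_ne hib hb]; ring
    · rw [if_neg hij, eval_sub, eval_mul, eval_zero]
      by_cases hib : i = b
      · subst hib
        rw [eP_ne (Ne.symm hij) hb]; ring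
      · rw [eP_ne hib hb]; ring
  obtain ⟨r, hr⟩ := h
  exact ⟨r, by rw [← hr]; ring⟩

theorem interp {k : ℕ} {P : ℂ[X]} (hP : P.natDegree < k) :
    P = ∑ j ∈ Finset.range k, C (P.eval (j : ℂ)) * eP k j := by
  have h := Lagrange.eq_interpolate (f := P) (injOn' k) (by
    rw [Finset.card_range]
    exact lt_of_le_of_lt degree_le_natDegree (by exact_mod_cast hP))
  conv_lhs => rw [h]
  rw [Lagrange.interpolate_apply]
  rfl

/-- first family -/
noncomputable def Nn (m : ℕ) (z : ℂ × ℂ) : ℂ := ep z.1 ^ m * (dP m).eval (TT z.1)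

/-- second family -/
noncomputable def Ww (m : ℕ) (z : ℂ × ℂ) : ℂ :=
  ∑ j ∈ Finset.range m, xx (bt m) z.2 ^ (m - j) * (ep z.1 ^ (m - 1) * (eP m j).eval (TT z.1))

theorem BH_xx (k : ℕ) : BH (fun z => xx (bt k) z) :=
  ⟨xx_diff (bt_pos k).le (bt_lt k), 1, fun z hz => by
    have := xx_norm (bt_pos k).le (bt_lt k) hz
    rw [mem_ball_zero_iff] at this
    exact this.le⟩

theorem B2_xx (k : ℕ) : B2 (fun z => xx (bt k) z.2) := B2.snd (BH_xx k)

theorem B2_Nn (m : ℕ) : B2 (Nn m) := B2.fst (BH_poly (dP m) m (dP_natDegree m).le)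

theorem B2_Ww (m : ℕ) : B2 (Ww m) := by
  apply B2.sum
  intro j hj
  exact ((B2_xx m).pow _).mul (B2.fst (BH_poly (eP m j) (m - 1) (eP_natDegree (Finset.mem_range.mp hj))))

theorem bd_exists (m : ℕ) : ∃ C : ℝ, 0 < C ∧ ∀ z ∈ ball (0 : ℂ × ℂ) 1, ‖Nn m z‖ ≤ C ∧ ‖Ww m z‖ ≤ C := by
  obtain ⟨-, C1, h1⟩ := B2_Nn m
  obtain ⟨-, C2, h2⟩ := B2_Ww m
  refine ⟨max 1 (max C1 C2), by positivity, fun z hz => ⟨?_, ?_⟩⟩
  · exact (h1 z hz).trans ((le_max_left _ _).trans (le_max_right _ _))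
  · exact (h2 z hz).trans ((le_max_right _ _).trans (le_max_right _ _))

noncomputable def bd (m : ℕ) : ℝ := (bd_exists m).choose

theorem bd_pos (m : ℕ) : 0 < bd m := (bd_exists m).choose_spec.1

theorem bd_Nn (m : ℕ) {z : ℂ × ℂ} (hz : z ∈ ball (0 : ℂ × ℂ) 1) : ‖Nn m z‖ ≤ bd m :=
  ((bd_exists m).choose_spec.2 z hz).1

theorem bd_Ww (m : ℕ) {z : ℂ × ℂ} (hz : z ∈ ball (0 : ℂ × ℂ) 1) : ‖Ww m z‖ ≤ bd m :=
  ((bd_exists m).choose_spec.2 z hz).2

noncomputable def lam (m : ℕ) : ℝ := (1 / 2) ^ m / bd m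

theorem lam_pos (m : ℕ) : 0 < lam m := by
  unfold lam
  have := bd_pos m
  positivity

theorem lam_ne (m : ℕ) : (lam m : ℂ) ≠ 0 := by exact_mod_cast (lam_pos m).ne'

/-- series -/
noncomputable def SS (g : ℕ → ℂ → ℂ) (V : ℕ → ℂ × ℂ → ℂ) (z : ℂ × ℂ) : ℂ :=
  ∑' m, (lam m : ℂ) * g m z.2 * V m z

theorem term_bound {g : ℕ → ℂ → ℂ} {V : ℕ → ℂ × ℂ → ℂ}
    (hg1 : ∀ m, ∀ w ∈ ball (0 : ℂ) 1, ‖g m w‖ ≤ 1)
    (hVb : ∀ m, ∀ z ∈ ball (0 : ℂ × ℂ) 1, ‖V m z‖ ≤ bd m) (m : ℕ) {z : ℂ × ℂ}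
    (hz : z ∈ ball (0 : ℂ × ℂ) 1) : ‖(lam m : ℂ) * g m z.2 * V m z‖ ≤ (1 / 2) ^ m := by
  rw [norm_mul, norm_mul, Complex.norm_real, Real.norm_of_nonneg (lam_pos m).le]
  have h1 := hg1 m z.2 (snd_mem hz)
  have h2 := hVb m z hz
  have h3 := lam_pos m
  have hb := bd_pos m
  calc lam m * ‖g m z.2‖ * ‖V m z‖ ≤ lam m * 1 * bd m := by gcongr
    _ = (1 / 2) ^ m := by unfold lam; field_simp

theorem half_summable : Summable fun m : ℕ => (1 / 2 : ℝ) ^ m :=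
  summable_geometric_of_lt_one (by norm_num) (by norm_num)

theorem B2_SS {g : ℕ → ℂ → ℂ} {V : ℕ → ℂ × ℂ → ℂ}
    (hg : ∀ m, DifferentiableOn ℂ (g m) (ball 0 1))
    (hg1 : ∀ m, ∀ w ∈ ball (0 : ℂ) 1, ‖g m w‖ ≤ 1) (hV : ∀ m, B2 (V m))
    (hVb : ∀ m, ∀ z ∈ ball (0 : ℂ × ℂ) 1, ‖V m z‖ ≤ bd m) : B2 (SS g V) := by
  apply B2.tsum half_summable
  · intro m
    exact (((B2.const (lam m : ℂ)).mul (B2.snd ⟨hg m, 1, hg1 m⟩)).mul (hV m)).1
  · intro m z hz
    exact term_bound hg1 hVb m hz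

theorem id_le : ∀ k : ℕ, (id : ℕ → ℕ) k ≤ k := fun _ => le_rfl

/-- one variable products -/
noncomputable def uu (k : ℕ) : ℂ → ℂ := PP (Function.update id k 0)

noncomputable def u2 (k m : ℕ) : ℂ → ℂ :=
  if m = k then fun _ => 0 else PP (Function.update (Function.update id m 0) k 0)

theorem BH_uu (k : ℕ) : BH (uu k) := ⟨PP_diff (upd_le id_le k), 1, fun _ hz => PP_norm (upd_le id_le k) hz⟩

theorem uu_norm (k : ℕ) : ∀ w ∈ ball (0 : ℂ) 1, ‖uu k w‖ ≤ 1 := fun _ hz => PP_norm (upd_le id_le k) hz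

theorem u2_diff (k m : ℕ) : DifferentiableOn ℂ (u2 k m) (ball 0 1) := by
  unfold u2
  split_ifs
  · exact differentiableOn_const _
  · exact PP_diff (upd_le (upd_le id_le m) k)

theorem u2_norm (k m : ℕ) : ∀ w ∈ ball (0 : ℂ) 1, ‖u2 k m w‖ ≤ 1 := by
  intro w hw
  unfold u2
  split_ifs
  · simp
  · exact PP_norm (upd_le (upd_le id_le m) k) hw

noncomputable def F1 (z : ℂ × ℂ) : ℂ := PP id z.2
noncomputable def F2 : ℂ × ℂ → ℂ := SS uu Nn
noncomputable def F3 : ℂ × ℂ → ℂ := SS uu Ww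
noncomputable def E2 (k : ℕ) : ℂ × ℂ → ℂ := SS (u2 k) Nn
noncomputable def E3 (k : ℕ) : ℂ × ℂ → ℂ := SS (u2 k) Ww

theorem B2_F1 : B2 F1 := B2.snd ⟨PP_diff id_le, 1, fun _ hz => PP_norm id_le hz⟩
theorem B2_F2 : B2 F2 := B2_SS (fun m => (BH_uu m).1) uu_norm B2_Nn (fun m _ hz => bd_Nn m hz)
theorem B2_F3 : B2 F3 := B2_SS (fun m => (BH_uu m).1) uu_norm B2_Ww (fun m _ hz => bd_Ww m hz)
theorem B2_E2 (k : ℕ) : B2 (E2 k) := B2_SS (u2_diff k) (u2_norm k) B2_Nn (fun m _ hz => bd_Nn m hz)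
theorem B2_E3 (k : ℕ) : B2 (E3 k) := B2_SS (u2_diff k) (u2_norm k) B2_Ww (fun m _ hz => bd_Ww m hz)

theorem F1_eq (k : ℕ) {z : ℂ × ℂ} (hz : z ∈ ball (0 : ℂ × ℂ) 1) :
    F1 z = xx (bt k) z.2 ^ k * uu k z.2 := PP_split id_le k (snd_mem hz)

theorem SS_split (k : ℕ) {V : ℕ → ℂ × ℂ → ℂ}
    (hVb : ∀ m, ∀ z ∈ ball (0 : ℂ × ℂ) 1, ‖V m z‖ ≤ bd m) {z : ℂ × ℂ}
    (hz : z ∈ ball (0 : ℂ × ℂ) 1) :
    SS uu V z = (lam k : ℂ) * uu k z.2 * V k z + xx (bt k) z.2 ^ k * SS (u2 k) V z := by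
  have hs : Summable fun m => (lam m : ℂ) * uu m z.2 * V m z :=
    Summable.of_norm_bounded half_summable fun m => term_bound uu_norm hVb m hz
  unfold SS
  rw [hs.tsum_eq_add_tsum_ite k, ← tsum_mul_left]
  congr 1
  apply tsum_congr
  intro m
  by_cases h : m = k
  · subst h
    simp [u2]
  · rw [if_neg h]
    unfold u2
    rw [if_neg h]
    have := PP_split (upd_le id_le m) k (snd_mem hz)
    rw [Function.update_of_ne (Ne.symm h)] at this
    simp only [id] at this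
    unfold uu
    rw [this]
    ring

theorem F2_eq (k : ℕ) {z : ℂ × ℂ} (hz : z ∈ ball (0 : ℂ × ℂ) 1) :
    F2 z = (lam k : ℂ) * uu k z.2 * Nn k z + xx (bt k) z.2 ^ k * E2 k z :=
  SS_split k (fun m _ hz => bd_Nn m hz) hz

theorem F3_eq (k : ℕ) {z : ℂ × ℂ} (hz : z ∈ ball (0 : ℂ × ℂ) 1) :
    F3 z = (lam k : ℂ) * uu k z.2 * Ww k z + xx (bt k) z.2 ^ k * E3 k z :=
  SS_split k (fun m _ hz => bd_Ww m hz) hz

/-- membership in the ideal generated by the three functions -/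
def InI (f : ℂ × ℂ → ℂ) : Prop :=
  ∃ a1 a2 a3 : ℂ × ℂ → ℂ, B2 a1 ∧ B2 a2 ∧ B2 a3 ∧
    ∀ z ∈ ball (0 : ℂ × ℂ) 1, f z = a1 z * F1 z + a2 z * F2 z + a3 z * F3 z

theorem InI.congr {f g : ℂ × ℂ → ℂ} (hf : InI f) (h : ∀ z ∈ ball (0 : ℂ × ℂ) 1, g z = f z) :
    InI g := by
  obtain ⟨a1, a2, a3, h1, h2, h3, h4⟩ := hf
  exact ⟨a1, a2, a3, h1, h2, h3, fun z hz => by rw [h z hz, h4 z hz]⟩

theorem InI.add {f g : ℂ × ℂ → ℂ} (hf : InI f) (hg : InI g) : InI (fun z => f z + g z) := by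
  obtain ⟨a1, a2, a3, h1, h2, h3, h4⟩ := hf
  obtain ⟨b1, b2, b3, g1, g2, g3, g4⟩ := hg
  exact ⟨_, _, _, h1.add g1, h2.add g2, h3.add g3, fun z hz => by
    change f z + g z = _
    rw [h4 z hz, g4 z hz]; ring⟩

theorem InI.mul {f g : ℂ × ℂ → ℂ} (hf : InI f) (hg : B2 g) : InI (fun z => g z * f z) := by
  obtain ⟨a1, a2, a3, h1, h2, h3, h4⟩ := hf
  exact ⟨_, _, _, hg.mul h1, hg.mul h2, hg.mul h3, fun z hz => by
    change g z * f z = _
    rw [h4 z hz]; ring⟩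

theorem InI.zero : InI (fun _ => 0) :=
  ⟨_, _, _, B2.const 0, B2.const 0, B2.const 0, fun z _ => by ring⟩

theorem InI.sum {ι : Type*} (s : Finset ι) {f : ι → ℂ × ℂ → ℂ} (hf : ∀ i ∈ s, InI (f i)) :
    InI (fun z => ∑ i ∈ s, f i z) := by
  classical
  induction s using Finset.induction_on with
  | empty => simpa using InI.zero
  | insert a s ha ih =>
    simp only [Finset.sum_insert ha]
    exact (hf a (Finset.mem_insert_self _ _)).add
      (ih fun i hi => hf i (Finset.mem_insert_of_mem hi))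

theorem InI_A (k : ℕ) : InI (fun z => uu k z.2 ^ 2 * xx (bt k) z.2 ^ k) :=
  ⟨_, _, _, B2.snd (BH_uu k), B2.const 0, B2.const 0, fun z hz => by
    rw [F1_eq k hz]; ring⟩

theorem InI_N (k : ℕ) : InI (fun z => uu k z.2 ^ 2 * Nn k z) := by
  refine ⟨_, _, _, (B2.const (-(lam k : ℂ)⁻¹)).mul (B2_E2 k),
    (B2.const ((lam k : ℂ)⁻¹)).mul (B2.snd (BH_uu k)), B2.const 0, fun z hz => ?_⟩
  rw [F1_eq k hz, F2_eq k hz]
  have := lam_ne k
  field_simp
  ring

theorem InI_W (k : ℕ) : InI (fun z => uu k z.2 ^ 2 * Ww k z) := by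
  refine ⟨_, _, _, (B2.const (-(lam k : ℂ)⁻¹)).mul (B2_E3 k), B2.const 0,
    (B2.const ((lam k : ℂ)⁻¹)).mul (B2.snd (BH_uu k)), fun z hz => ?_⟩
  rw [F1_eq k hz, F3_eq k hz]
  have := lam_ne k
  field_simp
  ring

/-- the elements with Lagrange polynomials -/
theorem InI_e {k j : ℕ} (hj : j < k) :
    InI (fun z => GG z.1 * uu k z.2 ^ 2 * xx (bt k) z.2 ^ (k - j) * (eP k j).eval (TT z.1)) := by
  have hr : ∀ i : ℕ, ∃ r : ℂ[X], i < k → eP k i * eP k j = (if i = j then eP k j else 0) + dP k * r := by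
    intro i
    by_cases hi : i < k
    · obtain ⟨r, hr⟩ := rP_exists hi hj
      exact ⟨r, fun _ => hr⟩
    · exact ⟨0, fun h => absurd h hi⟩
  choose r hr using hr
  have hA : B2 (fun z => GG z.1 * (ep z.1)⁻¹ ^ (k - 1) * (eP k j).eval (TT z.1)) :=
    B2.fst (BH_Gpoly (eP k j) (k - 1))
  have hB : B2 (fun z => - ∑ i ∈ Finset.range k, xx (bt k) z.2 ^ (k - i) *
      (GG z.1 * (ep z.1)⁻¹ ^ k * (r i).eval (TT z.1))) :=
    (B2.sum _ fun i _ => ((B2_xx k).pow (k - i)).mul (B2.fst (BH_Gpoly (r i) k))).neg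
  refine (((InI_W k).mul hA).add ((InI_N k).mul hB)).congr ?_
  intro z hz
  have he := ep_ne (fst_mem hz)
  set T := TT z.1 with hT
  set x := xx (bt k) z.2 with hx
  set G := GG z.1 with hG
  set u := uu k z.2 with hu
  set e := ep z.1 with hee
  have h1 : e⁻¹ ^ (k - 1) * e ^ (k - 1) = 1 := by
    rw [← mul_pow, inv_mul_cancel₀ he, one_pow]
  have h2 : e⁻¹ ^ k * e ^ k = 1 := by
    rw [← mul_pow, inv_mul_cancel₀ he, one_pow]
  have hW : (GG z.1 * (ep z.1)⁻¹ ^ (k - 1) * (eP k j).eval (TT z.1)) * (uu k z.2 ^ 2 * Ww k z)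
      = G * u ^ 2 * ∑ i ∈ Finset.range k, x ^ (k - i) * ((eP k i * eP k j).eval T) := by
    unfold Ww
    rw [← hT, ← hG, ← hx, ← hu, ← hee]
    rw [Finset.mul_sum, Finset.mul_sum, Finset.mul_sum]
    refine Finset.sum_congr rfl fun i _ => ?_
    rw [eval_mul]
    calc G * e⁻¹ ^ (k - 1) * eval T (eP k j) * (u ^ 2 * (x ^ (k - i) * (e ^ (k - 1) * eval T (eP k i))))
        = (e⁻¹ ^ (k - 1) * e ^ (k - 1)) * (G * u ^ 2 * (x ^ (k - i) * (eval T (eP k i) * eval T (eP k j)))) := by ring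
      _ = _ := by rw [h1, one_mul]
  have hN : (- ∑ i ∈ Finset.range k, xx (bt k) z.2 ^ (k - i) *
      (GG z.1 * (ep z.1)⁻¹ ^ k * (r i).eval (TT z.1))) * (uu k z.2 ^ 2 * Nn k z)
      = - (G * u ^ 2 * ∑ i ∈ Finset.range k, x ^ (k - i) * ((dP k * r i).eval T)) := by
    unfold Nn
    rw [← hT, ← hG, ← hx, ← hu, ← hee]
    rw [neg_mul, neg_inj, Finset.sum_mul, Finset.mul_sum]
    refine Finset.sum_congr rfl fun i _ => ?_
    rw [eval_mul]
    calc x ^ (k - i) * (G * e⁻¹ ^ k * eval T (r i)) * (u ^ 2 * (e ^ k * eval T (dP k)))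
        = (e⁻¹ ^ k * e ^ k) * (G * u ^ 2 * (x ^ (k - i) * (eval T (dP k) * eval T (r i)))) := by ring
      _ = _ := by rw [h2, one_mul]
  rw [hW, hN]
  have hS : ∑ i ∈ Finset.range k, x ^ (k - i) * ((eP k i * eP k j).eval T)
      = x ^ (k - j) * (eP k j).eval T + ∑ i ∈ Finset.range k, x ^ (k - i) * ((dP k * r i).eval T) := by
    have h3 : ∀ i ∈ Finset.range k, x ^ (k - i) * ((eP k i * eP k j).eval T)
        = (if i = j then x ^ (k - j) * (eP k j).eval T else 0) + x ^ (k - i) * ((dP k * r i).eval T) := by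
      intro i hi
      rw [hr i (Finset.mem_range.mp hi), eval_add, mul_add]
      congr 1
      by_cases hij : i = j
      · subst hij; simp
      · simp [hij]
    rw [Finset.sum_congr rfl h3, Finset.sum_add_distrib, Finset.sum_ite_eq' (Finset.range k) j,
      if_pos (Finset.mem_range.mpr hj)]
  rw [hS]
  ring

/-- the test elements -/
noncomputable def ff (k l : ℕ) (z : ℂ × ℂ) : ℂ := uu k z.2 ^ 2 * xx (bt k) z.2 ^ l * Nn (k - l) z

theorem B2_ff (k l : ℕ) : B2 (ff k l) :=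
  (((B2.snd (BH_uu k)).pow 2).mul ((B2_xx k).pow l)).mul (B2_Nn (k - l))

theorem InI_ff {k l : ℕ} (hl : l ≤ k) : InI (fun z => GG z.1 * ff k l z) := by
  have hGG : B2 (fun z => GG z.1) := by
    have := BH_GG 0
    simp only [pow_zero, mul_one] at this
    exact B2.fst this
  rcases Nat.eq_zero_or_pos l with h0 | h0
  · subst h0
    refine ((InI_N k).mul hGG).congr fun z _ => ?_
    unfold ff
    simp
  · have hd : (dP (k - l)).natDegree < k := by
      rw [dP_natDegree]; omega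
    have hI := interp hd
    have hsum : InI (fun z => ∑ j ∈ Finset.range k,
        (((dP (k - l)).eval (j : ℂ)) * xx (bt k) z.2 ^ (l - (k - j)) * ep z.1 ^ (k - l)) *
        (GG z.1 * uu k z.2 ^ 2 * xx (bt k) z.2 ^ (k - j) * (eP k j).eval (TT z.1))) :=
      InI.sum _ fun j hj => (InI_e (Finset.mem_range.mp hj)).mul
        (((B2.const _).mul ((B2_xx k).pow _)).mul ((B2.fst BH_ep).pow _))
    refine hsum.congr fun z _ => ?_
    unfold ff Nn
    have h1 : (dP (k - l)).eval (TT z.1)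
        = ∑ j ∈ Finset.range k, (dP (k - l)).eval (j : ℂ) * (eP k j).eval (TT z.1) := by
      conv_lhs => rw [hI]
      rw [eval_finsetSum]
      refine Finset.sum_congr rfl fun j _ => ?_
      rw [eval_mul, eval_C]
    rw [h1, Finset.mul_sum, Finset.mul_sum, Finset.mul_sum]
    refine Finset.sum_congr rfl fun j hj => ?_
    rw [Finset.mem_range] at hj
    by_cases hjl : j < k - l
    · rw [dP_node hjl]; ring
    · have h2 : xx (bt k) z.2 ^ l = xx (bt k) z.2 ^ (l - (k - j)) * xx (bt k) z.2 ^ (k - j) := by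
        rw [← pow_add]; congr 1; omega
      rw [h2]; ring

end Pool.Agent.Helper269.HinfF
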