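import Mathlib
import Pool.Agent.Helper269.HinfF

open Metric Set Filter Topology

namespace Pool.Agent.Helper269.HinfG

open Polynomial
open Pool.Agent.Helper269.HinfA Pool.Agent.Helper269.HinfB Pool.Agent.Helper269.HinfC
  Pool.Agent.Helper269.HinfD Pool.Agent.Helper269.HinfF

theorem line_diff {f : ℂ × ℂ → ℂ} (hf : B2 f) (k : ℕ) {ζ : ℂ} (hζ : ζ ∈ ball (0 : ℂ) 1) :
    DifferentiableOn ℂ (fun x => f (ζ, xx (bt k) x)) (ball 0 1) := by
  have h1 : DifferentiableOn ℂ (fun x : ℂ => ((ζ, xx (bt k) x) : ℂ × ℂ)) (ball 0 1) :=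
    (differentiableOn_const _).prodMk (xx_diff (bt_pos k).le (bt_lt k))
  exact hf.1.comp h1 fun x hx => pair_mem hζ (xx_norm (bt_pos k).le (bt_lt k) hx)

theorem constraint {c : ℂ × ℂ → ℂ} (hc : InI (fun z => GG z.1 * c z)) (hcB : B2 c) {k j : ℕ}
    (hj : j ≤ k) {ζ : ℂ} (hζ : ζ ∈ ball (0 : ℂ) 1) (hT : TT ζ = j) :
    ∃ q : ℂ → ℂ, DifferentiableOn ℂ q (ball 0 1) ∧
      ∀ x ∈ ball (0 : ℂ) 1, c (ζ, xx (bt k) x) = x ^ (k - j) * q x := by
  rcases hj.eq_or_lt with h | h
  · subst h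
    refine ⟨fun x => c (ζ, xx (bt j) x), line_diff hcB j hζ, fun x _ => by simp⟩
  · obtain ⟨a1, a2, a3, h1, h2, h3, h4⟩ := hc
    have huB : B2 (fun z : ℂ × ℂ => uu k z.2) := B2.snd (BH_uu k)
    have hd := line_diff h1 k hζ
    have hd2 := line_diff h2 k hζ
    have hd3 := line_diff h3 k hζ
    have hdu := line_diff huB k hζ
    have hdE2 := line_diff (B2_E2 k) k hζ
    have hdE3 := line_diff (B2_E3 k) k hζ
    refine ⟨fun x => (GG ζ)⁻¹ * (a1 (ζ, xx (bt k) x) * (x ^ j * uu k (xx (bt k) x))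
      + a2 (ζ, xx (bt k) x) * (x ^ j * E2 k (ζ, xx (bt k) x))
      + a3 (ζ, xx (bt k) x) * ((lam k : ℂ) * uu k (xx (bt k) x) * ep ζ ^ (k - 1)
        + x ^ j * E3 k (ζ, xx (bt k) x))), ?_, ?_⟩
    · have hpow : DifferentiableOn ℂ (fun x : ℂ => x ^ j) (ball 0 1) := by fun_prop
      exact (differentiableOn_const _).mul (((hd.mul (hpow.mul hdu)).add
        (hd2.mul (hpow.mul hdE2))).add
        (hd3.mul ((((differentiableOn_const _).mul hdu).mul (differentiableOn_const _)).add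
          (hpow.mul hdE3))))
    · intro x hx
      have hb := xx_norm (bt_pos k).le (bt_lt k) hx
      have hz : (ζ, xx (bt k) x) ∈ ball (0 : ℂ × ℂ) 1 := pair_mem hζ hb
      have hinv : xx (bt k) (xx (bt k) x) = x := xx_invol (bt_pos k).le (bt_lt k) hx
      have hmain := h4 _ hz
      rw [F1_eq k hz, F2_eq k hz, F3_eq k hz] at hmain
      simp only [hinv] at hmain
      have hN : Nn k (ζ, xx (bt k) x) = 0 := by
        unfold Nn
        simp only [hT]
        rw [dP_node h, mul_zero]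
      have hW : Ww k (ζ, xx (bt k) x) = x ^ (k - j) * ep ζ ^ (k - 1) := by
        unfold Ww
        simp only [hT, hinv]
        rw [Finset.sum_eq_single j]
        · rw [eP_self h]; ring
        · intro i _ hij
          rw [eP_ne hij h]; ring
        · intro hn
          exact absurd (Finset.mem_range.mpr h) hn
      rw [hN, hW] at hmain
      have hG := GG_ne ζ
      have hxk : x ^ k = x ^ (k - j) * x ^ j := by
        rw [← pow_add]; congr 1; omega
      rw [hxk] at hmain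
      have : c (ζ, xx (bt k) x) = (GG ζ)⁻¹ * (GG ζ * c (ζ, xx (bt k) x)) := by
        rw [← mul_assoc, inv_mul_cancel₀ hG, one_mul]
      rw [this, hmain]
      ring

theorem sep_c {c : ℂ × ℂ → ℂ} (hc : DifferentiableOn ℂ c (ball 0 1)) {M : ℝ}
    (hM : ∀ z ∈ ball (0 : ℂ × ℂ) 1, ‖c z‖ ≤ M) (n k : ℕ) :
    Sep (fun s x => c (zt n s, xx (bt k) x)) M := by
  refine ⟨fun s hs => ?_, fun x hx => ?_, fun s hs x hx => ?_⟩
  · exact line_diff ⟨hc, M, hM⟩ k (zt_mem n hs)
  · have h1 : DifferentiableOn ℂ (fun s : ℂ => ((zt n s, xx (bt k) x) : ℂ × ℂ)) (ball 0 1) :=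
      ((zt_diff n).differentiableOn).prodMk (differentiableOn_const _)
    exact hc.comp h1 fun s hs => pair_mem (zt_mem n hs) (xx_norm (bt_pos k).le (bt_lt k) hx)
  · exact hM _ (pair_mem (zt_mem n hs) (xx_norm (bt_pos k).le (bt_lt k) hx))

/-- cancellation of powers and evaluation at 0 -/
theorem cancel_pow {f g : ℂ → ℂ} {p : ℕ} (hf : DifferentiableOn ℂ f (ball 0 1))
    (hg : DifferentiableOn ℂ g (ball 0 1))
    (h : ∀ x ∈ ball (0 : ℂ) 1, x ^ p * f x = x ^ p * g x) : f 0 = g 0 := by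
  have h0 : (0 : ℂ) ∈ ball (0 : ℂ) 1 := by simp
  have hcf : ContinuousAt f 0 := hf.continuousOn.continuousAt (isOpen_ball.mem_nhds h0)
  have hcg : ContinuousAt g 0 := hg.continuousOn.continuousAt (isOpen_ball.mem_nhds h0)
  have h1 : Tendsto f (𝓝[≠] 0) (𝓝 (f 0)) := hcf.tendsto.mono_left nhdsWithin_le_nhds
  have h2 : Tendsto g (𝓝[≠] 0) (𝓝 (g 0)) := hcg.tendsto.mono_left nhdsWithin_le_nhds
  have h3 : f =ᶠ[𝓝[≠] 0] g := by
    have h4 : ∀ᶠ x in 𝓝[≠] (0 : ℂ), x ∈ ball (0 : ℂ) 1 :=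
      nhdsWithin_le_nhds (isOpen_ball.mem_nhds h0)
    have h5 : ∀ᶠ x in 𝓝[≠] (0 : ℂ), x ≠ 0 := self_mem_nhdsWithin
    filter_upwards [h4, h5] with x hx hx0
    exact mul_left_cancel₀ (pow_ne_zero p hx0) (h x hx)
  exact tendsto_nhds_unique (h1.congr' h3) h2

theorem bounded_limit {a : ℕ → ℂ} {M : ℝ} (ha : ∀ᶠ n in atTop, ‖a n‖ ≤ M) :
    ∃ L : ℂ, Tendsto a (Filter.hyperfilter ℕ : Filter ℕ) (𝓝 L) := by
  have hle : (Filter.hyperfilter ℕ : Filter ℕ) ≤ atTop := by
    rw [← Nat.cofinite_eq_atTop]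
    exact Filter.hyperfilter_le_cofinite
  have h1 : (↑((Filter.hyperfilter ℕ).map a) : Filter ℂ) ≤ 𝓟 (closedBall (0 : ℂ) M) := by
    rw [le_principal_iff]
    change a ⁻¹' (closedBall (0 : ℂ) M) ∈ (Filter.hyperfilter ℕ : Filter ℕ)
    apply hle
    filter_upwards [ha] with n hn
    simpa using hn
  obtain ⟨L, -, hL⟩ := (isCompact_closedBall (0 : ℂ) M).ultrafilter_le_nhds _ h1
  exact ⟨L, hL⟩

theorem core (k : ℕ) (c : Fin k → ℂ × ℂ → ℂ) (hcB : ∀ m, B2 (c m))
    (hcI : ∀ m, InI (fun z => GG z.1 * c m z))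
    (h : ℕ → Fin k → ℂ × ℂ → ℂ) (hB : ∀ l ≤ k, ∀ m, B2 (h l m))
    (hf : ∀ l ≤ k, ∀ z ∈ ball (0 : ℂ × ℂ) 1, ff k l z = ∑ m, h l m z * c m z) : False := by
  have hle : (Filter.hyperfilter ℕ : Filter ℕ) ≤ atTop := by
    rw [← Nat.cofinite_eq_atTop]
    exact Filter.hyperfilter_le_cofinite
  -- good n
  have hgood : ∀ᶠ n in atTop, 2 * (k : ℝ) * eh n ≤ 1 / 2 := by
    have h1 : Tendsto (fun n => 2 * (k : ℝ) * eh n) atTop (𝓝 (2 * (k : ℝ) * 0)) :=
      eh_tendsto.const_mul _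
    rw [mul_zero] at h1
    filter_upwards [h1.eventually (gt_mem_nhds (show (0 : ℝ) < 1 / 2 by norm_num))] with n hn
      using le_of_lt hn
  -- nodes
  have hnode : ∀ n j : ℕ, ∃ t : ℝ, 2 * (j : ℝ) * eh n ≤ 1 / 2 →
      t ∈ Icc (0 : ℝ) (2 * j * eh n) ∧ Real.sin t = j * eh n * Real.exp (-t) := by
    intro n j
    by_cases hh : 2 * (j : ℝ) * eh n ≤ 1 / 2
    · obtain ⟨t, ht, ht2⟩ := node_exists (eh n) (eh_pos n) j hh
      exact ⟨t, fun _ => ⟨ht, ht2⟩⟩
    · exact ⟨0, fun h => absurd h hh⟩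
  choose t ht using hnode
  have hsmall : ∀ n j : ℕ, 2 * (k : ℝ) * eh n ≤ 1 / 2 → j ≤ k → 2 * (j : ℝ) * eh n ≤ 1 / 2 := by
    intro n j hn hj
    have h1 : (j : ℝ) ≤ k := by exact_mod_cast hj
    have h2 := eh_pos n
    have h3 : (j : ℝ) * eh n ≤ k * eh n := by gcongr
    linarith
  have htb : ∀ n j : ℕ, 2 * (k : ℝ) * eh n ≤ 1 / 2 → j ≤ k → ‖((t n j : ℝ) : ℂ)‖ ≤ 2 * k * eh n := by
    intro n j hn hj
    have h1 := (ht n j (hsmall n j hn hj)).1
    rw [Complex.norm_real, Real.norm_of_nonneg h1.1]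
    have h2 : (j : ℝ) ≤ k := by exact_mod_cast hj
    have h3 := eh_pos n
    have h4 : (j : ℝ) * eh n ≤ k * eh n := by gcongr
    linarith [h1.2]
  have htball : ∀ n j : ℕ, 2 * (k : ℝ) * eh n ≤ 1 / 2 → j ≤ k →
      ((t n j : ℝ) : ℂ) ∈ ball (0 : ℂ) 1 := by
    intro n j hn hj
    rw [mem_ball_zero_iff]
    linarith [htb n j hn hj]
  have hTT : ∀ n j : ℕ, 2 * (k : ℝ) * eh n ≤ 1 / 2 → j ≤ k → TT (zt n (t n j)) = j := by
    intro n j hn hj
    exact TT_node (htball n j hn hj) (ht n j (hsmall n j hn hj)).2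
  -- the quotient functions
  have hq : ∀ (n : ℕ) (m : Fin k) (j : ℕ), ∃ q : ℂ → ℂ, 2 * (k : ℝ) * eh n ≤ 1 / 2 → j ≤ k →
      DifferentiableOn ℂ q (ball 0 1) ∧
      ∀ x ∈ ball (0 : ℂ) 1, c m (zt n (t n j), xx (bt k) x) = x ^ (k - j) * q x := by
    intro n m j
    by_cases hh : 2 * (k : ℝ) * eh n ≤ 1 / 2 ∧ j ≤ k
    · obtain ⟨q, hq1, hq2⟩ := constraint (hcI m) (hcB m) hh.2 (zt_mem n (htball n j hh.1 hh.2))
        (hTT n j hh.1 hh.2)
      exact ⟨q, fun _ _ => ⟨hq1, hq2⟩⟩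
    · exact ⟨0, fun h1 h2 => absurd ⟨h1, h2⟩ hh⟩
  choose q hq using hq
  -- bound
  have hqb : ∀ (m : Fin k) (j : ℕ), j ≤ k → ∃ M : ℝ, ∀ᶠ n in atTop,
      ‖q n m j 0 / (eh n : ℂ) ^ j‖ ≤ M := by
    intro m j hj
    obtain ⟨hc1, M, hM⟩ := hcB m
    refine ⟨M * 4 ^ k * (4 * k) ^ j, ?_⟩
    filter_upwards [hgood] with n hn
    have hM0 : 0 ≤ M := (norm_nonneg _).trans (hM 0 (by simp))
    have hcb := coeff_bound (sep_c hc1 hM n k) hj (a := fun i => ((t n i : ℝ) : ℂ))
      (fun i hi => (htb n i hn (hi.trans hj)).trans hn)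
      (fun i hi i' hi' hne heq => by
        apply hne
        have h1 := hTT n i hn (by omega)
        have h2 := hTT n i' hn (by omega)
        rw [heq, h2] at h1
        exact_mod_cast h1.symm)
      (q := fun i => q n m i)
      (fun i hi => (hq n m i hn (hi.trans hj)).1)
      (fun i hi => (hq n m i hn (hi.trans hj)).2)
    have hprod : ∏ i ∈ Finset.range j, ‖((t n j : ℝ) : ℂ) - ((t n i : ℝ) : ℂ)‖ ≤ (4 * k * eh n) ^ j := by
      have : ∏ i ∈ Finset.range j, ‖((t n j : ℝ) : ℂ) - ((t n i : ℝ) : ℂ)‖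
          ≤ ∏ _i ∈ Finset.range j, (4 * k * eh n) := by
        apply Finset.prod_le_prod
        · intro i _; exact norm_nonneg _
        · intro i hi
          rw [Finset.mem_range] at hi
          have h1 := htb n j hn hj
          have h2 := htb n i hn (by omega)
          have h3 := norm_sub_le ((t n j : ℝ) : ℂ) ((t n i : ℝ) : ℂ)
          linarith
      simpa using this
    rw [norm_div, norm_pow, Complex.norm_real, Real.norm_of_nonneg (eh_pos n).le,
      div_le_iff₀ (pow_pos (eh_pos n) j)]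
    calc ‖q n m j 0‖ ≤ M * 4 ^ k * ∏ i ∈ Finset.range j, ‖((t n j : ℝ) : ℂ) - ((t n i : ℝ) : ℂ)‖ := hcb
      _ ≤ M * 4 ^ k * (4 * k * eh n) ^ j := by gcongr
      _ = M * 4 ^ k * (4 * k) ^ j * eh n ^ j := by rw [mul_pow (4 * (k : ℝ))]; ring
  -- limits of q
  have hA : ∀ (j : ℕ) (m : Fin k), ∃ L : ℂ, j ≤ k →
      Tendsto (fun n => q n m j 0 / (eh n : ℂ) ^ j) (Filter.hyperfilter ℕ : Filter ℕ) (𝓝 L) := by
    intro j m
    by_cases hj : j ≤ k
    · obtain ⟨M, hM⟩ := hqb m j hj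
      obtain ⟨L, hL⟩ := bounded_limit hM
      exact ⟨L, fun _ => hL⟩
    · exact ⟨0, fun h => absurd h hj⟩
  choose A hA using hA
  have h0mem : (0 : ℂ) ∈ ball (0 : ℂ) 1 := by simp
  have hx0 : xx (bt k) 0 = bt k := by simp [xx]
  -- limits of h
  have hH : ∀ (l : ℕ) (m : Fin k), ∃ L : ℂ, l ≤ k →
      Tendsto (fun n => h l m (zt n 0, (bt k : ℂ))) (Filter.hyperfilter ℕ : Filter ℕ) (𝓝 L) := by
    intro l m
    by_cases hl : l ≤ k
    · obtain ⟨-, M, hM⟩ := hB l hl m
      obtain ⟨L, hL⟩ := bounded_limit (a := fun n => h l m (zt n 0, (bt k : ℂ))) (M := M)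
        (Eventually.of_forall fun n => hM _ (pair_mem (zt_mem n h0mem) (bt_mem k)))
      exact ⟨L, fun _ => hL⟩
    · exact ⟨0, fun h => absurd h hl⟩
  choose H hH using hH
  have hehH : Tendsto eh (Filter.hyperfilter ℕ : Filter ℕ) (𝓝 0) := eh_tendsto.mono_left hle
  have hgoodH : ∀ᶠ n in (Filter.hyperfilter ℕ : Filter ℕ), 2 * (k : ℝ) * eh n ≤ 1 / 2 := hle hgood
  -- t → 0
  have htlim : ∀ j ≤ k, Tendsto (fun n => ((t n j : ℝ) : ℂ)) (Filter.hyperfilter ℕ : Filter ℕ) (𝓝 0) := by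
    intro j hj
    have h1 : Tendsto (fun n => 2 * (k : ℝ) * eh n) (Filter.hyperfilter ℕ : Filter ℕ) (𝓝 0) := by
      have := hehH.const_mul (2 * (k : ℝ))
      rwa [mul_zero] at this
    refine squeeze_zero_norm' ?_ h1
    filter_upwards [hgoodH] with n hn
    exact htb n j hn hj
  have hHt : ∀ l ≤ k, ∀ (m : Fin k), ∀ j ≤ k,
      Tendsto (fun n => h l m (zt n (t n j), (bt k : ℂ))) (Filter.hyperfilter ℕ : Filter ℕ)
        (𝓝 (H l m)) := by
    intro l hl m j hj
    obtain ⟨hc1, M, hM⟩ := hB l hl m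
    have hM0 : 0 ≤ M := (norm_nonneg _).trans (hM 0 (by simp))
    have hdiff : Tendsto (fun n => h l m (zt n (t n j), (bt k : ℂ)) - h l m (zt n 0, (bt k : ℂ)))
        (Filter.hyperfilter ℕ : Filter ℕ) (𝓝 0) := by
      have h1 : Tendsto (fun n => 4 * M * (2 * (k : ℝ) * eh n)) (Filter.hyperfilter ℕ : Filter ℕ)
          (𝓝 0) := by
        have := (hehH.const_mul (2 * (k : ℝ))).const_mul (4 * M)
        rwa [mul_zero, mul_zero] at this
      refine squeeze_zero_norm' ?_ h1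
      filter_upwards [hgoodH] with n hn
      have hd : DifferentiableOn ℂ (fun s => h l m (zt n s, (bt k : ℂ))) (ball 0 1) := by
        have h2 : DifferentiableOn ℂ (fun s : ℂ => ((zt n s, (bt k : ℂ)) : ℂ × ℂ)) (ball 0 1) :=
          ((zt_diff n).differentiableOn).prodMk (differentiableOn_const _)
        exact hc1.comp h2 fun s hs => pair_mem (zt_mem n hs) (bt_mem k)
      obtain ⟨-, hb⟩ := dslope_bound (a := 0) hd
        (fun s hs => hM _ (pair_mem (zt_mem n hs) (bt_mem k))) (by simp)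
      have h3 := sub_smul_dslope (fun s => h l m (zt n s, (bt k : ℂ))) 0 ((t n j : ℝ) : ℂ)
      rw [smul_eq_mul] at h3
      rw [← h3, norm_mul, sub_zero]
      have h4 := hb _ (htball n j hn hj)
      have h5 := htb n j hn hj
      calc ‖((t n j : ℝ) : ℂ)‖ * ‖dslope (fun s => h l m (zt n s, (bt k : ℂ))) 0 ((t n j : ℝ) : ℂ)‖
          ≤ (2 * k * eh n) * (4 * M) := by
            apply mul_le_mul h5 h4 (norm_nonneg _)
            have := eh_pos n
            positivity
        _ = 4 * M * (2 * (k : ℝ) * eh n) := by ring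
    have := hdiff.add (hH l m hl)
    simpa using this
  -- the identity
  have hid : ∀ l ≤ k, ∀ j ≤ k, ∀ n, 2 * (k : ℝ) * eh n ≤ 1 / 2 →
      ∑ m, h l m (zt n (t n j), (bt k : ℂ)) * (q n m j 0 / (eh n : ℂ) ^ j) =
        if l = k - j then uu k (bt k) ^ 2 * (Complex.exp (-((t n j : ℝ) : ℂ)) ^ j * (dP j).eval (j : ℂ))
        else 0 := by
    intro l hl j hj n hn
    set ζ := zt n (t n j) with hζ
    have hζm : ζ ∈ ball (0 : ℂ) 1 := zt_mem n (htball n j hn hj)
    have hTζ : TT ζ = j := hTT n j hn hj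
    have hdf : DifferentiableOn ℂ (fun x => ∑ m, h l m (ζ, xx (bt k) x) * q n m j x) (ball 0 1) := by
      apply DifferentiableOn.fun_sum
      intro m _
      exact (line_diff (hB l hl m) k hζm).mul (hq n m j hn hj).1
    have hlhs : ∀ x ∈ ball (0 : ℂ) 1, x ^ (k - j) * (∑ m, h l m (ζ, xx (bt k) x) * q n m j x)
        = ff k l (ζ, xx (bt k) x) := by
      intro x hx
      have hz : (ζ, xx (bt k) x) ∈ ball (0 : ℂ × ℂ) 1 :=
        pair_mem hζm (xx_norm (bt_pos k).le (bt_lt k) hx)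
      rw [hf l hl _ hz, Finset.mul_sum]
      refine Finset.sum_congr rfl fun m _ => ?_
      rw [(hq n m j hn hj).2 x hx]
      ring
    have hff : ∀ x ∈ ball (0 : ℂ) 1, ff k l (ζ, xx (bt k) x) =
        uu k (xx (bt k) x) ^ 2 * x ^ l * (ep ζ ^ (k - l) * (dP (k - l)).eval (j : ℂ)) := by
      intro x hx
      unfold ff Nn
      simp only [xx_invol (bt_pos k).le (bt_lt k) hx, hTζ]
    have heh : (eh n : ℂ) ≠ 0 := by exact_mod_cast (eh_pos n).ne'
    have hval : ∑ m, h l m (ζ, (bt k : ℂ)) * q n m j 0 =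
        if l = k - j then uu k (bt k) ^ 2 * (ep ζ ^ j * (dP j).eval (j : ℂ)) else 0 := by
      by_cases hlj : l < k - j
      · -- zero
        have h1 : ∀ x ∈ ball (0 : ℂ) 1, x ^ (k - j) * (∑ m, h l m (ζ, xx (bt k) x) * q n m j x)
            = x ^ (k - j) * (fun _ => (0 : ℂ)) x := by
          intro x hx
          rw [hlhs x hx, hff x hx, dP_node (show j < k - l by omega)]
          ring
        have h2 := cancel_pow hdf (differentiableOn_const (0 : ℂ)) h1
        simp only [hx0] at h2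
        rw [if_neg (by omega)]
        exact h2
      · have h1 : ∀ x ∈ ball (0 : ℂ) 1, x ^ (k - j) * (∑ m, h l m (ζ, xx (bt k) x) * q n m j x)
            = x ^ (k - j) * (fun x => uu k (xx (bt k) x) ^ 2 * x ^ (l - (k - j)) *
              (ep ζ ^ (k - l) * (dP (k - l)).eval (j : ℂ))) x := by
          intro x hx
          rw [hlhs x hx, hff x hx]
          have : x ^ l = x ^ (k - j) * x ^ (l - (k - j)) := by
            rw [← pow_add]; congr 1; omega
          rw [this]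
          ring
        have hd2 : DifferentiableOn ℂ (fun x => uu k (xx (bt k) x) ^ 2 * x ^ (l - (k - j)) *
              (ep ζ ^ (k - l) * (dP (k - l)).eval (j : ℂ))) (ball 0 1) := by
          have hu := line_diff (B2.snd (BH_uu k)) k hζm
          have hpow : DifferentiableOn ℂ (fun x : ℂ => x ^ (l - (k - j))) (ball 0 1) := by fun_prop
          exact ((hu.pow 2).mul hpow).mul (differentiableOn_const _)
        have h2 := cancel_pow hdf hd2 h1
        simp only [hx0] at h2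
        rw [h2]
        by_cases hll : l = k - j
        · rw [if_pos hll]
          have h3 : k - l = j := by omega
          rw [h3, hll]
          simp
        · rw [if_neg hll, zero_pow (by omega)]
          ring
    have hdiv : ∑ m, h l m (ζ, (bt k : ℂ)) * (q n m j 0 / (eh n : ℂ) ^ j)
        = (∑ m, h l m (ζ, (bt k : ℂ)) * q n m j 0) / (eh n : ℂ) ^ j := by
      rw [Finset.sum_div]
      refine Finset.sum_congr rfl fun m _ => ?_
      ring
    rw [hdiv, hval]
    by_cases hll : l = k - j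
    · rw [if_pos hll, if_pos hll, hζ, ep_zt n (htball n j hn hj), mul_pow]
      field_simp
    · rw [if_neg hll, if_neg hll, zero_div]
  -- limit identity
  have hlim : ∀ l ≤ k, ∀ j ≤ k, ∑ m, H l m * A j m =
      if l = k - j then uu k (bt k) ^ 2 * (dP j).eval (j : ℂ) else 0 := by
    intro l hl j hj
    have h1 : Tendsto (fun n => ∑ m, h l m (zt n (t n j), (bt k : ℂ)) * (q n m j 0 / (eh n : ℂ) ^ j))
        (Filter.hyperfilter ℕ : Filter ℕ) (𝓝 (∑ m, H l m * A j m)) :=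
      tendsto_finsetSum _ fun m _ => (hHt l hl m j hj).mul (hA j m hj)
    have h2 : Tendsto (fun n => if l = k - j then uu k (bt k) ^ 2 *
        (Complex.exp (-((t n j : ℝ) : ℂ)) ^ j * (dP j).eval (j : ℂ)) else 0)
        (Filter.hyperfilter ℕ : Filter ℕ)
        (𝓝 (if l = k - j then uu k (bt k) ^ 2 * (dP j).eval (j : ℂ) else 0)) := by
      by_cases hll : l = k - j
      · simp only [if_pos hll]
        apply Tendsto.const_mul
        have h3 : Tendsto (fun n => Complex.exp (-((t n j : ℝ) : ℂ)) ^ j)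
            (Filter.hyperfilter ℕ : Filter ℕ) (𝓝 (Complex.exp (-0) ^ j)) :=
          ((Complex.continuous_exp.tendsto _).comp (htlim j hj).neg).pow j
        simp only [neg_zero, Complex.exp_zero, one_pow] at h3
        have := h3.mul_const ((dP j).eval (j : ℂ))
        simpa using this
      · simp only [if_neg hll]
        exact tendsto_const_nhds
    refine tendsto_nhds_unique (h1.congr' ?_) h2
    filter_upwards [hgoodH] with n hn
    exact hid l hl j hj n hn
  -- linear algebra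
  have hu : uu k (bt k) ≠ 0 := PP_ne (upd_le id_le k) k (by simp)
  have hli : LinearIndependent ℂ (fun j : Fin (k + 1) => (fun m : Fin k => A j m)) := by
    rw [Fintype.linearIndependent_iff]
    intro g hg j
    have h1 : ∀ m : Fin k, ∑ i : Fin (k + 1), g i * A i m = 0 := by
      intro m
      have := congrFun hg m
      simpa using this
    have hjk : (j : ℕ) ≤ k := Nat.lt_succ_iff.mp j.2
    have h2 : ∑ i : Fin (k + 1), g i * (∑ m, H (k - j) m * A i m) = 0 := by
      have : ∑ i : Fin (k + 1), g i * (∑ m, H (k - j) m * A i m)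
          = ∑ m, H (k - j) m * (∑ i : Fin (k + 1), g i * A i m) := by
        simp only [Finset.mul_sum]
        rw [Finset.sum_comm]
        refine Finset.sum_congr rfl fun m _ => Finset.sum_congr rfl fun i _ => ?_
        ring
      rw [this]
      simp [h1]
    rw [Finset.sum_eq_single j] at h2
    · rw [hlim (k - j) (by omega) j hjk, if_pos rfl] at h2
      have h3 : uu k (bt k) ^ 2 * (dP j).eval ((j : ℕ) : ℂ) ≠ 0 :=
        mul_ne_zero (pow_ne_zero 2 hu) (dP_eval_self j)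
      exact (mul_eq_zero.mp h2).resolve_right h3
    · intro i _ hij
      have hik : (i : ℕ) ≤ k := Nat.lt_succ_iff.mp i.2
      rw [hlim (k - j) (by omega) i hik, if_neg, mul_zero]
      intro heq
      apply hij
      apply Fin.ext
      omega
    · intro hn
      exact absurd (Finset.mem_univ j) hn
  have hcard := hli.fintype_card_le_finrank
  simp at hcard

end Pool.Agent.Helper269.HinfG
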