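import Mathlib

namespace Pool.Agent.Helper269.KcB

open Complex Metric Set Filter Topology

noncomputable section

variable {E : Type*} [NormedAddCommGroup E] [NormedSpace ℂ E]

/-- second order expression `D² r (v, v) + D² r (i v, i v)` -/
def lev (r : E → ℝ) (z v : E) : ℝ :=
  fderiv ℝ (fderiv ℝ r) z v v + fderiv ℝ (fderiv ℝ r) z (Complex.I • v) (Complex.I • v)

lemma contDiff_sq {h : E → ℂ} (hh : ContDiff ℂ 2 h) : ContDiff ℝ 2 (fun z => ‖h z‖ ^ 2) :=
  (hh.restrict_scalars ℝ).norm_sq ℝ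

lemma fderiv_sq {h : E → ℂ} (hh : ContDiff ℂ 2 h) (z v : E) :
    fderiv ℝ (fun z => ‖h z‖ ^ 2) z v = 2 * ((starRingEnd ℂ) (h z) * fderiv ℂ h z v).re := by
  have h1 : HasFDerivAt h ((fderiv ℂ h z).restrictScalars ℝ) z :=
    ((hh.differentiable (by norm_num)).differentiableAt.hasFDerivAt).restrictScalars ℝ
  have h2 := h1.norm_sq
  rw [h2.fderiv]
  simp only [smul_apply, ContinuousLinearMap.comp_apply, innerSL_apply_apply,
    ContinuousLinearMap.coe_restrictScalars', Complex.inner]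
  simp
  ring

lemma second_sq {h : E → ℂ} (hh : ContDiff ℂ 2 h) (z u v : E) :
    fderiv ℝ (fderiv ℝ (fun z => ‖h z‖ ^ 2)) z u v =
      2 * (inner ℝ (h z) (fderiv ℂ (fderiv ℂ h) z u v) +
        inner ℝ (fderiv ℂ h z u) (fderiv ℂ h z v)) := by
  have hg : ContDiff ℝ 2 (fun z => ‖h z‖ ^ 2) := contDiff_sq hh
  have hg' : ContDiff ℝ 1 (fderiv ℝ (fun z => ‖h z‖ ^ 2)) :=
    hg.fderiv_right (by norm_num)
  have d1 : HasFDerivAt (fderiv ℝ (fun z => ‖h z‖ ^ 2))
      (fderiv ℝ (fderiv ℝ (fun z => ‖h z‖ ^ 2)) z) z :=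
    ((hg'.differentiable (by norm_num)) z).hasFDerivAt
  have d2 := d1.clm_apply (hasFDerivAt_const v z)
  have e1 : (fun y => (fderiv ℝ (fun z => ‖h z‖ ^ 2) y) v) =
      fun y => 2 * inner ℝ (h y) (fderiv ℂ h y v) := by
    funext y
    rw [fderiv_sq hh, Complex.inner, mul_comm ((starRingEnd ℂ) (h y))]
  rw [e1] at d2
  have hf' : ContDiff ℂ 1 (fderiv ℂ h) := hh.fderiv_right (by norm_num)
  have d3 : HasFDerivAt (fderiv ℂ h) (fderiv ℂ (fderiv ℂ h) z) z :=
    ((hf'.differentiable (by norm_num)) z).hasFDerivAt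
  have d4 := (d3.clm_apply (hasFDerivAt_const v z)).restrictScalars ℝ
  have h1 : HasFDerivAt h ((fderiv ℂ h z).restrictScalars ℝ) z :=
    ((hh.differentiable (by norm_num)).differentiableAt.hasFDerivAt).restrictScalars ℝ
  have d5 := (h1.inner ℝ d4).const_mul (2:ℝ)
  have key := d2.unique d5
  have key2 := congrArg (fun L => L u) key
  simp only [add_apply, ContinuousLinearMap.comp_apply,
    ContinuousLinearMap.flip_apply, smul_apply] at key2
  simp at key2
  rw [key2, Complex.inner, Complex.inner]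
  simp

lemma lev_sq {h : E → ℂ} (hh : ContDiff ℂ 2 h) (z v : E) :
    lev (fun z => ‖h z‖ ^ 2) z v = 4 * ‖fderiv ℂ h z v‖ ^ 2 := by
  unfold lev
  rw [second_sq hh, second_sq hh]
  simp only [map_smul, smul_apply, smul_eq_mul]
  have e : Complex.I * (Complex.I * (fderiv ℂ (fderiv ℂ h) z) v v) =
      - (fderiv ℂ (fderiv ℂ h) z) v v := by
    rw [← mul_assoc, Complex.I_mul_I]; ring
  rw [e, inner_neg_right]
  have e2 : inner ℝ (Complex.I * (fderiv ℂ h z) v) (Complex.I * (fderiv ℂ h z) v) =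
      ‖(fderiv ℂ h z) v‖ ^ 2 := by
    rw [real_inner_self_eq_norm_sq, norm_mul, Complex.norm_I, one_mul]
  have e3 : inner ℝ ((fderiv ℂ h z) v) ((fderiv ℂ h z) v) = ‖(fderiv ℂ h z) v‖ ^ 2 :=
    real_inner_self_eq_norm_sq _
  rw [e2, e3]
  ring

variable {ι : Type*} [Fintype ι]

/-- real function given by a sum of squares of holomorphic functions, minus one -/
def sos (h : ι → E → ℂ) (z : E) : ℝ := (∑ i, ‖h i z‖ ^ 2) - 1

lemma contDiff_sos {h : ι → E → ℂ} (hh : ∀ i, ContDiff ℂ 2 (h i)) : ContDiff ℝ 2 (sos h) := by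
  unfold sos
  apply ContDiff.sub _ contDiff_const
  exact ContDiff.sum (fun i _ => contDiff_sq (hh i))

lemma fderiv_sos {h : ι → E → ℂ} (hh : ∀ i, ContDiff ℂ 2 (h i)) (z : E) :
    fderiv ℝ (sos h) z = ∑ i, fderiv ℝ (fun z => ‖h i z‖ ^ 2) z := by
  unfold sos
  rw [fderiv_sub_const, fderiv_fun_sum]
  intro i _
  exact ((contDiff_sq (hh i)).differentiable (by norm_num)) z

lemma fderiv_sos_apply {h : ι → E → ℂ} (hh : ∀ i, ContDiff ℂ 2 (h i)) (z v : E) :
    fderiv ℝ (sos h) z v = 2 * (∑ i, (starRingEnd ℂ) (h i z) * fderiv ℂ (h i) z v).re := by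
  rw [fderiv_sos hh]
  simp only [ContinuousLinearMap.sum_apply, Complex.re_sum, Finset.mul_sum]
  exact Finset.sum_congr rfl (fun i _ => fderiv_sq (hh i) z v)

lemma lev_sos {h : ι → E → ℂ} (hh : ∀ i, ContDiff ℂ 2 (h i)) (z v : E) :
    lev (sos h) z v = 4 * ∑ i, ‖fderiv ℂ (h i) z v‖ ^ 2 := by
  have e1 : fderiv ℝ (sos h) = fun z => ∑ i, fderiv ℝ (fun z => ‖h i z‖ ^ 2) z := by
    funext z
    exact fderiv_sos hh z
  have e2 : ∀ z, fderiv ℝ (fderiv ℝ (sos h)) z =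
      ∑ i, fderiv ℝ (fderiv ℝ (fun z => ‖h i z‖ ^ 2)) z := by
    intro z
    rw [e1, fderiv_fun_sum]
    intro i _
    have hg' : ContDiff ℝ 1 (fderiv ℝ (fun z => ‖h i z‖ ^ 2)) :=
      (contDiff_sq (hh i)).fderiv_right (by norm_num)
    exact (hg'.differentiable (by norm_num)) z
  unfold lev
  rw [e2]
  simp only [ContinuousLinearMap.sum_apply]
  rw [← Finset.sum_add_distrib, Finset.mul_sum]
  apply Finset.sum_congr rfl
  intro i _
  exact lev_sq (hh i) z v

end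

end Pool.Agent.Helper269.KcB
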