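import Mathlib

namespace Pool.Agent.Helper269.KcC

open Complex Metric Set Filter Topology Polynomial

noncomputable section

/-- value of the Chebyshev polynomial of degree `M` at a complex point -/
def Tf (M : ℕ) (x : ℂ) : ℂ := (Chebyshev.T ℂ (M : ℤ)).eval x

lemma Tf_cos (M : ℕ) (θ : ℂ) : Tf M (Complex.cos θ) = Complex.cos (M * θ) := by
  unfold Tf
  rw [Chebyshev.T_complex_cos]
  push_cast
  rfl

lemma Tf_deriv_zero {M : ℕ} (hM : M ≠ 0) {x : ℂ}
    (h : (derivative (Chebyshev.T ℂ (M : ℤ))).eval x = 0) : Tf M x ^ 2 = 1 := by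
  obtain ⟨θ, rfl⟩ := Complex.cos_surjective x
  rw [Chebyshev.T_derivative_eq_U] at h
  simp only [eval_mul, eval_intCast] at h
  have hU : (Chebyshev.U ℂ ((M : ℤ) - 1)).eval (Complex.cos θ) = 0 := by
    rcases mul_eq_zero.1 h with h1 | h1
    · exfalso
      apply hM
      exact_mod_cast h1
    · exact h1
  have h2 := Chebyshev.U_complex_cos θ ((M : ℤ) - 1)
  rw [hU, zero_mul] at h2
  have h3 : Complex.sin (M * θ) = 0 := by
    rw [h2]
    congr 1
    push_cast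
    ring
  rw [Tf_cos]
  have := Complex.sin_sq_add_cos_sq (M * θ)
  rw [h3] at this
  simpa using this

lemma Tf_sq_quarter {M : ℕ} (hM : M ≠ 0) {x : ℂ} (h : Tf M x ^ 2 = 1 / 4) :
    ∃ t : ℝ, t ∈ Set.Icc (-1 : ℝ) 1 ∧ x = (t : ℂ) := by
  obtain ⟨θ, rfl⟩ := Complex.cos_surjective x
  rw [Tf_cos] at h
  have h2 : Complex.cos (2 * (M * θ)) = Complex.cos ((2 * Real.pi / 3 : ℝ) : ℂ) := by
    rw [Complex.cos_two_mul, h, ← Complex.ofReal_cos]
    have : Real.cos (2 * Real.pi / 3) = -1/2 := by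
      have : 2 * Real.pi / 3 = Real.pi - Real.pi / 3 := by ring
      rw [this, Real.cos_pi_sub, Real.cos_pi_div_three]; norm_num
    rw [this]
    push_cast
    norm_num
  rw [Complex.cos_eq_cos_iff] at h2
  obtain ⟨k, hk⟩ := h2
  have hM' : (M : ℂ) ≠ 0 := by exact_mod_cast hM
  have hθ : ∃ s : ℝ, θ = (s : ℂ) := by
    rcases hk with hk | hk
    · refine ⟨((2 * Real.pi / 3) - 2 * k * Real.pi) / (2 * M), ?_⟩
      have : θ = (2 * (M * θ)) / (2 * M) := by field_simp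
      rw [this]
      have h3 : (2 * (M * θ)) = ((2 * Real.pi / 3 : ℝ) : ℂ) - 2 * k * Real.pi := by
        rw [hk]; ring
      rw [h3]
      push_cast
      ring
    · refine ⟨(2 * k * Real.pi - (2 * Real.pi / 3)) / (2 * M), ?_⟩
      have : θ = (2 * (M * θ)) / (2 * M) := by field_simp
      rw [this]
      have h3 : (2 * (M * θ)) = 2 * k * Real.pi - ((2 * Real.pi / 3 : ℝ) : ℂ) := by
        rw [hk]; ring
      rw [h3]
      push_cast
      ring
  obtain ⟨s, rfl⟩ := hθ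
  refine ⟨Real.cos s, Real.cos_mem_Icc s, ?_⟩
  rw [Complex.ofReal_cos]

lemma cos_re' (θ : ℂ) : (Complex.cos θ).re = Real.cos θ.re * Real.cosh θ.im := by
  rw [Complex.cos_eq, ← Complex.ofReal_cos, ← Complex.ofReal_sin, ← Complex.ofReal_cosh,
    ← Complex.ofReal_sinh]
  simp only [Complex.sub_re, Complex.mul_re, Complex.ofReal_re, Complex.ofReal_im, Complex.I_re,
    Complex.I_im, Complex.mul_im]
  ring

lemma cos_im' (θ : ℂ) : (Complex.cos θ).im = -(Real.sin θ.re * Real.sinh θ.im) := by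
  rw [Complex.cos_eq, ← Complex.ofReal_cos, ← Complex.ofReal_sin, ← Complex.ofReal_cosh,
    ← Complex.ofReal_sinh]
  simp only [Complex.sub_im, Complex.mul_re, Complex.ofReal_re, Complex.ofReal_im, Complex.I_re,
    Complex.I_im, Complex.mul_im]
  ring

lemma norm_cos_sq (θ : ℂ) :
    ‖Complex.cos θ‖ ^ 2 = Real.cos θ.re ^ 2 + Real.sinh θ.im ^ 2 := by
  rw [Complex.sq_norm, Complex.normSq_apply, cos_re', cos_im']
  have h1 := Real.sin_sq_add_cos_sq θ.re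
  have h2 := Real.cosh_sq θ.im
  have h3 : Real.sin θ.re ^ 2 = 1 - Real.cos θ.re ^ 2 := by linarith
  have e : Real.cos θ.re * Real.cosh θ.im * (Real.cos θ.re * Real.cosh θ.im) +
      -(Real.sin θ.re * Real.sinh θ.im) * -(Real.sin θ.re * Real.sinh θ.im) =
      Real.cos θ.re ^ 2 * Real.cosh θ.im ^ 2 + Real.sin θ.re ^ 2 * Real.sinh θ.im ^ 2 := by ring
  rw [e, h3, h2]
  ring

lemma Tf_bound {M : ℕ} (hM : M ≠ 0) {x : ℂ} (h : ‖Tf M x‖ ≤ 2) : ‖x‖ ≤ 3 := by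
  obtain ⟨θ, rfl⟩ := Complex.cos_surjective x
  rw [Tf_cos] at h
  have h1 := norm_cos_sq (M * θ)
  have h2 := norm_cos_sq θ
  have e2 : ((M : ℂ) * θ).im = M * θ.im := by simp
  rw [e2] at h1
  have h3 : ‖Complex.cos (M * θ)‖ ^ 2 ≤ 4 := by nlinarith [norm_nonneg (Complex.cos (M * θ))]
  have h4 : Real.sinh (M * θ.im) ^ 2 ≤ 4 := by
    nlinarith [sq_nonneg (Real.cos ((M : ℂ) * θ).re)]
  have h5 : Real.sinh θ.im ^ 2 ≤ Real.sinh (M * θ.im) ^ 2 := by
    rw [sq_le_sq, Real.abs_sinh, Real.abs_sinh]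
    apply Real.sinh_le_sinh.2
    rw [abs_mul]
    have : (1 : ℝ) ≤ |(M : ℝ)| := by
      rw [Nat.abs_cast]
      exact_mod_cast Nat.one_le_iff_ne_zero.2 hM
    nlinarith [abs_nonneg θ.im]
  have h6 : Real.cos θ.re ^ 2 ≤ 1 := Real.cos_sq_le_one _
  have h7 : ‖Complex.cos θ‖ ^ 2 ≤ 9 := by linarith
  nlinarith [norm_nonneg (Complex.cos θ)]

lemma norm_cos_add_one (θ : ℂ) :
    ‖Complex.cos θ + 1‖ = Real.cosh θ.im + Real.cos θ.re := by
  have hnn : 0 ≤ Real.cosh θ.im + Real.cos θ.re := by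
    have h1 := Real.one_le_cosh θ.im
    have h2 := Real.neg_one_le_cos θ.re
    linarith
  rw [← Real.sqrt_sq hnn, Complex.norm_def]
  congr 1
  rw [Complex.normSq_apply]
  have hre : (Complex.cos θ + 1).re = Real.cos θ.re * Real.cosh θ.im + 1 := by
    simp [cos_re']
  have him : (Complex.cos θ + 1).im = -(Real.sin θ.re * Real.sinh θ.im) := by
    simp [cos_im']
  rw [hre, him]
  have h1 := Real.sin_sq_add_cos_sq θ.re
  have h2 := Real.cosh_sq θ.im
  have h3 : Real.sin θ.re ^ 2 = 1 - Real.cos θ.re ^ 2 := by linarith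
  have h4 : Real.sinh θ.im ^ 2 = Real.cosh θ.im ^ 2 - 1 := by linarith
  have : -(Real.sin θ.re * Real.sinh θ.im) * -(Real.sin θ.re * Real.sinh θ.im) =
      Real.sin θ.re ^ 2 * Real.sinh θ.im ^ 2 := by ring
  rw [this, h3, h4]
  ring

lemma norm_cos_sub_one (θ : ℂ) :
    ‖Complex.cos θ - 1‖ = Real.cosh θ.im - Real.cos θ.re := by
  have h := norm_cos_add_one (Real.pi - θ)
  rw [Complex.cos_pi_sub] at h
  have e : -Complex.cos θ + 1 = -(Complex.cos θ - 1) := by ring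
  rw [e, norm_neg] at h
  rw [h]
  simp [Real.cos_pi_sub, Real.cosh_neg]
  ring

/-- real angular coordinate times `M / π` -/
def Nf (M : ℕ) (x : ℂ) : ℝ := M / Real.pi * Real.arccos ((‖x + 1‖ - ‖x - 1‖) / 2)

lemma continuous_Nf (M : ℕ) : Continuous (Nf M) := by
  unfold Nf
  refine continuous_const.mul (Real.continuous_arccos.comp ?_)
  fun_prop

lemma Nf_cos (M : ℕ) (θ : ℂ) :
    Nf M (Complex.cos θ) = M / Real.pi * Real.arccos (Real.cos θ.re) := by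
  unfold Nf
  rw [norm_cos_add_one, norm_cos_sub_one]
  congr 2
  ring

lemma Nf_one (M : ℕ) : Nf M 1 = 0 := by
  unfold Nf
  norm_num

lemma Nf_neg_one (M : ℕ) : Nf M (-1) = M := by
  unfold Nf
  have : (‖(-1 : ℂ) + 1‖ - ‖(-1 : ℂ) - 1‖) / 2 = -1 := by
    norm_num
  rw [this, Real.arccos_neg_one]
  field_simp

lemma Tf_of_Nf_int {M : ℕ} (hM : M ≠ 0) {x : ℂ} {k : ℤ} (h : Nf M x = k) :
    ∃ c : ℝ, 1 ≤ c ∧ Tf M x = (((-1 : ℝ) ^ k * c : ℝ) : ℂ) := by
  obtain ⟨θ, rfl⟩ := Complex.cos_surjective x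
  rw [Nf_cos] at h
  have hM' : (M : ℝ) ≠ 0 := by exact_mod_cast hM
  have hφ : Real.arccos (Real.cos θ.re) * M = k * Real.pi := by
    have hpi := Real.pi_ne_zero
    field_simp at h
    linarith
  have hcosφ : Real.cos (Real.arccos (Real.cos θ.re)) = Real.cos θ.re :=
    Real.cos_arccos (Real.neg_one_le_cos _) (Real.cos_le_one _)
  have hc1 : Real.cos (M * θ.re) = Real.cos (M * Real.arccos (Real.cos θ.re)) := by
    have e1 := Chebyshev.T_real_cos θ.re (M : ℤ)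
    have e2 := Chebyshev.T_real_cos (Real.arccos (Real.cos θ.re)) (M : ℤ)
    rw [hcosφ] at e2
    push_cast at e1 e2
    rw [← e1, ← e2]
  have hc2 : Real.cos (M * θ.re) = (-1 : ℝ) ^ k := by
    rw [hc1, mul_comm, hφ, Real.cos_int_mul_pi]
  have hs : Real.sin (M * θ.re) = 0 := by
    have h1 := Real.sin_sq_add_cos_sq (M * θ.re)
    rw [hc2] at h1
    have h2 : ((-1 : ℝ) ^ k) ^ 2 = 1 := by
      rw [← zpow_natCast, ← zpow_mul, mul_comm, zpow_mul]
      norm_num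
    rw [h2] at h1
    have : Real.sin (M * θ.re) ^ 2 = 0 := by linarith
    exact pow_eq_zero_iff (two_ne_zero) |>.1 this
  refine ⟨Real.cosh (M * θ.im), Real.one_le_cosh _, ?_⟩
  rw [Tf_cos]
  apply Complex.ext
  · rw [cos_re']
    have e1 : ((M : ℂ) * θ).re = M * θ.re := by simp
    have e2 : ((M : ℂ) * θ).im = M * θ.im := by simp
    rw [e1, e2, hc2, Complex.ofReal_re]
  · rw [cos_im']
    have e1 : ((M : ℂ) * θ).re = M * θ.re := by simp
    rw [e1, hs, Complex.ofReal_im]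
    ring

lemma exists_int_between (u v : ℝ) (huv : 2 ≤ v - u) (e : ℤ) :
    ∃ m : ℤ, u ≤ ((2 * m + e : ℤ) : ℝ) ∧ ((2 * m + e : ℤ) : ℝ) ≤ v := by
  refine ⟨⌈(u - e) / 2⌉, ?_, ?_⟩
  · have := Int.le_ceil ((u - e) / 2)
    push_cast
    linarith
  · have := Int.ceil_lt_add_one ((u - e) / 2)
    push_cast
    linarith

/-- along a connected set on which `N` never takes a value of the parity class of `e`,
the function `N` varies by less than two -/
lemma step_lt_two {M : ℕ} {S : Set ℂ} (hS : IsPreconnected S) (e : ℤ)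
    (h : ∀ x ∈ S, ∀ m : ℤ, Nf M x ≠ ((2 * m + e : ℤ) : ℝ)) {x y : ℂ} (hx : x ∈ S) (hy : y ∈ S) :
    Nf M y - Nf M x < 2 := by
  by_contra hcon
  push Not at hcon
  obtain ⟨m, hm1, hm2⟩ := exists_int_between _ _ hcon e
  have him := hS.image (Nf M) (continuous_Nf M).continuousOn
  have hmem : ((2 * m + e : ℤ) : ℝ) ∈ Nf M '' S :=
    him.Icc_subset (mem_image_of_mem _ hx) (mem_image_of_mem _ hy) ⟨hm1, hm2⟩
  obtain ⟨z, hz, hz2⟩ := hmem
  exact h z hz m hz2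

lemma odd_avoid {M : ℕ} (hM : M ≠ 0) {x : ℂ} (hx : ‖Tf M x - 1 / 2‖ < 3 / 2) (m : ℤ) :
    Nf M x ≠ ((2 * m + 1 : ℤ) : ℝ) := by
  intro h
  obtain ⟨c, hc, hT⟩ := Tf_of_Nf_int hM h
  have h1 : (-1 : ℝ) ^ (2 * m + 1) = -1 := by
    rw [zpow_add₀ (by norm_num), zpow_mul]
    norm_num
  rw [hT, h1] at hx
  have e : (((-1 * c : ℝ) : ℂ) - 1 / 2) = ((-c - 1/2 : ℝ) : ℂ) := by push_cast; ring
  rw [e, Complex.norm_real, Real.norm_eq_abs] at hx
  have := neg_abs_le (-c - 1/2)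
  linarith

lemma even_avoid {M : ℕ} (hM : M ≠ 0) {x : ℂ} (hx : ‖Tf M x + 1 / 2‖ < 3 / 2) (m : ℤ) :
    Nf M x ≠ ((2 * m + 0 : ℤ) : ℝ) := by
  intro h
  obtain ⟨c, hc, hT⟩ := Tf_of_Nf_int hM h
  have h1 : (-1 : ℝ) ^ (2 * m + 0) = 1 := by
    rw [add_zero, zpow_mul]
    norm_num
  rw [hT, h1] at hx
  have e : (((1 * c : ℝ) : ℂ) + 1 / 2) = ((c + 1/2 : ℝ) : ℂ) := by push_cast; ring
  rw [e, Complex.norm_real, Real.norm_eq_abs] at hx
  have := le_abs_self (c + 1/2)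
  linarith

/-- a connected set where `T` stays in the disc of radius `3/2` about `1/2` -/
lemma step_plus {M : ℕ} (hM : M ≠ 0) {S : Set ℂ} (hS : IsPreconnected S)
    (h : ∀ x ∈ S, ‖Tf M x - 1 / 2‖ < 3 / 2) {x y : ℂ} (hx : x ∈ S) (hy : y ∈ S) :
    Nf M y - Nf M x < 2 :=
  step_lt_two hS 1 (fun z hz m => odd_avoid hM (h z hz) m) hx hy

lemma step_minus {M : ℕ} (hM : M ≠ 0) {S : Set ℂ} (hS : IsPreconnected S)
    (h : ∀ x ∈ S, ‖Tf M x + 1 / 2‖ < 3 / 2) {x y : ℂ} (hx : x ∈ S) (hy : y ∈ S) :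
    Nf M y - Nf M x < 2 :=
  step_lt_two hS 0 (fun z hz m => even_avoid hM (h z hz) m) hx hy

end

end Pool.Agent.Helper269.KcC
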