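import Mathlib

namespace Pool.Agent.Helper269.KcD

open Complex Metric Set Filter Topology

noncomputable section

/-- smallness on a small disc propagates to larger discs for bounded functions -/
lemma propagate (C r ρ η : ℝ) (hr0 : 0 ≤ r) (hr : r < 1) (hρ : 0 < ρ) (hρ1 : ρ < 1)
    (hη : 0 < η) :
    ∃ ε > 0, ∀ H : ℂ → ℂ, DifferentiableOn ℂ H (ball 0 1) → (∀ z ∈ ball (0:ℂ) 1, ‖H z‖ ≤ C) →
      (∀ z ∈ closedBall (0:ℂ) ρ, ‖H z‖ ≤ ε) → ∀ ω : ℂ, ‖ω‖ ≤ r → ‖H ω‖ < η := by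
  obtain ⟨s, hrs, hs1⟩ := exists_between hr
  have hs0 : 0 < s := lt_of_le_of_lt hr0 hrs
  set q : ℝ := r / s with hq
  have hq0 : 0 ≤ q := div_nonneg hr0 hs0.le
  have hq1 : q < 1 := (div_lt_one hs0).2 hrs
  -- choose N
  have hlim : Tendsto (fun N : ℕ => C * q ^ N / (1 - q)) atTop (𝓝 0) := by
    have h1 := tendsto_pow_atTop_nhds_zero_of_lt_one hq0 hq1
    have h2 := (h1.const_mul C).div_const (1 - q)
    simpa using h2
  obtain ⟨N, hN⟩ := (hlim.eventually (gt_mem_nhds (show (0:ℝ) < η / 2 by positivity))).exists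
  set S : ℝ := ∑ k ∈ Finset.range N, (r / ρ) ^ k with hS
  have hS0 : 0 ≤ S := Finset.sum_nonneg (fun k _ => by positivity)
  refine ⟨η / (2 * (1 + S)), by positivity, ?_⟩
  intro H hH hHC hHε ω hω
  set ε := η / (2 * (1 + S)) with hε
  have hε0 : 0 < ε := by positivity
  have hω1 : ω ∈ ball (0:ℂ) 1 := by
    rw [mem_ball_zero_iff]; exact lt_of_le_of_lt hω hr
  have hsum := Complex.hasSum_taylorSeries_on_ball hH hω1
  set c : ℕ → ℂ := fun n => ((n.factorial : ℂ))⁻¹ • (ω - 0) ^ n • iteratedDeriv n H 0 with hc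
  -- coefficient bounds
  have hbound : ∀ R : ℝ, 0 < R → R < 1 → ∀ B : ℝ, (∀ z ∈ closedBall (0:ℂ) R, ‖H z‖ ≤ B) → ∀ n,
      ‖c n‖ ≤ B * (r / R) ^ n := by
    intro R hR hR1 B hB n
    have hd : DiffContOnCl ℂ H (ball 0 R) := by
      apply DifferentiableOn.diffContOnCl
      rw [closure_ball _ hR.ne']
      exact hH.mono (closedBall_subset_ball hR1)
    have h1 := Complex.norm_iteratedDeriv_le_of_forall_mem_sphere_norm_le n hR hd
      (fun z hz => hB z (sphere_subset_closedBall hz))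
    have hfac : (0:ℝ) < n.factorial := by positivity
    have hB0 : 0 ≤ B := le_trans (norm_nonneg _) (hB 0 (by simp [hR.le]))
    rw [hc]
    simp only [sub_zero, smul_eq_mul, norm_mul, norm_inv, norm_pow, Complex.norm_natCast]
    calc ((n.factorial : ℝ))⁻¹ * (‖ω‖ ^ n * ‖iteratedDeriv n H 0‖)
        ≤ ((n.factorial : ℝ))⁻¹ * (r ^ n * (n.factorial * B / R ^ n)) := by
          gcongr
      _ = B * (r / R) ^ n := by
          rw [div_pow]
          field_simp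
  have hb1 := hbound s hs0 hs1 C (fun z hz => hHC z (closedBall_subset_ball hs1 hz))
  have hb2 := hbound ρ hρ hρ1 ε hHε
  have hgeo : Summable (fun n : ℕ => C * q ^ n) := (summable_geometric_of_lt_one hq0 hq1).mul_left C
  have hsc : Summable (fun n => ‖c n‖) :=
    Summable.of_nonneg_of_le (fun n => norm_nonneg _) hb1 hgeo
  have hH1 : ‖H ω‖ ≤ ∑' n, ‖c n‖ := by
    rw [← hsum.tsum_eq]
    exact norm_tsum_le_tsum_norm hsc
  have hsplit := hsc.sum_add_tsum_nat_add N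
  have hpart1 : ∑ k ∈ Finset.range N, ‖c k‖ ≤ ε * S := by
    rw [hS, Finset.mul_sum]
    exact Finset.sum_le_sum (fun k _ => hb2 k)
  have hpart2 : ∑' k, ‖c (k + N)‖ ≤ C * q ^ N / (1 - q) := by
    have hgeo2 : Summable (fun k : ℕ => C * q ^ N * q ^ k) :=
      (summable_geometric_of_lt_one hq0 hq1).mul_left _
    have h1 : ∑' k, ‖c (k + N)‖ ≤ ∑' k : ℕ, C * q ^ N * q ^ k := by
      apply Summable.tsum_le_tsum _ ((summable_nat_add_iff N).2 hsc) hgeo2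
      intro k
      calc ‖c (k + N)‖ ≤ C * q ^ (k + N) := hb1 (k + N)
        _ = C * q ^ N * q ^ k := by rw [pow_add]; ring
    rw [tsum_mul_left, tsum_geometric_of_lt_one hq0 hq1] at h1
    rw [div_eq_mul_inv]
    exact h1
  have hεS : ε * S ≤ η / 2 := by
    rw [hε]
    rw [div_mul_eq_mul_div, div_le_div_iff₀ (by positivity) (by norm_num)]
    nlinarith
  calc ‖H ω‖ ≤ ∑' n, ‖c n‖ := hH1
    _ = ∑ k ∈ Finset.range N, ‖c k‖ + ∑' k, ‖c (k + N)‖ := hsplit.symm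
    _ < η := by linarith

/-- product lemma, centred version -/
lemma product_zero (C r a : ℝ) (hC : 0 < C) (hr0 : 0 ≤ r) (hr : r < 1) (ha : 0 < a) :
    ∃ ε > 0, ∀ G H : ℂ → ℂ, DifferentiableOn ℂ G (ball 0 1) → DifferentiableOn ℂ H (ball 0 1) →
      (∀ z ∈ ball (0:ℂ) 1, ‖G z‖ ≤ C) → (∀ z ∈ ball (0:ℂ) 1, ‖H z‖ ≤ C) →
      (∀ z ∈ ball (0:ℂ) 1, ‖G z * H z‖ ≤ ε) → a ≤ ‖G 0‖ → ∀ ω : ℂ, ‖ω‖ ≤ r → ‖H ω‖ < a := by
  set ρ : ℝ := min (1/2) (a / (4 * C)) with hρd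
  have hρ : 0 < ρ := lt_min (by norm_num) (by positivity)
  have hρ1 : ρ < 1 := lt_of_le_of_lt (min_le_left _ _) (by norm_num)
  obtain ⟨ε', hε', hprop⟩ := propagate C r ρ a hr0 hr hρ hρ1 ha
  refine ⟨ε' * (a / 2), by positivity, ?_⟩
  intro G H hG hH hGC hHC hGH hG0 ω hω
  apply hprop H hH hHC _ ω hω
  intro z hz
  have hz1 : z ∈ ball (0:ℂ) 1 := closedBall_subset_ball hρ1 hz
  rw [mem_closedBall_zero_iff] at hz
  have hdist : dist (G z) (G 0) ≤ (2 * C) / 1 * dist z 0 := by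
    apply Complex.dist_le_div_mul_dist_of_mapsTo_ball hG _ hz1
    intro w hw
    rw [mem_closedBall, dist_eq_norm]
    calc ‖G w - G 0‖ ≤ ‖G w‖ + ‖G 0‖ := norm_sub_le _ _
      _ ≤ 2 * C := by linarith [hGC w hw, hGC 0 (by simp)]
  rw [dist_zero_right, div_one, dist_eq_norm] at hdist
  have h1 : 2 * C * ‖z‖ ≤ a / 2 := by
    have : ‖z‖ ≤ a / (4 * C) := le_trans hz (min_le_right _ _)
    calc 2 * C * ‖z‖ ≤ 2 * C * (a / (4 * C)) := by gcongr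
      _ = a / 2 := by field_simp; norm_num
  have h2 : a / 2 ≤ ‖G z‖ := by
    have : ‖G 0‖ ≤ ‖G z‖ + ‖G z - G 0‖ := by
      have := norm_sub_le (G z) (G z - G 0)
      simpa using this
    linarith
  have h3 := hGH z hz1
  rw [norm_mul] at h3
  have h4 : a / 2 * ‖H z‖ ≤ ε' * (a / 2) := le_trans (by gcongr) h3
  have h5 : (0:ℝ) < a / 2 := by positivity
  nlinarith

/-- the key identity for disc automorphisms -/
lemma mob_identity (a z : ℂ) :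
    ‖1 + (starRingEnd ℂ) a * z‖ ^ 2 - ‖z + a‖ ^ 2 = (1 - ‖a‖ ^ 2) * (1 - ‖z‖ ^ 2) := by
  rw [Complex.sq_norm, Complex.sq_norm, Complex.sq_norm, Complex.sq_norm]
  simp only [Complex.normSq_apply, Complex.add_re, Complex.add_im, Complex.mul_re, Complex.mul_im,
    Complex.conj_re, Complex.conj_im, Complex.one_re, Complex.one_im]
  ring

lemma mob_den_ne {a z : ℂ} (ha : ‖a‖ < 1) (hz : ‖z‖ < 1) : 1 + (starRingEnd ℂ) a * z ≠ 0 := by
  intro h
  have h1 := mob_identity a z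
  rw [h, norm_zero] at h1
  have h2 : 0 < (1 - ‖a‖ ^ 2) * (1 - ‖z‖ ^ 2) := by
    apply mul_pos
    · nlinarith [norm_nonneg a]
    · nlinarith [norm_nonneg z]
  nlinarith [sq_nonneg ‖z + a‖]

/-- disc automorphism sending `0` to `a` -/
def mob (a z : ℂ) : ℂ := (z + a) / (1 + (starRingEnd ℂ) a * z)

lemma mob_zero (a : ℂ) : mob a 0 = a := by simp [mob]

lemma norm_mob_sq {a z : ℂ} (ha : ‖a‖ < 1) (hz : ‖z‖ < 1) :
    ‖mob a z‖ ^ 2 = 1 - (1 - ‖a‖ ^ 2) * (1 - ‖z‖ ^ 2) / ‖1 + (starRingEnd ℂ) a * z‖ ^ 2 := by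
  have hd := mob_den_ne ha hz
  have hd' : ‖1 + (starRingEnd ℂ) a * z‖ ^ 2 ≠ 0 := by
    have := norm_pos_iff.2 hd
    positivity
  unfold mob
  rw [norm_div, div_pow, ← mob_identity, sub_div, div_self hd']
  ring

lemma norm_mob_lt {a z : ℂ} (ha : ‖a‖ < 1) (hz : ‖z‖ < 1) : ‖mob a z‖ < 1 := by
  have hd := norm_pos_iff.2 (mob_den_ne ha hz)
  have h := norm_mob_sq ha hz
  have h2 : 0 < (1 - ‖a‖ ^ 2) * (1 - ‖z‖ ^ 2) / ‖1 + (starRingEnd ℂ) a * z‖ ^ 2 := by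
    apply div_pos
    · apply mul_pos
      · nlinarith [norm_nonneg a]
      · nlinarith [norm_nonneg z]
    · positivity
  nlinarith [norm_nonneg (mob a z)]

/-- uniform bound away from one -/
lemma norm_mob_le {a z : ℂ} {r : ℝ} (hr0 : 0 ≤ r) (hr : r < 1) (ha : ‖a‖ ≤ r) (hz : ‖z‖ ≤ r) :
    ‖mob a z‖ ≤ Real.sqrt (1 - (1 - r ^ 2) ^ 2 / 4) := by
  have ha1 : ‖a‖ < 1 := lt_of_le_of_lt ha hr
  have hz1 : ‖z‖ < 1 := lt_of_le_of_lt hz hr
  apply Real.le_sqrt_of_sq_le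
  rw [norm_mob_sq ha1 hz1]
  have hd := norm_pos_iff.2 (mob_den_ne ha1 hz1)
  have hd2 : ‖1 + (starRingEnd ℂ) a * z‖ ≤ 2 := by
    calc ‖1 + (starRingEnd ℂ) a * z‖ ≤ ‖(1:ℂ)‖ + ‖(starRingEnd ℂ) a * z‖ := norm_add_le _ _
      _ ≤ 2 := by
        rw [norm_mul, RCLike.norm_conj, norm_one]
        nlinarith [norm_nonneg a, norm_nonneg z]
  have h1 : (1 - r ^ 2) ≤ 1 - ‖a‖ ^ 2 := by nlinarith [norm_nonneg a]
  have h2 : (1 - r ^ 2) ≤ 1 - ‖z‖ ^ 2 := by nlinarith [norm_nonneg z]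
  have h0 : 0 ≤ 1 - r ^ 2 := by nlinarith
  have h3 : (1 - r ^ 2) ^ 2 ≤ (1 - ‖a‖ ^ 2) * (1 - ‖z‖ ^ 2) := by nlinarith
  have h4 : ‖1 + (starRingEnd ℂ) a * z‖ ^ 2 ≤ 4 := by nlinarith
  have h5 : (1 - r ^ 2) ^ 2 / 4 ≤ (1 - ‖a‖ ^ 2) * (1 - ‖z‖ ^ 2) / ‖1 + (starRingEnd ℂ) a * z‖ ^ 2 := by
    rw [div_le_div_iff₀ (by norm_num) (by positivity)]
    nlinarith [sq_nonneg (1 - r ^ 2)]
  linarith

lemma mob_mob {a z : ℂ} (ha : ‖a‖ < 1) (hz : ‖z‖ < 1) : mob a (mob (-a) z) = z := by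
  have hd : 1 - (starRingEnd ℂ) a * z ≠ 0 := by
    have := mob_den_ne (a := -a) (z := z) (by simpa using ha) hz
    simpa [sub_eq_add_neg] using this
  have hn : 1 - (starRingEnd ℂ) a * a ≠ 0 := by
    have := mob_den_ne (a := -a) (z := a) (by simpa using ha) ha
    simpa [sub_eq_add_neg] using this
  have e1 : mob (-a) z = (z - a) / (1 - (starRingEnd ℂ) a * z) := by
    unfold mob
    rw [map_neg]
    ring_nf
  rw [e1]
  unfold mob
  generalize (starRingEnd ℂ) a = b at *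
  have hden : 1 + b * ((z - a) / (1 - b * z)) = (1 - b * a) / (1 - b * z) := by
    rw [eq_div_iff hd, add_mul, mul_assoc, div_mul_cancel₀ _ hd]
    ring
  have hnum : (z - a) / (1 - b * z) + a = z * (1 - b * a) / (1 - b * z) := by
    rw [eq_div_iff hd, add_mul, div_mul_cancel₀ _ hd]
    ring
  rw [hden, hnum, div_div_div_cancel_right₀ hd, mul_div_assoc, div_self hn, mul_one]

lemma differentiableOn_mob {a : ℂ} (ha : ‖a‖ < 1) : DifferentiableOn ℂ (mob a) (ball 0 1) := by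
  unfold mob
  apply DifferentiableOn.div
  · fun_prop
  · fun_prop
  · intro z hz
    exact mob_den_ne ha (mem_ball_zero_iff.1 hz)

lemma mapsTo_mob {a : ℂ} (ha : ‖a‖ < 1) : MapsTo (mob a) (ball 0 1) (ball 0 1) := by
  intro z hz
  rw [mem_ball_zero_iff] at *
  exact norm_mob_lt ha hz

/-- product lemma: of two bounded holomorphic functions with small product, on any given compact
disc one of the two is small -/
lemma product_lemma (C r a : ℝ) (hC : 0 < C) (hr0 : 0 ≤ r) (hr : r < 1) (ha : 0 < a) :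
    ∃ ε > 0, ∀ G H : ℂ → ℂ, DifferentiableOn ℂ G (ball 0 1) → DifferentiableOn ℂ H (ball 0 1) →
      (∀ z ∈ ball (0:ℂ) 1, ‖G z‖ ≤ C) → (∀ z ∈ ball (0:ℂ) 1, ‖H z‖ ≤ C) →
      (∀ z ∈ ball (0:ℂ) 1, ‖G z * H z‖ ≤ ε) →
      (∀ ω : ℂ, ‖ω‖ ≤ r → ‖G ω‖ < a) ∨ (∀ ω : ℂ, ‖ω‖ ≤ r → ‖H ω‖ < a) := by
  set r' : ℝ := Real.sqrt (1 - (1 - r ^ 2) ^ 2 / 4) with hr'
  have hr'1 : r' < 1 := by
    rw [hr', Real.sqrt_lt' one_pos]
    have : 0 < 1 - r ^ 2 := by nlinarith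
    nlinarith [sq_nonneg (1 - r ^ 2), mul_pos this this]
  obtain ⟨ε, hε, hp⟩ := product_zero C r' a hC (Real.sqrt_nonneg _) hr'1 ha
  refine ⟨ε, hε, ?_⟩
  intro G H hG hH hGC hHC hGH
  by_contra hcon
  push Not at hcon
  obtain ⟨⟨ζ₁, h1, hG1⟩, ⟨ζ₂, h2, hH2⟩⟩ := hcon
  have h1' : ‖ζ₁‖ < 1 := lt_of_le_of_lt h1 hr
  have h2' : ‖ζ₂‖ < 1 := lt_of_le_of_lt h2 hr
  have hm := mapsTo_mob h1'
  have hd := differentiableOn_mob h1'
  have key := hp (fun z => G (mob ζ₁ z)) (fun z => H (mob ζ₁ z)) (hG.comp hd hm) (hH.comp hd hm)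
    (fun z hz => hGC _ (hm hz)) (fun z hz => hHC _ (hm hz)) (fun z hz => hGH _ (hm hz))
    (by rw [mob_zero]; exact hG1) (mob (-ζ₁) ζ₂)
    (norm_mob_le hr0 hr (by simpa using h1) h2)
  simp only [mob_mob h1' h2'] at key
  linarith

end

end Pool.Agent.Helper269.KcD
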