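import Mathlib

namespace Pool.Agent.Helper269.KcDefs

open Metric Set

noncomputable section

/-- The Poincare distance on the unit disc. -/
def poincareDist (a b : ℂ) : ℝ := Real.artanh ‖(a - b) / (1 - (starRingEnd ℂ) a * b)‖

/- A complex normed space `E`; in the result `E` is `ℂⁿ` with its Euclidean norm. -/
variable {E : Type} [NormedAddCommGroup E] [NormedSpace ℂ E]

/-- `IsHolomorphicDisc Ω f`: `f` restricts to a holomorphic map from the open unit disc to `Ω`. -/
def IsHolomorphicDisc (Ω : Set E) (f : ℂ → E) : Prop :=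
  DifferentiableOn ℂ f (ball 0 1) ∧ ∀ ζ ∈ ball (0 : ℂ) 1, f ζ ∈ Ω

/-- `IsKobayashiChain Ω z w m p f a b`: the points `p 0 = z, p 1, ..., p m = w` of `Ω`, the
holomorphic maps `f 0, ..., f (m-1)` from the unit disc to `Ω` and the points
`a j, b j` of the unit disc with `f j (a j) = p j` and `f j (b j) = p (j+1)` form a Kobayashi
chain of `m` discs from `z` to `w` in `Ω`. Only the indices up to `m` matter. -/
structure IsKobayashiChain (Ω : Set E) (z w : E) (m : ℕ) (p : ℕ → E) (f : ℕ → ℂ → E)
    (a b : ℕ → ℂ) : Prop where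
  start : p 0 = z
  finish : p m = w
  mem : ∀ j ≤ m, p j ∈ Ω
  disc : ∀ j < m, IsHolomorphicDisc Ω (f j)
  a_mem : ∀ j < m, a j ∈ ball (0 : ℂ) 1
  b_mem : ∀ j < m, b j ∈ ball (0 : ℂ) 1
  f_a : ∀ j < m, f j (a j) = p j
  f_b : ∀ j < m, f j (b j) = p (j + 1)

/-- The length of a chain of `m` discs. -/
def chainLength (m : ℕ) (a b : ℕ → ℂ) : ℝ := ∑ j ∈ Finset.range m, poincareDist (a j) (b j)

/-- The Kobayashi distance: the infimum of the lengths of all chains, with any number of discs. -/
def kobayashiDist (Ω : Set E) (z w : E) : ℝ :=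
  sInf {ℓ : ℝ | ∃ (m : ℕ) (p : ℕ → E) (f : ℕ → ℂ → E) (a b : ℕ → ℂ),
    IsKobayashiChain Ω z w m p f a b ∧ ℓ = chainLength m a b}

/-- The value `D²r(z)(u, v)` of the second real derivative of `r` at `z`. -/
def secondDeriv (r : E → ℝ) (z u v : E) : ℝ := fderiv ℝ (fun y => fderiv ℝ r y v) z u

/-- The Levi form of `r` at `z` in the direction `v`, that is the sum over `j, k` of
`(∂²r/∂z_j ∂z̄_k)(z) v_j v̄_k`, written with the real second derivative as
`(D²r(z)(v, v) + D²r(z)(iv, iv)) / 4`. -/
def leviForm (r : E → ℝ) (z v : E) : ℝ :=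
  (secondDeriv r z v v + secondDeriv r z (Complex.I • v) (Complex.I • v)) / 4

/-- `v` lies in the complex tangent space at `z` of the level set of `r` through `z`: it consists
of the `v` with `dr(z)(v) = dr(z)(iv) = 0`. -/
def IsComplexTangent (r : E → ℝ) (z v : E) : Prop :=
  fderiv ℝ r z v = 0 ∧ fderiv ℝ r z (Complex.I • v) = 0

/-- `r` is a global `C²` defining function of `Ω`. -/
def IsDefiningFunction (Ω : Set E) (r : E → ℝ) : Prop :=
  ContDiff ℝ 2 r ∧ Ω = {z | r z < 0} ∧ ∀ z ∈ frontier Ω, r z = 0 ∧ ∃ v, fderiv ℝ r z v ≠ 0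

/-- `Ω` is a bounded domain with a global `C²` defining function whose Levi form is positive
definite on the complex tangent space at every boundary point. -/
structure IsStronglyPseudoconvexDomain (Ω : Set E) : Prop where
  isOpen : IsOpen Ω
  isConnected : IsConnected Ω
  isBounded : Bornology.IsBounded Ω
  exists_defining : ∃ r : E → ℝ, IsDefiningFunction Ω r ∧
    ∀ z ∈ frontier Ω, ∀ v : E, v ≠ 0 → IsComplexTangent r z v → 0 < leviForm r z v

end

end Pool.Agent.Helper269.KcDefs
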