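import Mathlib

namespace Pool.Agent.Helper269.KcE

open Complex Metric Set Filter Topology

noncomputable section

/-- the quantity whose vanishing characterises critical points (unperturbed) -/
lemma no_critical {A : ℝ} (hA : 16 ≤ A) {T T' y : ℂ} (hT : T' = 0 → T ^ 2 = 1)
    (hlev : A * ‖T ^ 2 - y ^ 2‖ ^ 2 + ‖y - 1 / 2‖ ^ 2 = 1)
    (hx : (A : ℂ) * (starRingEnd ℂ) (T ^ 2 - y ^ 2) * (2 * T * T') = 0)
    (hy : (A : ℂ) * (starRingEnd ℂ) (T ^ 2 - y ^ 2) * (-2 * y) + (starRingEnd ℂ) (y - 1 / 2) = 0) :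
    False := by
  have hA0 : (A : ℂ) ≠ 0 := by
    have : A ≠ 0 := by linarith
    exact_mod_cast this
  have hyn : 2 * A * ‖T ^ 2 - y ^ 2‖ * ‖y‖ = ‖y - 1 / 2‖ := by
    have h1 : (starRingEnd ℂ) (y - 1 / 2) = (A : ℂ) * (starRingEnd ℂ) (T ^ 2 - y ^ 2) * (2 * y) := by
      linear_combination hy
    have h2 := congrArg norm h1
    rw [RCLike.norm_conj, norm_mul, norm_mul, norm_mul, RCLike.norm_conj, Complex.norm_real,
      Real.norm_of_nonneg (by linarith : (0:ℝ) ≤ A)] at h2
    have h3 : ‖(2 : ℂ)‖ = 2 := by norm_num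
    rw [h3] at h2
    linarith
  have hd1 : ‖y - 1 / 2‖ ≤ 1 := by
    have : 0 ≤ A * ‖T ^ 2 - y ^ 2‖ ^ 2 := by positivity
    nlinarith [norm_nonneg (y - 1 / 2)]
  rcases mul_eq_zero.1 hx with h1 | h1
  · rcases mul_eq_zero.1 h1 with h2 | h2
    · exact hA0 h2
    · have hP : T ^ 2 - y ^ 2 = 0 := by
        have := congrArg (starRingEnd ℂ) h2
        simpa using this
      rw [hP, norm_zero] at hyn hlev
      have : ‖y - 1 / 2‖ = 0 := by rw [← hyn]; ring
      rw [this] at hlev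
      norm_num at hlev
  · rcases mul_eq_zero.1 h1 with h2 | h2
    · have hT0 : T = 0 := by
        rcases mul_eq_zero.1 h2 with h3 | h3
        · norm_num at h3
        · exact h3
      rw [hT0] at hy hlev hyn
      have e0 : (0 : ℂ) ^ 2 - y ^ 2 = - y ^ 2 := by ring
      rw [e0] at hy hlev hyn
      rw [norm_neg, norm_pow] at hlev hyn
      -- conj y (2 A |y|^2 + 1) = 1/2
      have h4 : (starRingEnd ℂ) y * ((2 * A * ‖y‖ ^ 2 + 1 : ℝ) : ℂ) = 1 / 2 := by
        have h5 : (starRingEnd ℂ) y * y = ((‖y‖ ^ 2 : ℝ) : ℂ) := by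
          rw [mul_comm, Complex.mul_conj, Complex.normSq_eq_norm_sq]
        have h6 : (starRingEnd ℂ) (y - 1 / 2) = (starRingEnd ℂ) y - 1 / 2 := by
          rw [map_sub, map_div₀, map_one, map_ofNat]
        rw [h6] at hy
        rw [map_neg, map_pow] at hy
        push_cast
        push_cast at h5
        have h7 : (A : ℂ) * (starRingEnd ℂ) y ^ 2 * (2 * y) + ((starRingEnd ℂ) y - 1 / 2) = 0 := by
          linear_combination hy
        have h8 : (A : ℂ) * (starRingEnd ℂ) y ^ 2 * (2 * y) =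
            2 * A * (starRingEnd ℂ) y * (‖y‖ : ℂ) ^ 2 := by
          rw [← h5]; ring
        rw [h8] at h7
        linear_combination h7
      have h9 := congrArg norm h4
      rw [norm_mul, RCLike.norm_conj, Complex.norm_real] at h9
      have h10 : ‖(1 / 2 : ℂ)‖ = 1 / 2 := by norm_num
      rw [h10, Real.norm_of_nonneg (by positivity)] at h9
      set t := ‖y‖ with ht
      have ht0 : 0 ≤ t := norm_nonneg y
      rw [← hyn] at hlev
      -- t (s+1) = 1/2, s = 2 A t^2
      have hs : t * (2 * A * t ^ 2 + 1) = 1 / 2 := h9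
      have hA' : 0 ≤ A := by linarith
      set s := 2 * A * t ^ 2 with hsdef
      have hs0 : 0 ≤ s := by positivity
      have e1 : A * (t ^ 2) ^ 2 + (2 * A * t ^ 2 * t) ^ 2 = t ^ 2 * (s / 2 + s ^ 2) := by
        rw [hsdef]; ring
      rw [e1] at hlev
      have e2 : t ^ 2 * (s + 1) ^ 2 = 1 / 4 := by
        have : (t * (s + 1)) ^ 2 = (1 / 2) ^ 2 := by rw [hs]
        nlinarith
      nlinarith [sq_nonneg t, mul_nonneg (sq_nonneg t) hs0]
    · have hT2 := hT h2
      rw [hT2] at hlev hyn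
      set p := ‖1 - y ^ 2‖ with hp
      set d := ‖y - 1 / 2‖ with hd
      set m := ‖y‖ with hm
      have hp0 : 0 ≤ p := norm_nonneg _
      have hm0 : 0 ≤ m := norm_nonneg _
      have hd0 : 0 ≤ d := norm_nonneg _
      have hplus : 1 / 2 ≤ ‖1 + y‖ := by
        have h3 : ‖(3 / 2 : ℂ)‖ ≤ ‖1 + y‖ + ‖y - 1 / 2‖ := by
          have := norm_sub_le (1 + y) (y - 1 / 2)
          have e : (1 + y) - (y - 1 / 2) = (3 / 2 : ℂ) := by ring
          rwa [e] at this
        have h4 : ‖(3 / 2 : ℂ)‖ = 3 / 2 := by norm_num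
        rw [h4] at h3
        linarith
      have hprod : p = ‖1 - y‖ * ‖1 + y‖ := by
        rw [hp, ← norm_mul]
        congr 1
        ring
      by_cases hmc : m < 1 / 4
      · have h5 : 15 / 16 ≤ p := by
          have h6 : ‖(1 : ℂ)‖ ≤ ‖1 - y ^ 2‖ + ‖y ^ 2‖ := by
            have := norm_add_le (1 - y ^ 2) (y ^ 2)
            simpa using this
          rw [norm_one, norm_pow] at h6
          nlinarith
        nlinarith [sq_nonneg d, mul_nonneg hp0 hp0]
      · push Not at hmc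
        have h7 : A * p ≤ 2 := by nlinarith [mul_nonneg (by linarith : (0:ℝ) ≤ A) hp0]
        have h8 : p ≤ 1 / 8 := by nlinarith
        have h9 : A * p ^ 2 ≤ 1 / 4 := by nlinarith
        have h10 : ‖1 - y‖ ≤ 1 / 4 := by
          nlinarith [norm_nonneg (1 - y)]
        have h11 : d ≤ 3 / 4 := by
          have h12 : ‖y - 1 / 2‖ ≤ ‖1 - y‖ + ‖(1 / 2 : ℂ)‖ := by
            have := norm_sub_le (1 / 2 : ℂ) (1 - y)
            have e : (1 / 2 : ℂ) - (1 - y) = y - 1 / 2 := by ring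
            rw [e] at this
            linarith
          have h13 : ‖(1 / 2 : ℂ)‖ = 1 / 2 := by norm_num
          rw [h13] at h12
          linarith
        nlinarith

/-- minimum modulus principle on a bounded open set -/
lemma exists_zero {U : Set ℂ} (hU : IsOpen U) (hb : Bornology.IsBounded U) {Q : ℂ → ℂ}
    (hQ : Differentiable ℂ Q) {x : ℂ} (hx : x ∈ U) {c : ℝ} (hc : ‖Q x‖ ^ 2 < c)
    (hfr : ∀ z ∈ frontier U, c ≤ ‖Q z‖ ^ 2) : ∃ x₀ ∈ U, Q x₀ = 0 := by
  by_contra hcon
  push Not at hcon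
  have hc0 : 0 < c := lt_of_le_of_lt (sq_nonneg _) hc
  have hne : ∀ z ∈ closure U, Q z ≠ 0 := by
    intro z hz
    by_cases hzU : z ∈ U
    · exact hcon z hzU
    · have hzf : z ∈ frontier U := by
        rw [frontier, hU.interior_eq]
        exact ⟨hz, hzU⟩
      have := hfr z hzf
      intro h0
      rw [h0] at this
      simp at this
      linarith
  have hd : DiffContOnCl ℂ (fun z => (Q z)⁻¹) U := by
    constructor
    · intro z hz
      exact ((hQ z).inv (hcon z hz)).differentiableWithinAt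
    · exact ContinuousOn.inv₀ hQ.continuous.continuousOn hne
  have hbd : ∀ z ∈ frontier U, ‖(Q z)⁻¹‖ ≤ (Real.sqrt c)⁻¹ := by
    intro z hz
    rw [norm_inv]
    have h1 : Real.sqrt c ≤ ‖Q z‖ := Real.sqrt_le_iff.2 ⟨norm_nonneg _, hfr z hz⟩
    exact inv_anti₀ (Real.sqrt_pos.2 hc0) h1
  have key := Complex.norm_le_of_forall_mem_frontier_norm_le hb hd hbd (subset_closure hx)
  rw [norm_inv] at key
  have hQx : 0 < ‖Q x‖ := norm_pos_iff.2 (hcon x hx)
  have h2 : Real.sqrt c ≤ ‖Q x‖ := by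
    rwa [inv_le_inv₀ hQx (Real.sqrt_pos.2 hc0)] at key
  have h3 := Real.sqrt_le_iff.1 h2
  linarith [h3.2]

end

end Pool.Agent.Helper269.KcE
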