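import Mathlib
import Pool.Agent.Helper269.KcB
import Pool.Agent.Helper269.KcC
import Pool.Agent.Helper269.KcE

namespace Pool.Agent.Helper269.KcF

open Complex Metric Set Filter Topology Polynomial
open Pool.Agent.Helper269.KcB Pool.Agent.Helper269.KcC Pool.Agent.Helper269.KcE

noncomputable section

/-- complex Euclidean space -/
abbrev CS (n : ℕ) := EuclideanSpace ℂ (Fin n)

def Td (M : ℕ) (x : ℂ) : ℂ := (derivative (Chebyshev.T ℂ (M : ℤ))).eval x

lemma hasDerivAt_Tf (M : ℕ) (x : ℂ) : HasDerivAt (Tf M) (Td M x) x :=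
  Polynomial.hasDerivAt _ x

lemma continuous_Tf (M : ℕ) : Continuous (Tf M) := Polynomial.continuous _

lemma continuous_Td (M : ℕ) : Continuous (Td M) := Polynomial.continuous _

lemma differentiable_Tf (M : ℕ) : Differentiable ℂ (Tf M) := fun x =>
  (hasDerivAt_Tf M x).differentiableAt

lemma contDiff_Tf (M : ℕ) {n : WithTop ℕ∞} : ContDiff ℂ n (Tf M) :=
  (differentiable_Tf M).contDiff

def wt (δ : ℝ) {k : ℕ} (j : Fin (k + 2)) : ℂ := if j = 0 then ((Real.sqrt δ : ℝ) : ℂ) else 1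

def sh {k : ℕ} (j : Fin (k + 2)) : ℂ := if j = 1 then 1 / 2 else 0

def hol (M : ℕ) (A δ : ℝ) (k : ℕ) : Option (Fin (k + 2)) → CS (k + 2) → ℂ
  | none => fun z => ((Real.sqrt A : ℝ) : ℂ) * (Tf M (z 0) ^ 2 - (z 1) ^ 2)
  | some j => fun z => wt δ j * z j - sh j

lemma ss_ne_one {k : ℕ} (j : Fin k) : (j.succ.succ : Fin (k + 2)) ≠ 1 := by
  intro h
  rw [← Fin.succ_zero_eq_one, Fin.succ_inj] at h
  exact Fin.succ_ne_zero _ h

lemma wt_zero (δ : ℝ) {k : ℕ} : wt δ (0 : Fin (k + 2)) = ((Real.sqrt δ : ℝ) : ℂ) := by simp [wt]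
lemma wt_one (δ : ℝ) {k : ℕ} : wt δ (1 : Fin (k + 2)) = 1 := by simp [wt]
lemma wt_ss (δ : ℝ) {k : ℕ} (j : Fin k) : wt δ (j.succ.succ : Fin (k + 2)) = 1 := by
  simp [wt, Fin.succ_ne_zero]
lemma sh_zero {k : ℕ} : sh (0 : Fin (k + 2)) = 0 := by simp [sh]
lemma sh_one {k : ℕ} : sh (1 : Fin (k + 2)) = 1 / 2 := by simp [sh]
lemma sh_ss {k : ℕ} (j : Fin k) : sh (j.succ.succ : Fin (k + 2)) = 0 := by
  simp [sh, ss_ne_one]

lemma hol_zero (M : ℕ) (A δ : ℝ) (k : ℕ) (z : CS (k + 2)) :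
    hol M A δ k (some 0) z = ((Real.sqrt δ : ℝ) : ℂ) * z 0 := by
  simp only [hol, wt_zero, sh_zero, sub_zero]
lemma hol_one (M : ℕ) (A δ : ℝ) (k : ℕ) (z : CS (k + 2)) :
    hol M A δ k (some 1) z = z 1 - 1 / 2 := by
  simp only [hol, wt_one, sh_one, one_mul]
lemma hol_ss (M : ℕ) (A δ : ℝ) (k : ℕ) (z : CS (k + 2)) (j : Fin k) :
    hol M A δ k (some j.succ.succ) z = z j.succ.succ := by
  simp only [hol, wt_ss, sh_ss, one_mul, sub_zero]

lemma contDiff_hol (M : ℕ) (A δ : ℝ) (k : ℕ) (i : Option (Fin (k + 2))) {n : WithTop ℕ∞} :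
    ContDiff ℂ n (hol M A δ k i) := by
  have hc : ∀ j : Fin (k + 2), ContDiff ℂ n (fun z : CS (k + 2) => z j) := fun j =>
    (EuclideanSpace.proj (𝕜 := ℂ) j).contDiff
  cases i with
  | none =>
    unfold hol
    exact contDiff_const.mul ((((contDiff_Tf M).comp (hc 0)).pow 2).sub ((hc 1).pow 2))
  | some j =>
    unfold hol
    exact (contDiff_const.mul (hc j)).sub contDiff_const

lemma fderiv_hol_none (M : ℕ) (A δ : ℝ) (k : ℕ) (z v : CS (k + 2)) :
    fderiv ℂ (hol M A δ k none) z v =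
      ((Real.sqrt A : ℝ) : ℂ) * (2 * Tf M (z 0) * Td M (z 0) * v 0 - 2 * z 1 * v 1) := by
  have h0 : HasFDerivAt (fun z : CS (k + 2) => z 0) (EuclideanSpace.proj (𝕜 := ℂ) 0) z :=
    (EuclideanSpace.proj (𝕜 := ℂ) (0 : Fin (k + 2))).hasFDerivAt
  have h1 : HasFDerivAt (fun z : CS (k + 2) => z 1) (EuclideanSpace.proj (𝕜 := ℂ) 1) z :=
    (EuclideanSpace.proj (𝕜 := ℂ) (1 : Fin (k + 2))).hasFDerivAt
  have h2 := (hasDerivAt_Tf M (z 0)).comp_hasFDerivAt z h0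
  have h3 := ((h2.pow 2).sub (h1.pow 2)).const_mul ((Real.sqrt A : ℝ) : ℂ)
  have h4 : HasFDerivAt (hol M A δ k none) _ z := h3
  rw [h4.fderiv]
  have hp : ∀ j : Fin (k + 2), (EuclideanSpace.proj (𝕜 := ℂ) j : CS (k + 2) →L[ℂ] ℂ) v = v j :=
    fun _ => rfl
  simp only [smul_apply, sub_apply, hp, smul_eq_mul, Function.comp_apply, nsmul_eq_mul]
  push_cast
  ring

lemma fderiv_hol_some (M : ℕ) (A δ : ℝ) (k : ℕ) (j : Fin (k + 2)) (z v : CS (k + 2)) :
    fderiv ℂ (hol M A δ k (some j)) z v = wt δ j * v j := by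
  have h0 : HasFDerivAt (fun z : CS (k + 2) => z j) (EuclideanSpace.proj (𝕜 := ℂ) j) z :=
    (EuclideanSpace.proj (𝕜 := ℂ) j).hasFDerivAt
  have h3 := (h0.const_mul (wt δ j)).sub_const (sh j)
  have h4 : HasFDerivAt (hol M A δ k (some j)) _ z := h3
  rw [h4.fderiv]
  simp

/-- the defining function -/
def rr (M : ℕ) (A δ : ℝ) (k : ℕ) : CS (k + 2) → ℝ := sos (hol M A δ k)

lemma rr_eq {M : ℕ} {A δ : ℝ} (hA : 0 ≤ A) (hδ : 0 ≤ δ) (k : ℕ) (z : CS (k + 2)) :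
    rr M A δ k z = A * ‖Tf M (z 0) ^ 2 - (z 1) ^ 2‖ ^ 2 + δ * ‖z 0‖ ^ 2 + ‖z 1 - 1 / 2‖ ^ 2 +
      (∑ j : Fin k, ‖z j.succ.succ‖ ^ 2) - 1 := by
  unfold rr sos
  rw [Fintype.sum_option, Fin.sum_univ_succ, Fin.sum_univ_succ]
  have e1 : ‖hol M A δ k none z‖ ^ 2 = A * ‖Tf M (z 0) ^ 2 - (z 1) ^ 2‖ ^ 2 := by
    simp only [hol]
    rw [norm_mul, mul_pow, Complex.norm_real, Real.norm_of_nonneg (Real.sqrt_nonneg A),
      Real.sq_sqrt hA]
  have e2 : ‖hol M A δ k (some 0) z‖ ^ 2 = δ * ‖z 0‖ ^ 2 := by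
    rw [hol_zero, norm_mul, mul_pow, Complex.norm_real, Real.norm_of_nonneg (Real.sqrt_nonneg δ),
      Real.sq_sqrt hδ]
  have e3 : ‖hol M A δ k (some (Fin.succ 0)) z‖ ^ 2 = ‖z 1 - 1 / 2‖ ^ 2 := by
    rw [Fin.succ_zero_eq_one, hol_one]
  have e4 : ∀ j : Fin k, ‖hol M A δ k (some j.succ.succ) z‖ ^ 2 = ‖z j.succ.succ‖ ^ 2 := by
    intro j
    rw [hol_ss]
  rw [e1, e2, e3]
  simp only [e4]
  ring

/-- the domain -/
def Om (M : ℕ) (A δ : ℝ) (k : ℕ) : Set (CS (k + 2)) := {z | rr M A δ k z < 0}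

lemma contDiff_rr (M : ℕ) (A δ : ℝ) (k : ℕ) : ContDiff ℝ 2 (rr M A δ k) :=
  contDiff_sos (fun i => contDiff_hol M A δ k i)

lemma continuous_rr (M : ℕ) (A δ : ℝ) (k : ℕ) : Continuous (rr M A δ k) :=
  (contDiff_rr M A δ k).continuous

lemma isOpen_Om (M : ℕ) (A δ : ℝ) (k : ℕ) : IsOpen (Om M A δ k) :=
  isOpen_lt (continuous_rr M A δ k) continuous_const

lemma frontier_Om {M : ℕ} {A δ : ℝ} {k : ℕ} {z : CS (k + 2)} (hz : z ∈ frontier (Om M A δ k)) :
    rr M A δ k z = 0 := by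
  have := frontier_lt_subset_eq (continuous_rr M A δ k) continuous_const hz
  exact this

lemma lev_rr_pos {M : ℕ} {A δ : ℝ} (hδ : 0 < δ) {k : ℕ} (z v : CS (k + 2)) (hv : v ≠ 0) :
    0 < lev (rr M A δ k) z v := by
  unfold rr
  rw [lev_sos (fun i => contDiff_hol M A δ k i)]
  obtain ⟨j, hj⟩ : ∃ j, v j ≠ 0 := by
    by_contra hcon
    push Not at hcon
    apply hv
    ext j
    simpa using hcon j
  have hw : wt δ j ≠ 0 := by
    unfold wt
    split_ifs
    · exact_mod_cast (Real.sqrt_pos.2 hδ).ne'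
    · exact one_ne_zero
  have h1 : 0 < ‖fderiv ℂ (hol M A δ k (some j)) z v‖ ^ 2 := by
    rw [fderiv_hol_some]
    have : wt δ j * v j ≠ 0 := mul_ne_zero hw hj
    positivity
  have h2 : 0 < ∑ i, ‖fderiv ℂ (hol M A δ k i) z v‖ ^ 2 :=
    Finset.sum_pos' (fun i _ => sq_nonneg _) ⟨some j, Finset.mem_univ _, h1⟩
  linarith

/-- consequences of being a critical point -/
lemma crit_rr {M : ℕ} {A δ : ℝ} (hA : 0 ≤ A) (hδ : 0 ≤ δ) {k : ℕ} {z : CS (k + 2)}
    (hz : fderiv ℝ (rr M A δ k) z = 0) :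
    ((A : ℂ) * (starRingEnd ℂ) (Tf M (z 0) ^ 2 - (z 1) ^ 2) * (2 * Tf M (z 0) * Td M (z 0))
        + (δ : ℂ) * (starRingEnd ℂ) (z 0) = 0) ∧
    ((A : ℂ) * (starRingEnd ℂ) (Tf M (z 0) ^ 2 - (z 1) ^ 2) * (-2 * z 1)
        + (starRingEnd ℂ) (z 1 - 1 / 2) = 0) ∧
    (∀ j : Fin k, z j.succ.succ = 0) := by
  have hS : ∀ v : CS (k + 2), ∑ i, (starRingEnd ℂ) (hol M A δ k i z) *
      fderiv ℂ (hol M A δ k i) z v = 0 := by
    intro v
    have h1 : fderiv ℝ (rr M A δ k) z v = 0 := by rw [hz]; rfl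
    have h2 : fderiv ℝ (rr M A δ k) z (Complex.I • v) = 0 := by rw [hz]; rfl
    unfold rr at h1 h2
    rw [fderiv_sos_apply (fun i => contDiff_hol M A δ k i)] at h1 h2
    have e : ∑ i, (starRingEnd ℂ) (hol M A δ k i z) *
        fderiv ℂ (hol M A δ k i) z (Complex.I • v) =
        Complex.I * ∑ i, (starRingEnd ℂ) (hol M A δ k i z) * fderiv ℂ (hol M A δ k i) z v := by
      rw [Finset.mul_sum]
      apply Finset.sum_congr rfl
      intro i _
      rw [map_smul, smul_eq_mul]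
      ring
    rw [e] at h2
    rw [Complex.I_mul_re] at h2
    apply Complex.ext
    · rw [Complex.zero_re]; linarith
    · rw [Complex.zero_im]; linarith
  have hsA : ((Real.sqrt A : ℝ) : ℂ) * ((Real.sqrt A : ℝ) : ℂ) = (A : ℂ) := by
    rw [← Complex.ofReal_mul, Real.mul_self_sqrt hA]
  have hsδ : ((Real.sqrt δ : ℝ) : ℂ) * ((Real.sqrt δ : ℝ) : ℂ) = (δ : ℂ) := by
    rw [← Complex.ofReal_mul, Real.mul_self_sqrt hδ]
  have hexp : ∀ v : CS (k + 2), (A : ℂ) * (starRingEnd ℂ) (Tf M (z 0) ^ 2 - (z 1) ^ 2) *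
      (2 * Tf M (z 0) * Td M (z 0) * v 0 - 2 * z 1 * v 1) + (δ : ℂ) * (starRingEnd ℂ) (z 0) * v 0 +
      (starRingEnd ℂ) (z 1 - 1 / 2) * v 1 +
      ∑ j : Fin k, (starRingEnd ℂ) (z j.succ.succ) * v j.succ.succ = 0 := by
    intro v
    have h := hS v
    rw [Fintype.sum_option, Fin.sum_univ_succ, Fin.sum_univ_succ] at h
    simp only [fderiv_hol_some, fderiv_hol_none] at h
    have e1 : (starRingEnd ℂ) (hol M A δ k none z) *
        (((Real.sqrt A : ℝ) : ℂ) * (2 * Tf M (z 0) * Td M (z 0) * v 0 - 2 * z 1 * v 1)) =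
        (A : ℂ) * (starRingEnd ℂ) (Tf M (z 0) ^ 2 - (z 1) ^ 2) *
      (2 * Tf M (z 0) * Td M (z 0) * v 0 - 2 * z 1 * v 1) := by
      simp only [hol]
      rw [map_mul, Complex.conj_ofReal, ← hsA]
      ring
    have e2 : (starRingEnd ℂ) (hol M A δ k (some 0) z) * (wt δ (0 : Fin (k + 2)) * v 0) =
        (δ : ℂ) * (starRingEnd ℂ) (z 0) * v 0 := by
      rw [hol_zero, wt_zero, map_mul, Complex.conj_ofReal, ← hsδ]
      ring
    have e3 : (starRingEnd ℂ) (hol M A δ k (some (Fin.succ 0)) z) *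
        (wt δ (Fin.succ 0 : Fin (k + 2)) * v (Fin.succ 0)) =
        (starRingEnd ℂ) (z 1 - 1 / 2) * v 1 := by
      rw [Fin.succ_zero_eq_one, hol_one, wt_one, one_mul]
    have e4 : ∀ j : Fin k, (starRingEnd ℂ) (hol M A δ k (some j.succ.succ) z) *
        (wt δ j.succ.succ * v j.succ.succ) = (starRingEnd ℂ) (z j.succ.succ) * v j.succ.succ := by
      intro j
      rw [hol_ss, wt_ss, one_mul]
    rw [e1, e2, e3] at h
    simp only [e4] at h
    rw [← h]
    ring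
  refine ⟨?_, ?_, ?_⟩
  · have h := hexp (EuclideanSpace.single 0 1)
    have e1 : (EuclideanSpace.single (0 : Fin (k + 2)) (1 : ℂ)) 0 = 1 := by simp
    have e2 : (EuclideanSpace.single (0 : Fin (k + 2)) (1 : ℂ)) 1 = 0 := by simp
    have e3 : ∀ j : Fin k, (EuclideanSpace.single (0 : Fin (k + 2)) (1 : ℂ)) j.succ.succ = 0 := by
      intro j
      simp
    rw [e1, e2] at h
    simp only [e3, mul_zero, Finset.sum_const_zero, mul_one, sub_zero, add_zero] at h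
    exact h
  · have h := hexp (EuclideanSpace.single 1 1)
    have e1 : (EuclideanSpace.single (1 : Fin (k + 2)) (1 : ℂ)) 0 = 0 := by simp
    have e2 : (EuclideanSpace.single (1 : Fin (k + 2)) (1 : ℂ)) 1 = 1 := by simp
    have e3 : ∀ j : Fin k, (EuclideanSpace.single (1 : Fin (k + 2)) (1 : ℂ)) j.succ.succ = 0 := by
      intro j
      have : (j.succ.succ : Fin (k + 2)) ≠ 1 := by
        intro h
        have : (j.succ.succ : Fin (k + 2)) = Fin.succ 0 := h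
        rw [Fin.succ_inj] at this
        exact Fin.succ_ne_zero _ this
      simp [this]
    rw [e1, e2] at h
    simp only [e3, mul_zero, Finset.sum_const_zero, mul_one, add_zero] at h
    rw [← h]
    ring
  · intro j
    have h := hexp (EuclideanSpace.single j.succ.succ 1)
    have hne1 : (j.succ.succ : Fin (k + 2)) ≠ 1 := by
      intro h
      have : (j.succ.succ : Fin (k + 2)) = Fin.succ 0 := h
      rw [Fin.succ_inj] at this
      exact Fin.succ_ne_zero _ this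
    have e1 : (EuclideanSpace.single (j.succ.succ : Fin (k + 2)) (1 : ℂ)) 0 = 0 := by simp
    have e2 : (EuclideanSpace.single (j.succ.succ : Fin (k + 2)) (1 : ℂ)) 1 = 0 := by
      simp [Ne.symm hne1]
    have e3 : ∀ i : Fin k, (starRingEnd ℂ) (z i.succ.succ) *
        (EuclideanSpace.single (j.succ.succ : Fin (k + 2)) (1 : ℂ)) i.succ.succ =
        if i = j then (starRingEnd ℂ) (z j.succ.succ) else 0 := by
      intro i
      by_cases hij : i = j
      · subst hij; simp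
      · rw [if_neg hij]
        have : (i.succ.succ : Fin (k + 2)) ≠ j.succ.succ := by
          intro h
          rw [Fin.succ_inj, Fin.succ_inj] at h
          exact hij h
        simp [this]
    rw [e1, e2] at h
    simp only [e3, mul_zero, sub_zero, add_zero, zero_add, Finset.sum_ite_eq', Finset.mem_univ,
      if_true] at h
    have := congrArg (starRingEnd ℂ) h
    simpa using this

end

end Pool.Agent.Helper269.KcF
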