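import Mathlib
import Pool.Agent.Helper269.KcF

namespace Pool.Agent.Helper269.KcG

open Complex Metric Set Filter Topology Polynomial
open Pool.Agent.Helper269.KcB Pool.Agent.Helper269.KcC Pool.Agent.Helper269.KcE
open Pool.Agent.Helper269.KcF

noncomputable section

/-- the measure of non-criticality of the unperturbed function -/
def Phi (M : ℕ) (A : ℝ) (q : ℂ × ℂ) : ℝ :=
  |A * ‖Tf M q.1 ^ 2 - q.2 ^ 2‖ ^ 2 + ‖q.2 - 1 / 2‖ ^ 2 - 1| +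
  ‖(A : ℂ) * (starRingEnd ℂ) (Tf M q.1 ^ 2 - q.2 ^ 2) * (2 * Tf M q.1 * Td M q.1)‖ +
  ‖(A : ℂ) * (starRingEnd ℂ) (Tf M q.1 ^ 2 - q.2 ^ 2) * (-2 * q.2) +
    (starRingEnd ℂ) (q.2 - 1 / 2)‖

lemma continuous_Phi (M : ℕ) (A : ℝ) : Continuous (Phi M A) := by
  have h1 : Continuous (fun q : ℂ × ℂ => Tf M q.1) := (continuous_Tf M).comp continuous_fst
  have h2 : Continuous (fun q : ℂ × ℂ => Td M q.1) := (continuous_Td M).comp continuous_fst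
  unfold Phi
  fun_prop

lemma Phi_pos {M : ℕ} (hM : M ≠ 0) {A : ℝ} (hA : 16 ≤ A) (q : ℂ × ℂ) : 0 < Phi M A q := by
  by_contra hcon
  push Not at hcon
  unfold Phi at hcon
  set a1 := |A * ‖Tf M q.1 ^ 2 - q.2 ^ 2‖ ^ 2 + ‖q.2 - 1 / 2‖ ^ 2 - 1| with ha1
  set a2 := ‖(A : ℂ) * (starRingEnd ℂ) (Tf M q.1 ^ 2 - q.2 ^ 2) * (2 * Tf M q.1 * Td M q.1)‖ with ha2
  set a3 := ‖(A : ℂ) * (starRingEnd ℂ) (Tf M q.1 ^ 2 - q.2 ^ 2) * (-2 * q.2) +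
    (starRingEnd ℂ) (q.2 - 1 / 2)‖ with ha3
  have p1 : 0 ≤ a1 := abs_nonneg _
  have p2 : 0 ≤ a2 := norm_nonneg _
  have p3 : 0 ≤ a3 := norm_nonneg _
  have z1 : a1 = 0 := by linarith
  have z2 : a2 = 0 := by linarith
  have z3 : a3 = 0 := by linarith
  refine no_critical hA (T := Tf M q.1) (T' := Td M q.1) (y := q.2) ?_ ?_ ?_ ?_
  · intro h
    exact Tf_deriv_zero hM h
  · have := abs_eq_zero.1 z1
    linarith
  · exact norm_eq_zero.1 z2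
  · exact norm_eq_zero.1 z3

lemma exists_params {M : ℕ} (hM : M ≠ 0) {A : ℝ} (hA : 16 ≤ A) :
    ∃ η δ : ℝ, 0 < η ∧ 0 < δ ∧ 9 * δ < η ∧ δ ≤ 1 / 100 ∧
      ∀ (k : ℕ) (z : CS (k + 2)), ‖z 0‖ ≤ 3 → ‖z 1‖ ≤ 2 → |rr M A δ k z| ≤ η →
        fderiv ℝ (rr M A δ k) z ≠ 0 := by
  have hK : IsCompact (closedBall (0 : ℂ) 3 ×ˢ closedBall (0 : ℂ) 2) :=
    (isCompact_closedBall _ _).prod (isCompact_closedBall _ _)
  have hne : (closedBall (0 : ℂ) 3 ×ˢ closedBall (0 : ℂ) 2).Nonempty :=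
    ⟨(0, 0), by simp⟩
  obtain ⟨q0, _, hq0⟩ := hK.exists_isMinOn hne (continuous_Phi M A).continuousOn
  set c := Phi M A q0 with hc
  have hcpos : 0 < c := Phi_pos hM hA q0
  refine ⟨c / 3, min (c / 100) (1 / 100), by positivity, by positivity, ?_, min_le_right _ _, ?_⟩
  · have : min (c / 100) (1 / 100) ≤ c / 100 := min_le_left _ _
    linarith
  · intro k z h0 h1 hlev hcrit
    set δ := min (c / 100) (1 / 100) with hδ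
    have hδ0 : 0 < δ := by positivity
    have hδc : δ ≤ c / 100 := min_le_left _ _
    obtain ⟨e1, e2, e3⟩ := crit_rr (by linarith) hδ0.le hcrit
    rw [rr_eq (by linarith) hδ0.le] at hlev
    have hsum : ∑ j : Fin k, ‖z j.succ.succ‖ ^ 2 = 0 := by
      apply Finset.sum_eq_zero
      intro j _
      rw [e3 j, norm_zero]
      norm_num
    rw [hsum] at hlev
    have hmin : c ≤ Phi M A (z 0, z 1) := by
      apply hq0
      constructor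
      · simpa using h0
      · simpa using h1
    have b1 : |A * ‖Tf M (z 0) ^ 2 - (z 1) ^ 2‖ ^ 2 + ‖z 1 - 1 / 2‖ ^ 2 - 1| ≤ c / 3 + 9 * δ := by
      have h9 : δ * ‖z 0‖ ^ 2 ≤ 9 * δ := by
        have : ‖z 0‖ ^ 2 ≤ 9 := by nlinarith [norm_nonneg (z 0)]
        nlinarith
      have h90 : 0 ≤ δ * ‖z 0‖ ^ 2 := by positivity
      rw [abs_le] at hlev ⊢
      constructor <;> linarith [hlev.1, hlev.2]
    have b2 : ‖(A : ℂ) * (starRingEnd ℂ) (Tf M (z 0) ^ 2 - (z 1) ^ 2) *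
        (2 * Tf M (z 0) * Td M (z 0))‖ ≤ 3 * δ := by
      have : (A : ℂ) * (starRingEnd ℂ) (Tf M (z 0) ^ 2 - (z 1) ^ 2) *
        (2 * Tf M (z 0) * Td M (z 0)) = - ((δ : ℂ) * (starRingEnd ℂ) (z 0)) := by
        linear_combination e1
      rw [this, norm_neg, norm_mul, RCLike.norm_conj, Complex.norm_real,
        Real.norm_of_nonneg hδ0.le]
      nlinarith [norm_nonneg (z 0)]
    have b3 : Phi M A (z 0, z 1) ≤ (c / 3 + 9 * δ) + 3 * δ + 0 := by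
      unfold Phi
      simp only
      rw [e2, norm_zero]
      linarith
    linarith

/-- a priori bounds on the closed sublevel set -/
lemma bounds {M : ℕ} (hM : M ≠ 0) {A δ : ℝ} (hA : 16 ≤ A) (hδ : 0 ≤ δ) {k : ℕ} {z : CS (k + 2)}
    (hz : rr M A δ k z ≤ 0) :
    ‖z 0‖ ≤ 3 ∧ ‖z 1 - 1 / 2‖ ≤ 1 ∧ ‖z 1‖ ≤ 3 / 2 ∧
      A * ‖Tf M (z 0) ^ 2 - (z 1) ^ 2‖ ^ 2 ≤ 1 ∧ ‖Tf M (z 0)‖ ≤ 2 ∧
      (∀ j : Fin k, ‖z j.succ.succ‖ ≤ 1) := by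
  rw [rr_eq (by linarith) hδ] at hz
  have h1 : 0 ≤ A * ‖Tf M (z 0) ^ 2 - (z 1) ^ 2‖ ^ 2 := by positivity
  have h2 : 0 ≤ δ * ‖z 0‖ ^ 2 := by positivity
  have h3 : 0 ≤ ‖z 1 - 1 / 2‖ ^ 2 := by positivity
  have h4 : 0 ≤ ∑ j : Fin k, ‖z j.succ.succ‖ ^ 2 := Finset.sum_nonneg (fun _ _ => sq_nonneg _)
  have c1 : ‖z 1 - 1 / 2‖ ≤ 1 := by nlinarith [norm_nonneg (z 1 - 1 / 2)]
  have c2 : ‖z 1‖ ≤ 3 / 2 := by
    have h5 : ‖z 1‖ ≤ ‖z 1 - 1 / 2‖ + ‖(1 / 2 : ℂ)‖ := by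
      have := norm_add_le (z 1 - 1 / 2) (1 / 2 : ℂ)
      simpa using this
    have h6 : ‖(1 / 2 : ℂ)‖ = 1 / 2 := by norm_num
    linarith
  have c3 : A * ‖Tf M (z 0) ^ 2 - (z 1) ^ 2‖ ^ 2 ≤ 1 := by linarith
  have c4 : ‖Tf M (z 0) ^ 2 - (z 1) ^ 2‖ ≤ 1 / 4 := by
    have : 16 * ‖Tf M (z 0) ^ 2 - (z 1) ^ 2‖ ^ 2 ≤ 1 := by nlinarith [sq_nonneg ‖Tf M (z 0) ^ 2 - (z 1) ^ 2‖]
    nlinarith [norm_nonneg (Tf M (z 0) ^ 2 - (z 1) ^ 2)]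
  have c5 : ‖Tf M (z 0)‖ ≤ 2 := by
    have h7 : ‖Tf M (z 0) ^ 2‖ ≤ ‖Tf M (z 0) ^ 2 - (z 1) ^ 2‖ + ‖(z 1) ^ 2‖ := by
      have := norm_add_le (Tf M (z 0) ^ 2 - (z 1) ^ 2) ((z 1) ^ 2)
      simpa using this
    rw [norm_pow, norm_pow] at h7
    nlinarith [norm_nonneg (Tf M (z 0)), norm_nonneg (z 1)]
  refine ⟨Tf_bound hM c5, c1, c2, c3, c5, ?_⟩
  intro j
  have h8 : ‖z j.succ.succ‖ ^ 2 ≤ ∑ j : Fin k, ‖z j.succ.succ‖ ^ 2 :=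
    Finset.single_le_sum (f := fun j : Fin k => ‖z j.succ.succ‖ ^ 2)
      (fun _ _ => sq_nonneg _) (Finset.mem_univ j)
  nlinarith [norm_nonneg (z j.succ.succ)]

lemma isBounded_le {M : ℕ} (hM : M ≠ 0) {A δ : ℝ} (hA : 16 ≤ A) (hδ : 0 ≤ δ) (k : ℕ) :
    Bornology.IsBounded {z : CS (k + 2) | rr M A δ k z ≤ 0} := by
  rw [isBounded_iff_forall_norm_le]
  refine ⟨Real.sqrt (∑ _j : Fin (k + 2), (3:ℝ) ^ 2), ?_⟩
  intro z hz
  obtain ⟨b0, _, b1, _, _, b2⟩ := bounds hM hA hδ hz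
  rw [EuclideanSpace.norm_eq]
  apply Real.sqrt_le_sqrt
  apply Finset.sum_le_sum
  intro j _
  have hj : ‖z j‖ ≤ 3 := by
    refine Fin.cases b0 (fun i => ?_) j
    refine Fin.cases ?_ (fun l => ?_) i
    · rw [Fin.succ_zero_eq_one]; linarith
    · linarith [b2 l]
  nlinarith [norm_nonneg (z j)]

/-- embedding of the coordinate plane -/
def emb (k : ℕ) (x y : ℂ) : CS (k + 2) :=
  WithLp.toLp 2 (fun j => if j = 0 then x else if j = 1 then y else 0)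

lemma emb_zero (k : ℕ) (x y : ℂ) : emb k x y 0 = x := by simp [emb]
lemma emb_one (k : ℕ) (x y : ℂ) : emb k x y 1 = y := by simp [emb]
lemma emb_ss (k : ℕ) (x y : ℂ) (j : Fin k) : emb k x y j.succ.succ = 0 := by
  simp [emb, ss_ne_one]

lemma eq_emb {k : ℕ} {z : CS (k + 2)} (hz : ∀ j : Fin k, z j.succ.succ = 0) :
    z = emb k (z 0) (z 1) := by
  ext j
  refine Fin.cases ?_ (fun i => ?_) j
  · rw [emb_zero]
  · refine Fin.cases ?_ (fun l => ?_) i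
    · rw [Fin.succ_zero_eq_one, emb_one]
    · rw [emb_ss, hz]

lemma continuous_emb (k : ℕ) : Continuous (fun q : ℂ × ℂ => emb k q.1 q.2) := by
  unfold emb
  apply (PiLp.continuous_toLp 2 _).comp
  apply continuous_pi
  intro j
  split_ifs <;> fun_prop

lemma rr_emb {M : ℕ} {A δ : ℝ} (hA : 0 ≤ A) (hδ : 0 ≤ δ) (k : ℕ) (x y : ℂ) :
    rr M A δ k (emb k x y) =
      A * ‖Tf M x ^ 2 - y ^ 2‖ ^ 2 + δ * ‖x‖ ^ 2 + ‖y - 1 / 2‖ ^ 2 - 1 := by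
  rw [rr_eq hA hδ, emb_zero, emb_one]
  have hsum : ∑ j : Fin k, ‖emb k x y j.succ.succ‖ ^ 2 = 0 := by
    apply Finset.sum_eq_zero
    intro j _
    rw [emb_ss, norm_zero]
    norm_num
  rw [hsum]
  ring

end

end Pool.Agent.Helper269.KcG
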