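import Mathlib
import Pool.Agent.Helper269.KcG

namespace Pool.Agent.Helper269.KcH

open Complex Metric Set Filter Topology Polynomial
open Pool.Agent.Helper269.KcB Pool.Agent.Helper269.KcC Pool.Agent.Helper269.KcE
open Pool.Agent.Helper269.KcF Pool.Agent.Helper269.KcG

noncomputable section

/-- the conclusion of `exists_params` used below -/
def Good (M : ℕ) (A δ η : ℝ) : Prop :=
  0 < η ∧ 0 < δ ∧ 9 * δ < η ∧ δ ≤ 1 / 100 ∧
      ∀ (k : ℕ) (z : CS (k + 2)), ‖z 0‖ ≤ 3 → ‖z 1‖ ≤ 2 → |rr M A δ k z| ≤ η →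
        fderiv ℝ (rr M A δ k) z ≠ 0

lemma clopen_meets {M : ℕ} (hM : M ≠ 0) {A δ η : ℝ} (hA : 16 ≤ A) (hg : Good M A δ η) {k : ℕ}
    {W : Set (CS (k + 2))} (hWo : IsOpen W) (hWsub : W ⊆ Om M A δ k)
    (hWc : IsOpen (Om M A δ k \ W)) (hWn : W.Nonempty) :
    ∃ x : ℂ, emb k x (1 / 2) ∈ W ∧ Tf M x ^ 2 = 1 / 4 := by
  obtain ⟨hη, hδ, hδη, hδ1, hcrit⟩ := hg
  have hA0 : 0 < A := by linarith
  have hcl : closure W ⊆ {z | rr M A δ k z ≤ 0} := by
    apply closure_minimal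
    · intro z hz
      exact le_of_lt (show rr M A δ k z < 0 from hWsub hz)
    · exact isClosed_le (continuous_rr M A δ k) continuous_const
  have hcompact : IsCompact (closure W) :=
    Metric.isCompact_of_isClosed_isBounded isClosed_closure
      ((isBounded_le hM hA hδ.le k).subset hcl)
  -- points of the closure lying in the domain lie in `W`
  have hback : ∀ z ∈ closure W, z ∈ Om M A δ k → z ∈ W := by
    intro z hz hzO
    by_contra hzW
    obtain ⟨w, hw1, hw2⟩ := mem_closure_iff.1 hz _ hWc ⟨hzO, hzW⟩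
    exact hw1.2 hw2
  obtain ⟨p, hp, hpmin⟩ := hcompact.exists_isMinOn hWn.closure (continuous_rr M A δ k).continuousOn
  obtain ⟨w0, hw0⟩ := hWn
  have hpneg : rr M A δ k p < 0 := lt_of_le_of_lt (hpmin (subset_closure hw0)) (hWsub hw0)
  have hpW : p ∈ W := hback p hp hpneg
  have hloc : IsLocalMin (rr M A δ k) p := by
    filter_upwards [hWo.mem_nhds hpW] with q hq
    exact hpmin (subset_closure hq)
  have hfd := hloc.fderiv_eq_zero
  obtain ⟨b0, b1, b2, _, _, _⟩ := bounds hM hA hδ.le hpneg.le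
  have hlow : rr M A δ k p < -η := by
    by_contra hcon
    push Not at hcon
    apply hcrit k p b0 (by linarith) _ hfd
    rw [abs_le]
    constructor <;> linarith
  obtain ⟨_, _, e3⟩ := crit_rr hA0.le hδ.le hfd
  set xs := p 0 with hxs
  set ys := p 1 with hys
  have hpe : p = emb k xs ys := eq_emb e3
  rw [hpe, rr_emb hA0.le hδ.le] at hlow
  -- first slice
  have hcont1 : Continuous (fun x : ℂ => emb k x ys) :=
    (continuous_emb k).comp (continuous_id.prodMk continuous_const)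
  set U1 : Set ℂ := {x | emb k x ys ∈ W} with hU1
  have hU1o : IsOpen U1 := hWo.preimage hcont1
  have hU1b : Bornology.IsBounded U1 := by
    rw [isBounded_iff_forall_norm_le]
    refine ⟨3, fun x hx => ?_⟩
    have := (bounds hM hA hδ.le (le_of_lt (hWsub hx))).1
    rwa [emb_zero] at this
  have hU1x : xs ∈ U1 := by
    show emb k xs ys ∈ W
    rw [← hpe]; exact hpW
  have hfr1 : ∀ z ∈ frontier U1, ‖z‖ ≤ 3 ∧ 0 ≤ rr M A δ k (emb k z ys) := by
    intro z hz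
    rw [frontier, hU1o.interior_eq] at hz
    have h1 : emb k z ys ∈ closure W := by
      exact hcont1.closure_preimage_subset W hz.1
    have h2 : emb k z ys ∉ W := hz.2
    have h3 : emb k z ys ∉ Om M A δ k := fun h => h2 (hback _ h1 h)
    refine ⟨?_, not_lt.1 h3⟩
    have := (bounds hM hA hδ.le (hcl h1)).1
    rwa [emb_zero] at this
  have hdT := differentiable_Tf M
  obtain ⟨x0, hx0U, hx0⟩ := exists_zero hU1o hU1b (Q := fun x => Tf M x ^ 2 - ys ^ 2)
    ((hdT.pow 2).sub (differentiable_const _)) hU1x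
    (c := (1 - ‖ys - 1 / 2‖ ^ 2 - 9 * δ) / A) (by
      rw [lt_div_iff₀ hA0]
      have : 0 ≤ δ * ‖xs‖ ^ 2 := by positivity
      nlinarith) (by
      intro z hz
      obtain ⟨h1, h2⟩ := hfr1 z hz
      rw [rr_emb hA0.le hδ.le] at h2
      rw [div_le_iff₀ hA0]
      have h9 : δ * ‖z‖ ^ 2 ≤ 9 * δ := by
        have : ‖z‖ ^ 2 ≤ 9 := by nlinarith [norm_nonneg z]
        nlinarith
      nlinarith)
  -- sign
  obtain ⟨s, hs, hsy⟩ : ∃ s : ℂ, s ^ 2 = 1 ∧ ys = s * Tf M x0 := by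
    have h1 : (Tf M x0 - ys) * (Tf M x0 + ys) = 0 := by
      have : Tf M x0 ^ 2 - ys ^ 2 = 0 := hx0
      linear_combination this
    rcases mul_eq_zero.1 h1 with h2 | h2
    · exact ⟨1, by norm_num, by linear_combination -h2⟩
    · exact ⟨-1, by norm_num, by linear_combination h2⟩
  have hcont2 : Continuous (fun x : ℂ => emb k x (s * Tf M x)) :=
    (continuous_emb k).comp (continuous_id.prodMk (continuous_const.mul (continuous_Tf M)))
  set U2 : Set ℂ := {x | emb k x (s * Tf M x) ∈ W} with hU2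
  have hU2o : IsOpen U2 := hWo.preimage hcont2
  have hU2b : Bornology.IsBounded U2 := by
    rw [isBounded_iff_forall_norm_le]
    refine ⟨3, fun x hx => ?_⟩
    have := (bounds hM hA hδ.le (le_of_lt (hWsub hx))).1
    rwa [emb_zero] at this
  have hU2x : x0 ∈ U2 := by
    show emb k x0 (s * Tf M x0) ∈ W
    rw [← hsy]; exact hx0U
  have hfr2 : ∀ z ∈ frontier U2, ‖z‖ ≤ 3 ∧ 0 ≤ rr M A δ k (emb k z (s * Tf M z)) := by
    intro z hz
    rw [frontier, hU2o.interior_eq] at hz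
    have h1 : emb k z (s * Tf M z) ∈ closure W := by
      exact hcont2.closure_preimage_subset W hz.1
    have h2 : emb k z (s * Tf M z) ∉ W := hz.2
    have h3 : emb k z (s * Tf M z) ∉ Om M A δ k := fun h => h2 (hback _ h1 h)
    refine ⟨?_, not_lt.1 h3⟩
    have := (bounds hM hA hδ.le (hcl h1)).1
    rwa [emb_zero] at this
  have hon : ∀ z : ℂ, Tf M z ^ 2 - (s * Tf M z) ^ 2 = 0 := by
    intro z
    rw [mul_pow, hs]; ring
  obtain ⟨x1, hx1U, hx1⟩ := exists_zero hU2o hU2b (Q := fun x => s * Tf M x - 1 / 2)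
    (((differentiable_const s).mul hdT).sub (differentiable_const _)) hU2x
    (c := 1 - 9 * δ) (by
      rw [← hsy]
      have h1 : 0 ≤ δ * ‖xs‖ ^ 2 := by positivity
      have h2 : 0 ≤ A * ‖Tf M xs ^ 2 - ys ^ 2‖ ^ 2 := by positivity
      linarith) (by
      intro z hz
      obtain ⟨h1, h2⟩ := hfr2 z hz
      rw [rr_emb hA0.le hδ.le, hon z, norm_zero] at h2
      have h9 : δ * ‖z‖ ^ 2 ≤ 9 * δ := by
        have : ‖z‖ ^ 2 ≤ 9 := by nlinarith [norm_nonneg z]
        nlinarith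
      nlinarith)
  have hx1' : s * Tf M x1 = 1 / 2 := by linear_combination hx1
  refine ⟨x1, ?_, ?_⟩
  · have : emb k x1 (s * Tf M x1) ∈ W := hx1U
    rwa [hx1'] at this
  · have h1 : (s * Tf M x1) ^ 2 = 1 / 4 := by rw [hx1']; norm_num
    rw [mul_pow, hs, one_mul] at h1
    exact h1

/-- real Chebyshev polynomial -/
def TR (M : ℕ) (t : ℝ) : ℝ := (Chebyshev.T ℝ (M : ℤ)).eval t

lemma Tf_ofReal (M : ℕ) (t : ℝ) : Tf M (t : ℂ) = ((TR M t : ℝ) : ℂ) := by
  unfold Tf TR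
  rw [Chebyshev.complex_ofReal_eval_T]

lemma TR_le {M : ℕ} {t : ℝ} (ht : t ∈ Set.Icc (-1 : ℝ) 1) : |TR M t| ≤ 1 :=
  Chebyshev.abs_eval_T_real_le_one _ (abs_le.2 ⟨ht.1, ht.2⟩)

lemma continuous_TR (M : ℕ) : Continuous (TR M) := Polynomial.continuous _

/-- the connecting arc -/
def arc (M k : ℕ) (t : ℝ) : CS (k + 2) := emb k (t : ℂ) ((|TR M t| : ℝ) : ℂ)

lemma continuous_arc (M k : ℕ) : Continuous (arc M k) := by
  unfold arc
  exact (continuous_emb k).comp (Complex.continuous_ofReal.prodMk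
    (Complex.continuous_ofReal.comp (continuous_TR M).abs))

lemma arc_mem {M : ℕ} {A δ : ℝ} (hA : 0 ≤ A) (hδ : 0 ≤ δ) (hδ1 : δ ≤ 1 / 100) {k : ℕ} {t : ℝ}
    (ht : t ∈ Set.Icc (-1 : ℝ) 1) : arc M k t ∈ Om M A δ k := by
  show rr M A δ k (arc M k t) < 0
  unfold arc
  rw [rr_emb hA hδ, Tf_ofReal]
  have e1 : ((TR M t : ℝ) : ℂ) ^ 2 - ((|TR M t| : ℝ) : ℂ) ^ 2 = 0 := by
    rw [← Complex.ofReal_pow, ← Complex.ofReal_pow, sq_abs, sub_self]
  rw [e1, norm_zero]
  have e2 : ‖((|TR M t| : ℝ) : ℂ) - 1 / 2‖ ≤ 1 / 2 := by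
    have e : ((|TR M t| : ℝ) : ℂ) - 1 / 2 = ((|TR M t| - 1 / 2 : ℝ) : ℂ) := by push_cast; ring
    rw [e, Complex.norm_real, Real.norm_eq_abs, abs_le]
    have := TR_le (M := M) ht
    have h0 := abs_nonneg (TR M t)
    constructor <;> linarith
  have e3 : ‖(t : ℂ)‖ ≤ 1 := by
    rw [Complex.norm_real, Real.norm_eq_abs, abs_le]
    exact ⟨ht.1, ht.2⟩
  have e4 : δ * ‖(t : ℂ)‖ ^ 2 ≤ 1 / 100 := by
    have : ‖(t : ℂ)‖ ^ 2 ≤ 1 := by nlinarith [norm_nonneg (t : ℂ)]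
    nlinarith
  have e5 : ‖((|TR M t| : ℝ) : ℂ) - 1 / 2‖ ^ 2 ≤ 1 / 4 := by
    nlinarith [norm_nonneg (((|TR M t| : ℝ) : ℂ) - 1 / 2)]
  have e6 : A * (0 : ℝ) ^ 2 = 0 := by ring
  rw [e6]
  linarith

lemma isConnected_Om {M : ℕ} (hM : M ≠ 0) {A δ η : ℝ} (hA : 16 ≤ A) (hg : Good M A δ η) (k : ℕ) :
    IsConnected (Om M A δ k) := by
  have hδ := hg.2.1
  have hδ1 := hg.2.2.2.1
  have hA0 : 0 ≤ A := by linarith
  refine ⟨⟨arc M k 0, arc_mem hA0 hδ.le hδ1 (by norm_num)⟩, ?_⟩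
  intro u v hu hv hsub hun hvn
  by_contra hcon
  rw [Set.not_nonempty_iff_eq_empty] at hcon
  have hOo := isOpen_Om M A δ k
  have meets : ∀ u v : Set (CS (k + 2)), IsOpen u → IsOpen v → Om M A δ k ⊆ u ∪ v →
      Om M A δ k ∩ (u ∩ v) = ∅ → (Om M A δ k ∩ u).Nonempty →
      (arc M k '' Set.Icc (-1) 1 ∩ u).Nonempty := by
    intro u v hu hv hsub hcon hun
    have hc : Om M A δ k \ (Om M A δ k ∩ u) = Om M A δ k ∩ v := by
      ext z
      constructor
      · rintro ⟨h1, h2⟩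
        refine ⟨h1, ?_⟩
        rcases hsub h1 with h3 | h3
        · exact absurd ⟨h1, h3⟩ h2
        · exact h3
      · rintro ⟨h1, h2⟩
        refine ⟨h1, fun h3 => ?_⟩
        have : z ∈ Om M A δ k ∩ (u ∩ v) := ⟨h1, h3.2, h2⟩
        rw [hcon] at this
        exact this
    obtain ⟨x, hx1, hx2⟩ := clopen_meets hM hA hg (W := Om M A δ k ∩ u) (hOo.inter hu)
      inter_subset_left (by rw [hc]; exact hOo.inter hv) hun
    obtain ⟨t, ht, rfl⟩ := Tf_sq_quarter hM hx2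
    refine ⟨arc M k t, ⟨t, ht, rfl⟩, ?_⟩
    have habs : |TR M t| = 1 / 2 := by
      rw [Tf_ofReal] at hx2
      have h1 : TR M t ^ 2 = 1 / 4 := by
        have : ((TR M t ^ 2 : ℝ) : ℂ) = ((1 / 4 : ℝ) : ℂ) := by push_cast; exact hx2
        exact_mod_cast this
      have h2 : |TR M t| ^ 2 = (1 / 2) ^ 2 := by rw [sq_abs, h1]; norm_num
      exact (pow_left_inj₀ (abs_nonneg _) (by norm_num) two_ne_zero).1 h2
    have : arc M k t = emb k (t : ℂ) (1 / 2) := by
      unfold arc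
      rw [habs]
      push_cast
      rfl
    rw [this]
    exact hx1.2
  have hpre : IsPreconnected (arc M k '' Set.Icc (-1) 1) :=
    isPreconnected_Icc.image _ (continuous_arc M k).continuousOn
  have harc : arc M k '' Set.Icc (-1) 1 ⊆ Om M A δ k := by
    rintro _ ⟨t, ht, rfl⟩
    exact arc_mem hA0 hδ.le hδ1 ht
  have m1 := meets u v hu hv hsub hcon hun
  have m2 := meets v u hv hu (by rwa [union_comm]) (by rwa [inter_comm v u]) hvn
  obtain ⟨z, hz1, hz2⟩ := hpre u v hu hv (harc.trans hsub) m1 m2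
  have : z ∈ Om M A δ k ∩ (u ∩ v) := ⟨harc hz1, hz2⟩
  rw [hcon] at this
  exact this

end

end Pool.Agent.Helper269.KcH
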