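import Mathlib
import Pool.Agent.Helper269.KcD
import Pool.Agent.Helper269.KcH
import Pool.Agent.Helper269.KcDefs

namespace Pool.Agent.Helper269.KcI

open Complex Metric Set Filter Topology Polynomial
open Pool.Agent.Helper269.KcB Pool.Agent.Helper269.KcC Pool.Agent.Helper269.KcD
open Pool.Agent.Helper269.KcE
open Pool.Agent.Helper269.KcF Pool.Agent.Helper269.KcG Pool.Agent.Helper269.KcH
open Pool.Agent.Helper269.KcDefs

noncomputable section

lemma poincareDist_nonneg (a b : ℂ) : 0 ≤ poincareDist a b :=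
  Real.artanh_nonneg (norm_nonneg _)

lemma chainLength_nonneg (m : ℕ) (a b : ℕ → ℂ) : 0 ≤ chainLength m a b :=
  Finset.sum_nonneg (fun _ _ => poincareDist_nonneg _ _)

lemma chain_mono {n : ℕ} {Ω Ω' : Set (EuclideanSpace ℂ (Fin n))} (h : Ω ⊆ Ω')
    {z w : EuclideanSpace ℂ (Fin n)} {m : ℕ} {p : ℕ → EuclideanSpace ℂ (Fin n)}
    {f : ℕ → ℂ → EuclideanSpace ℂ (Fin n)} {a b : ℕ → ℂ}
    (hc : IsKobayashiChain Ω z w m p f a b) : IsKobayashiChain Ω' z w m p f a b :=
  { hc with
    mem := fun j hj => h (hc.mem j hj)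
    disc := fun j hj => ⟨(hc.disc j hj).1, fun ζ hζ => h ((hc.disc j hj).2 ζ hζ)⟩ }

lemma kobayashiDist_le {n : ℕ} {Ω : Set (EuclideanSpace ℂ (Fin n))}
    {z w : EuclideanSpace ℂ (Fin n)} {m : ℕ} {p : ℕ → EuclideanSpace ℂ (Fin n)}
    {f : ℕ → ℂ → EuclideanSpace ℂ (Fin n)} {a b : ℕ → ℂ}
    (hc : IsKobayashiChain Ω z w m p f a b) : kobayashiDist Ω z w ≤ chainLength m a b := by
  apply csInf_le
  · refine ⟨0, ?_⟩
    rintro _ ⟨m, p, f, a, b, _, rfl⟩
    exact chainLength_nonneg _ _ _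
  · exact ⟨m, p, f, a, b, hc, rfl⟩

lemma kobayashiDist_nonneg {n : ℕ} (Ω : Set (EuclideanSpace ℂ (Fin n)))
    (z w : EuclideanSpace ℂ (Fin n)) : 0 ≤ kobayashiDist Ω z w := by
  apply Real.sInf_nonneg
  rintro _ ⟨m, p, f, a, b, _, rfl⟩
  exact chainLength_nonneg _ _ _

/-- existence of some chain -/
def HasChain {n : ℕ} (Ω : Set (EuclideanSpace ℂ (Fin n))) (z w : EuclideanSpace ℂ (Fin n)) : Prop :=
  ∃ (m : ℕ) (p : ℕ → EuclideanSpace ℂ (Fin n)) (f : ℕ → ℂ → EuclideanSpace ℂ (Fin n))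
    (a b : ℕ → ℂ), IsKobayashiChain Ω z w m p f a b

lemma HasChain.refl {n : ℕ} {Ω : Set (EuclideanSpace ℂ (Fin n))} {z : EuclideanSpace ℂ (Fin n)}
    (hz : z ∈ Ω) : HasChain Ω z z :=
  ⟨0, fun _ => z, fun _ _ => z, fun _ => 0, fun _ => 0,
    { start := rfl
      finish := rfl
      mem := fun _ _ => hz
      disc := fun j hj => absurd hj (Nat.not_lt_zero j)
      a_mem := fun j hj => absurd hj (Nat.not_lt_zero j)
      b_mem := fun j hj => absurd hj (Nat.not_lt_zero j)
      f_a := fun j hj => absurd hj (Nat.not_lt_zero j)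
      f_b := fun j hj => absurd hj (Nat.not_lt_zero j) }⟩

lemma HasChain.snoc {n : ℕ} {Ω : Set (EuclideanSpace ℂ (Fin n))}
    {z w w' : EuclideanSpace ℂ (Fin n)} (h : HasChain Ω z w) {g : ℂ → EuclideanSpace ℂ (Fin n)}
    (hg : DifferentiableOn ℂ g (ball 0 1)) (hgm : MapsTo g (ball 0 1) Ω) {α β : ℂ}
    (hα : α ∈ ball (0 : ℂ) 1) (hβ : β ∈ ball (0 : ℂ) 1) (h1 : g α = w) (h2 : g β = w') :
    HasChain Ω z w' := by
  obtain ⟨m, p, f, a, b, hc⟩ := h
  refine ⟨m + 1, fun j => if j ≤ m then p j else w', fun j => if j < m then f j else g,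
    fun j => if j < m then a j else α, fun j => if j < m then b j else β, ?_⟩
  constructor
  · simp [hc.start]
  · simp
  · intro j hj
    split_ifs with h
    · exact hc.mem j h
    · rw [← h2]; exact hgm hβ
  · intro j hj
    split_ifs with h
    · exact hc.disc j h
    · exact ⟨hg, hgm⟩
  · intro j hj
    split_ifs with h
    · exact hc.a_mem j h
    · exact hα
  · intro j hj
    split_ifs with h
    · exact hc.b_mem j h
    · exact hβ
  · intro j hj
    by_cases h : j < m
    · rw [if_pos h, if_pos h, if_pos h.le]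
      exact hc.f_a j h
    · have hjm : j = m := by omega
      subst hjm
      rw [if_neg h, if_neg h, if_pos le_rfl, h1, hc.finish]
  · intro j hj
    by_cases h : j < m
    · rw [if_pos h, if_pos h, if_pos (Nat.succ_le_of_lt h)]
      exact hc.f_b j h
    · have hjm : j = m := by omega
      subst hjm
      rw [if_neg h, if_neg h, if_neg (by omega), h2]

/-- the core variety contained in all domains -/
def Vset (M k : ℕ) : Set (CS (k + 2)) :=
  {z | ∃ x y : ℂ, z = emb k x y ∧ Tf M x ^ 2 = y ^ 2 ∧ ‖y - 1 / 2‖ ≤ 3 / 4 ∧ ‖x‖ ≤ 2}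

lemma Vset_subset {M : ℕ} {A δ : ℝ} (hA : 0 ≤ A) (hδ : 0 ≤ δ) (hδ1 : δ ≤ 1 / 100) (k : ℕ) :
    Vset M k ⊆ Om M A δ k := by
  rintro _ ⟨x, y, rfl, h1, h2, h3⟩
  show rr M A δ k (emb k x y) < 0
  rw [rr_emb hA hδ, h1, sub_self, norm_zero]
  have e6 : A * (0 : ℝ) ^ 2 = 0 := by ring
  have e4 : δ * ‖x‖ ^ 2 ≤ 4 / 100 := by
    have : ‖x‖ ^ 2 ≤ 4 := by nlinarith [norm_nonneg x]
    nlinarith
  have e5 : ‖y - 1 / 2‖ ^ 2 ≤ 9 / 16 := by nlinarith [norm_nonneg (y - 1 / 2)]
  rw [e6]
  linarith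

lemma exists_small : ∃ s > 0, ∀ w : ℂ, ‖w‖ < s → ∀ t : ℝ,
    ‖Complex.cos (t + w) - Complex.cos t‖ ≤ 1 / 4 := by
  have hc : Continuous (fun w : ℂ => ‖Complex.cos w - 1‖ + ‖Complex.sin w‖) := by fun_prop
  have h0 : (fun w : ℂ => ‖Complex.cos w - 1‖ + ‖Complex.sin w‖) 0 < 1 / 4 := by
    simp
  have hev := hc.continuousAt.eventually (gt_mem_nhds h0)
  obtain ⟨s, hs, hs2⟩ := Metric.eventually_nhds_iff.1 hev
  refine ⟨s, hs, ?_⟩
  intro w hw t
  have h1 := hs2 (by rwa [dist_zero_right] : dist w 0 < s)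
  have e : Complex.cos (t + w) - Complex.cos t =
      Complex.cos t * (Complex.cos w - 1) - Complex.sin t * Complex.sin w := by
    rw [Complex.cos_add]; ring
  rw [e]
  have c1 : ‖Complex.cos (t : ℂ)‖ ≤ 1 := by
    rw [← Complex.ofReal_cos, Complex.norm_real]
    exact Real.abs_cos_le_one t
  have c2 : ‖Complex.sin (t : ℂ)‖ ≤ 1 := by
    rw [← Complex.ofReal_sin, Complex.norm_real]
    exact Real.abs_sin_le_one t
  calc ‖Complex.cos t * (Complex.cos w - 1) - Complex.sin t * Complex.sin w‖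
      ≤ ‖Complex.cos t * (Complex.cos w - 1)‖ + ‖Complex.sin t * Complex.sin w‖ := norm_sub_le _ _
    _ ≤ 1 * ‖Complex.cos w - 1‖ + 1 * ‖Complex.sin w‖ := by
        rw [norm_mul, norm_mul]
        gcongr
    _ ≤ 1 / 4 := by linarith

/-- points of the connecting arc, in angular parametrisation -/
def Gt (M k : ℕ) (t : ℝ) : CS (k + 2) :=
  emb k ((Real.cos t : ℝ) : ℂ) ((|Real.cos (M * t)| : ℝ) : ℂ)

lemma one_step {M : ℕ} (hM : M ≠ 0) (k : ℕ) : ∃ s > 0, ∀ (z : CS (k + 2)) (t t' : ℝ),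
    |t' - t| < s → ∀ σ : ℝ, σ = 1 ∨ σ = -1 → 0 ≤ σ * Real.cos (M * t) →
      0 ≤ σ * Real.cos (M * t') → HasChain (Vset M k) z (Gt M k t) →
      HasChain (Vset M k) z (Gt M k t') := by
  obtain ⟨s0, hs0, hs⟩ := exists_small
  have hM1 : (1 : ℝ) ≤ M := by exact_mod_cast Nat.one_le_iff_ne_zero.2 hM
  have hM0 : (0 : ℝ) < M := by linarith
  refine ⟨s0 / M, by positivity, ?_⟩
  intro z t t' htt σ hσ h1 h2 hch
  set s := s0 / M with hsd
  have hspos : 0 < s := by positivity
  have hss0 : s ≤ s0 := by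
    rw [hsd]
    exact div_le_self hs0.le hM1
  have hMs : M * s = s0 := by rw [hsd]; field_simp
  have hσ2 : ((σ : ℂ)) ^ 2 = 1 := by
    rcases hσ with h | h <;> rw [h] <;> norm_num
  have hσn : ‖(σ : ℂ)‖ = 1 := by
    rcases hσ with h | h <;> rw [h] <;> norm_num
  have habs : ∀ u : ℝ, 0 ≤ σ * Real.cos (M * u) → |Real.cos (M * u)| = σ * Real.cos (M * u) := by
    intro u hu
    rcases hσ with h | h
    · rw [h, one_mul] at hu ⊢
      exact abs_of_nonneg hu
    · rw [h, neg_one_mul] at hu ⊢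
      exact abs_of_nonpos (by linarith)
  have hval : ∀ u : ℝ, 0 ≤ σ * Real.cos (M * u) →
      emb k (Complex.cos (u : ℂ)) (σ * Complex.cos (M * (u : ℂ))) = Gt M k u := by
    intro u hu
    unfold Gt
    rw [habs u hu]
    push_cast
    rfl
  refine hch.snoc (g := fun ζ : ℂ => emb k (Complex.cos (t + s * ζ))
    (σ * Complex.cos (M * (t + s * ζ)))) ?_ ?_ (α := 0) (β := (((t' - t) / s : ℝ) : ℂ))
    (by simp) ?_ ?_ ?_
  · rw [differentiableOn_euclidean]
    intro j
    unfold emb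
    simp only
    split_ifs <;> fun_prop
  · intro ζ hζ
    rw [mem_ball_zero_iff] at hζ
    refine ⟨_, _, rfl, ?_, ?_, ?_⟩
    · rw [Tf_cos, mul_pow, hσ2, one_mul]
    · have e1 : (M : ℂ) * (t + s * ζ) = ((M * t : ℝ) : ℂ) + (M * s : ℝ) * ζ := by
        push_cast; ring
      have e2 : ‖((M * s : ℝ) : ℂ) * ζ‖ < s0 := by
        rw [norm_mul, Complex.norm_real, Real.norm_of_nonneg (by positivity), hMs]
        nlinarith [norm_nonneg ζ]
      have e3 := hs _ e2 (M * t)
      rw [e1]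
      have e4 : (σ : ℂ) * Complex.cos (((M * t : ℝ) : ℂ) + (M * s : ℝ) * ζ) - 1 / 2 =
          (σ : ℂ) * (Complex.cos (((M * t : ℝ) : ℂ) + (M * s : ℝ) * ζ) -
            Complex.cos ((M * t : ℝ) : ℂ)) + ((σ * Real.cos (M * t) - 1 / 2 : ℝ) : ℂ) := by
        push_cast; ring
      rw [e4]
      have e5 : ‖((σ * Real.cos (M * t) - 1 / 2 : ℝ) : ℂ)‖ ≤ 1 / 2 := by
        rw [Complex.norm_real, Real.norm_eq_abs, abs_le]
        have h3 : σ * Real.cos (M * t) ≤ 1 := by
          rw [← habs t h1]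
          exact Real.abs_cos_le_one _
        constructor <;> linarith
      calc _ ≤ ‖(σ : ℂ) * (Complex.cos (((M * t : ℝ) : ℂ) + (M * s : ℝ) * ζ) -
            Complex.cos ((M * t : ℝ) : ℂ))‖ + ‖((σ * Real.cos (M * t) - 1 / 2 : ℝ) : ℂ)‖ :=
            norm_add_le _ _
        _ ≤ 1 * (1 / 4) + 1 / 2 := by
            rw [norm_mul, hσn]
            gcongr
        _ = 3 / 4 := by norm_num
    · have e2 : ‖(s : ℂ) * ζ‖ < s0 := by
        rw [norm_mul, Complex.norm_real, Real.norm_of_nonneg hspos.le]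
        nlinarith [norm_nonneg ζ]
      have e3 := hs _ e2 t
      have c1 : ‖Complex.cos (t : ℂ)‖ ≤ 1 := by
        rw [← Complex.ofReal_cos, Complex.norm_real]
        exact Real.abs_cos_le_one t
      have e5 : ‖Complex.cos (t + s * ζ)‖ ≤ ‖Complex.cos (t + s * ζ) - Complex.cos t‖ +
          ‖Complex.cos (t : ℂ)‖ := by
        have := norm_add_le (Complex.cos (t + s * ζ) - Complex.cos t) (Complex.cos (t : ℂ))
        simpa using this
      linarith
  · rw [mem_ball_zero_iff, Complex.norm_real, Real.norm_eq_abs, abs_div, abs_of_pos hspos,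
      div_lt_one hspos]
    exact htt
  · simp only [mul_zero, add_zero]
    exact hval t h1
  · have e : (t : ℂ) + s * (((t' - t) / s : ℝ) : ℂ) = ((t' : ℝ) : ℂ) := by
      have : s * ((t' - t) / s) = t' - t := by field_simp
      rw [← Complex.ofReal_mul, this]
      push_cast; ring
    simp only [e]
    exact hval t' h2

lemma exists_chain {M : ℕ} (hM : M ≠ 0) (k : ℕ) :
    HasChain (Vset M k) (emb k 1 1) (emb k (-1) 1) := by
  obtain ⟨s, hs, hstep⟩ := one_step hM k
  -- two point step without sign condition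
  have hstep2 : ∀ (z : CS (k + 2)) (t t' : ℝ), t ≤ t' → t' - t < s →
      HasChain (Vset M k) z (Gt M k t) → HasChain (Vset M k) z (Gt M k t') := by
    intro z t t' htt hlt hch
    have hlt' : |t' - t| < s := by rwa [abs_of_nonneg (by linarith)]
    by_cases h1 : 0 ≤ Real.cos (M * t) <;> by_cases h2 : 0 ≤ Real.cos (M * t')
    · exact hstep z t t' hlt' 1 (Or.inl rfl) (by linarith) (by linarith) hch
    · push Not at h2
      have hcont : ContinuousOn (fun u : ℝ => Real.cos (M * u)) (Set.Icc t t') := by fun_prop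
      obtain ⟨u, hu, hu0⟩ := intermediate_value_Icc' htt hcont
        (show (0:ℝ) ∈ Set.Icc (Real.cos (M * t')) (Real.cos (M * t)) from ⟨h2.le, h1⟩)
      simp only at hu0
      have c1 := hstep z t u (by rw [abs_of_nonneg (by linarith [hu.1])]; linarith [hu.2]) 1
        (Or.inl rfl) (by linarith) (by rw [hu0]; norm_num) hch
      exact hstep z u t' (by rw [abs_of_nonneg (by linarith [hu.2])]; linarith [hu.1]) (-1)
        (Or.inr rfl) (by rw [hu0]; norm_num) (by linarith) c1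
    · push Not at h1
      have hcont : ContinuousOn (fun u : ℝ => Real.cos (M * u)) (Set.Icc t t') := by fun_prop
      obtain ⟨u, hu, hu0⟩ := intermediate_value_Icc htt hcont
        (show (0:ℝ) ∈ Set.Icc (Real.cos (M * t)) (Real.cos (M * t')) from ⟨h1.le, h2⟩)
      simp only at hu0
      have c1 := hstep z t u (by rw [abs_of_nonneg (by linarith [hu.1])]; linarith [hu.2]) (-1)
        (Or.inr rfl) (by linarith) (by rw [hu0]; norm_num) hch
      exact hstep z u t' (by rw [abs_of_nonneg (by linarith [hu.2])]; linarith [hu.1]) 1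
        (Or.inl rfl) (by rw [hu0]; norm_num) (by linarith) c1
    · push Not at h1 h2
      exact hstep z t t' hlt' (-1) (Or.inr rfl) (by linarith) (by linarith) hch
  obtain ⟨N, hN⟩ := exists_nat_gt (Real.pi / s)
  have hNpos : (0 : ℝ) < N := lt_trans (by positivity) hN
  have hstepsize : Real.pi / N < s := by
    rw [div_lt_iff₀ hNpos]
    rw [div_lt_iff₀ hs] at hN
    linarith
  have h0 : Gt M k 0 = emb k 1 1 := by
    unfold Gt
    simp
  have hpi : Gt M k Real.pi = emb k (-1) 1 := by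
    unfold Gt
    have : |Real.cos (M * Real.pi)| = 1 := Real.abs_cos_int_mul_pi M
    rw [this, Real.cos_pi]
    push_cast
    rfl
  have hind : ∀ j : ℕ, HasChain (Vset M k) (emb k 1 1) (Gt M k (j * (Real.pi / N))) := by
    intro j
    induction j with
    | zero =>
      rw [Nat.cast_zero, zero_mul, h0]
      apply HasChain.refl
      refine ⟨1, 1, rfl, ?_, ?_, ?_⟩
      · have : Tf M 1 = 1 := by
          have := Tf_cos M 0
          simpa using this
        rw [this]
      · norm_num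
      · norm_num
    | succ j ih =>
      refine hstep2 _ _ _ ?_ ?_ ih
      · push_cast
        have : 0 ≤ Real.pi / N := by positivity
        nlinarith
      · push_cast
        have : ((j : ℝ) + 1) * (Real.pi / N) - j * (Real.pi / N) = Real.pi / N := by ring
        rw [this]; exact hstepsize
  have hfin := hind N
  have e : (N : ℝ) * (Real.pi / N) = Real.pi := by field_simp
  rw [e, hpi] at hfin
  exact hfin

end

end Pool.Agent.Helper269.KcI
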