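import Mathlib
import Pool.Agent.Helper269.KcI

namespace Pool.Agent.Helper269.KcJ

open Complex Metric Set Filter Topology Polynomial
open Pool.Agent.Helper269.KcB Pool.Agent.Helper269.KcC Pool.Agent.Helper269.KcD
open Pool.Agent.Helper269.KcE
open Pool.Agent.Helper269.KcF Pool.Agent.Helper269.KcG Pool.Agent.Helper269.KcH
open Pool.Agent.Helper269.KcI Pool.Agent.Helper269.KcDefs

noncomputable section

/-- conclusion of the product lemma for the constants used below -/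
def ProdBound (r ε : ℝ) : Prop :=
  ∀ G H : ℂ → ℂ, DifferentiableOn ℂ G (ball 0 1) → DifferentiableOn ℂ H (ball 0 1) →
      (∀ z ∈ ball (0:ℂ) 1, ‖G z‖ ≤ 4) → (∀ z ∈ ball (0:ℂ) 1, ‖H z‖ ≤ 4) →
      (∀ z ∈ ball (0:ℂ) 1, ‖G z * H z‖ ≤ ε) →
      (∀ ω : ℂ, ‖ω‖ ≤ r → ‖G ω‖ < 1 / 4) ∨ (∀ ω : ℂ, ‖ω‖ ≤ r → ‖H ω‖ < 1 / 4)

lemma disc_step {M : ℕ} (hM : M ≠ 0) {A δ r ε : ℝ} (hA : 16 ≤ A) (hδ : 0 ≤ δ)
    (hr1 : r < 1) (hε : 0 < ε) (hAε : 1 ≤ A * ε ^ 2) (hprod : ProdBound r ε) {k : ℕ}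
    {g : ℂ → CS (k + 2)} (hg : DifferentiableOn ℂ g (ball 0 1))
    (hgm : MapsTo g (ball 0 1) (Om M A δ k)) {c : ℂ} (hc : ‖c‖ ≤ r) :
    Nf M (g c 0) - Nf M (g 0 0) < 2 := by
  have hA0 : 0 < A := by linarith
  have hr0 : 0 ≤ r := le_trans (norm_nonneg _) hc
  have hco := differentiableOn_euclidean.1 hg
  have hb : ∀ ζ ∈ ball (0:ℂ) 1, ‖g ζ 1 - 1 / 2‖ ≤ 1 ∧ ‖g ζ 1‖ ≤ 3 / 2 ∧
      A * ‖Tf M (g ζ 0) ^ 2 - (g ζ 1) ^ 2‖ ^ 2 ≤ 1 ∧ ‖Tf M (g ζ 0)‖ ≤ 2 := by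
    intro ζ hζ
    obtain ⟨_, h1, h2, h3, h4, _⟩ := bounds hM hA hδ
      (le_of_lt (show rr M A δ k (g ζ) < 0 from hgm hζ))
    exact ⟨h1, h2, h3, h4⟩
  have hTd : DifferentiableOn ℂ (fun ζ => Tf M (g ζ 0)) (ball 0 1) :=
    (differentiable_Tf M).comp_differentiableOn (hco 0)
  have hcont0 : ContinuousOn (fun ζ => g ζ 0) (closedBall (0:ℂ) r) :=
    (hco 0).continuousOn.mono (closedBall_subset_ball hr1)
  have hpre : IsPreconnected ((fun ζ => g ζ 0) '' closedBall (0:ℂ) r) :=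
    (convex_closedBall (0:ℂ) r).isPreconnected.image _ hcont0
  have hm0 : g 0 0 ∈ (fun ζ => g ζ 0) '' closedBall (0:ℂ) r := ⟨0, by simp [hr0], rfl⟩
  have hmc : g c 0 ∈ (fun ζ => g ζ 0) '' closedBall (0:ℂ) r := ⟨c, by simpa using hc, rfl⟩
  rcases hprod (fun ζ => Tf M (g ζ 0) - g ζ 1) (fun ζ => Tf M (g ζ 0) + g ζ 1)
    (hTd.sub (hco 1)) (hTd.add (hco 1)) (by
      intro ζ hζ
      obtain ⟨_, h2, _, h4⟩ := hb ζ hζ
      calc ‖Tf M (g ζ 0) - g ζ 1‖ ≤ ‖Tf M (g ζ 0)‖ + ‖g ζ 1‖ := norm_sub_le _ _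
        _ ≤ 4 := by linarith) (by
      intro ζ hζ
      obtain ⟨_, h2, _, h4⟩ := hb ζ hζ
      calc ‖Tf M (g ζ 0) + g ζ 1‖ ≤ ‖Tf M (g ζ 0)‖ + ‖g ζ 1‖ := norm_add_le _ _
        _ ≤ 4 := by linarith) (by
      intro ζ hζ
      obtain ⟨_, _, h3, _⟩ := hb ζ hζ
      have e : (Tf M (g ζ 0) - g ζ 1) * (Tf M (g ζ 0) + g ζ 1) =
          Tf M (g ζ 0) ^ 2 - (g ζ 1) ^ 2 := by ring
      rw [e]
      set P := ‖Tf M (g ζ 0) ^ 2 - (g ζ 1) ^ 2‖ with hP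
      have hP0 : 0 ≤ P := norm_nonneg _
      have h5 : A * P ^ 2 ≤ A * ε ^ 2 := le_trans h3 hAε
      have h6 : P ^ 2 ≤ ε ^ 2 := le_of_mul_le_mul_left h5 hA0
      exact (pow_le_pow_iff_left₀ hP0 hε.le two_ne_zero).1 h6) with h | h
  · refine step_plus hM hpre ?_ hm0 hmc
    rintro _ ⟨ζ, hζ, rfl⟩
    have hζ1 : ζ ∈ ball (0:ℂ) 1 := closedBall_subset_ball hr1 hζ
    have h1 := h ζ (by simpa using hζ)
    have h2 := (hb ζ hζ1).1
    have e : Tf M (g ζ 0) - 1 / 2 = (Tf M (g ζ 0) - g ζ 1) + (g ζ 1 - 1 / 2) := by ring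
    simp only
    rw [e]
    calc _ ≤ ‖Tf M (g ζ 0) - g ζ 1‖ + ‖g ζ 1 - 1 / 2‖ := norm_add_le _ _
      _ < 3 / 2 := by linarith
  · refine step_minus hM hpre ?_ hm0 hmc
    rintro _ ⟨ζ, hζ, rfl⟩
    have hζ1 : ζ ∈ ball (0:ℂ) 1 := closedBall_subset_ball hr1 hζ
    have h1 := h ζ (by simpa using hζ)
    have h2 := (hb ζ hζ1).1
    have e : Tf M (g ζ 0) + 1 / 2 = (Tf M (g ζ 0) + g ζ 1) - (g ζ 1 - 1 / 2) := by ring
    simp only
    rw [e]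
    calc _ ≤ ‖Tf M (g ζ 0) + g ζ 1‖ + ‖g ζ 1 - 1 / 2‖ := norm_sub_le _ _
      _ < 3 / 2 := by linarith

lemma norm_quot {a b : ℂ} : ‖(a - b) / (1 - (starRingEnd ℂ) a * b)‖ = ‖mob (-a) b‖ := by
  unfold mob
  rw [map_neg, norm_div, norm_div, ← norm_neg (a - b)]
  congr 2
  · ring
  · ring

lemma le_tanh {a b : ℂ} (ha : a ∈ ball (0:ℂ) 1) (hb : b ∈ ball (0:ℂ) 1) {B : ℝ}
    (h : poincareDist a b ≤ B) : ‖mob (-a) b‖ ≤ Real.tanh B := by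
  unfold poincareDist at h
  rw [norm_quot] at h
  rw [mem_ball_zero_iff] at ha hb
  have h1 : ‖mob (-a) b‖ < 1 := norm_mob_lt (by simpa using ha) hb
  have h2 : -1 < ‖mob (-a) b‖ := by linarith [norm_nonneg (mob (-a) b)]
  rw [← Real.artanh_tanh B] at h
  exact (Real.artanh_le_artanh_iff ⟨h2, h1⟩ ⟨Real.neg_one_lt_tanh B, Real.tanh_lt_one B⟩).1 h

/-- no short chain with `K` discs if `2 K < M` -/
lemma chain_long {M K : ℕ} (hM : M ≠ 0) (hKM : 2 * K < M) {A δ B ε : ℝ} (hA : 16 ≤ A)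
    (hδ : 0 ≤ δ) (hε : 0 < ε) (hAε : 1 ≤ A * ε ^ 2)
    (hprod : ProdBound (Real.tanh B) ε) {k : ℕ} {p : ℕ → CS (k + 2)}
    {f : ℕ → ℂ → CS (k + 2)} {a b : ℕ → ℂ}
    (hc : IsKobayashiChain (Om M A δ k) (emb k 1 1) (emb k (-1) 1) K p f a b) :
    B < chainLength K a b := by
  by_contra hcon
  push Not at hcon
  have hstep : ∀ j < K, Nf M (p (j + 1) 0) - Nf M (p j 0) < 2 := by
    intro j hj
    have hle : poincareDist (a j) (b j) ≤ B := by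
      refine le_trans ?_ hcon
      unfold chainLength
      exact Finset.single_le_sum (f := fun j => poincareDist (a j) (b j))
        (fun i _ => poincareDist_nonneg _ _) (Finset.mem_range.2 hj)
    have ha := hc.a_mem j hj
    have hb := hc.b_mem j hj
    have hmob := le_tanh ha hb hle
    rw [mem_ball_zero_iff] at ha hb
    have key := disc_step hM hA hδ (Real.tanh_lt_one B) hε hAε hprod
      (g := fun ζ => f j (mob (a j) ζ)) ((hc.disc j hj).1.comp (differentiableOn_mob ha)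
      (mapsTo_mob ha)) (MapsTo.comp (hc.disc j hj).2 (mapsTo_mob ha)) hmob
    simp only [mob_mob ha hb, mob_zero] at key
    rw [hc.f_a j hj, hc.f_b j hj] at key
    exact key
  have hsum : ∀ j ≤ K, Nf M (p j 0) - Nf M (p 0 0) ≤ 2 * j := by
    intro j
    induction j with
    | zero => intro _; simp
    | succ j ih =>
      intro hj
      have h1 := ih (by omega)
      have h2 := hstep j (by omega)
      push_cast
      linarith
  have hfin := hsum K le_rfl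
  rw [hc.start, hc.finish, emb_zero, emb_zero, Nf_one, Nf_neg_one] at hfin
  have : (2 * K : ℝ) < M := by exact_mod_cast hKM
  linarith

end

end Pool.Agent.Helper269.KcJ
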