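import Mathlib

set_option autoImplicit false

/-!
Kähler metrics on open subsets of `ℂ²`, their Levi-Civita connection, sectional curvature,
Riemannian distance.  A metric on `U ⊆ ℂ²` is written in the global coordinates of `ℂ²`:
`g p` is the inner product of the tangent space `ℂ × ℂ` (regarded as a real vector space)
at the point `p`.
-/

namespace Pool.Agent.Helper269.KdDefs

open Set Filter Topology

/-- `g` is a smooth Riemannian metric on the open set `U ⊆ ℂ²`: all its coefficients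
`p ↦ g p v w` (for fixed tangent vectors `v, w`) are smooth on `U`, and at each point of `U`
the real bilinear form `g p` is symmetric and positive definite. -/
structure IsRiemannianMetricOn (U : Set (ℂ × ℂ)) (g : ℂ × ℂ → LinearMap.BilinForm ℝ (ℂ × ℂ)) :
    Prop where
  smooth : ∀ v w : ℂ × ℂ, ContDiffOn ℝ ((⊤ : ℕ∞) : WithTop ℕ∞) (fun p => g p v w) U
  symm : ∀ p ∈ U, ∀ v w : ℂ × ℂ, g p v w = g p w v
  pos : ∀ p ∈ U, ∀ v : ℂ × ℂ, v ≠ 0 → 0 < g p v v

/-- The derivative at `p`, in the direction `u`, of the metric coefficient `q ↦ g q v w`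
(`v` and `w` are constant vector fields). -/
noncomputable def metricDeriv (g : ℂ × ℂ → LinearMap.BilinForm ℝ (ℂ × ℂ))
    (p u v w : ℂ × ℂ) : ℝ :=
  fderiv ℝ (fun q => g q v w) p u

/-- `g` is a Kähler metric on `U ⊆ ℂ²` (with the complex structure of `ℂ²`, multiplication
by `I` on tangent vectors): a smooth Riemannian metric which is invariant under
multiplication by `I`, and whose fundamental form `ω(v, w) = g(I v, w)` is closed,
`dω(u, v, w) = D_u ω(v, w) + D_v ω(w, u) + D_w ω(u, v) = 0` (constant fields `u, v, w`). -/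
structure IsKahlerMetricOn (U : Set (ℂ × ℂ)) (g : ℂ × ℂ → LinearMap.BilinForm ℝ (ℂ × ℂ)) :
    Prop where
  riemannian : IsRiemannianMetricOn U g
  hermitian : ∀ p ∈ U, ∀ v w : ℂ × ℂ, g p (Complex.I • v) (Complex.I • w) = g p v w
  closed : ∀ p ∈ U, ∀ u v w : ℂ × ℂ,
    metricDeriv g p u (Complex.I • v) w + metricDeriv g p v (Complex.I • w) u
      + metricDeriv g p w (Complex.I • u) v = 0

/-- The vector `c` is `∇_v w` at the point `p`, where `∇` is the Levi-Civita connection of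
`g` and `v, w` are constant vector fields: this is the Koszul formula. -/
def IsLeviCivitaValue (g : ℂ × ℂ → LinearMap.BilinForm ℝ (ℂ × ℂ)) (p v w c : ℂ × ℂ) : Prop :=
  ∀ u : ℂ × ℂ, 2 * g p c u = metricDeriv g p v w u + metricDeriv g p w v u
    - metricDeriv g p u v w

/-- `christoffel g p v w = ∇_v w` at `p` for the constant vector fields `v, w` (the
Christoffel symbols of the Levi-Civita connection); for a Riemannian metric it is the unique
vector satisfying the Koszul formula. -/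
noncomputable def christoffel (g : ℂ × ℂ → LinearMap.BilinForm ℝ (ℂ × ℂ))
    (p v w : ℂ × ℂ) : ℂ × ℂ :=
  Classical.epsilon (IsLeviCivitaValue g p v w)

/-- The Riemann curvature tensor `R(X, Y) Z = ∇_X ∇_Y Z - ∇_Y ∇_X Z` at `p`, computed for
the constant (hence commuting) vector fields `X, Y, Z`. -/
noncomputable def curvature (g : ℂ × ℂ → LinearMap.BilinForm ℝ (ℂ × ℂ))
    (p X Y Z : ℂ × ℂ) : ℂ × ℂ :=
  (fderiv ℝ (fun q => christoffel g q Y Z) p X + christoffel g p X (christoffel g p Y Z))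
    - (fderiv ℝ (fun q => christoffel g q X Z) p Y + christoffel g p Y (christoffel g p X Z))

/-- The sectional curvature at `p` of the real plane spanned by `X` and `Y`. -/
noncomputable def secCurv (g : ℂ × ℂ → LinearMap.BilinForm ℝ (ℂ × ℂ))
    (p X Y : ℂ × ℂ) : ℝ :=
  g p (curvature g p X Y Y) X / (g p X X * g p Y Y - g p X Y ^ 2)

/-- The `C¹` paths in `U` from `p` to `q`, parametrized by `[0, 1]`. -/
def pathsIn (U : Set (ℂ × ℂ)) (p q : ℂ × ℂ) : Set (ℝ → ℂ × ℂ) :=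
  {c | ContDiff ℝ 1 c ∧ c 0 = p ∧ c 1 = q ∧ ∀ t ∈ Icc (0 : ℝ) 1, c t ∈ U}

/-- The length of the path `c : [0, 1] → ℂ²` for the metric `g`. -/
noncomputable def pathLength (g : ℂ × ℂ → LinearMap.BilinForm ℝ (ℂ × ℂ))
    (c : ℝ → ℂ × ℂ) : ℝ :=
  ∫ t in (0 : ℝ)..1, Real.sqrt (g (c t) (deriv c t) (deriv c t))

/-- The Riemannian distance of `(U, g)`: infimum of the lengths of the paths in `U`. -/
noncomputable def riemDist (U : Set (ℂ × ℂ)) (g : ℂ × ℂ → LinearMap.BilinForm ℝ (ℂ × ℂ))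
    (p q : ℂ × ℂ) : ℝ :=
  sInf (pathLength g '' pathsIn U p q)

/-- `(U, g)` is complete: every sequence in `U` which is Cauchy for the Riemannian distance
converges, for the Riemannian distance, to a point of `U`. -/
def IsCompleteFor (U : Set (ℂ × ℂ)) (g : ℂ × ℂ → LinearMap.BilinForm ℝ (ℂ × ℂ)) : Prop :=
  ∀ s : ℕ → ℂ × ℂ, (∀ n, s n ∈ U) →
    (∀ ε > 0, ∃ n₀ : ℕ, ∀ m ≥ n₀, ∀ n ≥ n₀, riemDist U g (s m) (s n) < ε) →
      ∃ p ∈ U, Tendsto (fun n => riemDist U g (s n) p) atTop (𝓝 0)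

/-- All sectional curvatures of `(U, g)` are `≤ 0`. -/
def HasNonposSecCurv (U : Set (ℂ × ℂ)) (g : ℂ × ℂ → LinearMap.BilinForm ℝ (ℂ × ℂ)) : Prop :=
  ∀ p ∈ U, ∀ X Y : ℂ × ℂ, LinearIndependent ℝ ![X, Y] → secCurv g p X Y ≤ 0

/-- Condition (H): for some `A > 0` and some compact `K ⊆ U` (which may be taken to contain
`p₀`), at each point `p` of `U` outside `K` every sectional curvature is at most
`-A / ρ(p)²`, where `ρ` is the Riemannian distance from the base point `p₀`. -/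
def HasCurvDecay (U : Set (ℂ × ℂ)) (g : ℂ × ℂ → LinearMap.BilinForm ℝ (ℂ × ℂ))
    (p₀ : ℂ × ℂ) : Prop :=
  ∃ A : ℝ, 0 < A ∧ ∃ K : Set (ℂ × ℂ), IsCompact K ∧ K ⊆ U ∧ p₀ ∈ K ∧
    ∀ p ∈ U, p ∉ K → ∀ X Y : ℂ × ℂ, LinearIndependent ℝ ![X, Y] →
      secCurv g p X Y ≤ -A / riemDist U g p₀ p ^ 2

/-- The open sets `U` and `Ω` of `ℂ²` are biholomorphic. -/
def Biholomorphic (U Ω : Set (ℂ × ℂ)) : Prop :=
  ∃ F G : ℂ × ℂ → ℂ × ℂ, DifferentiableOn ℂ F U ∧ DifferentiableOn ℂ G Ω ∧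
    MapsTo F U Ω ∧ MapsTo G Ω U ∧ (∀ p ∈ U, G (F p) = p) ∧ (∀ q ∈ Ω, F (G q) = q)

/-- `f` is a bounded holomorphic function on `U`. -/
def IsBddHol (U : Set (ℂ × ℂ)) (f : ℂ × ℂ → ℂ) : Prop :=
  DifferentiableOn ℂ f U ∧ ∃ B : ℝ, ∀ p ∈ U, ‖f p‖ ≤ B

/-- `U ⊆ ℂ²` is Stein relative to bounded holomorphic functions: (1) they separate points;
(2) they give local coordinates at every point `p` (two of them have linearly independent
complex differentials at `p`, which by the inverse function theorem is the same as forming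
holomorphic coordinates near `p`); (3) `U` is convex relative to them. -/
def IsSteinRelBdd (U : Set (ℂ × ℂ)) : Prop :=
  (∀ p ∈ U, ∀ q ∈ U, p ≠ q → ∃ f, IsBddHol U f ∧ f p ≠ f q) ∧
  (∀ p ∈ U, ∃ f₁ f₂ : ℂ × ℂ → ℂ, IsBddHol U f₁ ∧ IsBddHol U f₂ ∧
    LinearIndependent ℂ ![fderiv ℂ f₁ p, fderiv ℂ f₂ p]) ∧
  (∀ K ⊆ U, IsCompact K →
    IsCompact {p ∈ U | ∀ f, IsBddHol U f → ‖f p‖ ≤ sSup ((fun q => ‖f q‖) '' K)})

end Pool.Agent.Helper269.KdDefs
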