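import Mathlib
import Pool.Agent.Helper269.KdB

set_option autoImplicit false
set_option linter.unusedSimpArgs false

namespace Pool.Agent.Helper269.KdC

open Set Filter Topology ComplexConjugate
open Pool.Agent.Helper269.KdDefs Pool.Agent.Helper269.KdA Pool.Agent.Helper269.KdB

variable (B : Base)

theorem EE_symm (p A C D : ℂ × ℂ) : EE B p A C D = EE B p C A D := by
  simp only [EE, NN, MM, TT]
  ring

theorem NN_symm (p A C : ℂ × ℂ) : NN B p A C = NN B p C A := by
  simp only [NN]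
  ring

theorem PP_symm (p W A C D : ℂ × ℂ) : PP B p W A C D = PP B p A W C D := by
  simp only [PP, PN, PM, NN, TT, nu]
  ring

theorem PP_lin (p W A C D : ℂ × ℂ) :
    PP B p W A C D = PP B p (1, 0) A C D * W.1 + PP B p (0, 1) A C D * W.2 := by
  simp only [PP, PN, PM, NN, TT, nu]
  ring

theorem QQ_lin (p W A C D : ℂ × ℂ) :
    QQ B p W A C D = QQ B p (1, 0) A C D * conj W.1 + QQ B p (0, 1) A C D * conj W.2 := by
  simp only [QQ, DN, DM, NN, TT, nu, map_add, map_mul, map_one, map_zero, map_pow,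
    Complex.conj_ofReal]
  ring

theorem qq_pos {p : ℂ × ℂ} (hp : p ∈ dom B) : 0 < qq B p := by
  have h1 := one_le_rho B hp
  have h2 := B.g0pos p.1 hp.1
  have h3 := B.thpos p.1 hp.1
  unfold qq
  have := mul_nonneg (sub_nonneg.mpr h1) h3
  linarith

theorem bb_pos {p : ℂ × ℂ} (hp : p ∈ dom B) : 0 < bb B p := by
  have h1 := rho_pos B hp
  have h2 := B.kpos p.1 hp.1
  unfold bb
  positivity

theorem hf_Gam {p : ℂ × ℂ} (hp : p ∈ dom B) (A C D : ℂ × ℂ) :
    hf B p (Gam B p A C) D = EE B p A C D := by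
  have hq : ((qq B p : ℝ) : ℂ) ≠ 0 := by exact_mod_cast (qq_pos B hp).ne'
  have h1 : nu B p (Gam B p A C) = NN B p A C := by
    simp only [nu, Gam]
    ring
  unfold hf
  rw [h1]
  simp only [Gam, EE]
  field_simp
  ring

theorem hf_add_left (p v v' w : ℂ × ℂ) : hf B p (v + v') w = hf B p v w + hf B p v' w := by
  simp only [hf, nu, Prod.fst_add, Prod.snd_add]
  ring

theorem hf_sub_left (p v v' w : ℂ × ℂ) : hf B p (v - v') w = hf B p v w - hf B p v' w := by
  simp only [hf, nu, Prod.fst_sub, Prod.snd_sub]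
  ring

theorem hf_conj (p v w : ℂ × ℂ) : conj (hf B p v w) = hf B p w v := by
  simp only [hf, map_add, map_mul, Complex.conj_ofReal, Complex.conj_conj]
  ring

theorem gm_symm (p v w : ℂ × ℂ) : gm B p v w = gm B p w v := by
  rw [gm_apply, gm_apply, ← hf_conj, Complex.conj_re]

theorem gm_self (p v : ℂ × ℂ) :
    gm B p v v = qq B p * ‖v.1‖ ^ 2 + bb B p * ‖nu B p v‖ ^ 2 := by
  rw [gm_apply, hf, Complex.mul_conj, Complex.mul_conj, Complex.normSq_eq_norm_sq,
    Complex.normSq_eq_norm_sq]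
  norm_cast

theorem gm_pos {p : ℂ × ℂ} (hp : p ∈ dom B) {v : ℂ × ℂ} (hv : v ≠ 0) : 0 < gm B p v v := by
  rw [gm_self]
  have hq := qq_pos B hp
  have hb := bb_pos B hp
  by_cases h1 : v.1 = 0
  · have h2 : v.2 ≠ 0 := by
      intro h2
      exact hv (Prod.ext h1 h2)
    have : nu B p v = v.2 := by simp [nu, h1]
    rw [this, h1]
    have := norm_pos_iff.mpr h2
    positivity
  · have := norm_pos_iff.mpr h1
    positivity

theorem gm_I (p v w : ℂ × ℂ) : gm B p (Complex.I • v) (Complex.I • w) = gm B p v w := by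
  rw [gm_apply, gm_apply]
  congr 1
  simp only [hf, nu, Prod.smul_fst, Prod.smul_snd, smul_eq_mul, map_add, map_mul,
    Complex.conj_I]
  have hI := Complex.I_mul_I
  linear_combination (-(qq B p : ℂ) * (v.1 * conj w.1)
    - (bb B p : ℂ) * (v.2 + p.2 * B.lam p.1 * v.1)
      * (conj w.2 + conj p.2 * conj (B.lam p.1) * conj w.1)) * hI

/-- the real derivative of the Hermitian form. -/
theorem hasFDerivAt_hf (C D : ℂ × ℂ) {p : ℂ × ℂ} (hp : p ∈ dom B) :
    HasFDerivAt (fun x => hf B x C D) (L4 (EE B p (1, 0) C D) (conj (EE B p (1, 0) D C))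
      (EE B p (0, 1) C D) (conj (EE B p (0, 1) D C))) p := w2_hf B C D hp

theorem L4_EE (p A C D : ℂ × ℂ) :
    L4 (EE B p (1, 0) C D) (conj (EE B p (1, 0) D C)) (EE B p (0, 1) C D)
      (conj (EE B p (0, 1) D C)) A = EE B p A C D + conj (EE B p A D C) := by
  rw [L4_apply, EE_lin B p A C D, EE_lin B p A D C]
  simp only [map_add, map_mul]
  ring

theorem hasFDerivAt_gm (C D : ℂ × ℂ) {p : ℂ × ℂ} (hp : p ∈ dom B) :
    HasFDerivAt (fun x => gm B x C D) (Complex.reCLM.comp
      (L4 (EE B p (1, 0) C D) (conj (EE B p (1, 0) D C))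
      (EE B p (0, 1) C D) (conj (EE B p (0, 1) D C)))) p := by
  have h := Complex.reCLM.hasFDerivAt.comp p (hasFDerivAt_hf B C D hp)
  exact h

theorem metricDeriv_gm {p : ℂ × ℂ} (hp : p ∈ dom B) (A C D : ℂ × ℂ) :
    metricDeriv (gm B) p A C D = (EE B p A C D).re + (EE B p A D C).re := by
  unfold metricDeriv
  rw [(hasFDerivAt_gm B C D hp).fderiv]
  rw [ContinuousLinearMap.comp_apply, L4_EE]
  simp

theorem isLeviCivitaValue_Gam {p : ℂ × ℂ} (hp : p ∈ dom B) (A C : ℂ × ℂ) :
    IsLeviCivitaValue (gm B) p A C (Gam B p A C) := by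
  intro u
  rw [metricDeriv_gm B hp, metricDeriv_gm B hp, metricDeriv_gm B hp, gm_apply,
    hf_Gam B hp]
  rw [EE_symm B p C A u, EE_symm B p u A C, EE_symm B p u C A]
  ring

theorem christoffel_gm {p : ℂ × ℂ} (hp : p ∈ dom B) (A C : ℂ × ℂ) :
    christoffel (gm B) p A C = Gam B p A C := by
  have h1 : IsLeviCivitaValue (gm B) p A C (christoffel (gm B) p A C) :=
    Classical.epsilon_spec ⟨_, isLeviCivitaValue_Gam B hp A C⟩
  have h2 := isLeviCivitaValue_Gam B hp A C
  by_contra hne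
  have hpos := gm_pos B hp (sub_ne_zero.mpr hne)
  set c := christoffel (gm B) p A C
  set c' := Gam B p A C
  have h3 := h1 (c - c')
  have h4 := h2 (c - c')
  have h5 : gm B p (c - c') (c - c') = gm B p c (c - c') - gm B p c' (c - c') := by
    rw [gm_apply, gm_apply, gm_apply, hf_sub_left, Complex.sub_re]
  rw [h5] at hpos
  linarith

theorem closed_gm {p : ℂ × ℂ} (hp : p ∈ dom B) (u v w : ℂ × ℂ) :
    metricDeriv (gm B) p u (Complex.I • v) w + metricDeriv (gm B) p v (Complex.I • w) u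
      + metricDeriv (gm B) p w (Complex.I • u) v = 0 := by
  have key1 : ∀ A C D : ℂ × ℂ, EE B p A (Complex.I • C) D = Complex.I * EE B p A C D := by
    intro A C D
    simp only [EE, NN, MM, TT, nu, Prod.smul_fst, Prod.smul_snd, smul_eq_mul]
    ring
  have key2 : ∀ A C D : ℂ × ℂ, EE B p A C (Complex.I • D) = -Complex.I * EE B p A C D := by
    intro A C D
    simp only [EE, NN, MM, TT, nu, Prod.smul_fst, Prod.smul_snd, smul_eq_mul, map_add, map_mul,
      Complex.conj_I]
    ring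
  rw [metricDeriv_gm B hp, metricDeriv_gm B hp, metricDeriv_gm B hp]
  rw [key1, key1, key1, key2, key2, key2]
  rw [EE_symm B p u v w, EE_symm B p v w u, EE_symm B p w u v]
  simp only [neg_mul, Complex.neg_re]
  ring

end Pool.Agent.Helper269.KdC
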