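import Mathlib
import Pool.Agent.Helper269.KdC

set_option autoImplicit false
set_option linter.unusedSimpArgs false

namespace Pool.Agent.Helper269.KdD

open Set Filter Topology ComplexConjugate
open Pool.Agent.Helper269.KdDefs Pool.Agent.Helper269.KdA Pool.Agent.Helper269.KdB
open Pool.Agent.Helper269.KdC

variable (B : Base)

theorem isOpen_dom : IsOpen (dom B) := by
  have h1 : IsOpen {p : ℂ × ℂ | p.1 ∈ Metric.ball (0 : ℂ) 1} :=
    Metric.isOpen_ball.preimage continuous_fst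
  have h2 : ContinuousOn (fun p : ℂ × ℂ => ‖p.2‖ ^ 2 * B.k p.1)
      {p : ℂ × ℂ | p.1 ∈ Metric.ball (0 : ℂ) 1} := by
    apply ContinuousOn.mul
    · fun_prop
    · exact B.sk.continuousOn.comp continuous_fst.continuousOn (fun p hp => hp)
  have h3 := h2.isOpen_inter_preimage h1 (isOpen_Iio (a := (1 : ℝ)))
  convert h3 using 1
  ext p
  simp [dom, Metric.mem_ball, dist_zero_right]

theorem fst_mem {p : ℂ × ℂ} (hp : p ∈ dom B) : p.1 ∈ Metric.ball (0 : ℂ) 1 := by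
  simpa [Metric.mem_ball, dist_zero_right] using hp.1

theorem cd_base {F : Type*} [NormedAddCommGroup F] [NormedSpace ℝ F] {f : ℂ → F}
    (hf : ContDiffOn ℝ ((⊤ : ℕ∞) : WithTop ℕ∞) f (Metric.ball 0 1)) :
    ContDiffOn ℝ ((⊤ : ℕ∞) : WithTop ℕ∞) (fun p : ℂ × ℂ => f p.1) (dom B) :=
  hf.comp contDiff_fst.contDiffOn (fun _ hp => fst_mem B hp)

theorem cd_rho : ContDiffOn ℝ ((⊤ : ℕ∞) : WithTop ℕ∞) (rho B) (dom B) := by
  unfold rho
  apply ContDiffOn.inv
  · apply ContDiffOn.sub contDiffOn_const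
    apply ContDiffOn.mul
    · exact ((contDiff_norm_sq ℝ).comp contDiff_snd).contDiffOn
    · exact cd_base B B.sk
  · intro p hp
    exact (one_sub_pos B hp).ne'

theorem cd_qq : ContDiffOn ℝ ((⊤ : ℕ∞) : WithTop ℕ∞) (qq B) (dom B) := by
  unfold qq
  exact (cd_base B B.sg0).add (((cd_rho B).sub contDiffOn_const).mul (cd_base B B.sth))

theorem cd_bb : ContDiffOn ℝ ((⊤ : ℕ∞) : WithTop ℕ∞) (bb B) (dom B) := by
  unfold bb
  exact (cd_base B B.sk).mul ((cd_rho B).pow 2)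

theorem cd_nu (v : ℂ × ℂ) :
    ContDiffOn ℝ ((⊤ : ℕ∞) : WithTop ℕ∞) (fun p => nu B p v) (dom B) := by
  unfold nu
  exact contDiffOn_const.add ((contDiff_snd.contDiffOn.mul (cd_base B B.slam)).mul
    contDiffOn_const)

theorem cd_ofReal {f : ℂ × ℂ → ℝ} {s : Set (ℂ × ℂ)}
    (hf : ContDiffOn ℝ ((⊤ : ℕ∞) : WithTop ℕ∞) f s) :
    ContDiffOn ℝ ((⊤ : ℕ∞) : WithTop ℕ∞) (fun p => (f p : ℂ)) s :=
  Complex.ofRealCLM.contDiff.comp_contDiffOn hf

theorem cd_conj {f : ℂ × ℂ → ℂ} {s : Set (ℂ × ℂ)}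
    (hf : ContDiffOn ℝ ((⊤ : ℕ∞) : WithTop ℕ∞) f s) :
    ContDiffOn ℝ ((⊤ : ℕ∞) : WithTop ℕ∞) (fun p => conj (f p)) s :=
  (Complex.conjCLE : ℂ →L[ℝ] ℂ).contDiff.comp_contDiffOn hf

theorem cd_gm (v w : ℂ × ℂ) :
    ContDiffOn ℝ ((⊤ : ℕ∞) : WithTop ℕ∞) (fun p => gm B p v w) (dom B) := by
  have h : ContDiffOn ℝ ((⊤ : ℕ∞) : WithTop ℕ∞) (fun p => hf B p v w) (dom B) := by
    unfold hf
    exact ((cd_ofReal (cd_qq B)).mul contDiffOn_const).add
      ((cd_ofReal (cd_bb B)).mul ((cd_nu B v).mul (cd_conj (cd_nu B w))))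
  exact Complex.reCLM.contDiff.comp_contDiffOn h

theorem isKahler : IsKahlerMetricOn (dom B) (gm B) where
  riemannian :=
    { smooth := cd_gm B
      symm := fun p _ v w => gm_symm B p v w
      pos := fun _ hp _ hv => gm_pos B hp hv }
  hermitian := fun p _ v w => gm_I B p v w
  closed := fun _ hp u v w => closed_gm B hp u v w

theorem hf_basis (p c D : ℂ × ℂ) :
    hf B p c D = c.1 * hf B p (1, 0) D + c.2 * hf B p (0, 1) D := by
  simp only [hf, nu]
  ring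

theorem EE_basis2 (p W c D : ℂ × ℂ) :
    EE B p W c D = c.1 * EE B p W (1, 0) D + c.2 * EE B p W (0, 1) D := by
  simp only [EE, NN, MM, TT, nu]
  ring

theorem EE_basis3 (p W D c : ℂ × ℂ) :
    conj (EE B p W D c) = c.1 * conj (EE B p W D (1, 0)) + c.2 * conj (EE B p W D (0, 1)) := by
  simp only [EE, map_add, map_mul, Complex.conj_conj, Complex.conj_ofReal, nu, map_one,
    map_zero]
  ring

/-- product rule for `q ↦ hf q (c q) D`. -/
theorem hasFDerivAt_hf_comp {c : ℂ × ℂ → ℂ × ℂ} {c' : ℂ × ℂ →L[ℝ] ℂ × ℂ} {p : ℂ × ℂ}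
    (hp : p ∈ dom B) (hc : HasFDerivAt c c' p) (D : ℂ × ℂ) :
    ∃ L : ℂ × ℂ →L[ℝ] ℂ, HasFDerivAt (fun q => hf B q (c q) D) L p ∧
      ∀ W, L W = EE B p W (c p) D + conj (EE B p W D (c p)) + hf B p (c' W) D := by
  have h1 : HasFDerivAt (fun q => (c q).1) ((ContinuousLinearMap.fst ℝ ℂ ℂ).comp c') p :=
    hc.fst
  have h2 : HasFDerivAt (fun q => (c q).2) ((ContinuousLinearMap.snd ℝ ℂ ℂ).comp c') p :=
    hc.snd
  have h := (h1.mul (hasFDerivAt_hf B (1, 0) D hp)).add (h2.mul (hasFDerivAt_hf B (0, 1) D hp))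
  have e : (fun q => hf B q (c q) D)
      = fun q => (c q).1 * hf B q (1, 0) D + (c q).2 * hf B q (0, 1) D := by
    funext q
    exact hf_basis B q (c q) D
  rw [e]
  refine ⟨_, h, ?_⟩
  intro W
  rw [EE_basis2 B p W (c p) D, EE_basis3 B p W D (c p), hf_basis B p (c' W) D]
  have k1 := L4_EE B p W (1, 0) D
  have k2 := L4_EE B p W (0, 1) D
  simp only [add_apply, smul_apply,
    ContinuousLinearMap.comp_apply, smul_eq_mul, ContinuousLinearMap.coe_fst',
    ContinuousLinearMap.coe_snd'] at *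
  rw [k1, k2]
  ring

theorem differentiableAt_Gam (A C : ℂ × ℂ) {p : ℂ × ℂ} (hp : p ∈ dom B) :
    DifferentiableAt ℝ (fun q => Gam B q A C) p := by
  have hq : ((qq B p : ℝ) : ℂ) ≠ 0 := by exact_mod_cast (qq_pos B hp).ne'
  have hM : DifferentiableAt ℝ (fun q => MM B q A C) p :=
    HasFDerivAt.differentiableAt (w2_MM B A C hp)
  have hQ : DifferentiableAt ℝ (fun q => ((qq B q : ℝ) : ℂ)⁻¹) p :=
    HasFDerivAt.differentiableAt ((w2_qq B hp).inv hq)
  have hN : DifferentiableAt ℝ (fun q => NN B q A C) p :=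
    HasFDerivAt.differentiableAt (w2_NN B A C hp)
  have hl : DifferentiableAt ℝ (fun q : ℂ × ℂ => q.2 * B.lam q.1) p :=
    HasFDerivAt.differentiableAt ((W2.snd p).mul (W2.ofBase (B.dlam p.1 hp.1)))
  have e : (fun q => Gam B q A C) = fun q => (MM B q A C * ((qq B q : ℝ) : ℂ)⁻¹,
      NN B q A C - q.2 * B.lam q.1 * (MM B q A C * ((qq B q : ℝ) : ℂ)⁻¹)) := by
    funext q
    simp only [Gam, div_eq_mul_inv]
  rw [e]
  exact DifferentiableAt.prodMk (hM.mul hQ) (hN.sub (hl.mul (hM.mul hQ)))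

theorem hf_fderiv_Gam (A C D W : ℂ × ℂ) {p : ℂ × ℂ} (hp : p ∈ dom B) :
    hf B p (fderiv ℝ (fun q => Gam B q A C) p W) D
      = PP B p W A C D + QQ B p W A C D - hf B p (Gam B p W (Gam B p A C)) D
        - hf B p (Gam B p A C) (Gam B p W D) := by
  obtain ⟨L, hL, hL2⟩ := hasFDerivAt_hf_comp B hp
    (differentiableAt_Gam B A C hp).hasFDerivAt D
  have hE := w2_EE B A C D hp
  unfold W2 at hE
  have hev : (fun q => hf B q (Gam B q A C) D) =ᶠ[𝓝 p] fun q => EE B q A C D := by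
    filter_upwards [(isOpen_dom B).mem_nhds hp] with q hq
    exact hf_Gam B hq A C D
  have hu := (hL.congr_of_eventuallyEq hev.symm).unique hE
  have h1 := hL2 W
  rw [hu, L4_apply] at h1
  have h2 : hf B p (Gam B p A C) (Gam B p W D) = conj (EE B p W D (Gam B p A C)) := by
    rw [← hf_Gam B hp W D, hf_conj]
  rw [hf_Gam B hp W (Gam B p A C) D, h2, PP_lin, QQ_lin]
  linear_combination -h1

/-- the curvature, before expansion. -/
theorem hf_curv {p : ℂ × ℂ} (hp : p ∈ dom B) (X Y : ℂ × ℂ) :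
    hf B p (curvature (gm B) p X Y Y) X
      = hf B p (Gam B p X Y) (Gam B p X Y) - hf B p (Gam B p Y Y) (Gam B p X X)
        + QQ B p X Y Y X - QQ B p Y X Y X := by
  have hev : ∀ A C : ℂ × ℂ, (fun q => christoffel (gm B) q A C) =ᶠ[𝓝 p]
      fun q => Gam B q A C := by
    intro A C
    filter_upwards [(isOpen_dom B).mem_nhds hp] with q hq
    exact christoffel_gm B hq A C
  unfold curvature
  rw [(hev Y Y).fderiv_eq, (hev X Y).fderiv_eq, christoffel_gm B hp, christoffel_gm B hp,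
    christoffel_gm B hp, christoffel_gm B hp, hf_sub_left, hf_add_left, hf_add_left,
    hf_fderiv_Gam B Y Y X X hp, hf_fderiv_Gam B X Y X Y hp]
  have hG : Gam B p Y X = Gam B p X Y := by
    simp only [Gam, MM, NN, TT]
    ext <;> ring
  rw [hG, PP_symm B p X Y Y X]
  ring

/-- expansion of the Hermitian products of Christoffel symbols. -/
theorem hf_Gam_Gam {p : ℂ × ℂ} (hp : p ∈ dom B) (A C D E : ℂ × ℂ) :
    hf B p (Gam B p A C) (Gam B p D E)
      = MM B p A C * conj (MM B p D E) / (qq B p : ℂ)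
        + (bb B p : ℂ) * (NN B p A C * conj (NN B p D E)) := by
  have hq : ((qq B p : ℝ) : ℂ) ≠ 0 := by exact_mod_cast (qq_pos B hp).ne'
  have h1 : ∀ A C, nu B p (Gam B p A C) = NN B p A C := by
    intro A C
    simp only [nu, Gam]
    ring
  unfold hf
  rw [h1, h1]
  simp only [Gam, map_div₀, Complex.conj_ofReal]
  field_simp

noncomputable def eA (p : ℂ × ℂ) : ℝ :=
  2 * (bb B p * ‖p.2‖ ^ 2) * B.th p.1 ^ 2 + qzz B p - ‖qz B p‖ ^ 2 / qq B p

noncomputable def eB (p : ℂ × ℂ) : ℝ :=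
  uu B p * B.th p.1 - bb B p * ‖p.2‖ ^ 2 * B.th p.1 ^ 2 / qq B p

noncomputable def eE (p : ℂ × ℂ) : ℂ :=
  B.sig p.1 - (B.th p.1 : ℂ) * qz B p / (qq B p : ℂ)

/-- algebraic identity for the curvature numerator -/
theorem alg_id (X1 Y1 nX nY w sig qz : ℂ) (th b u q qzz c2 : ℝ) (hq : q ≠ 0) :
    (((qz * (X1 * Y1) + (b : ℂ) * conj w * th * (X1 * nY + Y1 * nX))
        * conj (qz * (X1 * Y1) + (b : ℂ) * conj w * th * (X1 * nY + Y1 * nX)) / (q : ℂ))
      - ((qz * (Y1 * Y1) + (b : ℂ) * conj w * th * (Y1 * nY + Y1 * nY))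
        * conj (qz * (X1 * X1) + (b : ℂ) * conj w * th * (X1 * nX + X1 * nX)) / (q : ℂ))
      + ((b : ℂ) * conj nX * ((c2 : ℂ) * conj nX * (nY * nY)
            + th * u * conj X1 * (Y1 * nY + Y1 * nY) + w * sig * conj X1 * (Y1 * Y1))
          + conj X1 * (((qzz : ℂ) * conj X1 + (b : ℂ) * w * sig * conj nX) * (Y1 * Y1)
            + ((b : ℂ) * u * th * conj nX + (b : ℂ) * conj w * conj sig * conj X1)
              * (Y1 * nY + Y1 * nY)
            + 2 * (b : ℂ) * ‖w‖ ^ 2 * th ^ 2 * conj X1 * (Y1 * Y1)))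
      - ((b : ℂ) * conj nX * ((c2 : ℂ) * conj nY * (nX * nY)
            + th * u * conj Y1 * (X1 * nY + Y1 * nX) + w * sig * conj Y1 * (X1 * Y1))
          + conj X1 * (((qzz : ℂ) * conj Y1 + (b : ℂ) * w * sig * conj nY) * (X1 * Y1)
            + ((b : ℂ) * u * th * conj nY + (b : ℂ) * conj w * conj sig * conj Y1)
              * (X1 * nY + Y1 * nX)
            + 2 * (b : ℂ) * ‖w‖ ^ 2 * th ^ 2 * conj Y1 * (X1 * Y1)))).re
      = -(2 * (2 * (b * ‖w‖ ^ 2) * th ^ 2 + qzz - ‖qz‖ ^ 2 / q) * (X1 * conj Y1).im ^ 2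
          + 2 * (b * c2) * (nX * conj nY).im ^ 2
          + 4 * (b * (u * th - b * ‖w‖ ^ 2 * th ^ 2 / q)) * (X1 * conj Y1).im
              * (nX * conj nY).im
          + b * (u * th - b * ‖w‖ ^ 2 * th ^ 2 / q) * ‖X1 * conj nY - Y1 * conj nX‖ ^ 2
          + 4 * (X1 * conj Y1).im * ((b : ℂ) * w * (sig - (th : ℂ) * qz / (q : ℂ)) *
              (X1 * conj nY - Y1 * conj nX)).im) := by
  have e0 : ((‖w‖ : ℝ) : ℂ) ^ 2 = w * conj w := by
    rw [Complex.mul_conj, Complex.normSq_eq_norm_sq]; push_cast; rfl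
  have hr : ∀ z : ℂ, ((z.re : ℝ) : ℂ) = (z + conj z) / 2 := by
    intro z; rw [Complex.add_conj]; push_cast; ring
  have hi : ∀ z : ℂ, ((z.im : ℝ) : ℂ) = (z - conj z) / (2 * Complex.I) := by
    intro z; rw [Complex.sub_conj]; push_cast; field_simp
  have hn : ∀ z : ℂ, (((‖z‖ : ℝ) : ℂ)) ^ 2 = z * conj z := by
    intro z; rw [Complex.mul_conj, Complex.normSq_eq_norm_sq]; push_cast; rfl
  have hq' : (q : ℂ) ≠ 0 := by exact_mod_cast hq
  apply Complex.ofReal_injective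
  push_cast
  simp only [hr, hi, hn]
  simp only [map_add, map_sub, map_mul, map_div₀, Complex.conj_conj, Complex.conj_ofReal,
    map_pow, map_ofNat]
  have hI : Complex.I ≠ 0 := Complex.I_ne_zero
  have hI2 : Complex.I ^ 2 = -1 := Complex.I_sq
  field_simp
  ring_nf
  simp only [hI2]
  ring

/-- The numerator of the sectional curvature. -/
theorem gm_curv {p : ℂ × ℂ} (hp : p ∈ dom B) (X Y : ℂ × ℂ) :
    gm B p (curvature (gm B) p X Y Y) X
      = -(2 * eA B p * (X.1 * conj Y.1).im ^ 2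
          + 2 * (bb B p * c2 B p) * (nu B p X * conj (nu B p Y)).im ^ 2
          + 4 * (bb B p * eB B p) * (X.1 * conj Y.1).im * (nu B p X * conj (nu B p Y)).im
          + bb B p * eB B p * ‖X.1 * conj (nu B p Y) - Y.1 * conj (nu B p X)‖ ^ 2
          + 4 * (X.1 * conj Y.1).im * ((bb B p : ℂ) * p.2 * eE B p *
              (X.1 * conj (nu B p Y) - Y.1 * conj (nu B p X))).im) := by
  have hq := (qq_pos B hp).ne'
  have h := alg_id X.1 Y.1 (nu B p X) (nu B p Y) p.2 (B.sig p.1) (qz B p) (B.th p.1)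
    (bb B p) (uu B p) (qq B p) (qzz B p) (c2 B p) hq
  rw [gm_apply, hf_curv B hp, hf_Gam_Gam B hp, hf_Gam_Gam B hp]
  unfold eA eB eE
  rw [← h]
  congr 1
  simp only [QQ, DN, DM, MM, TT, NN_symm B p Y X]
  ring

end Pool.Agent.Helper269.KdD
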