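import Mathlib
set_option autoImplicit false

namespace Pool.Agent.Helper269.KdJ

namespace S13081


/-- quadratic form estimate -/
theorem quad_form {Aa Bt q b κ β w2 : ℝ} {e w : ℂ} (hb : 0 < b) (hq : 0 < q) (hκ0 : 0 ≤ κ)
    (hκ : κ < 1) (hw : ‖w‖ ^ 2 * b = β) (hB : κ * q < Bt)
    (hstar : 0 ≤ Aa - κ * q ^ 2 - 2 * β * ‖e‖ ^ 2 / (Bt - κ * q) - Bt ^ 2 / (2 - κ))
    (p r : ℝ) (ζ : ℂ) :
    κ * ((q * p - b * r) ^ 2 + q * b * ‖ζ‖ ^ 2) ≤
      2 * Aa * p ^ 2 + 4 * b ^ 2 * r ^ 2 + 4 * (b * Bt) * p * r + b * Bt * ‖ζ‖ ^ 2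
        + 4 * p * ((b : ℂ) * w * e * ζ).im := by
  set D := Bt - κ * q with hD
  have hD0 : 0 < D := by rw [hD]; linarith
  set N := ‖ζ‖ with hN
  have hN0 : 0 ≤ N := norm_nonneg _
  set W := ‖w‖ with hW
  have hW0 : 0 ≤ W := norm_nonneg _
  set V := ‖e‖ with hV
  have hV0 : 0 ≤ V := norm_nonneg _
  have h2κ : 0 < 2 - κ := by linarith
  -- step 1
  have h1 : -(4 * (|p| * (b * W * V * N))) ≤ 4 * p * ((b : ℂ) * w * e * ζ).im := by
    have h11 : |((b : ℂ) * w * e * ζ).im| ≤ b * W * V * N := by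
      refine (Complex.abs_im_le_norm _).trans ?_
      rw [norm_mul, norm_mul, norm_mul, Complex.norm_real, Real.norm_eq_abs, abs_of_pos hb]
    have h12 : |p * ((b : ℂ) * w * e * ζ).im| ≤ |p| * (b * W * V * N) := by
      rw [abs_mul]
      exact mul_le_mul_of_nonneg_left h11 (abs_nonneg _)
    have := neg_abs_le (p * ((b : ℂ) * w * e * ζ).im)
    nlinarith
  -- step 3
  have h3 : -(2 * (Bt ^ 2 / (2 - κ)) * p ^ 2) ≤ 2 * b ^ 2 * (2 - κ) * r ^ 2 + 4 * b * Bt * p * r := by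
    have : 2 * b ^ 2 * (2 - κ) * r ^ 2 + 4 * b * Bt * p * r + 2 * (Bt ^ 2 / (2 - κ)) * p ^ 2 =
        2 * (2 - κ) * (b * r + Bt * p / (2 - κ)) ^ 2 := by
      field_simp
      ring
    have h := mul_nonneg (mul_nonneg (by norm_num : (0:ℝ) ≤ 2) h2κ.le) (sq_nonneg (b * r + Bt * p / (2 - κ)))
    linarith
  -- step 4
  have h4 : -(4 * β * V ^ 2 / D * p ^ 2) ≤ b * D * N ^ 2 - 4 * (|p| * (b * W * V * N)) := by
    have hp2 : |p| ^ 2 = p ^ 2 := sq_abs p
    have : b * D * N ^ 2 - 4 * (|p| * (b * W * V * N)) + 4 * β * V ^ 2 / D * p ^ 2 =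
        b * D * (N - 2 * |p| * W * V / D) ^ 2 := by
      rw [← hw, ← hp2]
      field_simp
      ring
    have h := mul_nonneg (mul_nonneg hb.le hD0.le) (sq_nonneg (N - 2 * |p| * W * V / D))
    linarith
  -- step 2
  have h2 : κ * (q * p - b * r) ^ 2 ≤ 2 * κ * q ^ 2 * p ^ 2 + 2 * κ * b ^ 2 * r ^ 2 := by
    nlinarith [mul_nonneg hκ0 (sq_nonneg (q * p + b * r))]
  have h5 : 0 ≤ (Aa - κ * q ^ 2 - 2 * β * V ^ 2 / D - Bt ^ 2 / (2 - κ)) * p ^ 2 :=
    mul_nonneg hstar (sq_nonneg p)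
  have h6 : b * D * N ^ 2 = b * Bt * N ^ 2 - κ * (q * b * N ^ 2) := by rw [hD]; ring
  have h7 : 4 * β * V ^ 2 / D * p ^ 2 = 2 * (2 * β * V ^ 2 / D * p ^ 2) := by ring
  nlinarith [h1, h2, h3, h4, h5, h6, h7]

end S13081

namespace S13313


/-- averaging over the `n`-th roots of unity -/
theorem avg_coeff {f : ℂ → ℂ} (hf : DifferentiableOn ℂ f (Metric.ball 0 1)) {n l : ℕ}
    (hl : l < n) {ρ ε S : ℝ} (hρ0 : 0 < ρ) (hρ1 : ρ < 1)
    (hε : ∀ z : ℂ, ‖z‖ = ρ ^ 2 → z ^ n = (((ρ ^ 2) ^ n : ℝ) : ℂ) → ‖f z‖ ≤ ε)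
    (hS : ∀ z : ℂ, ‖z‖ = ρ → ‖f z‖ ≤ S) :
    ‖iteratedDeriv l f 0 / (l.factorial : ℂ)‖ * (ρ ^ 2) ^ l ≤ ε + S * ρ ^ n / (1 - ρ ^ n) := by
  have hn : 0 < n := by omega
  have hS0 : 0 ≤ S := by
    refine le_trans (norm_nonneg _) (hS (ρ : ℂ) ?_)
    rw [Complex.norm_real, Real.norm_eq_abs, abs_of_pos hρ0]
  set a : ℕ → ℂ := fun m => iteratedDeriv m f 0 / (m.factorial : ℂ) with ha
  set r : ℝ := ρ ^ 2 with hr
  have hr0 : 0 < r := by positivity
  have hr1 : r < 1 := by rw [hr]; nlinarith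
  -- Cauchy
  have hcau : ∀ m, ‖a m‖ * r ^ m ≤ S * ρ ^ m := by
    intro m
    have hd : DiffContOnCl ℂ f (Metric.ball 0 ρ) := by
      apply DifferentiableOn.diffContOnCl_ball hf
      exact Metric.closedBall_subset_ball hρ1
    have h1 := Complex.norm_iteratedDeriv_le_of_forall_mem_sphere_norm_le m hρ0 hd
      (C := S) (fun z hz => hS z (by simpa using hz))
    have h2 : ‖a m‖ ≤ S / ρ ^ m := by
      rw [ha]
      simp only
      rw [norm_div, Complex.norm_natCast, div_le_iff₀ (by positivity)]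
      refine h1.trans (le_of_eq ?_)
      ring
    calc ‖a m‖ * r ^ m ≤ S / ρ ^ m * r ^ m := by gcongr
      _ = S * ρ ^ m := by
        rw [hr, ← pow_mul, mul_comm 2 m, pow_mul]
        field_simp
  -- root of unity
  obtain ⟨ζ, hζ⟩ : ∃ ζ : ℂ, IsPrimitiveRoot ζ n := ⟨_, Complex.isPrimitiveRoot_exp n hn.ne'⟩
  have hζ0 : ζ ≠ 0 := hζ.ne_zero hn.ne'
  have hζn : ‖ζ‖ = 1 := hζ.norm'_eq_one hn.ne'
  have hser : ∀ i : ℕ, HasSum (fun m : ℕ => a m * (ζ ^ i * r) ^ m) (f (ζ ^ i * r)) := by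
    intro i
    have hmem : (ζ ^ i * (r : ℂ)) ∈ Metric.ball (0 : ℂ) 1 := by
      rw [mem_ball_zero_iff, norm_mul, norm_pow, hζn, one_pow, one_mul, Complex.norm_real,
        Real.norm_eq_abs, abs_of_pos hr0]
      exact hr1
    have h1 := Complex.hasSum_taylorSeries_on_ball hf hmem
    have h2 : (fun m : ℕ => a m * (ζ ^ i * r) ^ m) =
        (fun n : ℕ => ((n.factorial : ℂ))⁻¹ • (ζ ^ i * (r : ℂ) - 0) ^ n • iteratedDeriv n f 0) := by
      funext m
      rw [sub_zero, smul_eq_mul, smul_eq_mul, ha]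
      simp only
      rw [div_eq_mul_inv]
      ring
    rw [h2]
    exact h1
  -- averaged series
  set W : ℂ := ∑ i ∈ Finset.range n, (ζ ^ i)⁻¹ ^ l * f (ζ ^ i * r) with hW
  have hsum1 : HasSum (fun m : ℕ => ∑ i ∈ Finset.range n, (ζ ^ i)⁻¹ ^ l * (a m * (ζ ^ i * r) ^ m)) W :=
    hasSum_sum (fun i _ => (hser i).mul_left _)
  have horth : ∀ m : ℕ, ∑ i ∈ Finset.range n, (ζ ^ i)⁻¹ ^ l * (a m * (ζ ^ i * r) ^ m)
      = if m % n = l then (n : ℂ) * (a m * (r : ℂ) ^ m) else 0 := by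
    intro m
    set q : ℂ := (ζ ^ l)⁻¹ * ζ ^ m with hq
    have e1 : ∀ i, (ζ ^ i)⁻¹ ^ l * (a m * (ζ ^ i * r) ^ m) = q ^ i * (a m * (r : ℂ) ^ m) := by
      intro i
      rw [hq, mul_pow, mul_pow, inv_pow, inv_pow, ← pow_mul, ← pow_mul, ← pow_mul, ← pow_mul,
        mul_comm l i, mul_comm m i]
      ring
    simp only [e1]
    rw [← Finset.sum_mul]
    have hqn : q ^ n = 1 := by
      rw [hq, mul_pow, inv_pow, ← pow_mul, ← pow_mul, mul_comm l n, mul_comm m n, pow_mul, pow_mul,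
        hζ.pow_eq_one, one_pow, one_pow, inv_one, one_mul]
    have hmod : ζ ^ m = ζ ^ (m % n) := by
      conv_lhs => rw [← Nat.div_add_mod m n]
      rw [pow_add, pow_mul, hζ.pow_eq_one, one_pow, one_mul]
    split_ifs with h
    · have hq1 : q = 1 := by
        rw [hq, hmod, h, inv_mul_cancel₀ (pow_ne_zero _ hζ0)]
      rw [hq1]
      simp
    · have hq1 : q ≠ 1 := by
        intro h1
        apply h
        have h2 : ζ ^ (m % n) = ζ ^ l := by
          rw [← hmod]
          have := congrArg (fun t => ζ ^ l * t) h1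
          rw [hq, mul_inv_cancel_left₀ (pow_ne_zero _ hζ0), mul_one] at this
          exact this
        exact hζ.pow_inj (Nat.mod_lt _ hn) hl h2
      have h3 := geom_sum_mul q n
      rw [hqn, sub_self] at h3
      rw [(mul_eq_zero.1 h3).resolve_right (sub_ne_zero.2 hq1), zero_mul]
  simp only [horth] at hsum1
  have hinj : Function.Injective (fun j : ℕ => l + j * n) := by
    intro j j' h
    simp only at h
    exact Nat.eq_of_mul_eq_mul_right hn (by omega)
  have hsum2 : HasSum (fun j : ℕ => (n : ℂ) * (a (l + j * n) * (r : ℂ) ^ (l + j * n))) W := by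
    rw [← hinj.hasSum_iff] at hsum1
    · convert hsum1 using 1
      funext j
      simp only [Function.comp]
      rw [if_pos]
      rw [Nat.add_mul_mod_self_right, Nat.mod_eq_of_lt hl]
    · intro m hm
      rw [if_neg]
      intro h
      apply hm
      refine ⟨m / n, ?_⟩
      simp only
      have := Nat.mod_add_div m n
      rw [h, mul_comm] at this
      exact this
  have hsum3 := (hasSum_nat_add_iff' 1).2 hsum2
  rw [Finset.sum_range_one, zero_mul, add_zero] at hsum3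
  have hρn : ρ ^ n < 1 := pow_lt_one₀ hρ0.le hρ1 hn.ne'
  have hgeo : HasSum (fun j : ℕ => (n : ℝ) * S * ρ ^ n * (ρ ^ n) ^ j) ((n : ℝ) * S * ρ ^ n * (1 - ρ ^ n)⁻¹) :=
    (hasSum_geometric_of_lt_one (by positivity) hρn).mul_left _
  have hbd := tsum_of_norm_bounded hgeo (f := fun j : ℕ => (n : ℂ) * (a (l + (j + 1) * n) * (r : ℂ) ^ (l + (j + 1) * n))) (by
    intro j
    rw [norm_mul, norm_mul, norm_pow, Complex.norm_real, Real.norm_eq_abs, abs_of_pos hr0,
      Complex.norm_natCast]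
    have h1 := hcau (l + (j + 1) * n)
    have h2 : ρ ^ (l + (j + 1) * n) ≤ ρ ^ ((j + 1) * n) :=
      pow_le_pow_of_le_one hρ0.le hρ1.le (by omega)
    calc (n : ℝ) * (‖a (l + (j + 1) * n)‖ * r ^ (l + (j + 1) * n))
        ≤ (n : ℝ) * (S * ρ ^ (l + (j + 1) * n)) := by gcongr
      _ ≤ (n : ℝ) * (S * ρ ^ ((j + 1) * n)) := by gcongr
      _ = (n : ℝ) * S * ρ ^ n * (ρ ^ n) ^ j := by
        rw [← pow_mul, mul_assoc, mul_assoc, ← pow_add]
        congr 3
        ring)
  rw [hsum3.tsum_eq] at hbd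
  have hWle : ‖W‖ ≤ n * ε := by
    rw [hW]
    refine (norm_sum_le _ _).trans ?_
    have : ∀ i ∈ Finset.range n, ‖(ζ ^ i)⁻¹ ^ l * f (ζ ^ i * r)‖ ≤ ε := by
      intro i _
      rw [norm_mul, norm_pow, norm_inv, norm_pow, hζn, one_pow, inv_one, one_pow, one_mul]
      apply hε
      · rw [norm_mul, norm_pow, hζn, one_pow, one_mul, Complex.norm_real, Real.norm_eq_abs,
          abs_of_pos hr0]
      · rw [mul_pow, ← pow_mul, mul_comm i n, pow_mul, hζ.pow_eq_one, one_pow, one_mul]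
        push_cast
        rfl
    refine (Finset.sum_le_sum this).trans (le_of_eq ?_)
    rw [Finset.sum_const, Finset.card_range, nsmul_eq_mul]
  have h4 : (n : ℝ) * (‖a l‖ * r ^ l) ≤ n * ε + (n : ℝ) * S * ρ ^ n * (1 - ρ ^ n)⁻¹ := by
    have h5 : ‖(n : ℂ) * (a l * (r : ℂ) ^ l)‖ = (n : ℝ) * (‖a l‖ * r ^ l) := by
      rw [norm_mul, norm_mul, norm_pow, Complex.norm_real, Real.norm_eq_abs, abs_of_pos hr0,
        Complex.norm_natCast]
    rw [← h5]
    calc ‖(n : ℂ) * (a l * (r : ℂ) ^ l)‖ = ‖W - (W - (n : ℂ) * (a l * (r : ℂ) ^ l))‖ := by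
          congr 1; ring
      _ ≤ ‖W‖ + ‖W - (n : ℂ) * (a l * (r : ℂ) ^ l)‖ := norm_sub_le _ _
      _ ≤ _ := add_le_add hWle hbd
  have hnR : (0 : ℝ) < n := by exact_mod_cast hn
  have h6 : (n : ℝ) * (‖a l‖ * r ^ l) ≤ n * (ε + S * ρ ^ n / (1 - ρ ^ n)) := by
    refine h4.trans (le_of_eq ?_)
    rw [div_eq_mul_inv]
    ring
  exact le_of_mul_le_mul_left h6 hnR

end S13313

namespace S13314


theorem simplyConnected_dom {k : ℂ → ℝ} (hk : ContinuousOn k (Metric.ball 0 1))
    (hpos : ∀ z : ℂ, ‖z‖ < 1 → 0 < k z) :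
    SimplyConnectedSpace ({p : ℂ × ℂ | ‖p.1‖ < 1 ∧ ‖p.2‖ ^ 2 * k p.1 < 1} : Set (ℂ × ℂ)) := by
  set U : Set (ℂ × ℂ) := {p : ℂ × ℂ | ‖p.1‖ < 1 ∧ ‖p.2‖ ^ 2 * k p.1 < 1} with hU
  set V : Set (ℂ × ℂ) := {p : ℂ × ℂ | ‖p.1‖ < 1 ∧ ‖p.2‖ < 1} with hV
  have hVc : Convex ℝ V := by
    have : V = Metric.ball (0 : ℂ) 1 ×ˢ Metric.ball (0 : ℂ) 1 := by
      ext p
      simp [hV, Set.mem_prod]
    rw [this]
    exact (convex_ball _ _).prod (convex_ball _ _)
  have hVn : V.Nonempty := ⟨(0, 0), by simp [hV]⟩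
  have hVcon : ContractibleSpace V := hVc.contractibleSpace hVn
  have hks : ∀ z : ℂ, ‖z‖ < 1 → 0 < Real.sqrt (k z) := fun z hz => Real.sqrt_pos.mpr (hpos z hz)
  let f : U → V := fun p => ⟨(p.1.1, ((Real.sqrt (k p.1.1) : ℝ) : ℂ) * p.1.2), by
    refine ⟨p.2.1, ?_⟩
    have h1 := p.2.2
    have h2 := hks _ p.2.1
    simp only [norm_mul, Complex.norm_real, Real.norm_eq_abs, abs_of_pos h2]
    have h3 : (Real.sqrt (k p.1.1) * ‖p.1.2‖) ^ 2 < 1 := by
      rw [mul_pow, Real.sq_sqrt (hpos _ p.2.1).le]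
      linarith
    nlinarith [norm_nonneg p.1.2, mul_nonneg h2.le (norm_nonneg p.1.2)]⟩
  let g : V → U := fun p => ⟨(p.1.1, p.1.2 / ((Real.sqrt (k p.1.1) : ℝ) : ℂ)), by
    refine ⟨p.2.1, ?_⟩
    have h1 := p.2.2
    have h2 := hks _ p.2.1
    simp only [norm_div, Complex.norm_real, Real.norm_eq_abs, abs_of_pos h2]
    rw [div_pow, Real.sq_sqrt (hpos _ p.2.1).le, div_mul_cancel₀ _ (hpos _ p.2.1).ne']
    nlinarith [norm_nonneg p.1.2]⟩
  have kU : Continuous fun p : U => k p.1.1 :=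
    hk.comp_continuous (continuous_fst.comp continuous_subtype_val) fun p => by
      simpa using p.2.1
  have kV : Continuous fun p : V => k p.1.1 :=
    hk.comp_continuous (continuous_fst.comp continuous_subtype_val) fun p => by
      simpa using p.2.1
  let e : U ≃ₜ V :=
    { toFun := f
      invFun := g
      left_inv := by
        intro p
        apply Subtype.ext
        have h2 : ((Real.sqrt (k p.1.1) : ℝ) : ℂ) ≠ 0 := by
          exact_mod_cast (hks _ p.2.1).ne'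
        simp only [f, g]
        apply Prod.ext
        · rfl
        · simp only
          field_simp
      right_inv := by
        intro p
        apply Subtype.ext
        have h2 : ((Real.sqrt (k p.1.1) : ℝ) : ℂ) ≠ 0 := by
          exact_mod_cast (hks _ p.2.1).ne'
        simp only [f, g]
        apply Prod.ext
        · rfl
        · simp only
          field_simp
      continuous_toFun := by
        apply Continuous.subtype_mk
        refine Continuous.prodMk (continuous_fst.comp continuous_subtype_val) ?_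
        exact (Complex.continuous_ofReal.comp (Real.continuous_sqrt.comp kU)).mul
          (continuous_snd.comp continuous_subtype_val)
      continuous_invFun := by
        apply Continuous.subtype_mk
        refine Continuous.prodMk (continuous_fst.comp continuous_subtype_val) ?_
        refine (continuous_snd.comp continuous_subtype_val).div
          (Complex.continuous_ofReal.comp (Real.continuous_sqrt.comp kV)) fun p => ?_
        exact_mod_cast (hks _ p.2.1).ne' }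
  have : ContractibleSpace U := e.contractibleSpace
  exact SimplyConnectedSpace.ofContractible U

end S13314

namespace S13315


theorem exists_path_dom {k : ℂ → ℝ} (hk : ContinuousOn k (Metric.ball 0 1))
    (hpos : ∀ z : ℂ, ‖z‖ < 1 → 0 < k z) {p q : ℂ × ℂ}
    (hp : ‖p.1‖ < 1 ∧ ‖p.2‖ ^ 2 * k p.1 < 1) (hq : ‖q.1‖ < 1 ∧ ‖q.2‖ ^ 2 * k q.1 < 1) :
    ∃ c : ℝ → ℂ × ℂ, ContDiff ℝ 1 c ∧ c 0 = p ∧ c 1 = q ∧
      ∀ t ∈ Set.Icc (0 : ℝ) 1, ‖(c t).1‖ < 1 ∧ ‖(c t).2‖ ^ 2 * k (c t).1 < 1 := by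
  have hS : ContDiff ℝ 1 Real.smoothTransition := Real.smoothTransition.contDiff
  have hS1 : ContDiff ℝ 1 (fun t : ℝ => Real.smoothTransition (3 * t - 1)) :=
    hS.comp ((contDiff_const.mul contDiff_id).sub contDiff_const)
  have hS2 : ContDiff ℝ 1 (fun t : ℝ => Real.smoothTransition (3 * t - 2)) :=
    hS.comp ((contDiff_const.mul contDiff_id).sub contDiff_const)
  have hS0 : ContDiff ℝ 1 (fun t : ℝ => Real.smoothTransition (3 * t)) :=
    hS.comp (contDiff_const.mul contDiff_id)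
  refine ⟨fun t => (p.1 + Real.smoothTransition (3 * t - 1) • (q.1 - p.1),
    (1 - Real.smoothTransition (3 * t)) • p.2 + Real.smoothTransition (3 * t - 2) • q.2),
    ?_, ?_, ?_, ?_⟩
  · exact (contDiff_const.add (hS1.smul contDiff_const)).prodMk
      (((contDiff_const.sub hS0).smul contDiff_const).add (hS2.smul contDiff_const))
  · have h1 : Real.smoothTransition (3 * 0 - 1) = 0 :=
      Real.smoothTransition.zero_of_nonpos (by norm_num)
    have h2 : Real.smoothTransition (3 * 0) = 0 :=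
      Real.smoothTransition.zero_of_nonpos (by norm_num)
    have h3 : Real.smoothTransition (3 * 0 - 2) = 0 :=
      Real.smoothTransition.zero_of_nonpos (by norm_num)
    simp only [h1, h2, h3]
    simp
  · have h1 : Real.smoothTransition (3 * 1 - 1) = 1 :=
      Real.smoothTransition.one_of_one_le (by norm_num)
    have h2 : Real.smoothTransition (3 * 1) = 1 :=
      Real.smoothTransition.one_of_one_le (by norm_num)
    have h3 : Real.smoothTransition (3 * 1 - 2) = 1 :=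
      Real.smoothTransition.one_of_one_le (by norm_num)
    simp only [h1, h2, h3]
    simp
  · rintro t ⟨ht0, ht1⟩
    show ‖p.1 + Real.smoothTransition (3 * t - 1) • (q.1 - p.1)‖ < 1 ∧
      ‖(1 - Real.smoothTransition (3 * t)) • p.2 + Real.smoothTransition (3 * t - 2) • q.2‖ ^ 2 *
        k (p.1 + Real.smoothTransition (3 * t - 1) • (q.1 - p.1)) < 1
    rcases le_total t (1 / 3) with h | h
    · have h1 : Real.smoothTransition (3 * t - 1) = 0 :=
        Real.smoothTransition.zero_of_nonpos (by linarith)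
      have h3 : Real.smoothTransition (3 * t - 2) = 0 :=
        Real.smoothTransition.zero_of_nonpos (by linarith)
      rw [h1, h3, zero_smul, zero_smul, add_zero, add_zero]
      refine ⟨hp.1, lt_of_le_of_lt ?_ hp.2⟩
      apply mul_le_mul_of_nonneg_right _ (hpos _ hp.1).le
      apply pow_le_pow_left₀ (norm_nonneg _)
      rw [norm_smul, Real.norm_eq_abs, abs_of_nonneg (by
        have := Real.smoothTransition.le_one (3 * t); linarith)]
      have h4 := Real.smoothTransition.nonneg (3 * t)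
      have h5 := norm_nonneg p.2
      nlinarith
    · rcases le_total t (2 / 3) with h' | h'
      · have h2 : Real.smoothTransition (3 * t) = 1 :=
          Real.smoothTransition.one_of_one_le (by linarith)
        have h3 : Real.smoothTransition (3 * t - 2) = 0 :=
          Real.smoothTransition.zero_of_nonpos (by linarith)
        rw [h2, h3, sub_self, zero_smul, zero_smul, add_zero, norm_zero]
        refine ⟨?_, by norm_num⟩
        have h4 := Real.smoothTransition.nonneg (3 * t - 1)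
        have h5 := Real.smoothTransition.le_one (3 * t - 1)
        have hc : Convex ℝ (Metric.ball (0 : ℂ) 1) := convex_ball 0 1
        have h6 := hc.add_smul_sub_mem (x := p.1) (y := q.1) (by simpa using hp.1)
          (by simpa using hq.1) ⟨h4, h5⟩
        simpa using h6
      · have h1 : Real.smoothTransition (3 * t - 1) = 1 :=
          Real.smoothTransition.one_of_one_le (by linarith)
        have h2 : Real.smoothTransition (3 * t) = 1 :=
          Real.smoothTransition.one_of_one_le (by linarith)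
        rw [h1, h2, sub_self, zero_smul, zero_add, one_smul, add_sub_cancel]
        refine ⟨hq.1, lt_of_le_of_lt ?_ hq.2⟩
        apply mul_le_mul_of_nonneg_right _ (hpos _ hq.1).le
        apply pow_le_pow_left₀ (norm_nonneg _)
        have h4 := Real.smoothTransition.nonneg (3 * t - 2)
        have h6 := Real.smoothTransition.le_one (3 * t - 2)
        rw [norm_smul, Real.norm_eq_abs, abs_of_nonneg h4]
        have h5 := norm_nonneg q.2
        nlinarith

end S13315

namespace S13316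


open Set

theorem fibre_deriv_schwarz {F : ℂ → ℂ} {F' : ℂ} {r B : ℝ} (hr : 0 < r) (hB : 0 ≤ B)
    (hd : DifferentiableOn ℂ F (Metric.ball 0 r)) (hF : HasDerivAt F F' 0)
    (hb : ∀ w : ℂ, ‖w‖ < r → ‖F w‖ ≤ B) {w : ℂ} (hw : ‖w‖ < r) (hw0 : w ≠ 0) :
    ‖(F w - F 0) / w - F'‖ ≤ 4 * B / r ^ 2 * ‖w‖ := by
  have h0 : ‖F 0‖ ≤ B := hb 0 (by simpa using hr)
  have hmaps : MapsTo F (Metric.ball 0 r) (Metric.closedBall (F 0) (2 * B)) := by
    intro v hv
    rw [Metric.mem_closedBall, dist_eq_norm]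
    have h1 := hb v (by simpa using hv)
    have h2 := norm_sub_le (F v) (F 0)
    linarith
  have hF' : ‖F'‖ ≤ 2 * B / r := by
    have h1 := Complex.norm_deriv_le_div_of_mapsTo_ball hd hmaps hr
    rwa [hF.deriv] at h1
  have hrF : r * ‖F'‖ ≤ 2 * B := by
    rw [le_div_iff₀ hr] at hF'
    linarith
  set h : ℂ → ℂ := fun v => F v - v * F' with hh
  have hhd : DifferentiableOn ℂ h (Metric.ball 0 r) :=
    hd.sub ((differentiable_id.mul_const F').differentiableOn)
  have hh0 : h 0 = F 0 := by simp [hh]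
  have hhm : MapsTo h (Metric.ball 0 r) (Metric.closedBall (h 0) (4 * B)) := by
    intro v hv
    rw [Metric.mem_closedBall, dist_eq_norm, hh0]
    have hv' : ‖v‖ < r := by simpa using hv
    have h1 := hb v hv'
    have h2 : ‖F v - v * F' - F 0‖ ≤ ‖F v‖ + ‖v * F'‖ + ‖F 0‖ :=
      (norm_sub_le _ _).trans (by linarith [norm_sub_le (F v) (v * F')])
    have h3 : ‖v * F'‖ ≤ 2 * B := by
      rw [norm_mul]
      exact (mul_le_mul_of_nonneg_right hv'.le (norm_nonneg _)).trans hrF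
    change ‖F v - v * F' - F 0‖ ≤ _
    linarith
  have hlo : (fun v => h v - h 0) =o[nhds 0] (fun v : ℂ => ‖v - 0‖ ^ 1) := by
    have h1 := (hasDerivAt_iff_isLittleO.1 hF)
    have h2 : (fun v => h v - h 0) = fun v => F v - F 0 - (v - 0) • F' := by
      funext v
      rw [hh0]
      simp only [hh, smul_eq_mul, sub_zero]
      ring
    rw [h2]
    simp only [pow_one]
    exact h1.norm_right
  have key := Complex.dist_le_mul_div_pow_of_mapsTo_ball_of_isLittleO hhd hhm hlo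
    (z := w) (by simpa using hw)
  have hwn : 0 < ‖w‖ := norm_pos_iff.2 hw0
  have e1 : (F w - F 0) / w - F' = (h w - h 0) / w := by
    rw [hh0]
    simp only [hh]
    field_simp
    ring
  rw [dist_eq_norm, dist_zero_right] at key
  rw [e1, norm_div, div_le_iff₀ hwn]
  refine key.trans (le_of_eq ?_)
  have e2 : (‖w‖ / r) ^ (1 + 1) = ‖w‖ ^ 2 / r ^ 2 := div_pow _ _ _
  rw [e2]
  field_simp

/-- the derivative along the fibre at the zero section is holomorphic, and bounded by Cauchy. -/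
theorem fibre_deriv {k : ℂ → ℝ} (hk : ContinuousOn k (Metric.ball 0 1))
    (hpos : ∀ z : ℂ, ‖z‖ < 1 → 0 < k z) {f : ℂ × ℂ → ℂ} {Bd : ℝ}
    (hf : DifferentiableOn ℂ f {p : ℂ × ℂ | ‖p.1‖ < 1 ∧ ‖p.2‖ ^ 2 * k p.1 < 1})
    (hb : ∀ p : ℂ × ℂ, ‖p.1‖ < 1 → ‖p.2‖ ^ 2 * k p.1 < 1 → ‖f p‖ ≤ Bd) :
    DifferentiableOn ℂ (fun z => fderiv ℂ f (z, 0) (0, 1)) (Metric.ball 0 1) ∧
    ∀ z : ℂ, ‖z‖ < 1 → ‖fderiv ℂ f (z, 0) (0, 1)‖ ^ 2 ≤ Bd ^ 2 * k z := by
  set U : Set (ℂ × ℂ) := {p : ℂ × ℂ | ‖p.1‖ < 1 ∧ ‖p.2‖ ^ 2 * k p.1 < 1} with hU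
  have hkc : ∀ z : ℂ, ‖z‖ < 1 → ContinuousAt k z := fun z hz =>
    hk.continuousAt (Metric.isOpen_ball.mem_nhds (by simpa using hz))
  have hUo : IsOpen U := by
    rw [isOpen_iff_mem_nhds]
    rintro ⟨z, w⟩ ⟨hz, hw⟩
    have h1 : ContinuousAt (fun p : ℂ × ℂ => ‖p.2‖ ^ 2 * k p.1) (z, w) :=
      (continuous_snd.norm.pow 2).continuousAt.mul
        (ContinuousAt.comp (f := Prod.fst) (hkc z hz) continuous_fst.continuousAt)
    have h2 : ∀ᶠ p : ℂ × ℂ in nhds (z, w), ‖p.2‖ ^ 2 * k p.1 < 1 := h1.eventually_lt_const hw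
    have h3 : ∀ᶠ p : ℂ × ℂ in nhds (z, w), ‖p.1‖ < 1 :=
      continuous_fst.norm.continuousAt.eventually_lt_const hz
    filter_upwards [h2, h3] with p hp2 hp3
    exact ⟨hp3, hp2⟩
  have hfd : ∀ p ∈ U, DifferentiableAt ℂ f p := fun p hp =>
    (hf p hp).differentiableAt (hUo.mem_nhds hp)
  have hfib : ∀ z w : ℂ, (z, w) ∈ U →
      HasDerivAt (fun v => f (z, v)) (fderiv ℂ f (z, w) (0, 1)) w := by
    intro z w h
    exact (hfd _ h).hasFDerivAt.comp_hasDerivAt w ((hasDerivAt_const w z).prodMk (hasDerivAt_id w))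
  have h0U : ∀ z : ℂ, ‖z‖ < 1 → (z, (0 : ℂ)) ∈ U := by
    intro z hz
    refine ⟨hz, ?_⟩
    simp
  have hBd : 0 ≤ Bd := (norm_nonneg _).trans (hb (0, 0) (by simp) (by simp))
  constructor
  · intro z0 hz0
    have hz0' : ‖z0‖ < 1 := by simpa using hz0
    have hk0 := hpos z0 hz0'
    set K : ℝ := k z0 + 1 with hK
    have hKpos : 0 < K := by linarith
    set r : ℝ := 1 / (K + 1) with hr
    have hrpos : 0 < r := by positivity
    have hr1 : r < 1 := by
      rw [hr, div_lt_one (by linarith)]; linarith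
    have hrK : r * K < 1 := by
      rw [hr, one_div, inv_mul_lt_iff₀ (by linarith)]; linarith
    have hr2K : r ^ 2 * K < 1 := by
      have : r ^ 2 * K = r * (r * K) := by ring
      rw [this]
      nlinarith
    have hev : ∀ᶠ z in nhds z0, ‖z‖ < 1 ∧ k z < K :=
      (continuous_norm.continuousAt.eventually_lt_const hz0').and
        ((hkc z0 hz0').eventually_lt_const (by linarith))
    obtain ⟨δ, hδ, hball⟩ := Metric.eventually_nhds_iff_ball.1 hev
    have hin : ∀ z ∈ Metric.ball z0 δ, ∀ w : ℂ, ‖w‖ < r → (z, w) ∈ U := by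
      intro z hz w hw
      obtain ⟨h1, h2⟩ := hball z hz
      refine ⟨h1, ?_⟩
      have hkz := hpos z h1
      have h3 : ‖w‖ ^ 2 ≤ r ^ 2 := pow_le_pow_left₀ (norm_nonneg _) hw.le 2
      change ‖w‖ ^ 2 * k z < 1
      calc ‖w‖ ^ 2 * k z ≤ r ^ 2 * k z := mul_le_mul_of_nonneg_right h3 hkz.le
        _ ≤ r ^ 2 * K := mul_le_mul_of_nonneg_left h2.le (by positivity)
        _ < 1 := hr2K
    let ep : ℕ → ℝ := fun n => r / ((n : ℝ) + 2)
    have hep0 : ∀ n, 0 < ep n := fun n => by positivity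
    have hepr : ∀ n, ep n < r := fun n => by
      simp only [ep]
      rw [div_lt_iff₀ (by positivity)]
      have : (0:ℝ) ≤ n := Nat.cast_nonneg n
      nlinarith
    have hnorm : ∀ n, ‖((ep n : ℝ) : ℂ)‖ = ep n := fun n => by
      rw [Complex.norm_real, Real.norm_of_nonneg (hep0 n).le]
    let G : ℕ → ℂ → ℂ := fun n z => (f (z, ((ep n : ℝ) : ℂ)) - f (z, 0)) / ((ep n : ℝ) : ℂ)
    have hGd : ∀ n, DifferentiableOn ℂ (G n) (Metric.ball z0 δ) := by
      intro n z hz
      have h1 : DifferentiableAt ℂ (fun z => f (z, ((ep n : ℝ) : ℂ))) z := by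
        have h2 := hfd _ (hin z hz ((ep n : ℝ) : ℂ) (by rw [hnorm]; exact hepr n))
        exact DifferentiableAt.comp z h2 (differentiableAt_id.prodMk (differentiableAt_const _))
      have h3 : DifferentiableAt ℂ (fun z => f (z, (0 : ℂ))) z := by
        have h2 := hfd _ (hin z hz 0 (by simpa using hrpos))
        exact DifferentiableAt.comp z h2 (differentiableAt_id.prodMk (differentiableAt_const _))
      exact ((h1.sub h3).div_const _).differentiableWithinAt
    have hest : ∀ n, ∀ z ∈ Metric.ball z0 δ,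
        ‖G n z - fderiv ℂ f (z, 0) (0, 1)‖ ≤ 4 * Bd / r ^ 2 * ep n := by
      intro n z hz
      have h1 := fibre_deriv_schwarz (F := fun v => f (z, v)) hrpos hBd
        (fun w hw => (hfib z w (hin z hz w (by simpa using hw))).differentiableAt.differentiableWithinAt)
        (hfib z 0 (hin z hz 0 (by simpa using hrpos)))
        (fun w hw => hb (z, w) (hin z hz w hw).1 (hin z hz w hw).2)
        (w := ((ep n : ℝ) : ℂ)) (by rw [hnorm]; exact hepr n) (by
          have := (hep0 n).ne'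
          exact_mod_cast this)
      rw [hnorm] at h1
      exact h1
    have hlim : Filter.Tendsto (fun n : ℕ => 4 * Bd / r ^ 2 * ep n) Filter.atTop (nhds 0) := by
      have h1 : Filter.Tendsto (fun n : ℕ => ep n) Filter.atTop (nhds 0) := by
        have h2 : Filter.Tendsto (fun n : ℕ => (n : ℝ) + 2) Filter.atTop Filter.atTop :=
          Filter.tendsto_atTop_add_const_right _ _ tendsto_natCast_atTop_atTop
        exact h2.const_div_atTop r
      have h3 := h1.const_mul (4 * Bd / r ^ 2)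
      rwa [mul_zero] at h3
    have hunif : TendstoUniformlyOn G (fun z => fderiv ℂ f (z, 0) (0, 1)) Filter.atTop
        (Metric.ball z0 δ) := by
      rw [Metric.tendstoUniformlyOn_iff]
      intro ε hε
      filter_upwards [hlim.eventually_lt_const hε] with n hn z hz
      rw [dist_comm, dist_eq_norm]
      exact (hest n z hz).trans_lt hn
    have hdiff : DifferentiableOn ℂ (fun z => fderiv ℂ f (z, 0) (0, 1)) (Metric.ball z0 δ) :=
      hunif.tendstoLocallyUniformlyOn.differentiableOn (Filter.Eventually.of_forall hGd)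
        Metric.isOpen_ball
    exact (hdiff.differentiableAt (Metric.ball_mem_nhds z0 hδ)).differentiableWithinAt
  · intro z hz
    have hkz := hpos z hz
    set f1 : ℂ := fderiv ℂ f (z, 0) (0, 1) with hf1
    have hR : ∀ R : ℝ, 0 < R → R ^ 2 * k z < 1 → ‖f1‖ * R ≤ Bd := by
      intro R hR0 hR1
      have hin : ∀ w : ℂ, ‖w‖ ≤ R → (z, w) ∈ U := by
        intro w hw
        refine ⟨hz, ?_⟩
        have h3 : ‖w‖ ^ 2 ≤ R ^ 2 := pow_le_pow_left₀ (norm_nonneg _) hw 2
        exact (mul_le_mul_of_nonneg_right h3 hkz.le).trans_lt hR1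
      have hcl : DiffContOnCl ℂ (fun v => f (z, v)) (Metric.ball 0 R) := by
        apply DifferentiableOn.diffContOnCl
        rw [closure_ball _ hR0.ne']
        intro w hw
        exact (hfib z w (hin w (by simpa using hw))).differentiableAt.differentiableWithinAt
      have h1 := Complex.norm_deriv_le_of_forall_mem_sphere_norm_le hR0 hcl
        (C := Bd) (fun w hw => by
          have hw' : ‖w‖ = R := by simpa using hw
          exact hb (z, w) hz (hin w hw'.le).2)
      rw [(hfib z 0 (h0U z hz)).deriv, le_div_iff₀ hR0] at h1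
      exact h1
    by_contra hcon
    push Not at hcon
    have hf1pos : 0 < ‖f1‖ ^ 2 := lt_of_le_of_lt (by positivity) hcon
    have h1 : Bd ^ 2 / ‖f1‖ ^ 2 < 1 / k z := by
      rw [div_lt_div_iff₀ hf1pos hkz, one_mul]
      exact hcon
    obtain ⟨ρ, hρ1, hρ2⟩ := exists_between h1
    have hρ0 : 0 < ρ := lt_of_le_of_lt (by positivity) hρ1
    have h2 := hR (Real.sqrt ρ) (Real.sqrt_pos.2 hρ0) (by
      rw [Real.sq_sqrt hρ0.le]
      rw [lt_div_iff₀ hkz] at hρ2
      exact hρ2)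
    have h3 : (‖f1‖ * Real.sqrt ρ) ^ 2 ≤ Bd ^ 2 :=
      pow_le_pow_left₀ (by positivity) h2 2
    rw [mul_pow, Real.sq_sqrt hρ0.le] at h3
    rw [div_lt_iff₀ hf1pos] at hρ1
    linarith

end S13316

namespace S13317


open Set

/-- a function which is Lipschitz with respect to the length element changes little along a
path. -/
theorem lip_along {U : Set (ℂ × ℂ)} {Ψ : ℂ × ℂ → ℝ} {Ψ' : ℂ × ℂ → (ℂ × ℂ →L[ℝ] ℝ)}
    {s : ℝ → ℝ} {c : ℝ → ℂ × ℂ} {C : ℝ}
    (hΨ : ∀ p ∈ U, HasFDerivAt Ψ (Ψ' p) p) (hc : ContDiff ℝ 1 c)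
    (hU : ∀ t ∈ Icc (0 : ℝ) 1, c t ∈ U) (hs : ContinuousOn s (Icc (0 : ℝ) 1))
    (hs0 : ∀ t ∈ Icc (0 : ℝ) 1, 0 ≤ s t)
    (hC : 0 ≤ C) (hbd : ∀ t ∈ Icc (0 : ℝ) 1, |Ψ' (c t) (deriv c t)| ≤ C * s t) :
    ∀ t ∈ Icc (0 : ℝ) 1, |Ψ (c t) - Ψ (c 0)| ≤ C * ∫ x in (0 : ℝ)..1, s x := by
  intro t ht
  let S : ℝ → ℝ := IccExtend (zero_le_one (α := ℝ)) ((Icc (0 : ℝ) 1).domRestrict s)
  have hS : Continuous S := (hs.domRestrict).Icc_extend'
  have hSs : ∀ x ∈ Icc (0 : ℝ) 1, S x = s x := by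
    intro x hx
    show IccExtend (zero_le_one (α := ℝ)) ((Icc (0 : ℝ) 1).domRestrict s) x = s x
    rw [IccExtend_of_mem _ _ hx]
    rfl
  have hcd : Differentiable ℝ c := hc.differentiable (by norm_num)
  have hf : ∀ x ∈ Icc (0 : ℝ) 1, HasDerivAt (fun t => Ψ (c t) - Ψ (c 0)) (Ψ' (c x) (deriv c x)) x := by
    intro x hx
    exact ((hΨ (c x) (hU x hx)).comp_hasDerivAt x (hcd x).hasDerivAt).sub_const _
  have hB : ∀ x, HasDerivAt (fun t => C * ∫ x in (0 : ℝ)..t, S x) (C * S x) x := by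
    intro x
    exact ((hS.integral_hasStrictDerivAt 0 x).hasDerivAt).const_mul C
  have key := image_norm_le_of_norm_deriv_right_le_deriv_boundary'
    (f := fun t => Ψ (c t) - Ψ (c 0)) (a := 0) (b := 1) (f' := fun x => Ψ' (c x) (deriv c x))
    (fun x hx => (hf x hx).continuousAt.continuousWithinAt)
    (fun x hx => (hf x ⟨hx.1, hx.2.le⟩).hasDerivWithinAt)
    (B := fun t => C * ∫ x in (0 : ℝ)..t, S x) (B' := fun x => C * S x)
    (by simp) (fun x _ => (hB x).continuousAt.continuousWithinAt)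
    (fun x _ => (hB x).hasDerivWithinAt)
    (fun x hx => by
      rw [Real.norm_eq_abs, hSs x ⟨hx.1, hx.2.le⟩]
      exact hbd x ⟨hx.1, hx.2.le⟩) ht
  rw [Real.norm_eq_abs] at key
  refine key.trans (mul_le_mul_of_nonneg_left ?_ hC)
  have h1 : ∫ x in (0 : ℝ)..1, s x = ∫ x in (0 : ℝ)..1, S x := by
    refine intervalIntegral.integral_congr fun x hx => ?_
    rw [uIcc_of_le zero_le_one] at hx
    exact (hSs x hx).symm
  rw [h1, ← intervalIntegral.integral_add_adjacent_intervals (hS.intervalIntegrable 0 t)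
    (hS.intervalIntegrable t 1)]
  have h2 : 0 ≤ ∫ x in t..1, S x := by
    refine intervalIntegral.integral_nonneg ht.2 fun x hx => ?_
    rw [hSs x ⟨ht.1.trans hx.1, hx.2⟩]
    exact hs0 x ⟨ht.1.trans hx.1, hx.2⟩
  linarith

end S13317

end Pool.Agent.Helper269.KdJ
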