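import Mathlib
import Pool.Agent.Helper269.KdD
import Pool.Agent.Helper269.KdJ
import Pool.Agent.Helper269.KdJ2

set_option autoImplicit false
set_option linter.unusedSimpArgs false

namespace Pool.Agent.Helper269.KdE

open Set Filter Topology ComplexConjugate
open Pool.Agent.Helper269.KdDefs Pool.Agent.Helper269.KdA Pool.Agent.Helper269.KdB
open Pool.Agent.Helper269.KdC Pool.Agent.Helper269.KdD

/-- The bounds under which the metric is negatively curved. -/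
structure Good (B : Base) (M : ℝ) (T : ℂ → ℝ) : Prop where
  hM : 2 ≤ M
  hT : ∀ z : ℂ, ‖z‖ < 1 → 1 ≤ T z
  th_lower : ∀ z : ℂ, ‖z‖ < 1 → 1 / (1 - ‖z‖ ^ 2) ^ 2 ≤ B.th z
  th_upper : ∀ z : ℂ, ‖z‖ < 1 → B.th z ≤ T z
  sig_le : ∀ z : ℂ, ‖z‖ < 1 → ‖B.sig z‖ ≤ T z
  kth_le : ∀ z : ℂ, ‖z‖ < 1 → |B.kth z| ≤ T z
  g0_large : ∀ z : ℂ, ‖z‖ < 1 → 100 * (M ^ 2 + 1) * T z ^ 6 ≤ B.g0 z
  gam_le : ∀ z : ℂ, ‖z‖ < 1 → ‖B.gam z‖ ^ 2 ≤ M ^ 2 * (1 / (1 - ‖z‖ ^ 2) ^ 2) * B.g0 z ^ 2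
  gzz_ge : ∀ z : ℂ, ‖z‖ < 1 →
    M * (1 / (1 - ‖z‖ ^ 2) ^ 2) * B.g0 z ≤ B.gzz z - ‖B.gam z‖ ^ 2 / B.g0 z

variable (B : Base)

/-- the curvature bound. -/
noncomputable def kap (z : ℂ) : ℝ := 1 / (1 - ‖z‖ ^ 2) ^ 2 / (8 * B.g0 z)

theorem wedge (p X Y : ℂ × ℂ) :
    gm B p X X * gm B p Y Y - gm B p X Y ^ 2
      = (qq B p * (X.1 * conj Y.1).im - bb B p * (nu B p X * conj (nu B p Y)).im) ^ 2
        + qq B p * bb B p * ‖X.1 * conj (nu B p Y) - Y.1 * conj (nu B p X)‖ ^ 2 := by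
  rw [gm_self, gm_self, gm_apply]
  unfold hf
  generalize nu B p X = a
  generalize nu B p Y = b
  generalize X.1 = x
  generalize Y.1 = y
  have hn : ∀ z : ℂ, ‖z‖ ^ 2 = z.re ^ 2 + z.im ^ 2 := by
    intro z
    rw [← Complex.normSq_eq_norm_sq, Complex.normSq_apply]
    ring
  simp only [hn, Complex.add_re, Complex.mul_re, Complex.mul_im, Complex.ofReal_re,
    Complex.ofReal_im, Complex.sub_re, Complex.sub_im, Complex.conj_re, Complex.conj_im]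
  ring

theorem bilin_wedge_pos {p : ℂ × ℂ} (hp : p ∈ dom B) {X Y : ℂ × ℂ}
    (h : LinearIndependent ℝ ![X, Y]) : 0 < gm B p X X * gm B p Y Y - gm B p X Y ^ 2 := by
  have hY : Y ≠ 0 := by
    have := h.ne_zero 1
    simpa using this
  have hYY := gm_pos B hp hY
  have hZ : (gm B p Y Y) • X + (-(gm B p X Y)) • Y ≠ 0 := by
    intro h0
    have := LinearIndependent.pair_iff.mp h _ _ h0
    exact hYY.ne' this.1
  have h1 := gm_pos B hp hZ
  have h2 : gm B p ((gm B p Y Y) • X + (-(gm B p X Y)) • Y)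
      ((gm B p Y Y) • X + (-(gm B p X Y)) • Y)
      = gm B p Y Y * (gm B p X X * gm B p Y Y - gm B p X Y ^ 2) := by
    simp only [map_add, map_smul, LinearMap.add_apply, LinearMap.smul_apply, smul_eq_mul]
    rw [gm_symm B p Y X]
    ring
  rw [h2] at h1
  exact (mul_pos_iff_of_pos_left hYY).mp h1

theorem secCurv_le {M : ℝ} {T : ℂ → ℝ} (hG : Good B M T) {p : ℂ × ℂ} (hp : p ∈ dom B)
    {X Y : ℂ × ℂ} (h : LinearIndependent ℝ ![X, Y]) :
    secCurv (gm B) p X Y ≤ -kap B p.1 := by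
  have hden := bilin_wedge_pos B hp h
  have hz := hp.1
  have hg0 := B.g0pos p.1 hz
  have hu : 0 < 1 - ‖p.1‖ ^ 2 := by nlinarith [norm_nonneg p.1]
  have hu1 : 1 - ‖p.1‖ ^ 2 ≤ 1 := by nlinarith [norm_nonneg p.1]
  have hη : 1 ≤ 1 / (1 - ‖p.1‖ ^ 2) ^ 2 := by
    rw [le_div_iff₀ (by positivity)]
    nlinarith
  have hr1 := one_le_rho B hp
  have hrel := rho_rel B hp
  have hq := qq_pos B hp
  have hb := bb_pos B hp
  have hrel2 : uu B p = 2 * (rho B p - 1) + 1 := by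
    unfold uu
    linarith
  have hrel3 : bb B p * ‖p.2‖ ^ 2 = (rho B p - 1) * ((rho B p - 1) + 1) := by
    unfold bb
    have : B.k p.1 * rho B p ^ 2 * ‖p.2‖ ^ 2
        = rho B p * (rho B p * (‖p.2‖ ^ 2 * B.k p.1)) := by ring
    rw [this, hrel]
    ring
  have hrel4 : c2 B p = 2 * bb B p := by
    unfold c2 bb
    have : 2 * B.k p.1 * rho B p * (1 + B.k p.1 * rho B p * ‖p.2‖ ^ 2)
        = 2 * B.k p.1 * rho B p * (1 + rho B p * (‖p.2‖ ^ 2 * B.k p.1)) := by ring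
    rw [this, hrel]
    ring
  have hκ0 : 0 ≤ kap B p.1 := by unfold kap; positivity
  have hT := hG.hT p.1 hz
  have hg := hG.g0_large p.1 hz
  have hTθ := hG.th_upper p.1 hz
  have hθ := hG.th_lower p.1 hz
  have hM := hG.hM
  have hκ1 : kap B p.1 < 1 := by
    unfold kap
    rw [div_lt_one (by positivity)]
    have h1 : (1 : ℝ) ≤ T p.1 ^ 5 := one_le_pow₀ hT
    have h2 : T p.1 ≤ T p.1 ^ 6 := by
      have : T p.1 ^ 6 = T p.1 ^ 5 * T p.1 := by ring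
      rw [this]
      nlinarith
    have h3 : T p.1 ^ 6 ≤ 100 * (M ^ 2 + 1) * T p.1 ^ 6 := by
      have : (0 : ℝ) ≤ T p.1 ^ 6 := by positivity
      nlinarith
    nlinarith
  obtain ⟨s1, s2⟩ := KdJ2.S13094.star_ineq (Y := rho B p - 1) (g := B.g0 p.1) (θ := B.th p.1) (T := T p.1)
    (M := M) (η := 1 / (1 - ‖p.1‖ ^ 2) ^ 2) (κ := kap B p.1) (kθ := B.kth p.1)
    (gzz := B.gzz p.1) (q := qq B p) (β := bb B p * ‖p.2‖ ^ 2) (Bt := eB B p) (Aa := eA B p)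
    (σ := B.sig p.1) (γ := B.gam p.1) (qz := qz B p) (e := eE B p)
    (by linarith) hT hM hη hθ hTθ (hG.sig_le p.1 hz) (hG.kth_le p.1 hz) hg
    (hG.gam_le p.1 hz) (hG.gzz_ge p.1 hz) rfl rfl hrel3 (by simp [qz]) rfl
    (by unfold eB; rw [hrel2]) (by unfold eA qzz; ring)
  have key := KdJ.S13081.quad_form (w := p.2) (e := eE B p) hb hq hκ0 hκ1
    (by ring : ‖p.2‖ ^ 2 * bb B p = bb B p * ‖p.2‖ ^ 2) s1 s2
    ((X.1 * conj Y.1).im) ((nu B p X * conj (nu B p Y)).im)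
    (X.1 * conj (nu B p Y) - Y.1 * conj (nu B p X)) (w2 := 0)
  unfold secCurv
  rw [div_le_iff₀ hden, gm_curv B hp, wedge, hrel4]
  linarith

end Pool.Agent.Helper269.KdE
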