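import Mathlib
import Pool.Agent.Helper269.KdA

set_option autoImplicit false
set_option linter.unusedSimpArgs false

namespace Pool.Agent.Helper269.KdA

open Set Filter Topology ComplexConjugate

theorem W1.add {f g : ℂ → ℂ} {z a b a' b' : ℂ} (hf : W1 f z a b) (hg : W1 g z a' b') :
    W1 (fun x => f x + g x) z (a + a') (b + b') := by
  unfold W1 at *
  refine (hf.add hg).congr_fderiv ?_
  refine ContinuousLinearMap.ext fun v => ?_
  simp only [add_apply, L2_apply]
  ring

theorem W1.mul {f g : ℂ → ℂ} {z a b a' b' : ℂ} (hf : W1 f z a b) (hg : W1 g z a' b') :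
    W1 (fun x => f x * g x) z (a * g z + f z * a') (b * g z + f z * b') := by
  unfold W1 at *
  refine (hf.mul hg).congr_fderiv ?_
  refine ContinuousLinearMap.ext fun v => ?_
  simp only [add_apply, smul_apply, L2_apply, smul_eq_mul]
  ring

theorem W1.conj {f : ℂ → ℂ} {z a b : ℂ} (hf : W1 f z a b) :
    W1 (fun x => (starRingEnd ℂ) (f x)) z ((starRingEnd ℂ) b) ((starRingEnd ℂ) a) := by
  unfold W1 at *
  have h := (Complex.conjCLE : ℂ →L[ℝ] ℂ).hasFDerivAt.comp z hf
  refine h.congr_fderiv ?_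
  refine ContinuousLinearMap.ext fun v => ?_
  simp only [ContinuousLinearMap.comp_apply, L2_apply]
  simp
  ring

theorem W1.inv {f : ℂ → ℂ} {z a b : ℂ} (hf : W1 f z a b) (h0 : f z ≠ 0) :
    W1 (fun x => (f x)⁻¹) z (-(f z)⁻¹ ^ 2 * a) (-(f z)⁻¹ ^ 2 * b) := by
  unfold W1 at *
  have h := (hasFDerivAt_inv' (𝕜 := ℝ) h0).comp z hf
  refine h.congr_fderiv ?_
  refine ContinuousLinearMap.ext fun v => ?_
  simp only [ContinuousLinearMap.comp_apply, L2_apply]
  simp
  ring

theorem W1.const (e z : ℂ) : W1 (fun _ => e) z 0 0 := by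
  unfold W1
  refine (hasFDerivAt_const e z).congr_fderiv ?_
  refine ContinuousLinearMap.ext fun v => ?_
  simp [L2_apply]

theorem W1.id (z : ℂ) : W1 (fun x => x) z 1 0 := by
  unfold W1
  refine (hasFDerivAt_id z).congr_fderiv ?_
  refine ContinuousLinearMap.ext fun v => ?_
  simp [L2_apply]

theorem W1.hol {f : ℂ → ℂ} {z f' : ℂ} (hf : HasDerivAt f f' z) : W1 f z f' 0 := by
  unfold W1
  refine (hf.hasFDerivAt.restrictScalars ℝ).congr_fderiv ?_
  refine ContinuousLinearMap.ext fun v => ?_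
  simp [L2_apply, mul_comm]

theorem W1.congr {f : ℂ → ℂ} {z a b a' b' : ℂ} (hf : W1 f z a b) (ha : a = a') (hb : b = b') :
    W1 f z a' b' := by
  subst ha hb; exact hf

theorem W1.pow {f : ℂ → ℂ} {z a b : ℂ} (hf : W1 f z a b) (n : ℕ) :
    W1 (fun x => (f x) ^ (n + 1)) z ((n + 1) * f z ^ n * a) ((n + 1) * f z ^ n * b) := by
  induction n with
  | zero => simpa using hf
  | succ n ih =>
    have h := ih.mul hf
    have e : (fun x => f x ^ (n + 1 + 1)) = fun x => f x ^ (n + 1) * f x := by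
      funext x; rw [pow_succ]
    rw [e]
    refine h.congr ?_ ?_ <;> push_cast <;> ring

/-- square root of a positive real function. -/
theorem W1.sqrt {f : ℂ → ℝ} {z a : ℂ} (hf : W1 (fun x => (f x : ℂ)) z a ((starRingEnd ℂ) a))
    (h0 : 0 < f z) :
    W1 (fun x => ((Real.sqrt (f x) : ℝ) : ℂ)) z
      (Real.sqrt (f z) * (a / (2 * f z))) (Real.sqrt (f z) * ((starRingEnd ℂ) (a / (2 * f z)))) := by
  unfold W1 at *
  have h1 : HasFDerivAt f (Complex.reCLM.comp (L2 a ((starRingEnd ℂ) a))) z := by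
    have := Complex.reCLM.hasFDerivAt.comp z hf
    exact this
  have h2 := h1.sqrt h0.ne'
  have h3 := Complex.ofRealCLM.hasFDerivAt.comp z h2
  refine h3.congr_fderiv ?_
  refine ContinuousLinearMap.ext fun v => ?_
  have hs : Real.sqrt (f z) ≠ 0 := (Real.sqrt_pos.mpr h0).ne'
  have hs2 : (Real.sqrt (f z) : ℂ) ^ 2 = (f z : ℂ) := by
    exact_mod_cast Real.sq_sqrt h0.le
  have hsc : (Real.sqrt (f z) : ℂ) ≠ 0 := by exact_mod_cast hs
  have hr : ∀ w : ℂ, ((w.re : ℝ) : ℂ) = (w + (starRingEnd ℂ) w) / 2 := by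
    intro w; rw [Complex.add_conj]; push_cast; ring
  simp only [ContinuousLinearMap.comp_apply, smul_apply, L2_apply, Complex.ofRealCLM_apply,
    Complex.reCLM_apply, smul_eq_mul, Complex.ofReal_mul, Complex.ofReal_div,
    Complex.ofReal_one, Complex.ofReal_ofNat, Complex.add_re, Complex.ofReal_add,
    hr, map_add, map_mul, map_div₀,
    Complex.conj_conj, Complex.conj_ofReal, map_ofNat]
  rw [← hs2]
  field_simp
  ring

end Pool.Agent.Helper269.KdA
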