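import Mathlib
import Pool.Agent.Helper269.KdG

set_option autoImplicit false
set_option linter.unusedSimpArgs false

namespace Pool.Agent.Helper269.KdH

open Set Filter Topology ComplexConjugate
open Pool.Agent.Helper269.KdA

variable (F1 F2 : ℂ → ℂ)

noncomputable def U1 (z : ℂ) : ℂ := (1 - z * conj z)⁻¹
noncomputable def NR (z : ℂ) : ℝ := ‖F1 z‖ ^ 2 + ‖F2 z‖ ^ 2
noncomputable def NC (z : ℂ) : ℂ := F1 z * conj (F1 z) + F2 z * conj (F2 z)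
noncomputable def N1 (z : ℂ) : ℂ := deriv F1 z * conj (F1 z) + deriv F2 z * conj (F2 z)
noncomputable def N1b (z : ℂ) : ℂ :=
  deriv F1 z * conj (deriv F1 z) + deriv F2 z * conj (deriv F2 z)
noncomputable def N11 (z : ℂ) : ℂ :=
  deriv (deriv F1) z * conj (F1 z) + deriv (deriv F2) z * conj (F2 z)
noncomputable def N11b (z : ℂ) : ℂ :=
  deriv (deriv F1) z * conj (deriv F1 z) + deriv (deriv F2) z * conj (deriv F2 z)
noncomputable def WW (z : ℂ) : ℂ := F1 z * deriv F2 z - F2 z * deriv F1 z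
noncomputable def WW' (z : ℂ) : ℂ := F1 z * deriv (deriv F2) z - F2 z * deriv (deriv F1) z

noncomputable def kk (z : ℂ) : ℝ := Real.sqrt (NR F1 F2 z) / (1 - ‖z‖ ^ 2)
noncomputable def lam (z : ℂ) : ℂ := conj z * U1 z + N1 F1 F2 z * (NC F1 F2 z)⁻¹ / 2
noncomputable def mu (z : ℂ) : ℂ := conj z ^ 2 * U1 z ^ 2
  + (N11 F1 F2 z * (NC F1 F2 z)⁻¹ - N1 F1 F2 z ^ 2 * (NC F1 F2 z)⁻¹ ^ 2) / 2
noncomputable def th (z : ℂ) : ℝ := 1 / (1 - ‖z‖ ^ 2) ^ 2 + ‖WW F1 F2 z‖ ^ 2 / (2 * NR F1 F2 z ^ 2)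
noncomputable def thC (z : ℂ) : ℂ := U1 z ^ 2
  + WW F1 F2 z * conj (WW F1 F2 z) * (NC F1 F2 z)⁻¹ ^ 2 / 2
noncomputable def sig (z : ℂ) : ℂ := 2 * conj z * U1 z ^ 3
  + (WW' F1 F2 z * conj (WW F1 F2 z) * (NC F1 F2 z)⁻¹ ^ 2
    - 2 * (WW F1 F2 z * conj (WW F1 F2 z)) * N1 F1 F2 z * (NC F1 F2 z)⁻¹ ^ 3) / 2
noncomputable def kthC (z : ℂ) : ℂ := 2 * U1 z ^ 3 + 6 * (z * conj z) * U1 z ^ 4
  + (WW' F1 F2 z * conj (WW' F1 F2 z) * (NC F1 F2 z)⁻¹ ^ 2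
    - 2 * (WW' F1 F2 z * conj (WW F1 F2 z) * conj (N1 F1 F2 z)) * (NC F1 F2 z)⁻¹ ^ 3
    - 2 * (WW F1 F2 z * conj (WW' F1 F2 z) * N1 F1 F2 z) * (NC F1 F2 z)⁻¹ ^ 3
    - 2 * (WW F1 F2 z * conj (WW F1 F2 z) * N1b F1 F2 z) * (NC F1 F2 z)⁻¹ ^ 3
    + 6 * (WW F1 F2 z * conj (WW F1 F2 z) * (N1 F1 F2 z * conj (N1 F1 F2 z)))
      * (NC F1 F2 z)⁻¹ ^ 4) / 2
noncomputable def kth (z : ℂ) : ℝ := (kthC F1 F2 z).re

variable {F1 F2}

theorem w1_U1 {z : ℂ} (hz : ‖z‖ < 1) :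
    W1 U1 z (U1 z ^ 2 * conj z) (U1 z ^ 2 * z) := by
  have h := ((W1.const 1 z).add ((W1.const (-1) z).mul ((W1.id z).mul (W1.id z).conj)))
  have h0 : (1 : ℂ) + -1 * (z * conj z) ≠ 0 := by
    rw [Complex.mul_conj, Complex.normSq_eq_norm_sq]
    have : (1 : ℝ) - ‖z‖ ^ 2 ≠ 0 := by nlinarith [norm_nonneg z]
    intro h
    apply this
    have h' : ((1 - ‖z‖ ^ 2 : ℝ) : ℂ) = 0 := by push_cast; rw [← h]; push_cast; ring
    exact_mod_cast h'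
  have h2 := h.inv h0
  have e : U1 = fun x => (1 + -1 * (x * conj x))⁻¹ := by
    funext x; unfold U1; congr 1; ring
  have e2 : U1 z = (1 + -1 * (z * conj z))⁻¹ := by rw [e]
  rw [e2]
  rw [e]
  refine h2.congr ?_ ?_ <;> simp only [map_one, map_zero] <;> ring

theorem U1_rel {z : ℂ} (hz : ‖z‖ < 1) : U1 z * (1 - z * conj z) = 1 := by
  unfold U1
  apply inv_mul_cancel₀
  rw [Complex.mul_conj, Complex.normSq_eq_norm_sq]
  have : (1 : ℝ) - ‖z‖ ^ 2 ≠ 0 := by nlinarith [norm_nonneg z]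
  exact_mod_cast this

theorem NC_eq (z : ℂ) : NC F1 F2 z = (NR F1 F2 z : ℂ) := by
  unfold NC NR
  rw [Complex.mul_conj, Complex.mul_conj, Complex.normSq_eq_norm_sq,
    Complex.normSq_eq_norm_sq]
  push_cast
  rfl

theorem U1_eq (z : ℂ) : U1 z = (((1 - ‖z‖ ^ 2)⁻¹ : ℝ) : ℂ) := by
  unfold U1
  rw [Complex.mul_conj, Complex.normSq_eq_norm_sq]
  push_cast
  rfl

theorem thC_eq (z : ℂ) : (th F1 F2 z : ℂ) = thC F1 F2 z := by
  unfold th thC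
  rw [NC_eq, U1_eq, Complex.mul_conj, Complex.normSq_eq_norm_sq]
  push_cast
  field_simp

theorem hd {F : ℂ → ℂ} (h : DifferentiableOn ℂ F (Metric.ball 0 1)) {z : ℂ} (hz : ‖z‖ < 1) :
    HasDerivAt F (deriv F z) z :=
  (h.differentiableAt (Metric.isOpen_ball.mem_nhds (by simpa using hz))).hasDerivAt

theorem hd' {F : ℂ → ℂ} (h : DifferentiableOn ℂ F (Metric.ball 0 1)) :
    DifferentiableOn ℂ (deriv F) (Metric.ball 0 1) :=
  h.deriv Metric.isOpen_ball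

structure Pr (F1 F2 : ℂ → ℂ) : Prop where
  h1 : DifferentiableOn ℂ F1 (Metric.ball 0 1)
  h2 : DifferentiableOn ℂ F2 (Metric.ball 0 1)
  hN : ∀ z : ℂ, ‖z‖ < 1 → 0 < NR F1 F2 z

variable (P : Pr F1 F2)
include P

theorem NC_ne {z : ℂ} (hz : ‖z‖ < 1) : NC F1 F2 z ≠ 0 := by
  rw [NC_eq]
  exact_mod_cast (P.hN z hz).ne'

theorem w1_NC {z : ℂ} (hz : ‖z‖ < 1) :
    W1 (NC F1 F2) z (N1 F1 F2 z) (conj (N1 F1 F2 z)) := by
  have a1 := W1.hol (hd P.h1 hz)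
  have a2 := W1.hol (hd P.h2 hz)
  have h := (a1.mul a1.conj).add (a2.mul a2.conj)
  refine h.congr ?_ ?_ <;>
    simp only [N1, map_add, map_mul, map_zero, Complex.conj_conj] <;> ring

theorem w1_N1 {z : ℂ} (hz : ‖z‖ < 1) :
    W1 (N1 F1 F2) z (N11 F1 F2 z) (N1b F1 F2 z) := by
  have a1 := W1.hol (hd P.h1 hz)
  have a2 := W1.hol (hd P.h2 hz)
  have b1 := W1.hol (hd (hd' P.h1) hz)
  have b2 := W1.hol (hd (hd' P.h2) hz)
  have h := (b1.mul a1.conj).add (b2.mul a2.conj)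
  refine h.congr ?_ ?_ <;>
    simp only [N11, N1b, map_add, map_mul, map_zero, Complex.conj_conj] <;> ring

theorem w1_N1b {z : ℂ} (hz : ‖z‖ < 1) :
    W1 (N1b F1 F2) z (N11b F1 F2 z) (conj (N11b F1 F2 z)) := by
  have b1 := W1.hol (hd (hd' P.h1) hz)
  have b2 := W1.hol (hd (hd' P.h2) hz)
  have h := (b1.mul b1.conj).add (b2.mul b2.conj)
  refine h.congr ?_ ?_ <;>
    simp only [N11b, map_add, map_mul, map_zero, Complex.conj_conj] <;> ring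

/-- `N11` has `z̄`-derivative `N11b` -/
theorem w1_N11 {z : ℂ} (hz : ‖z‖ < 1) :
    ∃ a, W1 (N11 F1 F2) z a (N11b F1 F2 z) := by
  have a1 := W1.hol (hd P.h1 hz)
  have a2 := W1.hol (hd P.h2 hz)
  have c1 := W1.hol (hd (hd' (hd' P.h1)) hz)
  have c2 := W1.hol (hd (hd' (hd' P.h2)) hz)
  have h := (c1.mul a1.conj).add (c2.mul a2.conj)
  refine ⟨_, h.congr rfl ?_⟩
  simp only [N11b, map_add, map_mul, map_zero, Complex.conj_conj]
  ring

theorem w1_WW {z : ℂ} (hz : ‖z‖ < 1) : W1 (WW F1 F2) z (WW' F1 F2 z) 0 := by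
  apply W1.hol
  have h := ((hd P.h1 hz).mul (hd (hd' P.h2) hz)).sub ((hd P.h2 hz).mul (hd (hd' P.h1) hz))
  refine h.congr_deriv ?_
  unfold WW'
  ring

theorem w1_WW' {z : ℂ} (hz : ‖z‖ < 1) : ∃ a, W1 (WW' F1 F2) z a 0 := by
  have h := ((hd P.h1 hz).mul (hd (hd' (hd' P.h2)) hz)).sub
    ((hd P.h2 hz).mul (hd (hd' (hd' P.h1)) hz))
  exact ⟨_, W1.hol h⟩

theorem w1_lam {z : ℂ} (hz : ‖z‖ < 1) :
    W1 (lam F1 F2) z (mu F1 F2 z) (th F1 F2 z) := by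
  have hN := NC_ne P hz
  have hU := U1_rel hz
  have h := ((W1.id z).conj.mul (w1_U1 hz)).add
    (((w1_N1 P hz).mul ((w1_NC P hz).inv hN)).mul (W1.const (1 / 2) z))
  have e : lam F1 F2 = fun x => conj x * U1 x + N1 F1 F2 x * (NC F1 F2 x)⁻¹ * (1 / 2) := by
    funext x; unfold lam; ring
  rw [e, thC_eq]
  refine h.congr ?_ ?_
  · simp only [mu, map_zero, map_one]
    ring
  · simp only [thC, map_zero, map_one]
    have key : N1b F1 F2 z * NC F1 F2 z - N1 F1 F2 z * conj (N1 F1 F2 z)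
        = WW F1 F2 z * conj (WW F1 F2 z) := by
      simp only [N1b, NC, N1, WW, map_add, map_sub, map_mul, Complex.conj_conj]
      ring
    have hinv : NC F1 F2 z * (NC F1 F2 z)⁻¹ = 1 := mul_inv_cancel₀ hN
    linear_combination (-(U1 z)) * hU - (N1b F1 F2 z * (NC F1 F2 z)⁻¹ / 2) * hinv
      + ((NC F1 F2 z)⁻¹ ^ 2 / 2) * key

theorem w1_mu {z : ℂ} (hz : ‖z‖ < 1) :
    ∃ a, W1 (mu F1 F2) z a (sig F1 F2 z) := by
  have hN := NC_ne P hz
  have hU := U1_rel hz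
  obtain ⟨a11, h11⟩ := w1_N11 P hz
  have hi := (w1_NC P hz).inv hN
  have hn := w1_N1 P hz
  have hzc := (W1.id z).conj
  have h := ((hzc.mul hzc).mul ((w1_U1 hz).mul (w1_U1 hz))).add
    (((h11.mul hi).add ((W1.const (-1) z).mul ((hn.mul hn).mul (hi.mul hi)))).mul
      (W1.const (1 / 2) z))
  have e : mu F1 F2 = fun x => conj x * conj x * (U1 x * U1 x)
      + (N11 F1 F2 x * (NC F1 F2 x)⁻¹ + -1 * (N1 F1 F2 x * N1 F1 F2 x
        * ((NC F1 F2 x)⁻¹ * (NC F1 F2 x)⁻¹))) * (1 / 2) := by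
    funext x; unfold mu; ring
  rw [e]
  refine ⟨_, h.congr rfl ?_⟩
  simp only [sig, map_zero, map_one]
  have key : N1b F1 F2 z * NC F1 F2 z - N1 F1 F2 z * conj (N1 F1 F2 z)
      = WW F1 F2 z * conj (WW F1 F2 z) := by
    simp only [N1b, NC, N1, WW, map_add, map_sub, map_mul, Complex.conj_conj]
    ring
  have key2 : N11b F1 F2 z * NC F1 F2 z - N11 F1 F2 z * conj (N1 F1 F2 z)
      = WW' F1 F2 z * conj (WW F1 F2 z) := by
    simp only [N11b, NC, N1, N11, WW, WW', map_add, map_sub, map_mul, Complex.conj_conj]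
    ring
  have hinv : NC F1 F2 z * (NC F1 F2 z)⁻¹ = 1 := mul_inv_cancel₀ hN
  linear_combination (-(2 * conj z * U1 z ^ 2)) * hU
    - (N11b F1 F2 z * (NC F1 F2 z)⁻¹ / 2) * hinv
    + ((NC F1 F2 z)⁻¹ ^ 2 / 2) * key2
    - (N1 F1 F2 z * (NC F1 F2 z)⁻¹ ^ 3) * key
    + (N1 F1 F2 z * N1b F1 F2 z * (NC F1 F2 z)⁻¹ ^ 2) * hinv

theorem w1_th {z : ℂ} (hz : ‖z‖ < 1) :
    W1 (fun x => (th F1 F2 x : ℂ)) z (sig F1 F2 z) (conj (sig F1 F2 z)) := by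
  have hN := NC_ne P hz
  have hU := U1_rel hz
  have hi := (w1_NC P hz).inv hN
  have hw := w1_WW P hz
  have h := ((w1_U1 hz).mul (w1_U1 hz)).add
    (((hw.mul hw.conj).mul (hi.mul hi)).mul (W1.const (1 / 2) z))
  have e : (fun x => (th F1 F2 x : ℂ)) = fun x => U1 x * U1 x
      + WW F1 F2 x * conj (WW F1 F2 x) * ((NC F1 F2 x)⁻¹ * (NC F1 F2 x)⁻¹) * (1 / 2) := by
    funext x; rw [thC_eq]; unfold thC; ring
  have hUc : conj (U1 z) = U1 z := by rw [U1_eq, Complex.conj_ofReal]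
  have hNc : conj (NC F1 F2 z) = NC F1 F2 z := by rw [NC_eq, Complex.conj_ofReal]
  rw [e]
  refine h.congr ?_ ?_
  · simp only [sig, map_zero]
    ring
  · simp only [sig, map_zero, map_add, map_sub, map_mul, map_pow, map_inv₀, map_div₀, hUc, hNc,
      Complex.conj_conj, map_ofNat]
    ring

theorem kthC_eq {z : ℂ} (hz : ‖z‖ < 1) : (kth F1 F2 z : ℂ) = kthC F1 F2 z := by
  have hUc : conj (U1 z) = U1 z := by rw [U1_eq, Complex.conj_ofReal]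
  have hNc : conj (NC F1 F2 z) = NC F1 F2 z := by rw [NC_eq, Complex.conj_ofReal]
  unfold kth
  rw [← Complex.conj_eq_iff_re]
  simp only [kthC, N1b, map_zero, map_add, map_sub, map_mul, map_pow, map_inv₀, map_div₀, hUc,
    hNc, Complex.conj_conj, map_ofNat]
  ring

theorem w1_sig {z : ℂ} (hz : ‖z‖ < 1) :
    ∃ a, W1 (sig F1 F2) z a (kth F1 F2 z) := by
  have hN := NC_ne P hz
  have hU := U1_rel hz
  have hi := (w1_NC P hz).inv hN
  have hn := w1_N1 P hz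
  have hw := w1_WW P hz
  obtain ⟨a', hw'⟩ := w1_WW' P hz
  have hu := w1_U1 hz
  have h := (((W1.const 2 z).mul (W1.id z).conj).mul (hu.mul (hu.mul hu))).add
    ((((hw'.mul hw.conj).mul (hi.mul hi)).add
      ((W1.const (-2) z).mul (((hw.mul hw.conj).mul hn).mul (hi.mul (hi.mul hi))))).mul
        (W1.const (1 / 2) z))
  have e : sig F1 F2 = fun x => 2 * conj x * (U1 x * (U1 x * U1 x))
      + (WW' F1 F2 x * conj (WW F1 F2 x) * ((NC F1 F2 x)⁻¹ * (NC F1 F2 x)⁻¹)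
        + -2 * (WW F1 F2 x * conj (WW F1 F2 x) * N1 F1 F2 x * ((NC F1 F2 x)⁻¹
          * ((NC F1 F2 x)⁻¹ * (NC F1 F2 x)⁻¹)))) * (1 / 2) := by
    funext x; unfold sig; ring
  rw [e, kthC_eq P hz]
  refine ⟨_, h.congr rfl ?_⟩
  simp only [kthC, map_zero, map_one]
  ring

theorem w1_kk {z : ℂ} (hz : ‖z‖ < 1) :
    W1 (fun x => (kk F1 F2 x : ℂ)) z (kk F1 F2 z * lam F1 F2 z)
      (kk F1 F2 z * conj (lam F1 F2 z)) := by
  have hN := NC_ne P hz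
  have hNR := P.hN z hz
  have h0 := w1_NC P hz
  have e0 : NC F1 F2 = fun x => (NR F1 F2 x : ℂ) := by funext x; exact NC_eq x
  rw [e0] at h0
  have h1 := h0.sqrt hNR
  have h2 := h1.mul (w1_U1 hz)
  have e : (fun x => (kk F1 F2 x : ℂ)) = fun x => ((Real.sqrt (NR F1 F2 x) : ℝ) : ℂ) * U1 x := by
    funext x
    unfold kk
    rw [U1_eq, div_eq_mul_inv]
    push_cast
    ring
  have e3 : (kk F1 F2 z : ℂ) = ((Real.sqrt (NR F1 F2 z) : ℝ) : ℂ) * U1 z := by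
    have := congrFun e z
    exact this
  have hUc : conj (U1 z) = U1 z := by rw [U1_eq, Complex.conj_ofReal]
  rw [e, e3]
  refine h2.congr ?_ ?_
  · simp only [lam]
    rw [NC_eq]
    field_simp
    ring
  · simp only [lam, map_add, map_mul, map_div₀, map_inv₀, hUc, Complex.conj_conj, map_ofNat,
      NC_eq, Complex.conj_ofReal]
    field_simp
    ring

end Pool.Agent.Helper269.KdH
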