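import Mathlib
import Pool.Agent.Helper269.KdH
import Pool.Agent.Helper269.KdE

set_option autoImplicit false
set_option linter.unusedSimpArgs false

namespace Pool.Agent.Helper269.KdI

open Set Filter Topology ComplexConjugate
open Pool.Agent.Helper269.KdA Pool.Agent.Helper269.KdH Pool.Agent.Helper269.KdE

noncomputable def ui (z : ℂ) : ℝ := (1 - ‖z‖ ^ 2)⁻¹

theorem u_pos {z : ℂ} (hz : ‖z‖ < 1) : 0 < 1 - ‖z‖ ^ 2 := by nlinarith [norm_nonneg z]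

theorem ui_pos {z : ℂ} (hz : ‖z‖ < 1) : 0 < ui z := inv_pos.mpr (u_pos hz)

theorem one_le_ui {z : ℂ} (hz : ‖z‖ < 1) : 1 ≤ ui z := by
  unfold ui
  rw [one_le_inv₀ (u_pos hz)]
  nlinarith [norm_nonneg z]

/-- polynomially bounded functions on the disc. -/
def PB (f : ℂ → ℂ) : Prop :=
  ∃ C : ℝ, 0 ≤ C ∧ ∃ K : ℕ, ∀ z : ℂ, ‖z‖ < 1 → ‖f z‖ ≤ C * ui z ^ K

theorem PB.const (c : ℂ) : PB (fun _ => c) :=
  ⟨‖c‖, norm_nonneg c, 0, fun z _ => by simp⟩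

theorem PB.id : PB (fun z => z) :=
  ⟨1, zero_le_one, 0, fun z hz => by simpa using hz.le⟩

theorem PB.conj {f : ℂ → ℂ} (hf : PB f) : PB (fun z => (starRingEnd ℂ) (f z)) := by
  obtain ⟨C, hC, K, h⟩ := hf
  exact ⟨C, hC, K, fun z hz => by simpa using h z hz⟩

theorem PB.mul {f g : ℂ → ℂ} (hf : PB f) (hg : PB g) : PB (fun z => f z * g z) := by
  obtain ⟨C, hC, K, h⟩ := hf
  obtain ⟨C', hC', K', h'⟩ := hg
  refine ⟨C * C', mul_nonneg hC hC', K + K', fun z hz => ?_⟩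
  rw [norm_mul]
  calc ‖f z‖ * ‖g z‖ ≤ (C * ui z ^ K) * (C' * ui z ^ K') :=
        mul_le_mul (h z hz) (h' z hz) (norm_nonneg _)
          (mul_nonneg hC (pow_nonneg (ui_pos hz).le _))
    _ = C * C' * ui z ^ (K + K') := by rw [pow_add]; ring

theorem PB.add {f g : ℂ → ℂ} (hf : PB f) (hg : PB g) : PB (fun z => f z + g z) := by
  obtain ⟨C, hC, K, h⟩ := hf
  obtain ⟨C', hC', K', h'⟩ := hg
  refine ⟨C + C', add_nonneg hC hC', K + K', fun z hz => ?_⟩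
  have h1 := one_le_ui hz
  have h2 : ui z ^ K ≤ ui z ^ (K + K') := pow_le_pow_right₀ h1 (by omega)
  have h3 : ui z ^ K' ≤ ui z ^ (K + K') := pow_le_pow_right₀ h1 (by omega)
  calc ‖f z + g z‖ ≤ ‖f z‖ + ‖g z‖ := norm_add_le _ _
    _ ≤ C * ui z ^ K + C' * ui z ^ K' := add_le_add (h z hz) (h' z hz)
    _ ≤ C * ui z ^ (K + K') + C' * ui z ^ (K + K') := by gcongr
    _ = (C + C') * ui z ^ (K + K') := by ring

theorem PB.sub {f g : ℂ → ℂ} (hf : PB f) (hg : PB g) : PB (fun z => f z - g z) := by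
  have h := hf.add ((PB.const (-1)).mul hg)
  have e : (fun z => f z - g z) = fun z => f z + -1 * g z := by funext z; ring
  rw [e]; exact h

theorem PB.pow {f : ℂ → ℂ} (hf : PB f) (n : ℕ) : PB (fun z => f z ^ n) := by
  induction n with
  | zero => simpa using PB.const 1
  | succ n ih =>
    have e : (fun z => f z ^ (n + 1)) = fun z => f z ^ n * f z := by funext z; rw [pow_succ]
    rw [e]; exact ih.mul hf

theorem PB.congr {f g : ℂ → ℂ} (hf : PB f) (h : ∀ z, ‖z‖ < 1 → g z = f z) : PB g := by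
  obtain ⟨C, hC, K, h'⟩ := hf
  exact ⟨C, hC, K, fun z hz => by rw [h z hz]; exact h' z hz⟩

theorem inv_le_ui {z : ℂ} (hz : ‖z‖ < 1) : (1 - ‖z‖)⁻¹ ≤ 2 * ui z := by
  have h1 : 0 < 1 - ‖z‖ := by linarith
  have h2 := u_pos hz
  unfold ui
  rw [← div_eq_mul_inv, inv_eq_one_div, div_le_div_iff₀ h1 h2]
  nlinarith [norm_nonneg z]

theorem ui_le_inv {z : ℂ} (hz : ‖z‖ < 1) : ui z ≤ (1 - ‖z‖)⁻¹ := by
  have h1 : 0 < 1 - ‖z‖ := by linarith
  have h2 := u_pos hz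
  unfold ui
  rw [inv_le_inv₀ h2 h1]
  nlinarith [norm_nonneg z]

theorem PB.U1 : PB U1 := by
  refine ⟨1, zero_le_one, 1, fun z hz => ?_⟩
  have h := ui_pos hz
  unfold ui at *
  rw [U1_eq, Complex.norm_real, Real.norm_of_nonneg h.le]
  simp

theorem PB.deriv {f : ℂ → ℂ} (hf : PB f) (hd : DifferentiableOn ℂ f (Metric.ball 0 1)) :
    PB (deriv f) := by
  obtain ⟨C, hC, K, h⟩ := hf
  refine ⟨C * 4 ^ (K + 1), by positivity, K + 1, fun z hz => ?_⟩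
  have h1 : 0 < 1 - ‖z‖ := by linarith
  set r := (1 - ‖z‖) / 2 with hr
  have hr0 : 0 < r := by positivity
  have hri : r⁻¹ ≤ 4 * ui z := by
    have := inv_le_ui hz
    rw [hr, inv_div]
    rw [div_eq_mul_inv]
    linarith
  have hsub : Metric.closedBall z r ⊆ Metric.ball (0 : ℂ) 1 := by
    intro w hw
    rw [Metric.mem_closedBall, dist_eq_norm] at hw
    rw [Metric.mem_ball, dist_zero_right]
    have : ‖w‖ ≤ ‖z‖ + ‖w - z‖ := by
      have := norm_add_le z (w - z)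
      simpa using this
    linarith
  have hw1 : ∀ w ∈ Metric.sphere z r, ‖f w‖ ≤ C * (4 * ui z) ^ K := by
    intro w hw
    have hwb : ‖w‖ < 1 := by
      have := hsub (Metric.sphere_subset_closedBall hw)
      simpa using this
    have hw' : ‖w - z‖ = r := by simpa [dist_eq_norm] using hw
    have h2 : r ≤ 1 - ‖w‖ := by
      have : ‖w‖ ≤ ‖z‖ + ‖w - z‖ := by
        have := norm_add_le z (w - z)
        simpa using this
      linarith
    have h3 : ui w ≤ 4 * ui z := by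
      calc ui w ≤ (1 - ‖w‖)⁻¹ := ui_le_inv hwb
        _ ≤ r⁻¹ := inv_anti₀ hr0 h2
        _ ≤ 4 * ui z := hri
    calc ‖f w‖ ≤ C * ui w ^ K := h w hwb
      _ ≤ C * (4 * ui z) ^ K := by
        gcongr
        exact (ui_pos hwb).le
  have h5 : DiffContOnCl ℂ f (Metric.ball z r) := by
    apply DifferentiableOn.diffContOnCl
    rw [closure_ball z hr0.ne']
    exact hd.mono hsub
  have h6 := Complex.norm_deriv_le_of_forall_mem_sphere_norm_le hr0 h5 hw1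
  have h7 := ui_pos hz
  calc ‖_root_.deriv f z‖ ≤ C * (4 * ui z) ^ K / r := h6
    _ = C * (4 * ui z) ^ K * r⁻¹ := by rw [div_eq_mul_inv]
    _ ≤ C * (4 * ui z) ^ K * (4 * ui z) := by gcongr
    _ = C * 4 ^ (K + 1) * ui z ^ (K + 1) := by rw [mul_pow]; ring


/-- All the hypotheses on the pair of holomorphic functions. -/
structure Pair (F1 F2 : ℂ → ℂ) : Prop where
  P : Pr F1 F2
  b1 : PB F1
  b2 : PB F2
  bN : ∃ C : ℝ, 0 ≤ C ∧ ∃ K : ℕ, ∀ z : ℂ, ‖z‖ < 1 → (NR F1 F2 z)⁻¹ ≤ C * ui z ^ K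

variable {F1 F2 : ℂ → ℂ} (Q : Pair F1 F2)
include Q

theorem pb_Ninv : PB (fun z => (NC F1 F2 z)⁻¹) := by
  obtain ⟨C, hC, K, h⟩ := Q.bN
  refine ⟨C, hC, K, fun z hz => ?_⟩
  have hN := Q.P.hN z hz
  show ‖(NC F1 F2 z)⁻¹‖ ≤ _
  rw [NC_eq, norm_inv, Complex.norm_real, Real.norm_of_nonneg hN.le]
  exact h z hz

theorem pb_d1 : PB (deriv F1) := Q.b1.deriv Q.P.h1
theorem pb_d2 : PB (deriv F2) := Q.b2.deriv Q.P.h2
theorem pb_dd1 : PB (deriv (deriv F1)) := (pb_d1 Q).deriv (hd' Q.P.h1)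
theorem pb_dd2 : PB (deriv (deriv F2)) := (pb_d2 Q).deriv (hd' Q.P.h2)

theorem pb_N1 : PB (N1 F1 F2) :=
  ((pb_d1 Q).mul Q.b1.conj).add ((pb_d2 Q).mul Q.b2.conj)
theorem pb_N1b : PB (N1b F1 F2) :=
  ((pb_d1 Q).mul (pb_d1 Q).conj).add ((pb_d2 Q).mul (pb_d2 Q).conj)
theorem pb_WW : PB (WW F1 F2) := (Q.b1.mul (pb_d2 Q)).sub (Q.b2.mul (pb_d1 Q))
theorem pb_WW' : PB (WW' F1 F2) := (Q.b1.mul (pb_dd2 Q)).sub (Q.b2.mul (pb_dd1 Q))

theorem pb_thC : PB (thC F1 F2) := by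
  have h := (PB.U1.pow 2).add ((((pb_WW Q).mul (pb_WW Q).conj).mul ((pb_Ninv Q).pow 2)).mul
    (PB.const (1 / 2)))
  refine h.congr fun z _ => ?_
  unfold thC
  ring

theorem pb_sig : PB (sig F1 F2) := by
  have h := (((PB.const 2).mul PB.id.conj).mul (PB.U1.pow 3)).add
    (((((pb_WW' Q).mul (pb_WW Q).conj).mul ((pb_Ninv Q).pow 2)).sub
      ((((PB.const 2).mul ((pb_WW Q).mul (pb_WW Q).conj)).mul (pb_N1 Q)).mul
        ((pb_Ninv Q).pow 3))).mul (PB.const (1 / 2)))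
  refine h.congr fun z _ => ?_
  unfold sig
  ring

theorem pb_kthC : PB (kthC F1 F2) := by
  have hW := pb_WW Q
  have hW' := pb_WW' Q
  have hN := pb_Ninv Q
  have h1 := pb_N1 Q
  have h := (((PB.const 2).mul (PB.U1.pow 3)).add
    (((PB.const 6).mul (PB.id.mul PB.id.conj)).mul (PB.U1.pow 4))).add
    ((((((hW'.mul hW'.conj).mul (hN.pow 2)).sub
      (((PB.const 2).mul ((hW'.mul hW.conj).mul h1.conj)).mul (hN.pow 3))).sub
      (((PB.const 2).mul ((hW.mul hW'.conj).mul h1)).mul (hN.pow 3))).sub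
      (((PB.const 2).mul ((hW.mul hW.conj).mul (pb_N1b Q))).mul (hN.pow 3))).add
      (((PB.const 6).mul ((hW.mul hW.conj).mul (h1.mul h1.conj))).mul (hN.pow 4))
      |>.mul (PB.const (1 / 2)))
  refine h.congr fun z _ => ?_
  unfold kthC
  ring

/-- common polynomial bound. -/
theorem common_bound : ∃ C : ℝ, 1 ≤ C ∧ ∃ K : ℕ, ∀ z : ℂ, ‖z‖ < 1 →
    th F1 F2 z ≤ C * ui z ^ K ∧ ‖sig F1 F2 z‖ ≤ C * ui z ^ K ∧ |kth F1 F2 z| ≤ C * ui z ^ K := by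
  obtain ⟨C1, hC1, K1, h1⟩ := pb_thC Q
  obtain ⟨C2, hC2, K2, h2⟩ := pb_sig Q
  obtain ⟨C3, hC3, K3, h3⟩ := pb_kthC Q
  refine ⟨1 + C1 + C2 + C3, by linarith, K1 + K2 + K3, fun z hz => ?_⟩
  have hu := one_le_ui hz
  have hu0 := (ui_pos hz).le
  have e1 : ui z ^ K1 ≤ ui z ^ (K1 + K2 + K3) := pow_le_pow_right₀ hu (by omega)
  have e2 : ui z ^ K2 ≤ ui z ^ (K1 + K2 + K3) := pow_le_pow_right₀ hu (by omega)
  have e3 : ui z ^ K3 ≤ ui z ^ (K1 + K2 + K3) := pow_le_pow_right₀ hu (by omega)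
  have p := pow_nonneg hu0 (K1 + K2 + K3)
  refine ⟨?_, ?_, ?_⟩
  · have h := h1 z hz
    rw [← thC_eq, Complex.norm_real] at h
    have h' := (le_abs_self _).trans h
    nlinarith [mul_le_mul_of_nonneg_left e1 hC1, mul_nonneg hC2 p, mul_nonneg hC3 p]
  · have h := h2 z hz
    nlinarith [mul_le_mul_of_nonneg_left e2 hC2, mul_nonneg hC1 p, mul_nonneg hC3 p]
  · have h := h3 z hz
    have h' : |kth F1 F2 z| ≤ ‖kthC F1 F2 z‖ := Complex.abs_re_le_norm _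
    nlinarith [mul_le_mul_of_nonneg_left e3 hC3, mul_nonneg hC1 p, mul_nonneg hC2 p]

end Pool.Agent.Helper269.KdI
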