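import Mathlib
import Pool.Agent.Helper269.KdI

set_option autoImplicit false
set_option linter.unusedSimpArgs false

namespace Pool.Agent.Helper269.KdK

open Set Filter Topology ComplexConjugate
open Pool.Agent.Helper269.KdA Pool.Agent.Helper269.KdH Pool.Agent.Helper269.KdE
open Pool.Agent.Helper269.KdI

noncomputable def g0f (Λ : ℝ) (n : ℕ) (z : ℂ) : ℝ := Λ * ui z ^ (n + 1)
noncomputable def gamf (Λ : ℝ) (n : ℕ) (z : ℂ) : ℂ :=
  (n + 1 : ℂ) * Λ * (conj z * U1 z ^ (n + 2))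
noncomputable def gampf (Λ : ℝ) (n : ℕ) (z : ℂ) : ℂ :=
  (n + 1 : ℂ) * Λ * (conj z * ((n + 2 : ℂ) * U1 z ^ (n + 1) * (U1 z ^ 2 * conj z)))
noncomputable def gzzf (Λ : ℝ) (n : ℕ) (z : ℂ) : ℝ :=
  (n + 1 : ℝ) * Λ * (ui z ^ (n + 2) + (n + 2 : ℝ) * ‖z‖ ^ 2 * ui z ^ (n + 3))

theorem U1_ui (z : ℂ) : U1 z = (ui z : ℂ) := U1_eq z

theorem w1_g0f (Λ : ℝ) (n : ℕ) {z : ℂ} (hz : ‖z‖ < 1) :
    W1 (fun x => (g0f Λ n x : ℂ)) z (gamf Λ n z) (conj (gamf Λ n z)) := by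
  have h := (W1.const (Λ : ℂ) z).mul ((w1_U1 hz).pow n)
  have e : (fun x => (g0f Λ n x : ℂ)) = fun x => (Λ : ℂ) * U1 x ^ (n + 1) := by
    funext x
    unfold g0f
    rw [U1_ui]
    push_cast
    ring
  have hUc : conj (U1 z) = U1 z := by rw [U1_eq, Complex.conj_ofReal]
  rw [e]
  refine h.congr ?_ ?_
  · unfold gamf
    ring
  · unfold gamf
    simp only [map_mul, map_add, map_natCast, map_one, map_pow, Complex.conj_conj,
      Complex.conj_ofReal, hUc]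
    ring

theorem w1_gamf (Λ : ℝ) (n : ℕ) {z : ℂ} (hz : ‖z‖ < 1) :
    W1 (gamf Λ n) z (gampf Λ n z) (gzzf Λ n z) := by
  have h := (W1.const ((n + 1 : ℂ) * Λ) z).mul
    ((W1.id z).conj.mul ((w1_U1 hz).pow (n + 1)))
  have hs : (z * conj z) = ((‖z‖ ^ 2 : ℝ) : ℂ) := by
    rw [Complex.mul_conj, Complex.normSq_eq_norm_sq]
  refine h.congr ?_ ?_
  · unfold gampf
    simp only [map_zero]
    push_cast
    ring
  · unfold gzzf
    push_cast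
    rw [← U1_ui]
    have hs' : ((‖z‖ : ℝ) : ℂ) ^ 2 = z * conj z := by rw [hs]; push_cast; rfl
    rw [hs']
    simp only [map_one]
    ring

theorem cdR {F : ℂ → ℂ} (h : DifferentiableOn ℂ F (Metric.ball 0 1)) :
    ContDiffOn ℝ ((⊤ : ℕ∞) : WithTop ℕ∞) F (Metric.ball 0 1) :=
  (h.contDiffOn Metric.isOpen_ball).restrict_scalars ℝ

theorem cd_U1 : ContDiffOn ℝ ((⊤ : ℕ∞) : WithTop ℕ∞) U1 (Metric.ball 0 1) := by
  have h : ContDiffOn ℝ ((⊤ : ℕ∞) : WithTop ℕ∞) (fun z : ℂ => (1 - z * conj z)) (Metric.ball 0 1) := by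
    apply ContDiffOn.sub contDiffOn_const
    apply ContDiffOn.mul contDiffOn_id
    exact (Complex.conjCLE : ℂ →L[ℝ] ℂ).contDiff.contDiffOn
  refine h.inv ?_
  intro z hz
  have hz' : ‖z‖ < 1 := by simpa using hz
  have := U1_rel hz'
  intro h0
  rw [h0] at this
  simp at this

theorem cdC {f : ℂ → ℂ} {s : Set ℂ}
    (hf : ContDiffOn ℝ ((⊤ : ℕ∞) : WithTop ℕ∞) f s) :
    ContDiffOn ℝ ((⊤ : ℕ∞) : WithTop ℕ∞) (fun p => conj (f p)) s :=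
  (Complex.conjCLE : ℂ →L[ℝ] ℂ).contDiff.comp_contDiffOn hf

theorem cd_ui : ContDiffOn ℝ ((⊤ : ℕ∞) : WithTop ℕ∞) ui (Metric.ball 0 1) := by
  have h := Complex.reCLM.contDiff.comp_contDiffOn cd_U1
  refine h.congr fun z hz => ?_
  simp [U1_ui]

theorem cd_g0f (Λ : ℝ) (n : ℕ) :
    ContDiffOn ℝ ((⊤ : ℕ∞) : WithTop ℕ∞) (g0f Λ n) (Metric.ball 0 1) := by
  unfold g0f
  exact contDiffOn_const.mul (cd_ui.pow _)

variable {F1 F2 : ℂ → ℂ} (P : Pr F1 F2)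
include P

theorem cd_NC : ContDiffOn ℝ ((⊤ : ℕ∞) : WithTop ℕ∞) (NC F1 F2) (Metric.ball 0 1) := by
  have h1 := cdR P.h1
  have h2 := cdR P.h2
  exact (h1.mul (cdC h1)).add (h2.mul (cdC h2))

theorem cd_Ninv :
    ContDiffOn ℝ ((⊤ : ℕ∞) : WithTop ℕ∞) (fun z => (NC F1 F2 z)⁻¹) (Metric.ball 0 1) := by
  refine (cd_NC P).inv ?_
  intro z hz
  exact NC_ne P (by simpa using hz)

theorem cd_NR : ContDiffOn ℝ ((⊤ : ℕ∞) : WithTop ℕ∞) (NR F1 F2) (Metric.ball 0 1) := by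
  have h := Complex.reCLM.contDiff.comp_contDiffOn (cd_NC P)
  refine h.congr fun z hz => ?_
  simp [NC_eq]

theorem cd_kk : ContDiffOn ℝ ((⊤ : ℕ∞) : WithTop ℕ∞) (kk F1 F2) (Metric.ball 0 1) := by
  have h : ContDiffOn ℝ ((⊤ : ℕ∞) : WithTop ℕ∞) (fun z => Real.sqrt (NR F1 F2 z) * ui z)
      (Metric.ball 0 1) := by
    apply ContDiffOn.mul _ cd_ui
    apply (cd_NR P).sqrt
    intro z hz
    exact (P.hN z (by simpa using hz)).ne'
  refine h.congr fun z hz => ?_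
  unfold kk ui
  rw [div_eq_mul_inv]

theorem cd_lam : ContDiffOn ℝ ((⊤ : ℕ∞) : WithTop ℕ∞) (lam F1 F2) (Metric.ball 0 1) := by
  have h1 := cdR P.h1
  have h2 := cdR P.h2
  have d1 := cdR (hd' P.h1)
  have d2 := cdR (hd' P.h2)
  have hN1 : ContDiffOn ℝ ((⊤ : ℕ∞) : WithTop ℕ∞) (N1 F1 F2) (Metric.ball 0 1) :=
    (d1.mul (cdC h1)).add (d2.mul (cdC h2))
  have h := ((cdC contDiffOn_id).mul cd_U1).add
    ((hN1.mul (cd_Ninv P)).mul (contDiffOn_const (c := (1 / 2 : ℂ))))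
  refine h.congr fun z hz => ?_
  simp only [lam, id]
  ring

theorem cd_th : ContDiffOn ℝ ((⊤ : ℕ∞) : WithTop ℕ∞) (th F1 F2) (Metric.ball 0 1) := by
  have h1 := cdR P.h1
  have h2 := cdR P.h2
  have d1 := cdR (hd' P.h1)
  have d2 := cdR (hd' P.h2)
  have hW : ContDiffOn ℝ ((⊤ : ℕ∞) : WithTop ℕ∞) (WW F1 F2) (Metric.ball 0 1) :=
    (h1.mul d2).sub (h2.mul d1)
  have hi := cd_Ninv P
  have h := (cd_U1.mul cd_U1).add (((hW.mul (cdC hW)).mul (hi.mul hi)).mul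
    (contDiffOn_const (c := (1 / 2 : ℂ))))
  have h' := Complex.reCLM.contDiff.comp_contDiffOn h
  refine h'.congr fun z hz => ?_
  have : (th F1 F2 z : ℂ) = U1 z * U1 z + WW F1 F2 z * conj (WW F1 F2 z)
      * ((NC F1 F2 z)⁻¹ * (NC F1 F2 z)⁻¹) * (1 / 2) := by
    rw [thC_eq]
    unfold thC
    ring
  simp only [Function.comp]
  rw [← this]
  simp

omit P in
theorem th_pos {z : ℂ} (hz : ‖z‖ < 1) : 1 / (1 - ‖z‖ ^ 2) ^ 2 ≤ th F1 F2 z := by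
  unfold th
  have : 0 ≤ ‖WW F1 F2 z‖ ^ 2 / (2 * NR F1 F2 z ^ 2) := by positivity
  linarith

end Pool.Agent.Helper269.KdK
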