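import Mathlib
import Pool.Agent.Helper269.KdK
import Pool.Agent.Helper269.KdE

set_option autoImplicit false
set_option linter.unusedSimpArgs false

namespace Pool.Agent.Helper269.KdL

open Set Filter Topology ComplexConjugate
open Pool.Agent.Helper269.KdDefs Pool.Agent.Helper269.KdA Pool.Agent.Helper269.KdH
open Pool.Agent.Helper269.KdE Pool.Agent.Helper269.KdI Pool.Agent.Helper269.KdK

variable {F1 F2 : ℂ → ℂ}

theorem exists_mup (P : Pr F1 F2) :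
    ∃ mup : ℂ → ℂ, ∀ z : ℂ, ‖z‖ < 1 → W1 (mu F1 F2) z (mup z) (sig F1 F2 z) := by
  choose! mup h using fun (z : ℂ) (hz : ‖z‖ < 1) => w1_mu P hz
  exact ⟨mup, h⟩

theorem exists_sigp (P : Pr F1 F2) :
    ∃ sigp : ℂ → ℂ, ∀ z : ℂ, ‖z‖ < 1 → W1 (sig F1 F2) z (sigp z) (kth F1 F2 z) := by
  choose! sigp h using fun (z : ℂ) (hz : ‖z‖ < 1) => w1_sig P hz
  exact ⟨sigp, h⟩

theorem kk_pos (P : Pr F1 F2) {z : ℂ} (hz : ‖z‖ < 1) : 0 < kk F1 F2 z := by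
  unfold kk
  exact div_pos (Real.sqrt_pos.mpr (P.hN z hz)) (u_pos hz)

theorem g0f_pos {Λ : ℝ} (hΛ : 0 < Λ) (n : ℕ) {z : ℂ} (hz : ‖z‖ < 1) : 0 < g0f Λ n z :=
  mul_pos hΛ (pow_pos (ui_pos hz) _)

/-- The base data of the example. -/
noncomputable def mkB (P : Pr F1 F2) (Λ : ℝ) (hΛ : 0 < Λ) (n : ℕ) : Base where
  k := kk F1 F2
  g0 := g0f Λ n
  th := th F1 F2
  kth := kth F1 F2
  gzz := gzzf Λ n
  lam := lam F1 F2
  mu := mu F1 F2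
  mup := Classical.choose (exists_mup P)
  sig := sig F1 F2
  sigp := Classical.choose (exists_sigp P)
  gam := gamf Λ n
  gamp := gampf Λ n
  dk := fun _ hz => w1_kk P hz
  dlam := fun _ hz => w1_lam P hz
  dmu := Classical.choose_spec (exists_mup P)
  dth := fun _ hz => w1_th P hz
  dsig := Classical.choose_spec (exists_sigp P)
  dg0 := fun _ hz => w1_g0f Λ n hz
  dgam := fun _ hz => w1_gamf Λ n hz
  kpos := fun _ hz => kk_pos P hz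
  g0pos := fun _ hz => g0f_pos hΛ n hz
  thpos := fun _ hz => by
    refine le_trans ?_ (th_pos (F1 := F1) (F2 := F2) hz)
    positivity
  sk := cd_kk P
  sg0 := cd_g0f Λ n
  sth := cd_th P
  slam := cd_lam P

theorem ui_sq {z : ℂ} : 1 / (1 - ‖z‖ ^ 2) ^ 2 = ui z ^ 2 := by
  unfold ui
  rw [inv_pow, one_div]

theorem norm_gamf {Λ : ℝ} (hΛ : 0 < Λ) (n : ℕ) {z : ℂ} (hz : ‖z‖ < 1) :
    ‖gamf Λ n z‖ = (n + 1) * Λ * (‖z‖ * ui z ^ (n + 2)) := by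
  have h := (ui_pos hz).le
  unfold gamf
  rw [U1_ui, norm_mul, norm_mul, norm_mul, norm_pow, Complex.norm_real, Complex.norm_real,
    Real.norm_of_nonneg h, Real.norm_of_nonneg hΛ.le, RCLike.norm_conj]
  have : ‖(n + 1 : ℂ)‖ = (n + 1 : ℝ) := by
    have := Complex.norm_natCast (n + 1)
    push_cast at this
    exact this
  rw [this]

theorem good (Q : Pair F1 F2) {C : ℝ} (hC : 1 ≤ C) {K : ℕ}
    (hK : ∀ z : ℂ, ‖z‖ < 1 → th F1 F2 z ≤ C * ui z ^ K ∧ ‖sig F1 F2 z‖ ≤ C * ui z ^ K ∧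
      |kth F1 F2 z| ≤ C * ui z ^ K) (n : ℕ) (hn : 6 * K + 3 ≤ n) {Λ : ℝ} (hΛ : 0 < Λ)
    (hΛ2 : 100 * ((n + 1 : ℝ) ^ 2 + 1) * C ^ 6 ≤ Λ) :
    Good (mkB Q.P Λ hΛ n) (n + 1 : ℝ) (fun z => C * ui z ^ K) where
  hM := by
    have : (3 : ℝ) ≤ n := by exact_mod_cast (by omega : 3 ≤ n)
    linarith
  hT := fun z hz => by
    have h1 := one_le_pow₀ (one_le_ui hz) (n := K)
    nlinarith
  th_lower := fun z hz => th_pos hz
  th_upper := fun z hz => (hK z hz).1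
  sig_le := fun z hz => (hK z hz).2.1
  kth_le := fun z hz => (hK z hz).2.2
  g0_large := fun z hz => by
    show 100 * ((n + 1 : ℝ) ^ 2 + 1) * (C * ui z ^ K) ^ 6 ≤ Λ * ui z ^ (n + 1)
    have h1 : (ui z ^ K) ^ 6 ≤ ui z ^ (n + 1) := by
      rw [← pow_mul]
      exact pow_le_pow_right₀ (one_le_ui hz) (by omega)
    have h2 : 0 ≤ (ui z ^ K) ^ 6 := pow_nonneg (pow_nonneg (ui_pos hz).le _) _
    calc 100 * ((n + 1 : ℝ) ^ 2 + 1) * (C * ui z ^ K) ^ 6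
        = (100 * ((n + 1 : ℝ) ^ 2 + 1) * C ^ 6) * (ui z ^ K) ^ 6 := by ring
      _ ≤ Λ * (ui z ^ K) ^ 6 := mul_le_mul_of_nonneg_right hΛ2 h2
      _ ≤ Λ * ui z ^ (n + 1) := mul_le_mul_of_nonneg_left h1 hΛ.le
  gam_le := fun z hz => by
    show ‖gamf Λ n z‖ ^ 2 ≤ (n + 1 : ℝ) ^ 2 * (1 / (1 - ‖z‖ ^ 2) ^ 2) * (Λ * ui z ^ (n + 1)) ^ 2
    rw [norm_gamf hΛ n hz, ui_sq]
    have h0 := (ui_pos hz).le
    have h1 : ‖z‖ ^ 2 ≤ 1 := by nlinarith [norm_nonneg z]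
    have e1 : ((n + 1 : ℝ) * Λ * (‖z‖ * ui z ^ (n + 2))) ^ 2
        = ‖z‖ ^ 2 * (((n + 1 : ℝ) ^ 2 * Λ ^ 2) * (ui z ^ (n + 2)) ^ 2) := by ring
    have e2 : (n + 1 : ℝ) ^ 2 * ui z ^ 2 * (Λ * ui z ^ (n + 1)) ^ 2
        = 1 * (((n + 1 : ℝ) ^ 2 * Λ ^ 2) * (ui z ^ (n + 2)) ^ 2) := by ring
    rw [e1, e2]
    apply mul_le_mul_of_nonneg_right h1
    positivity
  gzz_ge := fun z hz => by
    show (n + 1 : ℝ) * (1 / (1 - ‖z‖ ^ 2) ^ 2) * (Λ * ui z ^ (n + 1))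
      ≤ gzzf Λ n z - ‖gamf Λ n z‖ ^ 2 / (Λ * ui z ^ (n + 1))
    have h0 := ui_pos hz
    rw [norm_gamf hΛ n hz, ui_sq]
    unfold gzzf
    have hne : ui z ≠ 0 := h0.ne'
    have hΛne : Λ ≠ 0 := hΛ.ne'
    have hrel : (1 - ‖z‖ ^ 2) * ui z = 1 := by
      unfold ui
      exact mul_inv_cancel₀ (u_pos hz).ne'
    have e1 : ((n + 1 : ℝ) * Λ * (‖z‖ * ui z ^ (n + 2))) ^ 2 / (Λ * ui z ^ (n + 1))
        = (n + 1 : ℝ) ^ 2 * Λ * ‖z‖ ^ 2 * ui z ^ (n + 3) := by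
      rw [div_eq_iff (by positivity)]
      ring
    rw [e1]
    apply le_of_eq
    have e2 : ui z ^ (n + 2) = (1 - ‖z‖ ^ 2) * ui z ^ (n + 3) := by
      calc ui z ^ (n + 2) = ((1 - ‖z‖ ^ 2) * ui z) * ui z ^ (n + 2) := by rw [hrel, one_mul]
        _ = (1 - ‖z‖ ^ 2) * ui z ^ (n + 3) := by ring
    rw [e2]
    ring

end Pool.Agent.Helper269.KdL
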