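import Mathlib
import Pool.Agent.Helper269.KdDefs
import Pool.Agent.Helper269.KdJ2

set_option autoImplicit false

namespace Pool.Agent.Helper269.KdP

open Set Filter Topology
open Pool.Agent.Helper269.KdDefs
open Pool.Agent.Helper269.KdJ2.S14273 (continuousOn_speed)
open Pool.Agent.Helper269.KdJ2.S14275 (compact_metric_bounds)


theorem j14277_len_nonneg (g : ℂ × ℂ → LinearMap.BilinForm ℝ (ℂ × ℂ)) (c : ℝ → ℂ × ℂ) :
    0 ≤ pathLength g c := by
  unfold pathLength
  exact intervalIntegral.integral_nonneg zero_le_one (fun t _ => Real.sqrt_nonneg _)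

theorem j14277_dist_nonneg (U : Set (ℂ × ℂ)) (g : ℂ × ℂ → LinearMap.BilinForm ℝ (ℂ × ℂ))
    (p q : ℂ × ℂ) : 0 ≤ riemDist U g p q := by
  unfold riemDist
  apply Real.sInf_nonneg
  rintro _ ⟨c, _, rfl⟩
  exact j14277_len_nonneg g c

theorem j14277_dist_le {U : Set (ℂ × ℂ)} {g : ℂ × ℂ → LinearMap.BilinForm ℝ (ℂ × ℂ)}
    {p q : ℂ × ℂ} {c : ℝ → ℂ × ℂ} (hc : c ∈ pathsIn U p q) :
    riemDist U g p q ≤ pathLength g c := by
  unfold riemDist
  apply csInf_le
  · refine ⟨0, ?_⟩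
    rintro _ ⟨c, _, rfl⟩
    exact j14277_len_nonneg g c
  · exact mem_image_of_mem _ hc

theorem j14277_norm_le {U : Set (ℂ × ℂ)} {g : ℂ × ℂ → LinearMap.BilinForm ℝ (ℂ × ℂ)}
    (hg : ∀ v w : ℂ × ℂ, ContinuousOn (fun p => g p v w) U)
    {p q : ℂ × ℂ} {c : ℝ → ℂ × ℂ} (hc : c ∈ pathsIn U p q) {k : ℝ} (hk : 0 < k)
    (hb : ∀ t ∈ Icc (0 : ℝ) 1, ∀ v : ℂ × ℂ, k * ‖v‖ ^ 2 ≤ g (c t) v v) :
    Real.sqrt k * ‖q - p‖ ≤ pathLength g c := by
  obtain ⟨hc1, hc0, hc1', hcU⟩ := hc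
  have hder : Continuous (deriv c) := hc1.continuous_deriv (by simp)
  have hdiff : ∀ t, DifferentiableAt ℝ c t := fun t => (hc1.differentiable (by simp)).differentiableAt
  have h1 : ∫ t in (0 : ℝ)..1, deriv c t = q - p := by
    rw [intervalIntegral.integral_deriv_eq_sub (fun t _ => hdiff t) (hder.intervalIntegrable _ _),
      hc0, hc1']
  have h2 : ‖q - p‖ ≤ ∫ t in (0 : ℝ)..1, ‖deriv c t‖ := by
    rw [← h1]
    exact intervalIntegral.norm_integral_le_integral_norm zero_le_one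
  have h3 : Real.sqrt k * ∫ t in (0 : ℝ)..1, ‖deriv c t‖ = ∫ t in (0 : ℝ)..1, Real.sqrt k * ‖deriv c t‖ := by
    rw [intervalIntegral.integral_const_mul]
  calc Real.sqrt k * ‖q - p‖ ≤ Real.sqrt k * ∫ t in (0 : ℝ)..1, ‖deriv c t‖ :=
        mul_le_mul_of_nonneg_left h2 (Real.sqrt_nonneg _)
    _ = ∫ t in (0 : ℝ)..1, Real.sqrt k * ‖deriv c t‖ := h3
    _ ≤ pathLength g c := by
        unfold pathLength
        apply intervalIntegral.integral_mono_on zero_le_one
        · exact (continuous_const.mul hder.norm).intervalIntegrable _ _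
        · apply ContinuousOn.intervalIntegrable
          rw [uIcc_of_le zero_le_one]
          exact continuousOn_speed hg hc1 hcU
        · intro t ht
          apply Real.le_sqrt_of_sq_le
          rw [mul_pow, Real.sq_sqrt hk.le]
          exact hb t ht _

/-- TARGET: the distance controls functions which are Lipschitz along paths. -/
theorem le_riemDist {U : Set (ℂ × ℂ)} {g : ℂ × ℂ → LinearMap.BilinForm ℝ (ℂ × ℂ)}
    (hpath : ∀ p ∈ U, ∀ q ∈ U, (pathsIn U p q).Nonempty)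
    {E : ℂ × ℂ → ℝ} {C : ℝ} (hC : 0 ≤ C)
    (hE : ∀ p ∈ U, ∀ q ∈ U, ∀ c ∈ pathsIn U p q, ∀ t ∈ Icc (0 : ℝ) 1,
      E (c t) ≤ E p + C * pathLength g c) {p q : ℂ × ℂ} (hp : p ∈ U) (hq : q ∈ U) :
    E q ≤ E p + C * riemDist U g p q := by
  have hne := hpath p hp q hq
  have hall : ∀ c ∈ pathsIn U p q, E q ≤ E p + C * pathLength g c := by
    intro c hc
    have := hE p hp q hq c hc 1 ⟨zero_le_one, le_rfl⟩
    rwa [hc.2.2.1] at this
  rcases hC.eq_or_lt with h0 | h0
  · obtain ⟨c, hc⟩ := hne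
    have := hall c hc
    rw [← h0] at this ⊢
    linarith
  · have h1 : (E q - E p) / C ≤ riemDist U g p q := by
      unfold riemDist
      apply le_csInf (hne.image _)
      rintro _ ⟨c, hc, rfl⟩
      rw [div_le_iff₀ h0]
      have := hall c hc
      linarith
    rw [div_le_iff₀ h0] at h1
    linarith

/-- TARGET: an exhaustion function which is Lipschitz along paths gives completeness. -/
theorem complete_of_exhaustion {U : Set (ℂ × ℂ)}
    {g : ℂ × ℂ → LinearMap.BilinForm ℝ (ℂ × ℂ)} (hU : IsOpen U)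
    (hg : IsRiemannianMetricOn U g)
    (hpath : ∀ p ∈ U, ∀ q ∈ U, (pathsIn U p q).Nonempty)
    {E : ℂ × ℂ → ℝ} {C : ℝ} (hC : 0 ≤ C)
    (hE : ∀ p ∈ U, ∀ q ∈ U, ∀ c ∈ pathsIn U p q, ∀ t ∈ Icc (0 : ℝ) 1,
      E (c t) ≤ E p + C * pathLength g c)
    (hK : ∀ a : ℝ, IsCompact {p ∈ U | E p ≤ a}) : IsCompleteFor U g := by
  intro s hsU hs
  have hgc : ∀ v w : ℂ × ℂ, ContinuousOn (fun p => g p v w) U := fun v w => (hg.smooth v w).continuousOn
  obtain ⟨n₀, hn₀⟩ := hs 1 one_pos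
  obtain ⟨a, ha⟩ : ∃ a : ℝ, a = E (s n₀) + C := ⟨_, rfl⟩
  have hsa : ∀ n ≥ n₀, E (s n) ≤ a := by
    intro n hn
    have h1 := le_riemDist hpath hC hE (hsU n₀) (hsU n)
    have h2 := hn₀ n₀ le_rfl n hn
    have h3 : C * riemDist U g (s n₀) (s n) ≤ C * 1 := mul_le_mul_of_nonneg_left h2.le hC
    linarith
  have hKc := hK (a + C)
  obtain ⟨c1, hc1, C1, hC1, hb⟩ := compact_metric_bounds hgc hg.pos hKc (fun p hp => hp.1)
  have hsq : 0 < Real.sqrt c1 := Real.sqrt_pos.2 hc1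
  -- distances control norms
  have hnorm : ∀ m ≥ n₀, ∀ n ≥ n₀, ∀ ε : ℝ, ε ≤ 1 → riemDist U g (s m) (s n) < ε →
      Real.sqrt c1 * ‖s n - s m‖ < ε := by
    intro m hm n hn ε hε hd
    unfold riemDist at hd
    obtain ⟨_, ⟨c, hc, rfl⟩, hlt⟩ := exists_lt_of_csInf_lt ((hpath _ (hsU m) _ (hsU n)).image _) hd
    refine lt_of_le_of_lt (j14277_norm_le hgc hc hc1 (fun t ht v => ?_)) hlt
    refine (hb (c t) ⟨hc.2.2.2 t ht, ?_⟩ v).1
    have h1 := hE _ (hsU m) _ (hsU n) c hc t ht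
    have h2 := hsa m hm
    have h3 : C * pathLength g c ≤ C * 1 := mul_le_mul_of_nonneg_left (by linarith) hC
    linarith
  have hcau : CauchySeq s := by
    rw [Metric.cauchySeq_iff]
    intro ε hε
    obtain ⟨N, hN⟩ := hs (min 1 (Real.sqrt c1 * ε)) (lt_min one_pos (by positivity))
    refine ⟨max N n₀, fun m hm n hn => ?_⟩
    have h1 := hN m (le_trans (le_max_left _ _) hm) n (le_trans (le_max_left _ _) hn)
    have h2 := hnorm m (le_trans (le_max_right _ _) hm) n (le_trans (le_max_right _ _) hn) _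
      (min_le_left _ _) h1
    have h3 : Real.sqrt c1 * ‖s n - s m‖ < Real.sqrt c1 * ε := lt_of_lt_of_le h2 (min_le_right _ _)
    rw [dist_comm, dist_eq_norm]
    exact lt_of_mul_lt_mul_left h3 hsq.le
  obtain ⟨p0, hp0⟩ := cauchySeq_tendsto_of_complete hcau
  have hp0K : p0 ∈ {p ∈ U | E p ≤ a + C} := by
    apply hKc.isClosed.mem_of_tendsto hp0
    filter_upwards [eventually_ge_atTop n₀] with n hn
    exact ⟨hsU n, by have := hsa n hn; linarith⟩
  refine ⟨p0, hp0K.1, ?_⟩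
  obtain ⟨r, hr, hrU⟩ := Metric.nhds_basis_closedBall.mem_iff.1 (hU.mem_nhds hp0K.1)
  obtain ⟨c2, hc2, C2, hC2, hb2⟩ := compact_metric_bounds hgc hg.pos (isCompact_closedBall p0 r) hrU
  have hlim : Tendsto (fun n => Real.sqrt C2 * ‖s n - p0‖) atTop (𝓝 0) := by
    have h1 : Tendsto (fun n => ‖s n - p0‖) atTop (𝓝 0) := by
      rw [← tendsto_iff_norm_sub_tendsto_zero]; exact hp0
    have := h1.const_mul (Real.sqrt C2)
    rwa [mul_zero] at this
  refine squeeze_zero' (Eventually.of_forall fun n => j14277_dist_nonneg U g _ _) ?_ hlim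
  filter_upwards [Metric.tendsto_nhds.1 hp0 r hr] with n hn
  rw [dist_eq_norm] at hn
  have hseg : ∀ t ∈ Icc (0 : ℝ) 1, s n + t • (p0 - s n) ∈ Metric.closedBall p0 r := by
    intro t ht
    rw [mem_closedBall_iff_norm]
    have e : s n + t • (p0 - s n) - p0 = (1 - t) • (s n - p0) := by
      rw [sub_smul, one_smul, smul_sub, smul_sub]; abel
    rw [e, norm_smul, Real.norm_eq_abs, abs_of_nonneg (by linarith [ht.2])]
    have : (1 - t) * ‖s n - p0‖ ≤ 1 * ‖s n - p0‖ :=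
      mul_le_mul_of_nonneg_right (by linarith [ht.1]) (norm_nonneg _)
    linarith
  have hpathmem : (fun t : ℝ => s n + t • (p0 - s n)) ∈ pathsIn U (s n) p0 := by
    refine ⟨by fun_prop, by simp, by simp, fun t ht => hrU (hseg t ht)⟩
  refine le_trans (j14277_dist_le hpathmem) ?_
  have hderiv : ∀ t : ℝ, deriv (fun t : ℝ => s n + t • (p0 - s n)) t = p0 - s n := by
    intro t
    have h1 : HasDerivAt (fun t : ℝ => s n + t • (p0 - s n)) ((1 : ℝ) • (p0 - s n)) t :=
      ((hasDerivAt_id t).smul_const (p0 - s n)).const_add (s n)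
    rw [h1.deriv, one_smul]
  unfold pathLength
  have hle : ∫ t in (0 : ℝ)..1, Real.sqrt (g (s n + t • (p0 - s n))
      (deriv (fun t : ℝ => s n + t • (p0 - s n)) t) (deriv (fun t : ℝ => s n + t • (p0 - s n)) t)) ≤
      ∫ t in (0 : ℝ)..1, Real.sqrt C2 * ‖s n - p0‖ := by
    apply intervalIntegral.integral_mono_on zero_le_one
    · apply ContinuousOn.intervalIntegrable
      rw [uIcc_of_le zero_le_one]
      exact continuousOn_speed hgc hpathmem.1 hpathmem.2.2.2
    · exact intervalIntegrable_const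
    · intro t ht
      rw [hderiv t]
      have h1 := (hb2 _ (hseg t ht) (p0 - s n)).2
      rw [norm_sub_rev] at h1
      rw [Real.sqrt_le_left (by positivity), mul_pow, Real.sq_sqrt hC2.le]
      exact h1
  refine le_trans hle ?_
  rw [intervalIntegral.integral_const]
  simp


end Pool.Agent.Helper269.KdP
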