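import Mathlib
import Pool.Agent.Helper269.KdL
import Pool.Agent.Helper269.KdP

set_option autoImplicit false
set_option linter.unusedSimpArgs false

namespace Pool.Agent.Helper269.KdM

open Set Filter Topology ComplexConjugate
open Pool.Agent.Helper269.KdDefs Pool.Agent.Helper269.KdA Pool.Agent.Helper269.KdB
open Pool.Agent.Helper269.KdC Pool.Agent.Helper269.KdD Pool.Agent.Helper269.KdE
open Pool.Agent.Helper269.KdH Pool.Agent.Helper269.KdI Pool.Agent.Helper269.KdK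

theorem real_of_W2 {f : ℂ × ℂ → ℝ} {p : ℂ × ℂ} {a b c d : ℂ}
    (h : W2 (fun x => (f x : ℂ)) p a b c d) :
    HasFDerivAt f (Complex.reCLM.comp (L4 a b c d)) p := by
  have := Complex.reCLM.hasFDerivAt.comp p h
  exact this

variable (B : Base)

/-- The exhaustion function. -/
noncomputable def Ex (t : ℕ) (p : ℂ × ℂ) : ℝ := ui p.1 ^ (t + 1) + Real.log (rho B p)

noncomputable def dEx (t : ℕ) (p : ℂ × ℂ) : ℂ × ℂ →L[ℝ] ℝ :=
  Complex.reCLM.comp (L4 (((t : ℂ) + 1) * U1 p.1 ^ t * (U1 p.1 ^ 2 * conj p.1))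
    (((t : ℂ) + 1) * U1 p.1 ^ t * (U1 p.1 ^ 2 * p.1)) 0 0)
  + (rho B p)⁻¹ • Complex.reCLM.comp (L4 ((rho B p : ℂ) ^ 2 * (B.k p.1 * p.2 * conj p.2 * B.lam p.1))
      ((rho B p : ℂ) ^ 2 * (B.k p.1 * p.2 * conj p.2 * conj (B.lam p.1)))
      ((rho B p : ℂ) ^ 2 * (B.k p.1 * conj p.2))
      ((rho B p : ℂ) ^ 2 * (B.k p.1 * p.2)))

theorem hasFDerivAt_Ex (t : ℕ) {p : ℂ × ℂ} (hp : p ∈ dom B) :
    HasFDerivAt (Ex B t) (dEx B t p) p := by
  have h1 : W2 (fun x : ℂ × ℂ => ((ui x.1 ^ (t + 1) : ℝ) : ℂ)) p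
      (((t : ℂ) + 1) * U1 p.1 ^ t * (U1 p.1 ^ 2 * conj p.1))
      (((t : ℂ) + 1) * U1 p.1 ^ t * (U1 p.1 ^ 2 * p.1)) 0 0 := by
    have h := W2.ofBase (p := p) ((w1_U1 hp.1).pow t)
    have e : (fun x : ℂ × ℂ => ((ui x.1 ^ (t + 1) : ℝ) : ℂ)) = fun x => U1 x.1 ^ (t + 1) := by
      funext x
      rw [U1_ui]
      push_cast
      rfl
    rw [e]
    exact h
  have h2 := real_of_W2 h1
  have h3 := (real_of_W2 (w2_rho B hp)).log (rho_pos B hp).ne'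
  exact h2.add h3

theorem log_part {p : ℂ × ℂ} (hp : p ∈ dom B) (v : ℂ × ℂ) :
    |(rho B p)⁻¹ * (L4 ((rho B p : ℂ) ^ 2 * (B.k p.1 * p.2 * conj p.2 * B.lam p.1))
      ((rho B p : ℂ) ^ 2 * (B.k p.1 * p.2 * conj p.2 * conj (B.lam p.1)))
      ((rho B p : ℂ) ^ 2 * (B.k p.1 * conj p.2))
      ((rho B p : ℂ) ^ 2 * (B.k p.1 * p.2)) v).re| ≤ 2 * Real.sqrt (gm B p v v) := by
  have hr := rho_pos B hp
  have hk := B.kpos p.1 hp.1
  have hq := qq_pos B hp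
  have e1 : L4 ((rho B p : ℂ) ^ 2 * (B.k p.1 * p.2 * conj p.2 * B.lam p.1))
      ((rho B p : ℂ) ^ 2 * (B.k p.1 * p.2 * conj p.2 * conj (B.lam p.1)))
      ((rho B p : ℂ) ^ 2 * (B.k p.1 * conj p.2))
      ((rho B p : ℂ) ^ 2 * (B.k p.1 * p.2)) v
      = ((rho B p ^ 2 * B.k p.1 : ℝ) : ℂ) * (conj p.2 * nu B p v + conj (conj p.2 * nu B p v)) := by
    rw [L4_apply]
    simp only [nu, map_add, map_mul, Complex.conj_conj]
    push_cast
    ring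
  have e2 : (rho B p)⁻¹ * (((rho B p ^ 2 * B.k p.1 : ℝ) : ℂ)
      * (conj p.2 * nu B p v + conj (conj p.2 * nu B p v))).re
      = 2 * (rho B p * B.k p.1 * (conj p.2 * nu B p v).re) := by
    rw [Complex.re_ofReal_mul, Complex.add_re, Complex.conj_re]
    field_simp
    ring
  rw [e1, e2, abs_mul, abs_two]
  apply mul_le_mul_of_nonneg_left _ (by norm_num)
  apply Real.abs_le_sqrt
  rw [gm_self]
  have h1 : (conj p.2 * nu B p v).re ^ 2 ≤ ‖p.2‖ ^ 2 * ‖nu B p v‖ ^ 2 := by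
    have h := Complex.abs_re_le_norm (conj p.2 * nu B p v)
    rw [norm_mul, RCLike.norm_conj] at h
    rw [← sq_abs, ← mul_pow]
    exact pow_le_pow_left₀ (abs_nonneg _) h 2
  have h2 : ‖p.2‖ ^ 2 * B.k p.1 ≤ 1 := hp.2.le
  have h3 : 0 ≤ rho B p ^ 2 * B.k p.1 ^ 2 := by positivity
  calc (rho B p * B.k p.1 * (conj p.2 * nu B p v).re) ^ 2
      = rho B p ^ 2 * B.k p.1 ^ 2 * (conj p.2 * nu B p v).re ^ 2 := by ring
    _ ≤ rho B p ^ 2 * B.k p.1 ^ 2 * (‖p.2‖ ^ 2 * ‖nu B p v‖ ^ 2) :=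
        mul_le_mul_of_nonneg_left h1 h3
    _ = (bb B p * ‖nu B p v‖ ^ 2) * (‖p.2‖ ^ 2 * B.k p.1) := by unfold bb; ring
    _ ≤ (bb B p * ‖nu B p v‖ ^ 2) * 1 := by
        apply mul_le_mul_of_nonneg_left h2
        have := bb_pos B hp
        positivity
    _ ≤ qq B p * ‖v.1‖ ^ 2 + bb B p * ‖nu B p v‖ ^ 2 := by
        have : 0 ≤ qq B p * ‖v.1‖ ^ 2 := by positivity
        linarith

theorem pow_part (t : ℕ) {p : ℂ × ℂ} (hp : p ∈ dom B) (v : ℂ × ℂ)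
    (hg : ui p.1 ^ (2 * t + 4) ≤ B.g0 p.1) :
    |(L4 (((t : ℂ) + 1) * U1 p.1 ^ t * (U1 p.1 ^ 2 * conj p.1))
    (((t : ℂ) + 1) * U1 p.1 ^ t * (U1 p.1 ^ 2 * p.1)) 0 0 v).re|
      ≤ (2 * (t + 1) : ℝ) * Real.sqrt (gm B p v v) := by
  have hu := ui_pos hp.1
  have e1 : L4 (((t : ℂ) + 1) * U1 p.1 ^ t * (U1 p.1 ^ 2 * conj p.1))
    (((t : ℂ) + 1) * U1 p.1 ^ t * (U1 p.1 ^ 2 * p.1)) 0 0 v
      = (((t + 1) * ui p.1 ^ (t + 2) : ℝ) : ℂ) * (conj p.1 * v.1 + conj (conj p.1 * v.1)) := by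
    rw [L4_apply, U1_ui]
    simp only [map_add, map_mul, Complex.conj_conj]
    push_cast
    ring
  rw [e1, Complex.re_ofReal_mul, Complex.add_re, Complex.conj_re]
  have e2 : ((t + 1) * ui p.1 ^ (t + 2) : ℝ) * ((conj p.1 * v.1).re + (conj p.1 * v.1).re)
      = (2 * (t + 1)) * (ui p.1 ^ (t + 2) * (conj p.1 * v.1).re) := by ring
  rw [e2, abs_mul, abs_of_nonneg (by positivity : (0 : ℝ) ≤ 2 * (t + 1))]
  apply mul_le_mul_of_nonneg_left _ (by positivity)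
  apply Real.abs_le_sqrt
  rw [gm_self]
  have h1 : (conj p.1 * v.1).re ^ 2 ≤ ‖v.1‖ ^ 2 := by
    have h := Complex.abs_re_le_norm (conj p.1 * v.1)
    rw [norm_mul, RCLike.norm_conj] at h
    rw [← sq_abs]
    apply pow_le_pow_left₀ (abs_nonneg _)
    have := hp.1
    nlinarith [norm_nonneg v.1]
  have h2 : B.g0 p.1 ≤ qq B p := by
    unfold qq
    have := mul_nonneg (sub_nonneg.mpr (one_le_rho B hp)) (B.thpos p.1 hp.1)
    linarith
  calc (ui p.1 ^ (t + 2) * (conj p.1 * v.1).re) ^ 2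
      = ui p.1 ^ (2 * t + 4) * (conj p.1 * v.1).re ^ 2 := by ring
    _ ≤ ui p.1 ^ (2 * t + 4) * ‖v.1‖ ^ 2 := mul_le_mul_of_nonneg_left h1 (by positivity)
    _ ≤ qq B p * ‖v.1‖ ^ 2 := mul_le_mul_of_nonneg_right (hg.trans h2) (by positivity)
    _ ≤ qq B p * ‖v.1‖ ^ 2 + bb B p * ‖nu B p v‖ ^ 2 := by
        have := bb_pos B hp
        have : 0 ≤ bb B p * ‖nu B p v‖ ^ 2 := by positivity
        linarith

theorem dEx_le (t : ℕ) {p : ℂ × ℂ} (hp : p ∈ dom B) (v : ℂ × ℂ)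
    (hg : ui p.1 ^ (2 * t + 4) ≤ B.g0 p.1) :
    |dEx B t p v| ≤ (2 * t + 4 : ℝ) * Real.sqrt (gm B p v v) := by
  have h1 := log_part B hp v
  have h2 := pow_part B t hp v hg
  unfold dEx
  simp only [add_apply, smul_apply,
    ContinuousLinearMap.comp_apply, Complex.reCLM_apply, smul_eq_mul]
  refine (abs_add_le _ _).trans ?_
  linarith

/-- paths between any two points -/
theorem paths_nonempty : ∀ p ∈ dom B, ∀ q ∈ dom B, (pathsIn (dom B) p q).Nonempty := by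
  intro p hp q hq
  obtain ⟨c, h1, h2, h3, h4⟩ := KdJ.S13315.exists_path_dom B.sk.continuousOn
    (fun z hz => B.kpos z hz) hp hq
  exact ⟨c, h1, h2, h3, h4⟩

theorem Ex_lip (t : ℕ) (hg : ∀ z : ℂ, ‖z‖ < 1 → ui z ^ (2 * t + 4) ≤ B.g0 z) :
    ∀ p ∈ dom B, ∀ q ∈ dom B, ∀ c ∈ pathsIn (dom B) p q, ∀ x ∈ Icc (0 : ℝ) 1,
      Ex B t (c x) ≤ Ex B t p + (2 * t + 4 : ℝ) * pathLength (gm B) c := by
  intro p _ q _ c hc x hx
  obtain ⟨h1, h2, -, h4⟩ := hc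
  have hs := KdJ2.S14273.continuousOn_speed (U := dom B) (g := gm B)
    (fun v w => (cd_gm B v w).continuousOn) h1 h4
  have h := KdJ.S13317.lip_along (U := dom B) (Ψ := Ex B t) (Ψ' := dEx B t) (C := (2 * t + 4 : ℝ))
    (fun p hp => hasFDerivAt_Ex B t hp) h1 h4 hs (fun _ _ => Real.sqrt_nonneg _) (by positivity)
    (fun y hy => dEx_le B t (h4 y hy) _ (hg _ (h4 y hy).1)) x hx
  rw [h2] at h
  have := (le_abs_self _).trans h
  unfold pathLength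
  linarith

theorem compact_sub (t : ℕ) (a : ℝ) : IsCompact {p ∈ dom B | Ex B t p ≤ a} :=
  KdJ2.S14280.isCompact_sublevel B.sk.continuousOn (fun z hz => B.kpos z hz)
    (s := t + 1) (by omega) a

theorem isComplete (t : ℕ) (hg : ∀ z : ℂ, ‖z‖ < 1 → ui z ^ (2 * t + 4) ≤ B.g0 z) :
    IsCompleteFor (dom B) (gm B) :=
  KdP.complete_of_exhaustion (isOpen_dom B) (isKahler B).riemannian (paths_nonempty B)
    (by positivity : (0 : ℝ) ≤ 2 * t + 4) (Ex_lip B t hg) (compact_sub B t)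

theorem nonpos {M : ℝ} {T : ℂ → ℝ} (hG : Good B M T) : HasNonposSecCurv (dom B) (gm B) := by
  intro p hp X Y h
  refine (secCurv_le B hG hp h).trans ?_
  have hg0 := B.g0pos p.1 hp.1
  unfold kap
  have : 0 ≤ 1 / (1 - ‖p.1‖ ^ 2) ^ 2 / (8 * B.g0 p.1) := by positivity
  linarith

theorem curvDecay {M : ℝ} {T : ℂ → ℝ} (hG : Good B M T) (t : ℕ) {Λ : ℝ} (hΛ : 1 ≤ Λ)
    (hg : ∀ z : ℂ, ‖z‖ < 1 → B.g0 z = Λ * ui z ^ (2 * t + 4)) :
    HasCurvDecay (dom B) (gm B) (0, 0) := by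
  have hp0 : ((0 : ℂ), (0 : ℂ)) ∈ dom B := by
    constructor <;> simp
  have hg' : ∀ z : ℂ, ‖z‖ < 1 → ui z ^ (2 * t + 4) ≤ B.g0 z := by
    intro z hz
    rw [hg z hz]
    have := pow_pos (ui_pos hz) (2 * t + 4)
    nlinarith
  set C : ℝ := 2 * t + 4 with hC
  have hC0 : 0 ≤ C := by positivity
  set E0 : ℝ := Ex B t (0, 0) with hE0
  have hE0' : 0 ≤ E0 := by
    rw [hE0]
    unfold Ex
    have h1 := Real.log_nonneg (one_le_rho B hp0)
    have h2 : 0 ≤ ui (0 : ℂ) ^ (t + 1) := pow_nonneg (ui_pos (by simp)).le _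
    exact add_nonneg h2 h1
  refine ⟨1 / (8 * Λ * (E0 + C) ^ 2), by positivity, {p ∈ dom B | Ex B t p ≤ E0 + C},
    compact_sub B t _, fun p hp => hp.1, ⟨hp0, by rw [← hE0]; linarith⟩, ?_⟩
  intro p hp hpK X Y hXY
  have h1 : E0 + C < Ex B t p := by
    by_contra hcon
    exact hpK ⟨hp, not_lt.mp hcon⟩
  have h2 := KdP.le_riemDist (paths_nonempty B) hC0 (Ex_lip B t hg') hp0 hp
  rw [← hE0] at h2
  set r := riemDist (dom B) (gm B) (0, 0) p with hr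
  have hCpos : 0 < C := by positivity
  have hr1 : 1 ≤ r := by
    by_contra hcon
    rw [not_le] at hcon
    nlinarith
  refine (secCurv_le B hG hp hXY).trans ?_
  have hu := ui_pos hp.1
  have hkap : kap B p.1 = 1 / (8 * Λ * (ui p.1 ^ (t + 1)) ^ 2) := by
    unfold kap
    rw [hg p.1 hp.1, KdL.ui_sq]
    have e : ui p.1 ^ (2 * t + 4) = (ui p.1 ^ (t + 1)) ^ 2 * ui p.1 ^ 2 := by ring
    rw [e]
    field_simp
  have hup : ui p.1 ^ (t + 1) ≤ (E0 + C) * r := by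
    have h3 : ui p.1 ^ (t + 1) ≤ Ex B t p := by
      unfold Ex
      have := Real.log_nonneg (one_le_rho B hp)
      linarith
    nlinarith
  rw [hkap, neg_div, neg_le_neg_iff, div_div]
  apply one_div_le_one_div_of_le
  · positivity
  · have h4 : (ui p.1 ^ (t + 1)) ^ 2 ≤ ((E0 + C) * r) ^ 2 :=
      pow_le_pow_left₀ (by positivity) hup 2
    have : 8 * Λ * (E0 + C) ^ 2 * r ^ 2 = 8 * Λ * ((E0 + C) * r) ^ 2 := by ring
    rw [this]
    exact mul_le_mul_of_nonneg_left h4 (by positivity)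

theorem simplyConnected : SimplyConnectedSpace (dom B) :=
  KdJ.S13314.simplyConnected_dom B.sk.continuousOn (fun z hz => B.kpos z hz)

end Pool.Agent.Helper269.KdM
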