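import Mathlib
set_option autoImplicit false

namespace Pool.Agent.Helper269.KdV

/-- `n_j = 2^(10^j)` -/
def nn (j : ℕ) : ℕ := 2 ^ (10 ^ j)

/-- `y_j(z) = n_j^8 z^{n_j}` -/
noncomputable def yy (j : ℕ) (z : ℂ) : ℂ := (nn j : ℂ) ^ 8 * z ^ nn j

/-- partial products of `∏ (1 + d_j - y_j(z))` -/
noncomputable def pp (d : ℕ → ℝ) (m : ℕ) (z : ℂ) : ℂ :=
  ∏ j ∈ Finset.range m, (1 + (d j : ℂ) - yy j z)

namespace S13447


open Finset Filter Topology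




theorem nn_succ' (j : ℕ) : nn (j + 1) = nn j ^ 10 := by
  unfold nn
  rw [← pow_mul, pow_succ]

theorem nn_ge' (j : ℕ) : 2 ≤ nn j := by
  unfold nn
  calc 2 = 2 ^ 1 := by norm_num
    _ ≤ 2 ^ (10 ^ j) := Nat.pow_le_pow_right (by norm_num) (Nat.one_le_pow _ _ (by norm_num))

theorem nn_inj' : Function.Injective nn := by
  intro a b h
  unfold nn at h
  have h1 := Nat.pow_right_injective (le_refl 2) h
  exact Nat.pow_right_injective (by norm_num : 2 ≤ 10) h1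

theorem prod_nn_le (m : ℕ) : ∏ j ∈ range m, nn j ^ 9 ≤ nn m := by
  induction m with
  | zero => simp [nn]
  | succ m ih =>
    rw [prod_range_succ, nn_succ']
    calc (∏ j ∈ range m, nn j ^ 9) * nn m ^ 9 ≤ nn m * nn m ^ 9 := Nat.mul_le_mul_right _ ih
      _ = nn m ^ 10 := by ring

theorem factor_le {d : ℕ → ℝ} (hd0 : ∀ j, 0 ≤ d j) (hd : ∀ j, d j ≤ 1 / (nn j : ℝ) ^ 4)
    (j : ℕ) {z : ℂ} (hz : ‖z‖ ≤ 1) : ‖1 + (d j : ℂ) - yy j z‖ ≤ (nn j : ℝ) ^ 9 := by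
  have h2 : (2 : ℝ) ≤ nn j := by exact_mod_cast nn_ge' j
  have h8 : (256 : ℝ) ≤ (nn j : ℝ) ^ 8 := by
    calc (256 : ℝ) = 2 ^ 8 := by norm_num
      _ ≤ _ := pow_le_pow_left₀ (by norm_num) h2 8
  have h4 : (1 : ℝ) ≤ (nn j : ℝ) ^ 4 := one_le_pow₀ (by linarith)
  have hd1 : d j ≤ 1 := (hd j).trans (by rw [div_le_one (by positivity)]; exact h4)
  have hy : ‖yy j z‖ ≤ (nn j : ℝ) ^ 8 := by
    unfold yy
    rw [norm_mul, norm_pow, norm_pow, Complex.norm_natCast]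
    have : ‖z‖ ^ nn j ≤ 1 := pow_le_one₀ (norm_nonneg _) hz
    calc (nn j : ℝ) ^ 8 * ‖z‖ ^ nn j ≤ (nn j : ℝ) ^ 8 * 1 :=
          mul_le_mul_of_nonneg_left this (by positivity)
      _ = _ := mul_one _
  have hdn : ‖(d j : ℂ)‖ = d j := by
    rw [Complex.norm_real, Real.norm_of_nonneg (hd0 j)]
  calc ‖1 + (d j : ℂ) - yy j z‖ ≤ ‖1 + (d j : ℂ)‖ + ‖yy j z‖ := norm_sub_le _ _
    _ ≤ (‖(1 : ℂ)‖ + ‖(d j : ℂ)‖) + ‖yy j z‖ := by gcongr; exact norm_add_le _ _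
    _ ≤ (1 + 1) + (nn j : ℝ) ^ 8 := by rw [norm_one, hdn]; gcongr
    _ ≤ (nn j : ℝ) ^ 8 * 2 := by linarith
    _ ≤ (nn j : ℝ) ^ 8 * nn j := by gcongr
    _ = (nn j : ℝ) ^ 9 := by ring

theorem norm_pp_le {d : ℕ → ℝ} (hd0 : ∀ j, 0 ≤ d j) (hd : ∀ j, d j ≤ 1 / (nn j : ℝ) ^ 4)
    (m : ℕ) {z : ℂ} (hz : ‖z‖ ≤ 1) : ‖pp d m z‖ ≤ (nn m : ℝ) := by
  unfold pp
  rw [norm_prod]
  calc ∏ j ∈ range m, ‖1 + (d j : ℂ) - yy j z‖ ≤ ∏ j ∈ range m, (nn j : ℝ) ^ 9 :=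
        prod_le_prod (fun _ _ => norm_nonneg _) fun j _ => factor_le hd0 hd j hz
    _ = ((∏ j ∈ range m, nn j ^ 9 : ℕ) : ℝ) := by push_cast; rfl
    _ ≤ nn m := by exact_mod_cast prod_nn_le m

theorem pp_diff' (d : ℕ → ℝ) (m : ℕ) (z : ℂ) :
    pp d (m + 1) z - pp d m z = pp d m z * ((d m : ℂ) - yy m z) := by
  unfold pp
  rw [prod_range_succ]
  ring

theorem pp_differentiable' (d : ℕ → ℝ) (m : ℕ) : Differentiable ℂ (pp d m) := by
  unfold pp yy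
  fun_prop

theorem pp_diff_le' {d : ℕ → ℝ} (hd0 : ∀ j, 0 ≤ d j) (hd : ∀ j, d j ≤ 1 / (nn j : ℝ) ^ 4)
    (m : ℕ) {z : ℂ} {r : ℝ} (hr : r < 1) (hz : ‖z‖ ≤ r) :
    ‖pp d (m + 1) z - pp d m z‖ ≤ 1 / (nn m : ℝ) ^ 3 + (nn m : ℝ) ^ 9 * r ^ nn m := by
  have hn : (0 : ℝ) < nn m := by
    have := nn_ge' m
    exact_mod_cast (by omega : 0 < nn m)
  rw [pp_diff', norm_mul]
  have h1 := norm_pp_le hd0 hd m (hz.trans hr.le)
  have h2 : ‖(d m : ℂ) - yy m z‖ ≤ 1 / (nn m : ℝ) ^ 4 + (nn m : ℝ) ^ 8 * r ^ nn m := by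
    refine (norm_sub_le _ _).trans ?_
    apply add_le_add
    · rw [Complex.norm_real, Real.norm_of_nonneg (hd0 m)]
      exact hd m
    · unfold yy
      rw [norm_mul, norm_pow, norm_pow, Complex.norm_natCast]
      gcongr
  calc ‖pp d m z‖ * ‖(d m : ℂ) - yy m z‖
      ≤ nn m * (1 / (nn m : ℝ) ^ 4 + (nn m : ℝ) ^ 8 * r ^ nn m) := by gcongr
    _ = 1 / (nn m : ℝ) ^ 3 + (nn m : ℝ) ^ 9 * r ^ nn m := by
        field_simp

theorem summ' {r : ℝ} (h0 : 0 ≤ r) (hr : r < 1) :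
    Summable fun m : ℕ => 1 / (nn m : ℝ) ^ 3 + (nn m : ℝ) ^ 9 * r ^ nn m := by
  have h1 : Summable fun n : ℕ => 1 / (n : ℝ) ^ 3 := Real.summable_one_div_nat_pow.mpr (by norm_num)
  have h2 : Summable fun n : ℕ => (n : ℝ) ^ 9 * r ^ n :=
    summable_pow_mul_geometric_of_norm_lt_one 9 (by rwa [Real.norm_of_nonneg h0])
  exact (h1.comp_injective nn_inj').add (h2.comp_injective nn_inj')

/-- the infinite product converges to a holomorphic function on the unit disc. -/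
theorem exists_limit {d : ℕ → ℝ} (hd0 : ∀ j, 0 ≤ d j) (hd : ∀ j, d j ≤ 1 / (nn j : ℝ) ^ 4) :
    ∃ F : ℂ → ℂ, DifferentiableOn ℂ F (Metric.ball 0 1) ∧
      ∀ z : ℂ, ‖z‖ < 1 → Tendsto (fun m => pp d m z) atTop (𝓝 (F z)) := by
  refine ⟨fun z => 1 + ∑' m, (pp d (m + 1) z - pp d m z), ?_, ?_⟩
  · intro z hz
    rw [mem_ball_zero_iff] at hz
    obtain ⟨r, hzr, hr1⟩ := exists_between hz
    have hr0 : 0 ≤ r := (norm_nonneg z).trans hzr.le
    have hD : DifferentiableOn ℂ (fun w => ∑' m, (pp d (m + 1) w - pp d m w)) (Metric.ball 0 r) := by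
      apply Complex.differentiableOn_tsum_of_summable_norm (summ' hr0 hr1)
      · intro i
        exact ((pp_differentiable' d (i + 1)).sub (pp_differentiable' d i)).differentiableOn
      · exact Metric.isOpen_ball
      · intro i w hw
        rw [mem_ball_zero_iff] at hw
        exact pp_diff_le' hd0 hd i hr1 hw.le
    have hDz : DifferentiableAt ℂ (fun w => ∑' m, (pp d (m + 1) w - pp d m w)) z :=
      hD.differentiableAt (Metric.isOpen_ball.mem_nhds (mem_ball_zero_iff.mpr hzr))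
    exact (hDz.const_add 1).differentiableWithinAt
  · intro z hz
    have hs : Summable fun m => pp d (m + 1) z - pp d m z :=
      Summable.of_norm_bounded (summ' (norm_nonneg z) hz) fun m => pp_diff_le' hd0 hd m hz le_rfl
    have ht := hs.hasSum.tendsto_sum_nat
    have h0 : pp d 0 z = 1 := by simp [pp]
    have he : (fun m => pp d m z) = fun m => 1 + ∑ i ∈ range m, (pp d (i + 1) z - pp d i z) := by
      funext m
      rw [sum_range_sub (fun i => pp d i z), h0]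
      ring
    rw [he]
    exact ht.const_add 1

end S13447

namespace S13448


open Finset Filter Topology




theorem pow_two_big {a : ℕ} (ha : 1 ≤ a) : 512 * a ≤ 2 ^ (9 * a) := by
  induction a, ha using Nat.le_induction with
  | base => norm_num
  | succ n hn ih =>
    have h1 : 2 ^ (9 * (n + 1)) = 2 ^ (9 * n) * 512 := by
      rw [Nat.mul_add, pow_add]
      norm_num
    rw [h1]
    nlinarith

theorem yy_small_q {a k : ℕ} (h : a ≤ k) : ∃ q : ℕ, nn (k + 1) = nn a * q ∧ 512 * 10 ^ k ≤ q := by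
  refine ⟨2 ^ (10 ^ (k + 1) - 10 ^ a), ?_, ?_⟩
  · unfold nn
    rw [← pow_add]
    congr 1
    have : 10 ^ a ≤ 10 ^ (k + 1) := Nat.pow_le_pow_right (by norm_num) (by omega)
    omega
  · have h1 : 10 ^ a ≤ 10 ^ k := Nat.pow_le_pow_right (by norm_num) h
    have h2 : 10 ^ (k + 1) = 10 * 10 ^ k := by ring
    have h3 : 9 * 10 ^ k ≤ 10 ^ (k + 1) - 10 ^ a := by omega
    have h4 : 1 ≤ 10 ^ k := Nat.one_le_pow _ _ (by norm_num)
    exact le_trans (pow_two_big h4) (Nat.pow_le_pow_right (by norm_num) h3)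

theorem yy_small_norm (j : ℕ) (z : ℂ) : ‖yy j z‖ = (nn j : ℝ) ^ 8 * ‖z‖ ^ nn j := by
  unfold yy
  rw [norm_mul, norm_pow, norm_pow, Complex.norm_natCast]

theorem yy_small_256 (j : ℕ) : (256 : ℝ) ≤ (nn j : ℝ) ^ 8 := by
  have h1 : 2 ≤ nn j := by
    unfold nn
    calc 2 = 2 ^ 1 := (pow_one 2).symm
      _ ≤ 2 ^ (10 ^ j) := Nat.pow_le_pow_right (by norm_num) (Nat.one_le_pow _ _ (by norm_num))
  have h2 : (2:ℝ) ≤ nn j := by exact_mod_cast h1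
  calc (256:ℝ) = 2 ^ 8 := by norm_num
    _ ≤ (nn j : ℝ) ^ 8 := pow_le_pow_left₀ (by norm_num) h2 8

theorem yy_small_pow (j m : ℕ) : (nn j : ℝ) ^ m = 2 ^ (m * 10 ^ j) := by
  unfold nn
  push_cast
  rw [← pow_mul, mul_comm]

/-- after the first small `y_J`, all later ones are tiny -/
theorem yy_small {J i : ℕ} (hi : J < i) {z : ℂ} (hJ : ‖yy J z‖ ≤ 3) :
    ‖yy i z‖ ≤ 1 / (nn i : ℝ) ^ 4 := by
  obtain ⟨k, rfl⟩ : ∃ k, i = k + 1 := ⟨i - 1, by omega⟩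
  obtain ⟨q, hq1, hq2⟩ := yy_small_q (show J ≤ k by omega)
  rw [yy_small_norm] at hJ
  have hx0 : 0 ≤ ‖z‖ ^ nn J := pow_nonneg (norm_nonneg _) _
  have h256 := yy_small_256 J
  have hx : ‖z‖ ^ nn J ≤ 1 / 64 := by
    by_contra hcon
    rw [not_le] at hcon
    nlinarith
  have h1 : ‖z‖ ^ nn (k + 1) ≤ (1 / 64) ^ q := by
    rw [hq1, pow_mul]
    exact pow_le_pow_left₀ hx0 hx q
  have h2 : ((1:ℝ) / 64) ^ q = 1 / 2 ^ (6 * q) := by
    rw [pow_mul, div_pow, one_pow]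
    norm_num
  have hexp : 12 * 10 ^ (k + 1) ≤ 6 * q := by
    have : 10 ^ (k + 1) = 10 * 10 ^ k := by ring
    omega
  have h3 : (1:ℝ) / 2 ^ (6 * q) ≤ 1 / 2 ^ (12 * 10 ^ (k + 1)) := by
    apply one_div_le_one_div_of_le (by positivity)
    exact pow_le_pow_right₀ (by norm_num) hexp
  have h4 : ‖z‖ ^ nn (k + 1) ≤ 1 / (nn (k + 1) : ℝ) ^ 12 := by
    rw [yy_small_pow]
    rw [h2] at h1
    exact le_trans h1 h3
  have hpos : 0 < (nn (k + 1) : ℝ) := by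
    unfold nn
    positivity
  rw [yy_small_norm]
  calc (nn (k + 1) : ℝ) ^ 8 * ‖z‖ ^ nn (k + 1) ≤ (nn (k + 1) : ℝ) ^ 8 * (1 / (nn (k + 1) : ℝ) ^ 12) :=
        mul_le_mul_of_nonneg_left h4 (by positivity)
    _ = 1 / (nn (k + 1) : ℝ) ^ 4 := by
        field_simp

/-- below level `j`, the `y_i` are large when `‖z‖^{n_j} ≥ n_j^{-8}` -/
theorem yy_large {i j : ℕ} (hij : i < j) {z : ℂ} (hz : 1 / (nn j : ℝ) ^ 8 ≤ ‖z‖ ^ nn j) :
    3 < ‖yy i z‖ := by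
  obtain ⟨k, rfl⟩ : ∃ k, j = k + 1 := ⟨j - 1, by omega⟩
  obtain ⟨q, hq1, hq2⟩ := yy_small_q (show i ≤ k by omega)
  have hx0 : 0 ≤ ‖z‖ ^ nn i := pow_nonneg (norm_nonneg _) _
  have h256 := yy_small_256 i
  have hhalf : 1 / 2 ≤ ‖z‖ ^ nn i := by
    by_contra hcon
    rw [not_le] at hcon
    have h1 : ‖z‖ ^ nn (k + 1) ≤ (1 / 2) ^ q := by
      rw [hq1, pow_mul]
      exact pow_le_pow_left₀ hx0 hcon.le q
    rw [yy_small_pow] at hz
    have hexp : 8 * 10 ^ (k + 1) < q := by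
      have : 10 ^ (k + 1) = 10 * 10 ^ k := by ring
      have h4 : 1 ≤ 10 ^ k := Nat.one_le_pow _ _ (by norm_num)
      omega
    have h2 : ((1:ℝ) / 2) ^ q < (1 / 2) ^ (8 * 10 ^ (k + 1)) :=
      pow_lt_pow_right_of_lt_one₀ (by norm_num) (by norm_num) hexp
    have h3 : ((1:ℝ) / 2) ^ (8 * 10 ^ (k + 1)) = 1 / 2 ^ (8 * 10 ^ (k + 1)) := by
      rw [div_pow, one_pow]
    rw [h3] at h2
    linarith
  rw [yy_small_norm]
  nlinarith

end S13448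

namespace S13449


open Finset Filter Topology




lemma nn_aux (i : ℕ) : 2 / (nn i : ℝ) ^ 4 ≤ 1 / 8 * (1 / 2) ^ i := by
  have h1 : i + 4 ≤ 4 * 10 ^ i := by
    have : i < 10 ^ i := Nat.lt_pow_self (by norm_num)
    omega
  have h2 : (2 : ℝ) ^ (i + 4) ≤ (nn i : ℝ) ^ 4 := by
    unfold nn
    push_cast
    rw [← pow_mul, mul_comm (10 ^ i) 4]
    exact pow_le_pow_right₀ (by norm_num) h1
  calc 2 / (nn i : ℝ) ^ 4 ≤ 2 / (2 : ℝ) ^ (i + 4) := by gcongr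
    _ = 1 / 8 * (1 / 2) ^ i := by
      rw [pow_add, one_div_pow]; field_simp; norm_num

lemma nn_pos (i : ℕ) : (0 : ℝ) < nn i := by
  unfold nn; positivity

lemma d_le {d : ℕ → ℝ} (hd : ∀ j, d j ≤ 1 / (nn j : ℝ) ^ 4) (i : ℕ) : d i ≤ 1 / 16 := by
  have h1 := nn_aux i
  have h2 := hd i
  have h3 : (1 / 2 : ℝ) ^ i ≤ 1 := pow_le_one₀ (by norm_num) (by norm_num)
  have h4 : 2 / (nn i : ℝ) ^ 4 = 2 * (1 / (nn i : ℝ) ^ 4) := by ring
  rw [h4] at h1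
  linarith

lemma tail_sum (a b : ℕ) : ∑ i ∈ Ico a b, (1 / 8 : ℝ) * (1 / 2) ^ i ≤ 1 / 4 := by
  have h1 : ∑ i ∈ Ico a b, (1 / 8 : ℝ) * (1 / 2) ^ i ≤ ∑ i ∈ range b, (1 / 8 : ℝ) * (1 / 2) ^ i := by
    apply Finset.sum_le_sum_of_subset_of_nonneg
    · intro x hx
      rw [Finset.mem_Ico] at hx
      exact Finset.mem_range.2 hx.2
    · intro x _ _
      positivity
  refine h1.trans ?_
  rw [← Finset.mul_sum]
  have h2 : ∑ i ∈ range b, (1 / 2 : ℝ) ^ i ≤ 2 := by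
    have := sum_geometric_two_le b
    simpa using this
  linarith

lemma prod_low (s : Finset ℕ) (a e : ℕ → ℝ) (he0 : ∀ i ∈ s, 0 ≤ e i) (he1 : ∀ i ∈ s, e i ≤ 1)
    (ha : ∀ i ∈ s, 1 - e i ≤ a i) (ha0 : ∀ i ∈ s, 0 ≤ a i) : 1 - ∑ i ∈ s, e i ≤ ∏ i ∈ s, a i := by
  induction s using Finset.induction_on with
  | empty => simp
  | insert j s hj ih =>
    rw [Finset.sum_insert hj, Finset.prod_insert hj]
    have ih' := ih (fun i hi => he0 i (Finset.mem_insert_of_mem hi)) (fun i hi => he1 i (Finset.mem_insert_of_mem hi))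
      (fun i hi => ha i (Finset.mem_insert_of_mem hi)) (fun i hi => ha0 i (Finset.mem_insert_of_mem hi))
    have hp : 0 ≤ ∏ i ∈ s, a i := Finset.prod_nonneg fun i hi => ha0 i (Finset.mem_insert_of_mem hi)
    have hs : 0 ≤ ∑ i ∈ s, e i := Finset.sum_nonneg fun i hi => he0 i (Finset.mem_insert_of_mem hi)
    have h1 := ha j (Finset.mem_insert_self _ _)
    have h2 := he0 j (Finset.mem_insert_self _ _)
    have h3 := he1 j (Finset.mem_insert_self _ _)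
    have h4 : (1 - e j) * ∏ i ∈ s, a i ≤ a j * ∏ i ∈ s, a i := mul_le_mul_of_nonneg_right h1 hp
    have h5 : (1 - e j) * (1 - ∑ i ∈ s, e i) ≤ (1 - e j) * ∏ i ∈ s, a i :=
      mul_le_mul_of_nonneg_left ih' (by linarith)
    nlinarith [mul_nonneg h2 hs]

lemma prod_up (s : Finset ℕ) (a e : ℕ → ℝ) (ha : ∀ i ∈ s, a i ≤ 1 + e i) (ha0 : ∀ i ∈ s, 0 ≤ a i) :
    ∏ i ∈ s, a i ≤ Real.exp (∑ i ∈ s, e i) := by
  rw [Real.exp_sum]
  refine Finset.prod_le_prod ha0 fun i hi => (ha i hi).trans ?_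
  rw [add_comm]
  exact Real.add_one_le_exp _

lemma pp_split (d : ℕ → ℝ) (z : ℂ) {J m : ℕ} (hm : J < m) :
    ‖pp d m z‖ = (∏ i ∈ range J, ‖1 + (d i : ℂ) - yy i z‖) * ‖1 + (d J : ℂ) - yy J z‖ *
      ∏ i ∈ Ico (J + 1) m, ‖1 + (d i : ℂ) - yy i z‖ := by
  unfold pp
  rw [← Finset.prod_range_mul_prod_Ico _ (by omega : J + 1 ≤ m), norm_mul, norm_prod, norm_prod,
    Finset.prod_range_succ]

lemma fac_close {d : ℕ → ℝ} (hd0 : ∀ j, 0 ≤ d j) (hd : ∀ j, d j ≤ 1 / (nn j : ℝ) ^ 4)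
    {z : ℂ} {i : ℕ} (h : ‖yy i z‖ ≤ 1 / (nn i : ℝ) ^ 4) :
    ‖(d i : ℂ) - yy i z‖ ≤ 1 / 8 * (1 / 2) ^ i := by
  have h1 := nn_aux i
  have h4 : 2 / (nn i : ℝ) ^ 4 = 1 / (nn i : ℝ) ^ 4 + 1 / (nn i : ℝ) ^ 4 := by ring
  have h2 : ‖(d i : ℂ) - yy i z‖ ≤ ‖(d i : ℂ)‖ + ‖yy i z‖ := norm_sub_le _ _
  have h3 : ‖(d i : ℂ)‖ = d i := by
    rw [Complex.norm_real, Real.norm_of_nonneg (hd0 i)]
  have := hd i
  linarith

lemma tail_low {d : ℕ → ℝ} (hd0 : ∀ j, 0 ≤ d j) (hd : ∀ j, d j ≤ 1 / (nn j : ℝ) ^ 4)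
    {z : ℂ} {J m : ℕ} (h2 : ∀ i, J < i → ‖yy i z‖ ≤ 1 / (nn i : ℝ) ^ 4) :
    1 / 2 ≤ ∏ i ∈ Ico (J + 1) m, ‖1 + (d i : ℂ) - yy i z‖ := by
  have h := prod_low (Ico (J + 1) m) (fun i => ‖1 + (d i : ℂ) - yy i z‖) (fun i => 1 / 8 * (1 / 2) ^ i)
    (fun i _ => by positivity) (fun i _ => by
      have h3 : (1 / 2 : ℝ) ^ i ≤ 1 := pow_le_one₀ (by norm_num) (by norm_num)
      linarith) (fun i hi => by
      have h3 := fac_close hd0 hd (h2 i (by rw [Finset.mem_Ico] at hi; omega))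
      have h4 : (1 : ℂ) = (1 + (d i : ℂ) - yy i z) - ((d i : ℂ) - yy i z) := by ring
      have h5 : ‖(1 : ℂ)‖ ≤ ‖1 + (d i : ℂ) - yy i z‖ + ‖(d i : ℂ) - yy i z‖ := by
        conv_lhs => rw [h4]
        exact norm_sub_le _ _
      rw [norm_one] at h5
      show 1 - 1 / 8 * (1 / 2) ^ i ≤ ‖1 + (d i : ℂ) - yy i z‖
      linarith) (fun i _ => norm_nonneg _)
  have h1 := tail_sum (J + 1) m
  linarith

lemma tail_up {d : ℕ → ℝ} (hd0 : ∀ j, 0 ≤ d j) (hd : ∀ j, d j ≤ 1 / (nn j : ℝ) ^ 4)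
    {z : ℂ} {J m : ℕ} (h2 : ∀ i, J < i → ‖yy i z‖ ≤ 1 / (nn i : ℝ) ^ 4) :
    ∏ i ∈ Ico (J + 1) m, ‖1 + (d i : ℂ) - yy i z‖ ≤ 2 := by
  have h := prod_up (Ico (J + 1) m) (fun i => ‖1 + (d i : ℂ) - yy i z‖) (fun i => 1 / 8 * (1 / 2) ^ i)
    (fun i hi => by
      have h3 := fac_close hd0 hd (h2 i (by rw [Finset.mem_Ico] at hi; omega))
      have h4 : (1 + (d i : ℂ) - yy i z) = 1 + ((d i : ℂ) - yy i z) := by ring
      have h5 : ‖1 + (d i : ℂ) - yy i z‖ ≤ ‖(1 : ℂ)‖ + ‖(d i : ℂ) - yy i z‖ := by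
        rw [h4]
        exact norm_add_le _ _
      rw [norm_one] at h5
      show ‖1 + (d i : ℂ) - yy i z‖ ≤ 1 + 1 / 8 * (1 / 2) ^ i
      linarith) (fun i _ => norm_nonneg _)
  refine h.trans ?_
  have h1 := tail_sum (J + 1) m
  have h3 : Real.exp (∑ i ∈ Ico (J + 1) m, (1 / 8 : ℝ) * (1 / 2) ^ i) ≤ Real.exp (1 / 4) :=
    Real.exp_le_exp.2 h1
  refine h3.trans ?_
  have h4 : Real.exp (1 / 4) ≤ Real.exp (Real.log 2) := by
    apply Real.exp_le_exp.2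
    have := Real.log_two_gt_d9
    linarith
  rwa [Real.exp_log (by norm_num)] at h4

/-- lower bound of the product: `J` is the first index with `‖y_J‖ ≤ 3`. -/
theorem pp_lower {d : ℕ → ℝ} (hd0 : ∀ j, 0 ≤ d j) (hd : ∀ j, d j ≤ 1 / (nn j : ℝ) ^ 4)
    {z : ℂ} {J m : ℕ} (hm : J < m) (h1 : ∀ i < J, 3 < ‖yy i z‖)
    (h2 : ∀ i, J < i → ‖yy i z‖ ≤ 1 / (nn i : ℝ) ^ 4) :
    1 / 2 * ‖1 + (d J : ℂ) - yy J z‖ ≤ ‖pp d m z‖ := by
  rw [pp_split d z hm]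
  have hA : 1 ≤ ∏ i ∈ range J, ‖1 + (d i : ℂ) - yy i z‖ := by
    have : ∏ i ∈ range J, (1 : ℝ) ≤ ∏ i ∈ range J, ‖1 + (d i : ℂ) - yy i z‖ := by
      refine Finset.prod_le_prod (fun i _ => by norm_num) fun i hi => ?_
      have h3 := h1 i (Finset.mem_range.1 hi)
      have h4 := d_le hd i
      have h5 : yy i z = (1 + (d i : ℂ)) - (1 + (d i : ℂ) - yy i z) := by ring
      have h6 : ‖yy i z‖ ≤ ‖(1 + (d i : ℂ))‖ + ‖1 + (d i : ℂ) - yy i z‖ := by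
        conv_lhs => rw [h5]
        exact norm_sub_le _ _
      have h7 : ‖(1 + (d i : ℂ))‖ ≤ 1 + d i := by
        refine (norm_add_le _ _).trans ?_
        rw [norm_one, Complex.norm_real, Real.norm_of_nonneg (hd0 i)]
      linarith
    simpa using this
  have hB := tail_low (m := m) hd0 hd h2
  have hn := norm_nonneg (1 + (d J : ℂ) - yy J z)
  calc 1 / 2 * ‖1 + (d J : ℂ) - yy J z‖ = (1 * ‖1 + (d J : ℂ) - yy J z‖) * (1 / 2) := by ring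
    _ ≤ _ := by gcongr

/-- upper bound of the product. -/
theorem pp_upper {d : ℕ → ℝ} (hd0 : ∀ j, 0 ≤ d j) (hd : ∀ j, d j ≤ 1 / (nn j : ℝ) ^ 4)
    {z : ℂ} {J m : ℕ} (hm : J < m)
    (h2 : ∀ i, J < i → ‖yy i z‖ ≤ 1 / (nn i : ℝ) ^ 4) :
    ‖pp d m z‖ ≤ 2 * ‖1 + (d J : ℂ) - yy J z‖ * ∏ i ∈ range J, ‖1 + (d i : ℂ) - yy i z‖ := by
  rw [pp_split d z hm]
  have hB := tail_up (m := m) hd0 hd h2
  have hn := norm_nonneg (1 + (d J : ℂ) - yy J z)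
  have hp : 0 ≤ ∏ i ∈ range J, ‖1 + (d i : ℂ) - yy i z‖ := Finset.prod_nonneg fun i _ => norm_nonneg _
  calc _ ≤ (∏ i ∈ range J, ‖1 + (d i : ℂ) - yy i z‖) * ‖1 + (d J : ℂ) - yy J z‖ * 2 := by gcongr
    _ = _ := by ring

end S13449

namespace S13450


open Finset Filter Topology




theorem exists_first_norm (i : ℕ) (z : ℂ) : ‖yy i z‖ = (nn i : ℝ) ^ 8 * ‖z‖ ^ nn i := by
  unfold yy
  rw [norm_mul, norm_pow, norm_pow, Complex.norm_natCast]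

theorem exists_first {z : ℂ} (hz : ‖z‖ < 1) :
    ∃ J : ℕ, (∀ i < J, 3 < ‖yy i z‖) ∧ ‖yy J z‖ ≤ 3 := by
  classical
  have hn : Tendsto nn atTop atTop := by
    refine tendsto_atTop_mono (fun i => ?_) tendsto_id
    have h1 : i < 10 ^ i := Nat.lt_pow_self (by norm_num)
    have h2 : 10 ^ i < 2 ^ (10 ^ i) := Nat.lt_pow_self (by norm_num)
    show i ≤ 2 ^ (10 ^ i)
    omega
  have h1 := (tendsto_pow_const_mul_const_pow_of_lt_one 8 (norm_nonneg z) hz).comp hn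
  have h2 : ∀ᶠ i in atTop, ((nn i : ℝ) ^ 8 * ‖z‖ ^ nn i) < 3 :=
    h1.eventually (gt_mem_nhds (by norm_num : (0:ℝ) < 3))
  obtain ⟨i, hi⟩ := h2.exists
  have hex : ∃ i, ‖yy i z‖ ≤ 3 := ⟨i, by rw [exists_first_norm]; exact hi.le⟩
  refine ⟨Nat.find hex, fun j hj => ?_, Nat.find_spec hex⟩
  have := Nat.find_min hex hj
  exact not_le.1 this

theorem nn_bound {z : ℂ} (hz : ‖z‖ < 1) {J : ℕ} (h1 : ∀ i < J, 3 < ‖yy i z‖) :
    (nn J : ℝ) ≤ 2 ^ 80 / (1 - ‖z‖) ^ 20 := by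
  have hx0 := norm_nonneg z
  set x := ‖z‖ with hx
  have ht : 0 < 1 - x := by linarith
  have ht1 : 1 - x ≤ 1 := by linarith
  cases J with
  | zero =>
    rw [le_div_iff₀ (by positivity)]
    have h2 : (1 - x) ^ 20 ≤ 1 := pow_le_one₀ ht.le ht1
    have h3 : (nn 0 : ℝ) = 2 := by norm_num [nn]
    rw [h3]
    linarith
  | succ k =>
    have h2 := h1 k (Nat.lt_succ_self k)
    rw [exists_first_norm, ← hx] at h2
    set n : ℝ := (nn k : ℝ) with hn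
    have hnpos : 0 < n := by
      rw [hn]
      unfold nn
      positivity
    set t := 1 - x with htdef
    have hxe : x ^ nn k ≤ Real.exp (-(n * t)) := by
      have h3 : x ≤ Real.exp (-t) := by
        have := Real.add_one_le_exp (-t)
        linarith
      calc x ^ nn k ≤ (Real.exp (-t)) ^ nn k := pow_le_pow_left₀ hx0 h3 _
        _ = Real.exp (-(n * t)) := by
            rw [← Real.exp_nat_mul]
            congr 1
            rw [hn]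
            ring
    have h4 : (1 : ℝ) < n ^ 8 * Real.exp (-(n * t)) := by
      calc (1 : ℝ) < 3 := by norm_num
        _ < n ^ 8 * x ^ nn k := h2
        _ ≤ n ^ 8 * Real.exp (-(n * t)) := by gcongr
    have h5 : Real.exp (n * t) < n ^ 8 := by
      rw [Real.exp_neg] at h4
      have h6 := Real.exp_pos (n * t)
      rw [← div_eq_mul_inv, lt_div_iff₀ h6, one_mul] at h4
      exact h4
    have h6 : (n * t / 16) ^ 16 ≤ Real.exp (n * t) := by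
      have h7 : n * t / 16 ≤ Real.exp (n * t / 16) := by
        have := Real.add_one_le_exp (n * t / 16)
        linarith
      calc (n * t / 16) ^ 16 ≤ (Real.exp (n * t / 16)) ^ 16 :=
            pow_le_pow_left₀ (by positivity) h7 _
        _ = Real.exp (n * t) := by
            rw [← Real.exp_nat_mul]
            congr 1
            push_cast
            ring
    have h7 : ((n * t / 16) ^ 2) ^ 8 < n ^ 8 := by
      calc ((n * t / 16) ^ 2) ^ 8 = (n * t / 16) ^ 16 := by ring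
        _ ≤ _ := h6
        _ < _ := h5
    have h8 : (n * t / 16) ^ 2 < n := lt_of_pow_lt_pow_left₀ 8 hnpos.le h7
    have h9 : n * t ^ 2 ≤ 256 := by
      have h10 : n * (n * t ^ 2) < n * 256 := by nlinarith
      exact (lt_of_mul_lt_mul_left h10 hnpos.le).le
    have h10 : (nn (k + 1) : ℝ) = n ^ 10 := by
      rw [hn]
      unfold nn
      rw [pow_succ 10 k, pow_mul]
      push_cast
      ring
    rw [h10, le_div_iff₀ (by positivity)]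
    calc n ^ 10 * t ^ 20 = (n * t ^ 2) ^ 10 := by ring
      _ ≤ 256 ^ 10 := pow_le_pow_left₀ (by positivity) h9 _
      _ = 2 ^ 80 := by norm_num

end S13450

end Pool.Agent.Helper269.KdV
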