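import Mathlib
import Pool.Agent.Helper269.KdV
import Pool.Agent.Helper269.KdJ

set_option autoImplicit false

namespace Pool.Agent.Helper269.KdW

open Pool.Agent.Helper269.KdV
open Pool.Agent.Helper269.KdV.S13447 (prod_nn_le factor_le exists_limit)
open Pool.Agent.Helper269.KdV.S13448 (yy_small yy_large)
open Pool.Agent.Helper269.KdV.S13449 (pp_lower pp_upper)
open Pool.Agent.Helper269.KdV.S13450 (exists_first nn_bound)
open Pool.Agent.Helper269.KdJ.S13313 (avg_coeff)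


open Finset Filter Topology




/-! TARGET -/

theorem kd_nn_pos (j : ℕ) : (1 : ℝ) ≤ (nn j : ℝ) := by
  have : 1 ≤ nn j := Nat.one_le_two_pow
  exact_mod_cast this

theorem kd_nn_pos' (j : ℕ) : (0 : ℝ) < (nn j : ℝ) := lt_of_lt_of_le one_pos (kd_nn_pos j)

theorem kd_d_le {d : ℕ → ℝ} (hd : ∀ j, d j ≤ 1 / (nn j : ℝ) ^ 4) (j : ℕ) : d j ≤ 1 := by
  refine (hd j).trans ?_
  rw [div_le_one (pow_pos (kd_nn_pos' j) 4)]
  exact one_le_pow₀ (kd_nn_pos j)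

theorem kd_upper {d : ℕ → ℝ} (hd0 : ∀ j, 0 ≤ d j) (hd : ∀ j, d j ≤ 1 / (nn j : ℝ) ^ 4)
    {F : ℂ → ℂ} (hF : ∀ z : ℂ, ‖z‖ < 1 → Tendsto (fun m => pp d m z) atTop (𝓝 (F z)))
    {z : ℂ} (hz : ‖z‖ < 1) {J : ℕ} (h2 : ∀ i, J < i → ‖yy i z‖ ≤ 1 / (nn i : ℝ) ^ 4) :
    ‖F z‖ ≤ 2 * ‖1 + (d J : ℂ) - yy J z‖ * ∏ i ∈ range J, ‖1 + (d i : ℂ) - yy i z‖ := by
  refine le_of_tendsto (hF z hz).norm ?_
  filter_upwards [eventually_gt_atTop J] with m hm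
  exact pp_upper hd0 hd hm h2

theorem kd_lower {d : ℕ → ℝ} (hd0 : ∀ j, 0 ≤ d j) (hd : ∀ j, d j ≤ 1 / (nn j : ℝ) ^ 4)
    {F : ℂ → ℂ} (hF : ∀ z : ℂ, ‖z‖ < 1 → Tendsto (fun m => pp d m z) atTop (𝓝 (F z)))
    {z : ℂ} (hz : ‖z‖ < 1) {J : ℕ} (h1 : ∀ i < J, 3 < ‖yy i z‖)
    (h2 : ∀ i, J < i → ‖yy i z‖ ≤ 1 / (nn i : ℝ) ^ 4) :
    1 / 2 * ‖1 + (d J : ℂ) - yy J z‖ ≤ ‖F z‖ := by
  refine ge_of_tendsto (hF z hz).norm ?_
  filter_upwards [eventually_gt_atTop J] with m hm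
  exact pp_lower hd0 hd hm h1 h2

theorem kd_prod {d : ℕ → ℝ} (hd0 : ∀ j, 0 ≤ d j) (hd : ∀ j, d j ≤ 1 / (nn j : ℝ) ^ 4)
    {z : ℂ} (hz : ‖z‖ ≤ 1) (J : ℕ) :
    ∏ i ∈ range J, ‖1 + (d i : ℂ) - yy i z‖ ≤ (nn J : ℝ) := by
  calc ∏ i ∈ range J, ‖1 + (d i : ℂ) - yy i z‖ ≤ ∏ i ∈ range J, (nn i : ℝ) ^ 9 :=
        Finset.prod_le_prod (fun _ _ => norm_nonneg _) (fun i _ => factor_le hd0 hd i hz)
    _ ≤ (nn J : ℝ) := by exact_mod_cast prod_nn_le J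

theorem kd_fac {d : ℕ → ℝ} (hd0 : ∀ j, 0 ≤ d j) (hd : ∀ j, d j ≤ 1 / (nn j : ℝ) ^ 4)
    (J : ℕ) (z : ℂ) : ‖1 + (d J : ℂ) - yy J z‖ ≤ 2 + ‖yy J z‖ := by
  have h1 : ‖1 + (d J : ℂ)‖ ≤ 2 := by
    refine (norm_add_le _ _).trans ?_
    rw [Complex.norm_real, norm_one, Real.norm_eq_abs, abs_of_nonneg (hd0 J)]
    have := kd_d_le hd J
    linarith
  calc ‖1 + (d J : ℂ) - yy J z‖ ≤ ‖1 + (d J : ℂ)‖ + ‖yy J z‖ := norm_sub_le _ _
    _ ≤ 2 + ‖yy J z‖ := by linarith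

/-- global upper bound -/
theorem kd_glob {d : ℕ → ℝ} (hd0 : ∀ j, 0 ≤ d j) (hd : ∀ j, d j ≤ 1 / (nn j : ℝ) ^ 4)
    {F : ℂ → ℂ} (hF : ∀ z : ℂ, ‖z‖ < 1 → Tendsto (fun m => pp d m z) atTop (𝓝 (F z)))
    {z : ℂ} (hz : ‖z‖ < 1) : ‖F z‖ ≤ 2 ^ 84 / (1 - ‖z‖) ^ 20 := by
  obtain ⟨J, h1, h2⟩ := exists_first hz
  have hs : ∀ i, J < i → ‖yy i z‖ ≤ 1 / (nn i : ℝ) ^ 4 := fun i hi => yy_small hi h2
  have hu := kd_upper hd0 hd hF hz hs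
  have hp := kd_prod hd0 hd hz.le J
  have hf := kd_fac hd0 hd J z
  have hn := nn_bound hz h1
  have hpos : (0 : ℝ) < (1 - ‖z‖) ^ 20 := pow_pos (by linarith) 20
  have h5 : ‖1 + (d J : ℂ) - yy J z‖ ≤ 5 := by linarith
  have h6 : ‖F z‖ ≤ 2 * 5 * (nn J : ℝ) := by
    refine hu.trans ?_
    refine mul_le_mul ?_ hp (Finset.prod_nonneg fun _ _ => norm_nonneg _) (by norm_num)
    linarith
  refine h6.trans ?_
  calc 2 * 5 * (nn J : ℝ) ≤ 2 * 5 * (2 ^ 80 / (1 - ‖z‖) ^ 20) :=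
        mul_le_mul_of_nonneg_left hn (by norm_num)
    _ = (2 * 5 * 2 ^ 80) / (1 - ‖z‖) ^ 20 := by ring
    _ ≤ 2 ^ 84 / (1 - ‖z‖) ^ 20 := by
        refine div_le_div_of_nonneg_right ?_ hpos.le
        norm_num

theorem kd_mid {d : ℕ → ℝ} (hd0 : ∀ j, 0 ≤ d j) (hd : ∀ j, d j ≤ 1 / (nn j : ℝ) ^ 4)
    {F : ℂ → ℂ} (hF : ∀ z : ℂ, ‖z‖ < 1 → Tendsto (fun m => pp d m z) atTop (𝓝 (F z)))
    {j : ℕ} (hj : 1 ≤ j) {z : ℂ} (hz : ‖z‖ < 1) (hm : ‖z‖ ^ nn j = 1 / (nn j : ℝ) ^ 4) :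
    ‖F z‖ ≤ 8 * (nn j : ℝ) ^ 6 := by
  have hn0 := kd_nn_pos' j
  have hn1024 : (1024 : ℝ) ≤ (nn j : ℝ) := by
    have : 1024 ≤ nn j := by
      have h1 : 10 ≤ 10 ^ j := by
        calc 10 = 10 ^ 1 := by norm_num
          _ ≤ 10 ^ j := Nat.pow_le_pow_right (by norm_num) hj
      calc 1024 = 2 ^ 10 := by norm_num
        _ ≤ 2 ^ (10 ^ j) := Nat.pow_le_pow_right (by norm_num) h1
    exact_mod_cast this
  have hyj : ‖yy j z‖ = (nn j : ℝ) ^ 4 := by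
    unfold yy
    rw [norm_mul, norm_pow, norm_pow, Complex.norm_natCast, hm]
    field_simp
  have hnext : nn (j + 1) = nn j * nn j ^ 9 := by
    have h1 : nn (j + 1) = nn j ^ 10 := by
      unfold nn
      rw [← pow_mul, pow_succ]
    rw [h1]; ring
  have hyj1 : ‖yy (j + 1) z‖ ≤ 1 := by
    unfold yy
    rw [norm_mul, norm_pow, norm_pow, Complex.norm_natCast]
    have h1 : ‖z‖ ^ nn (j + 1) = (1 / (nn j : ℝ) ^ 4) ^ (nn j ^ 9) := by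
      rw [hnext, pow_mul, hm]
    rw [h1]
    have h20 : 20 ≤ nn j ^ 9 := by
      have h2 : 1024 ≤ nn j := by exact_mod_cast hn1024
      calc 20 ≤ 1024 ^ 1 := by norm_num
        _ ≤ nn j ^ 1 := Nat.pow_le_pow_left h2 1
        _ ≤ nn j ^ 9 := Nat.pow_le_pow_right (by omega) (by norm_num)
    have h3 : (1 / (nn j : ℝ) ^ 4) ^ (nn j ^ 9) ≤ (1 / (nn j : ℝ) ^ 4) ^ 20 := by
      refine pow_le_pow_of_le_one (by positivity) ?_ h20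
      rw [div_le_one (pow_pos hn0 4)]
      exact one_le_pow₀ (kd_nn_pos j)
    have h4 : ((nn (j + 1) : ℕ) : ℝ) ^ 8 = (nn j : ℝ) ^ 80 := by
      rw [hnext]
      push_cast
      ring
    rw [h4]
    calc (nn j : ℝ) ^ 80 * (1 / (nn j : ℝ) ^ 4) ^ (nn j ^ 9)
        ≤ (nn j : ℝ) ^ 80 * (1 / (nn j : ℝ) ^ 4) ^ 20 :=
          mul_le_mul_of_nonneg_left h3 (pow_pos hn0 80).le
      _ = 1 := by
          have e : (1 / (nn j : ℝ) ^ 4) ^ 20 = 1 / (nn j : ℝ) ^ 80 := by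
            rw [div_pow, one_pow, ← pow_mul]
          rw [e]
          have : (nn j : ℝ) ^ 80 ≠ 0 := (pow_pos hn0 80).ne'
          rw [mul_one_div, div_self this]
  have hs : ∀ i, j + 1 < i → ‖yy i z‖ ≤ 1 / (nn i : ℝ) ^ 4 := fun i hi =>
    yy_small hi (by linarith)
  have hu := kd_upper hd0 hd hF hz hs
  rw [Finset.prod_range_succ] at hu
  have hp := kd_prod hd0 hd hz.le j
  have hf := kd_fac hd0 hd j z
  have hf1 := kd_fac hd0 hd (j + 1) z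
  rw [hyj] at hf
  have h3 : 2 * ‖1 + (d (j + 1) : ℂ) - yy (j + 1) z‖ ≤ 6 := by linarith
  have h4 : (∏ i ∈ range j, ‖1 + (d i : ℂ) - yy i z‖) * ‖1 + (d j : ℂ) - yy j z‖ ≤
      (nn j : ℝ) * (2 + (nn j : ℝ) ^ 4) :=
    mul_le_mul hp hf (norm_nonneg _) hn0.le
  have h5 : ‖F z‖ ≤ 6 * ((nn j : ℝ) * (2 + (nn j : ℝ) ^ 4)) := by
    refine hu.trans ?_
    exact mul_le_mul h3 h4 (mul_nonneg (Finset.prod_nonneg fun _ _ => norm_nonneg _)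
      (norm_nonneg _)) (by norm_num)
  refine h5.trans ?_
  have h6 : (1 : ℝ) ≤ (nn j : ℝ) ^ 4 := one_le_pow₀ (kd_nn_pos j)
  have h7 : (nn j : ℝ) * (2 + (nn j : ℝ) ^ 4) ≤ (nn j : ℝ) * (3 * (nn j : ℝ) ^ 4) :=
    mul_le_mul_of_nonneg_left (by linarith) hn0.le
  have h8 : (nn j : ℝ) ^ 6 = (nn j : ℝ) * ((nn j : ℝ) * (nn j : ℝ) ^ 4) := by ring
  have h9 : 1024 * (nn j : ℝ) ^ 4 ≤ (nn j : ℝ) * (nn j : ℝ) ^ 4 :=
    mul_le_mul_of_nonneg_right hn1024 (by positivity)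
  rw [h8]
  have h10 : 6 * (3 * (nn j : ℝ) ^ 4) ≤ 8 * ((nn j : ℝ) * (nn j : ℝ) ^ 4) := by linarith
  calc 6 * ((nn j : ℝ) * (2 + (nn j : ℝ) ^ 4)) ≤ 6 * ((nn j : ℝ) * (3 * (nn j : ℝ) ^ 4)) := by
        linarith
    _ = (nn j : ℝ) * (6 * (3 * (nn j : ℝ) ^ 4)) := by ring
    _ ≤ (nn j : ℝ) * (8 * ((nn j : ℝ) * (nn j : ℝ) ^ 4)) :=
        mul_le_mul_of_nonneg_left h10 hn0.le
    _ = 8 * ((nn j : ℝ) * ((nn j : ℝ) * (nn j : ℝ) ^ 4)) := by ring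

theorem exists_pair_bounds : ∃ F1 F2 : ℂ → ℂ,
    DifferentiableOn ℂ F1 (Metric.ball 0 1) ∧ DifferentiableOn ℂ F2 (Metric.ball 0 1) ∧
    (∀ z : ℂ, ‖z‖ < 1 → ‖F1 z‖ ≤ 2 ^ 84 / (1 - ‖z‖) ^ 20) ∧
    (∀ z : ℂ, ‖z‖ < 1 → ‖F2 z‖ ≤ 2 ^ 84 / (1 - ‖z‖) ^ 20) ∧
    (∀ z : ℂ, ‖z‖ < 1 → (1 - ‖z‖) ^ 160 / 2 ^ 643 ≤ ‖F1 z‖ ^ 2 + ‖F2 z‖ ^ 2) ∧
    (∀ j : ℕ, 1 ≤ j → ∀ z : ℂ, ‖z‖ < 1 → z ^ nn j = ((1 / (nn j : ℝ) ^ 8 : ℝ) : ℂ) →
      F1 z = 0 ∧ ‖F2 z‖ ≤ 2 / (nn j : ℝ) ^ 3) ∧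
    (∀ j : ℕ, 1 ≤ j → ∀ z : ℂ, ‖z‖ < 1 → ‖z‖ ^ nn j = 1 / (nn j : ℝ) ^ 4 →
      ‖F1 z‖ ≤ 8 * (nn j : ℝ) ^ 6 ∧ ‖F2 z‖ ≤ 8 * (nn j : ℝ) ^ 6) := by
  have a0 : ∀ j : ℕ, (0 : ℝ) ≤ (fun _ : ℕ => (0 : ℝ)) j := fun j => le_refl _
  have a1 : ∀ j : ℕ, (fun _ : ℕ => (0 : ℝ)) j ≤ 1 / (nn j : ℝ) ^ 4 := fun j =>
    div_nonneg zero_le_one (pow_pos (kd_nn_pos' j) 4).le
  have b0 : ∀ j : ℕ, (0 : ℝ) ≤ (fun j : ℕ => 1 / (nn j : ℝ) ^ 4) j := fun j =>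
    div_nonneg zero_le_one (pow_pos (kd_nn_pos' j) 4).le
  have b1 : ∀ j : ℕ, (fun j : ℕ => 1 / (nn j : ℝ) ^ 4) j ≤ 1 / (nn j : ℝ) ^ 4 := fun j => le_refl _
  obtain ⟨F1, hF1d, hF1⟩ := exists_limit a0 a1
  obtain ⟨F2, hF2d, hF2⟩ := exists_limit b0 b1
  refine ⟨F1, F2, hF1d, hF2d, fun z hz => kd_glob a0 a1 hF1 hz, fun z hz => kd_glob b0 b1 hF2 hz,
    ?_, ?_, fun j hj z hz hm => ⟨kd_mid a0 a1 hF1 hj hz hm, kd_mid b0 b1 hF2 hj hz hm⟩⟩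
  · intro z hz
    obtain ⟨J, h1, h2⟩ := exists_first hz
    have hs : ∀ i, J < i → ‖yy i z‖ ≤ 1 / (nn i : ℝ) ^ 4 := fun i hi => yy_small hi h2
    have l1 := kd_lower a0 a1 hF1 hz h1 hs
    have l2 := kd_lower b0 b1 hF2 hz h1 hs
    have hn := nn_bound hz h1
    have hnJ := kd_nn_pos' J
    set δ : ℝ := 1 / (nn J : ℝ) ^ 4 with hδ
    set a : ℂ := 1 + ((0 : ℝ) : ℂ) - yy J z with ha
    set b : ℂ := 1 + (δ : ℂ) - yy J z with hb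
    have hδpos : 0 < δ := by
      rw [hδ]; exact div_pos one_pos (pow_pos hnJ 4)
    have hab : δ ≤ ‖a‖ + ‖b‖ := by
      have e : (δ : ℂ) = b - a := by rw [ha, hb]; push_cast; ring
      have e2 : ‖(δ : ℂ)‖ = δ := by
        rw [Complex.norm_real, Real.norm_eq_abs, abs_of_pos hδpos]
      rw [← e2, e]
      linarith [norm_sub_le b a]
    have hsq : δ ^ 2 ≤ 2 * (‖a‖ ^ 2 + ‖b‖ ^ 2) := by
      have h3 : δ ^ 2 ≤ (‖a‖ + ‖b‖) ^ 2 := pow_le_pow_left₀ hδpos.le hab 2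
      nlinarith [sq_nonneg (‖a‖ - ‖b‖)]
    have s1 : (1 / 2 * ‖a‖) ^ 2 ≤ ‖F1 z‖ ^ 2 := pow_le_pow_left₀ (by positivity) l1 2
    have s2 : (1 / 2 * ‖b‖) ^ 2 ≤ ‖F2 z‖ ^ 2 := pow_le_pow_left₀ (by positivity) l2 2
    have h4 : δ ^ 2 / 8 ≤ ‖F1 z‖ ^ 2 + ‖F2 z‖ ^ 2 := by nlinarith
    refine le_trans ?_ h4
    have hpos : (0 : ℝ) < 1 - ‖z‖ := by linarith
    have h5 : (nn J : ℝ) * (1 - ‖z‖) ^ 20 ≤ 2 ^ 80 := by
      rwa [le_div_iff₀ (pow_pos hpos 20)] at hn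
    have h6 : ((nn J : ℝ) * (1 - ‖z‖) ^ 20) ^ 8 ≤ (2 ^ 80) ^ 8 :=
      pow_le_pow_left₀ (mul_nonneg hnJ.le (pow_pos hpos 20).le) h5 8
    have h7 : ((nn J : ℝ) * (1 - ‖z‖) ^ 20) ^ 8 = (nn J : ℝ) ^ 8 * (1 - ‖z‖) ^ 160 := by
      rw [mul_pow, ← pow_mul]
    have h8 : ((2 : ℝ) ^ 80) ^ 8 = 2 ^ 640 := by rw [← pow_mul]
    rw [h7, h8] at h6
    have h9 : δ ^ 2 / 8 = 1 / (8 * (nn J : ℝ) ^ 8) := by
      rw [hδ, div_pow, one_pow, ← pow_mul, div_div]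
      ring_nf
    rw [h9, div_le_div_iff₀ (by positivity) (mul_pos (by norm_num) (pow_pos hnJ 8))]
    have h10 : (2 : ℝ) ^ 643 = 8 * 2 ^ 640 := by
      rw [show (643 : ℕ) = 3 + 640 by norm_num, pow_add]
      norm_num
    rw [h10]
    linarith
  · intro j hj z hz hm
    have hnj := kd_nn_pos' j
    have hy : yy j z = 1 := by
      unfold yy
      rw [hm]
      push_cast
      have : (nn j : ℂ) ≠ 0 := by
        have h : nn j ≠ 0 := by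
          intro h; rw [h] at hnj; simp at hnj
        exact_mod_cast h
      field_simp
    have hs : ∀ i, j < i → ‖yy i z‖ ≤ 1 / (nn i : ℝ) ^ 4 := fun i hi =>
      yy_small hi (by rw [hy]; simp)
    constructor
    · have h1 : Tendsto (fun m => pp (fun _ => 0) m z) atTop (𝓝 (0 : ℂ)) := by
        refine tendsto_const_nhds.congr' ?_
        filter_upwards [eventually_gt_atTop j] with m hm2
        unfold pp
        symm
        refine Finset.prod_eq_zero (Finset.mem_range.2 hm2) ?_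
        rw [hy]
        simp
      exact tendsto_nhds_unique (hF1 z hz) h1
    · have hu := kd_upper b0 b1 hF2 hz hs
      have hp := kd_prod b0 b1 hz.le j
      rw [hy] at hu
      have h2 : ‖1 + ((1 / (nn j : ℝ) ^ 4 : ℝ) : ℂ) - 1‖ = 1 / (nn j : ℝ) ^ 4 := by
        rw [add_sub_cancel_left, Complex.norm_real, Real.norm_eq_abs, abs_of_nonneg (b0 j)]
      rw [h2] at hu
      refine hu.trans ?_
      calc 2 * (1 / (nn j : ℝ) ^ 4) * ∏ i ∈ range j, ‖1 + ((1 / (nn i : ℝ) ^ 4 : ℝ) : ℂ) - yy i z‖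
          ≤ 2 * (1 / (nn j : ℝ) ^ 4) * (nn j : ℝ) :=
            mul_le_mul_of_nonneg_left hp (mul_nonneg (by norm_num) (b0 j))
        _ = 2 / (nn j : ℝ) ^ 3 := by
            field_simp


open Finset Filter Topology




theorem sib_exp (n : ℝ) (hn : 2 ≤ n) (x : ℝ) (hx : 2 / n ≤ x) :
    Real.exp (-x) ≤ 1 - 1 / n := by
  have hn0 : 0 < n := by linarith
  have h1 : Real.exp (-x) ≤ Real.exp (-(2 / n)) := Real.exp_le_exp.mpr (by linarith)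
  have h2 : Real.exp (-(2 / n)) ≤ 1 / (1 + 2 / n) := by
    rw [Real.exp_neg, ← one_div]
    exact one_div_le_one_div_of_le (by positivity) (by linarith [Real.add_one_le_exp (2 / n)])
  have h3 : 1 / (1 + 2 / n) ≤ 1 - 1 / n := by
    rw [div_le_iff₀ (by positivity)]
    have e1 : (1 - 1 / n) * (1 + 2 / n) = 1 + (n - 2) / n ^ 2 := by
      field_simp
      ring
    rw [e1]
    have e2 : 0 ≤ (n - 2) / n ^ 2 := div_nonneg (by linarith) (by positivity)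
    linarith
  linarith

theorem sib_nn (j : ℕ) : j < nn j := by
  unfold nn
  have h1 : j < 10 ^ j := Nat.lt_pow_self (by norm_num)
  exact h1.trans Nat.lt_two_pow_self

theorem sib_nn2 (j : ℕ) : 2 ≤ nn j := by
  unfold nn
  calc 2 = 2 ^ 1 := by norm_num
    _ ≤ 2 ^ (10 ^ j) := Nat.pow_le_pow_right (by norm_num) (Nat.one_le_pow _ _ (by norm_num))

theorem sib_sq (a b : ℝ) (ha : 0 ≤ a) (hb : 0 ≤ b) : Real.sqrt (a ^ 2 + b ^ 2) ≤ a + b := by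
  rw [Real.sqrt_le_left (by positivity)]
  nlinarith [mul_nonneg ha hb]

theorem sib_step {F1 F2 : ℂ → ℂ}
    (hring : ∀ j : ℕ, 1 ≤ j → ∀ z : ℂ, ‖z‖ < 1 → z ^ nn j = ((1 / (nn j : ℝ) ^ 8 : ℝ) : ℂ) →
      F1 z = 0 ∧ ‖F2 z‖ ≤ 2 / (nn j : ℝ) ^ 3)
    (hmid : ∀ j : ℕ, 1 ≤ j → ∀ z : ℂ, ‖z‖ < 1 → ‖z‖ ^ nn j = 1 / (nn j : ℝ) ^ 4 →
      ‖F1 z‖ ≤ 8 * (nn j : ℝ) ^ 6 ∧ ‖F2 z‖ ≤ 8 * (nn j : ℝ) ^ 6)
    {f : ℂ → ℂ} (hf : DifferentiableOn ℂ f (Metric.ball 0 1)) {C : ℝ} (hC : 0 ≤ C)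
    (hb : ∀ z : ℂ, ‖z‖ < 1 →
      ‖f z‖ ^ 2 ≤ C * Real.sqrt (‖F1 z‖ ^ 2 + ‖F2 z‖ ^ 2) / (1 - ‖z‖ ^ 2))
    (l j : ℕ) (hj : 1 ≤ j) (hl : l < nn j) :
    ‖iteratedDeriv l f 0 / (l.factorial : ℂ)‖ *
      (Real.exp (-(8 * (Real.log (nn j) / (nn j : ℝ))))) ^ l ≤
    Real.sqrt (2 * C) / (nn j : ℝ) + 8 * Real.sqrt C * (Real.sqrt (nn j) / (nn j : ℝ)) := by
  obtain ⟨n, hn⟩ : ∃ n : ℝ, n = (nn j : ℝ) := ⟨_, rfl⟩
  have hn2 : 2 ≤ n := by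
    rw [hn]
    exact_mod_cast sib_nn2 j
  have hr := hring j hj
  have hm := hmid j hj
  rw [← hn] at hr hm ⊢
  have hn0 : 0 < n := by linarith
  have hlog : 1 / 2 ≤ Real.log n := by
    have h1 := Real.log_two_gt_d9
    have h2 := Real.log_le_log (by norm_num) hn2
    linarith
  obtain ⟨ρ, hρ⟩ : ∃ ρ : ℝ, ρ = Real.exp (-(4 * (Real.log n / n))) := ⟨_, rfl⟩
  have hρ0 : 0 < ρ := by
    rw [hρ]
    exact Real.exp_pos _
  have hρ2 : ρ ^ 2 = Real.exp (-(8 * (Real.log n / n))) := by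
    rw [hρ, ← Real.exp_nat_mul]
    congr 1
    push_cast
    ring
  have hρ4 : (ρ ^ 2) ^ 2 = Real.exp (-(16 * (Real.log n / n))) := by
    rw [hρ2, ← Real.exp_nat_mul]
    congr 1
    push_cast
    ring
  have hquo : 1 / 2 / n ≤ Real.log n / n := div_le_div_of_nonneg_right hlog hn0.le
  have hquo' : 1 / 2 / n = 1 / 4 * (2 / n) := by ring
  have h2n : 0 < 2 / n := by positivity
  have b2 : ρ ^ 2 ≤ 1 - 1 / n := by
    rw [hρ2]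
    exact sib_exp n hn2 _ (by linarith)
  have b4 : (ρ ^ 2) ^ 2 ≤ 1 - 1 / n := by
    rw [hρ4]
    exact sib_exp n hn2 _ (by linarith)
  have h1n : 0 < 1 / n := by positivity
  have hρ1 : ρ < 1 := by
    by_contra hc
    push Not at hc
    have : 1 ≤ ρ ^ 2 := one_le_pow₀ hc
    linarith
  have hρn : ρ ^ (nn j) = 1 / n ^ 4 := by
    rw [hρ, ← Real.exp_nat_mul, ← hn]
    have e1 : n * -(4 * (Real.log n / n)) = -(((4 : ℕ) : ℝ) * Real.log n) := by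
      push_cast
      field_simp
    rw [e1, Real.exp_neg, Real.exp_nat_mul, Real.exp_log hn0, one_div]
  have hρ2n : (ρ ^ 2) ^ (nn j) = 1 / n ^ 8 := by
    rw [← pow_mul, mul_comm, pow_mul, hρn]
    field_simp
  have havg := avg_coeff hf hl hρ0 hρ1 (ε := Real.sqrt (2 * C) / n)
    (S := 4 * Real.sqrt C * (n ^ 3 * Real.sqrt n)) (by
      intro z hz hzn
      rw [hρ2n] at hzn
      have hz1 : ‖z‖ < 1 := by
        rw [hz]
        linarith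
      obtain ⟨g1, g2⟩ := hr z hz1 hzn
      have g3 := hb z hz1
      rw [g1, norm_zero, hz] at g3
      have g4 : Real.sqrt ((0:ℝ) ^ 2 + ‖F2 z‖ ^ 2) = ‖F2 z‖ := by
        rw [zero_pow (by norm_num), zero_add, Real.sqrt_sq (norm_nonneg _)]
      rw [g4] at g3
      have g5 : ‖f z‖ ^ 2 ≤ (Real.sqrt (2 * C) / n) ^ 2 := by
        refine g3.trans ?_
        rw [div_pow, Real.sq_sqrt (by positivity), div_le_div_iff₀ (by linarith) (by positivity)]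
        have k1 : C * ‖F2 z‖ ≤ C * (2 / n ^ 3) := mul_le_mul_of_nonneg_left g2 hC
        have k2 : C * ‖F2 z‖ * n ^ 2 ≤ C * (2 / n ^ 3) * n ^ 2 :=
          mul_le_mul_of_nonneg_right k1 (by positivity)
        have k3 : C * (2 / n ^ 3) * n ^ 2 = 2 * C * (1 / n) := by
          field_simp
        have k4 : 2 * C * (1 / n) ≤ 2 * C * (1 - (ρ ^ 2) ^ 2) :=
          mul_le_mul_of_nonneg_left (by linarith) (by positivity)
        linarith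
      exact (pow_le_pow_iff_left₀ (norm_nonneg _) (by positivity) (by norm_num)).mp g5) (by
      intro z hz
      have hz1 : ‖z‖ < 1 := by
        rw [hz]
        exact hρ1
      obtain ⟨g1, g2⟩ := hm z hz1 (by rw [hz, hρn])
      have g3 := hb z hz1
      rw [hz] at g3
      have g4 := sib_sq ‖F1 z‖ ‖F2 z‖ (norm_nonneg _) (norm_nonneg _)
      have g5 : ‖f z‖ ^ 2 ≤ (4 * Real.sqrt C * (n ^ 3 * Real.sqrt n)) ^ 2 := by
        refine g3.trans ?_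
        rw [div_le_iff₀ (by linarith)]
        have k0 : (4 * Real.sqrt C * (n ^ 3 * Real.sqrt n)) ^ 2 = 16 * C * n ^ 7 := by
          rw [mul_pow, mul_pow, mul_pow, Real.sq_sqrt hC, Real.sq_sqrt hn0.le]
          ring
        rw [k0]
        have k1 : C * Real.sqrt (‖F1 z‖ ^ 2 + ‖F2 z‖ ^ 2) ≤ C * (16 * n ^ 6) :=
          mul_le_mul_of_nonneg_left (by linarith) hC
        have k2 : 16 * C * n ^ 7 * (1 / n) ≤ 16 * C * n ^ 7 * (1 - ρ ^ 2) :=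
          mul_le_mul_of_nonneg_left (by linarith) (by positivity)
        have k3 : 16 * C * n ^ 7 * (1 / n) = C * (16 * n ^ 6) := by
          field_simp
        linarith
      exact (pow_le_pow_iff_left₀ (norm_nonneg _) (by positivity) (by norm_num)).mp g5)
  rw [hρ2, hρn] at havg
  refine havg.trans ?_
  have hfin : 4 * Real.sqrt C * (n ^ 3 * Real.sqrt n) * (1 / n ^ 4) / (1 - 1 / n ^ 4)
      ≤ 8 * Real.sqrt C * (Real.sqrt n / n) := by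
    have k1 : 1 / n ^ 4 ≤ 1 / 2 := by
      apply one_div_le_one_div_of_le (by norm_num)
      calc (2:ℝ) ≤ n := hn2
        _ = n ^ 1 := (pow_one n).symm
        _ ≤ n ^ 4 := pow_le_pow_right₀ (by linarith) (by norm_num)
    rw [div_le_iff₀ (by linarith)]
    have k2 : 4 * Real.sqrt C * (n ^ 3 * Real.sqrt n) * (1 / n ^ 4)
        = 8 * Real.sqrt C * (Real.sqrt n / n) * (1 / 2) := by
      field_simp
      ring
    rw [k2]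
    exact mul_le_mul_of_nonneg_left (by linarith) (by positivity)
  linarith

/-- TARGET -/
theorem sibony {F1 F2 : ℂ → ℂ}
    (hring : ∀ j : ℕ, 1 ≤ j → ∀ z : ℂ, ‖z‖ < 1 → z ^ nn j = ((1 / (nn j : ℝ) ^ 8 : ℝ) : ℂ) →
      F1 z = 0 ∧ ‖F2 z‖ ≤ 2 / (nn j : ℝ) ^ 3)
    (hmid : ∀ j : ℕ, 1 ≤ j → ∀ z : ℂ, ‖z‖ < 1 → ‖z‖ ^ nn j = 1 / (nn j : ℝ) ^ 4 →
      ‖F1 z‖ ≤ 8 * (nn j : ℝ) ^ 6 ∧ ‖F2 z‖ ≤ 8 * (nn j : ℝ) ^ 6)
    {f : ℂ → ℂ} (hf : DifferentiableOn ℂ f (Metric.ball 0 1)) {C0 : ℝ}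
    (hb : ∀ z : ℂ, ‖z‖ < 1 →
      ‖f z‖ ^ 2 ≤ C0 * Real.sqrt (‖F1 z‖ ^ 2 + ‖F2 z‖ ^ 2) / (1 - ‖z‖ ^ 2)) :
    ∀ z : ℂ, ‖z‖ < 1 → f z = 0 := by
  obtain ⟨C, hC⟩ : ∃ C : ℝ, C = |C0| := ⟨_, rfl⟩
  have hC0 : 0 ≤ C := by
    rw [hC]
    exact abs_nonneg _
  have hb' : ∀ z : ℂ, ‖z‖ < 1 →
      ‖f z‖ ^ 2 ≤ C * Real.sqrt (‖F1 z‖ ^ 2 + ‖F2 z‖ ^ 2) / (1 - ‖z‖ ^ 2) := by
    intro z hz
    refine (hb z hz).trans ?_
    have h1 : 0 < 1 - ‖z‖ ^ 2 := by nlinarith [norm_nonneg z]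
    apply div_le_div_of_nonneg_right _ h1.le
    exact mul_le_mul_of_nonneg_right (by rw [hC]; exact le_abs_self _) (Real.sqrt_nonneg _)
  have hNN : Tendsto nn atTop atTop :=
    tendsto_atTop_mono (fun j => (sib_nn j).le) tendsto_id
  have hN : Tendsto (fun j => (nn j : ℝ)) atTop atTop :=
    tendsto_natCast_atTop_atTop.comp hNN
  have hcoef : ∀ l : ℕ, iteratedDeriv l f 0 / (l.factorial : ℂ) = 0 := by
    intro l
    have hev : ∀ᶠ j in atTop, ‖iteratedDeriv l f 0 / (l.factorial : ℂ)‖ *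
        (Real.exp (-(8 * (Real.log (nn j) / (nn j : ℝ))))) ^ l ≤
        Real.sqrt (2 * C) / (nn j : ℝ) + 8 * Real.sqrt C * (Real.sqrt (nn j) / (nn j : ℝ)) := by
      filter_upwards [eventually_ge_atTop 1, hNN.eventually_gt_atTop l] with j h1 h2
      exact sib_step hring hmid hf hC0 hb' l j h1 h2
    have hlog : Tendsto (fun j => Real.log (nn j) / (nn j : ℝ)) atTop (𝓝 0) :=
      (Real.isLittleO_log_id_atTop.tendsto_div_nhds_zero).comp hN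
    have hlim1 : Tendsto (fun j => ‖iteratedDeriv l f 0 / (l.factorial : ℂ)‖ *
        (Real.exp (-(8 * (Real.log (nn j) / (nn j : ℝ))))) ^ l) atTop
        (𝓝 (‖iteratedDeriv l f 0 / (l.factorial : ℂ)‖ * (Real.exp (-(8 * 0))) ^ l)) := by
      apply Tendsto.const_mul
      apply Tendsto.pow
      exact (Real.continuous_exp.tendsto _).comp ((hlog.const_mul 8).neg)
    have hlim2 : Tendsto (fun j => Real.sqrt (2 * C) / (nn j : ℝ) +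
        8 * Real.sqrt C * (Real.sqrt (nn j) / (nn j : ℝ))) atTop
        (𝓝 (0 + 8 * Real.sqrt C * 0)) := by
      apply Tendsto.add
      · exact tendsto_const_nhds.div_atTop hN
      · apply Tendsto.const_mul
        have e1 : (fun j => Real.sqrt (nn j) / (nn j : ℝ)) = fun j => 1 / Real.sqrt (nn j) := by
          funext j
          exact Real.sqrt_div_self'
        rw [e1]
        exact tendsto_const_nhds.div_atTop (Real.tendsto_sqrt_atTop.comp hN)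
    have h1 := le_of_tendsto_of_tendsto hlim1 hlim2 hev
    rw [mul_zero, neg_zero, Real.exp_zero, one_pow, mul_one, mul_zero, add_zero] at h1
    exact norm_le_zero_iff.mp h1
  intro z hz
  have hf' : DifferentiableOn ℂ f (Metric.ball 0 ((1 : NNReal) : ℝ)) := by
    simpa using hf
  have hz' : z ∈ Metric.ball (0:ℂ) ((1 : NNReal) : ℝ) := by
    simpa using hz
  have hsum := Complex.hasSum_taylorSeries_on_ball hf' hz'
  have h0 : (fun n : ℕ => (n.factorial : ℂ)⁻¹ • (z - 0) ^ n • iteratedDeriv n f 0)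
      = fun _ => 0 := by
    funext n
    have h1 := hcoef n
    have h2 : iteratedDeriv n f 0 = 0 := by
      rcases div_eq_zero_iff.mp h1 with h | h
      · exact h
      · exact absurd h (by exact_mod_cast n.factorial_ne_zero)
    rw [h2, smul_zero, smul_zero]
  rw [h0] at hsum
  exact hsum.unique hasSum_zero


end Pool.Agent.Helper269.KdW
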