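import Mathlib
import Pool.Agent.Helper269.KdM
import Pool.Agent.Helper269.KdW

set_option autoImplicit false
set_option linter.unusedSimpArgs false

namespace Pool.Agent.Helper269.KdN

open Set Filter Topology ComplexConjugate
open Pool.Agent.Helper269.KdDefs Pool.Agent.Helper269.KdA Pool.Agent.Helper269.KdB
open Pool.Agent.Helper269.KdC Pool.Agent.Helper269.KdD Pool.Agent.Helper269.KdE
open Pool.Agent.Helper269.KdH Pool.Agent.Helper269.KdI Pool.Agent.Helper269.KdK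
open Pool.Agent.Helper269.KdL Pool.Agent.Helper269.KdM

theorem pb_of_bound {F : ℂ → ℂ} {c : ℝ} (hc : 0 ≤ c) {m : ℕ}
    (h : ∀ z : ℂ, ‖z‖ < 1 → ‖F z‖ ≤ c / (1 - ‖z‖) ^ m) : PB F := by
  refine ⟨c * 2 ^ m, by positivity, m, fun z hz => (h z hz).trans ?_⟩
  have h1 : 0 < 1 - ‖z‖ := by linarith
  have h2 : ((1 - ‖z‖)⁻¹) ^ m ≤ (2 * ui z) ^ m :=
    pow_le_pow_left₀ (inv_pos.mpr h1).le (inv_le_ui hz) m
  calc c / (1 - ‖z‖) ^ m = c * ((1 - ‖z‖)⁻¹) ^ m := by rw [inv_pow, div_eq_mul_inv]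
    _ ≤ c * (2 * ui z) ^ m := mul_le_mul_of_nonneg_left h2 hc
    _ = c * 2 ^ m * ui z ^ m := by rw [mul_pow]; ring

theorem bN_of_bound {N : ℂ → ℝ} {c : ℝ} (hc : 0 < c) {m : ℕ}
    (h : ∀ z : ℂ, ‖z‖ < 1 → (1 - ‖z‖) ^ m / c ≤ N z) :
    ∃ C : ℝ, 0 ≤ C ∧ ∃ K : ℕ, ∀ z : ℂ, ‖z‖ < 1 → (N z)⁻¹ ≤ C * ui z ^ K := by
  refine ⟨c * 2 ^ m, by positivity, m, fun z hz => ?_⟩
  have h1 : 0 < 1 - ‖z‖ := by linarith
  have h0 : 0 < (1 - ‖z‖) ^ m / c := by positivity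
  have h2 : ((1 - ‖z‖)⁻¹) ^ m ≤ (2 * ui z) ^ m :=
    pow_le_pow_left₀ (inv_pos.mpr h1).le (inv_le_ui hz) m
  calc (N z)⁻¹ ≤ ((1 - ‖z‖) ^ m / c)⁻¹ := inv_anti₀ h0 (h z hz)
    _ = c * ((1 - ‖z‖)⁻¹) ^ m := by rw [inv_div, inv_pow, div_eq_mul_inv]
    _ ≤ c * (2 * ui z) ^ m := mul_le_mul_of_nonneg_left h2 hc.le
    _ = c * 2 ^ m * ui z ^ m := by rw [mul_pow]; ring

/-- The pair of functions, with the vanishing theorem. -/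
theorem exists_pair : ∃ F1 F2 : ℂ → ℂ, Pair F1 F2 ∧
    ∀ f : ℂ → ℂ, DifferentiableOn ℂ f (Metric.ball 0 1) → ∀ C0 : ℝ,
      (∀ z : ℂ, ‖z‖ < 1 → ‖f z‖ ^ 2 ≤ C0 * kk F1 F2 z) → ∀ z : ℂ, ‖z‖ < 1 → f z = 0 := by
  obtain ⟨F1, F2, h1, h2, b1, b2, bN, hr, hm⟩ := KdW.exists_pair_bounds
  refine ⟨F1, F2, ⟨⟨h1, h2, fun z hz => ?_⟩, pb_of_bound (by positivity) b1,
    pb_of_bound (by positivity) b2, bN_of_bound (by positivity) bN⟩, ?_⟩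
  · have h3 : 0 < 1 - ‖z‖ := by linarith
    have h4 : 0 < (1 - ‖z‖) ^ 160 / 2 ^ 643 := div_pos (pow_pos h3 _) (pow_pos two_pos _)
    exact lt_of_lt_of_le h4 (bN z hz)
  · intro f hf C0 hb
    refine KdW.sibony hr hm hf (C0 := C0) fun z hz => ?_
    have := hb z hz
    unfold kk NR at this
    rwa [← mul_div_assoc] at this

/-- a bounded holomorphic function has no derivative in the fibre direction along the
zero section. -/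
theorem fibre_zero {B : Base}
    (hB : ∀ f : ℂ → ℂ, DifferentiableOn ℂ f (Metric.ball 0 1) → ∀ C0 : ℝ,
      (∀ z : ℂ, ‖z‖ < 1 → ‖f z‖ ^ 2 ≤ C0 * B.k z) → ∀ z : ℂ, ‖z‖ < 1 → f z = 0)
    {f : ℂ × ℂ → ℂ} (hf : IsBddHol (dom B) f) {z : ℂ} (hz : ‖z‖ < 1) :
    fderiv ℂ f (z, 0) (0, 1) = 0 := by
  obtain ⟨hd, Bd, hBd⟩ := hf
  obtain ⟨h1, h2⟩ := KdJ.S13316.fibre_deriv B.sk.continuousOn (fun z hz => B.kpos z hz)
    (f := f) (Bd := Bd) hd (fun p hp1 hp2 => hBd p ⟨hp1, hp2⟩)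
  exact hB _ h1 (Bd ^ 2) h2 z hz

theorem zero_mem (B : Base) : ((0 : ℂ), (0 : ℂ)) ∈ dom B := by
  constructor <;> simp

theorem not_bounded {B : Base}
    (hB : ∀ f : ℂ → ℂ, DifferentiableOn ℂ f (Metric.ball 0 1) → ∀ C0 : ℝ,
      (∀ z : ℂ, ‖z‖ < 1 → ‖f z‖ ^ 2 ≤ C0 * B.k z) → ∀ z : ℂ, ‖z‖ < 1 → f z = 0)
    {Ω : Set (ℂ × ℂ)} (hΩ : IsOpen Ω) (hb : Bornology.IsBounded Ω) :
    ¬ Biholomorphic (dom B) Ω := by
  rintro ⟨F, G, hF, hG, hFm, -, hGF, -⟩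
  have hU := isOpen_dom B
  have h0 := zero_mem B
  obtain ⟨R, hR⟩ := hb.exists_norm_le
  have hFd : DifferentiableAt ℂ F (0, 0) := hF.differentiableAt (hU.mem_nhds h0)
  have hGd : DifferentiableAt ℂ G (F (0, 0)) := hG.differentiableAt (hΩ.mem_nhds (hFm h0))
  have b1 : IsBddHol (dom B) (fun p => (F p).1) :=
    ⟨hF.fst, R, fun p hp => (norm_fst_le (F p)).trans (hR _ (hFm hp))⟩
  have b2 : IsBddHol (dom B) (fun p => (F p).2) :=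
    ⟨hF.snd, R, fun p hp => (norm_snd_le (F p)).trans (hR _ (hFm hp))⟩
  have z1 := fibre_zero hB b1 (z := 0) (by simp)
  have z2 := fibre_zero hB b2 (z := 0) (by simp)
  have e1 : fderiv ℂ (fun p => (F p).1) (0, 0) (0, 1) = (fderiv ℂ F (0, 0) (0, 1)).1 := by
    rw [hFd.hasFDerivAt.fst.fderiv]
    rfl
  have e2 : fderiv ℂ (fun p => (F p).2) (0, 0) (0, 1) = (fderiv ℂ F (0, 0) (0, 1)).2 := by
    rw [hFd.hasFDerivAt.snd.fderiv]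
    rfl
  have e3 : fderiv ℂ F (0, 0) (0, 1) = 0 := by
    apply Prod.ext
    · rw [← e1]; exact z1
    · rw [← e2]; exact z2
  have e4 : HasFDerivAt (fun p => G (F p))
      ((fderiv ℂ G (F (0, 0))).comp (fderiv ℂ F (0, 0))) (0, 0) :=
    hGd.hasFDerivAt.comp (0, 0) hFd.hasFDerivAt
  have e5 : HasFDerivAt (fun p : ℂ × ℂ => p)
      ((fderiv ℂ G (F (0, 0))).comp (fderiv ℂ F (0, 0))) (0, 0) := by
    refine e4.congr_of_eventuallyEq ?_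
    filter_upwards [hU.mem_nhds h0] with p hp
    exact (hGF p hp).symm
  have e6 := e5.unique (hasFDerivAt_id (0, 0))
  have e7 := congrArg (fun L : ℂ × ℂ →L[ℂ] ℂ × ℂ => L (0, 1)) e6
  simp only [ContinuousLinearMap.comp_apply, e3, map_zero] at e7
  have e8 := congrArg Prod.snd e7
  simp at e8

theorem not_stein {B : Base}
    (hB : ∀ f : ℂ → ℂ, DifferentiableOn ℂ f (Metric.ball 0 1) → ∀ C0 : ℝ,
      (∀ z : ℂ, ‖z‖ < 1 → ‖f z‖ ^ 2 ≤ C0 * B.k z) → ∀ z : ℂ, ‖z‖ < 1 → f z = 0) :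
    ¬ IsSteinRelBdd (dom B) := by
  rintro ⟨-, h, -⟩
  obtain ⟨f₁, f₂, h1, h2, hi⟩ := h (0, 0) (zero_mem B)
  have z1 := fibre_zero hB h1 (z := 0) (by simp)
  have z2 := fibre_zero hB h2 (z := 0) (by simp)
  have key : ∀ (L : ℂ × ℂ →L[ℂ] ℂ), L (0, 1) = 0 → ∀ v, L v = v.1 * L (1, 0) := by
    intro L hL v
    have e : v = v.1 • ((1 : ℂ), (0 : ℂ)) + v.2 • ((0 : ℂ), (1 : ℂ)) := by
      ext <;> simp
    conv_lhs => rw [e]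
    rw [map_add, map_smul, map_smul, hL]
    simp
  have hli := LinearIndependent.pair_iff.mp hi (fderiv ℂ f₂ (0, 0) (1, 0))
    (-(fderiv ℂ f₁ (0, 0) (1, 0))) (by
      refine ContinuousLinearMap.ext fun v => ?_
      simp only [add_apply, smul_apply, zero_apply, smul_eq_mul]
      rw [key _ z1 v, key _ z2 v]
      ring)
  have h0 : fderiv ℂ f₁ (0, 0) = 0 := by
    refine ContinuousLinearMap.ext fun v => ?_
    rw [key _ z1 v, neg_eq_zero.mp hli.2, mul_zero]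
    rfl
  have := hi.ne_zero 0
  exact this h0

/-- The example. -/
theorem main : ∃ (U : Set (ℂ × ℂ)) (g : ℂ × ℂ → LinearMap.BilinForm ℝ (ℂ × ℂ)) (p₀ : ℂ × ℂ),
    IsOpen U ∧ SimplyConnectedSpace U ∧ IsKahlerMetricOn U g ∧ IsCompleteFor U g ∧
      HasNonposSecCurv U g ∧ p₀ ∈ U ∧ HasCurvDecay U g p₀ ∧
      (¬ ∃ Ω : Set (ℂ × ℂ), IsOpen Ω ∧ IsConnected Ω ∧ Bornology.IsBounded Ω ∧
        Biholomorphic U Ω) ∧ ¬ IsSteinRelBdd U := by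
  obtain ⟨F1, F2, Q, hS⟩ := exists_pair
  obtain ⟨C, hC, K, hK⟩ := common_bound Q
  obtain ⟨n, hn⟩ : ∃ n : ℕ, n = 6 * K + 3 := ⟨_, rfl⟩
  obtain ⟨Λ, hΛdef⟩ : ∃ Λ : ℝ, Λ = 100 * ((n + 1 : ℝ) ^ 2 + 1) * C ^ 6 := ⟨_, rfl⟩
  have hC6 : 1 ≤ C ^ 6 := one_le_pow₀ hC
  have hΛ1 : 1 ≤ Λ := by
    rw [hΛdef]
    have : 0 ≤ (n + 1 : ℝ) ^ 2 := by positivity
    nlinarith
  have hΛ : 0 < Λ := by linarith
  have hG := KdL.good Q hC hK n hn.ge hΛ hΛdef.ge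
  have hg : ∀ z : ℂ, ‖z‖ < 1 → (mkB Q.P Λ hΛ n).g0 z = Λ * ui z ^ (2 * (3 * K) + 4) := by
    intro z hz
    show Λ * ui z ^ (n + 1) = _
    have : n + 1 = 2 * (3 * K) + 4 := by omega
    rw [this]
  have hg' : ∀ z : ℂ, ‖z‖ < 1 → ui z ^ (2 * (3 * K) + 4) ≤ (mkB Q.P Λ hΛ n).g0 z := by
    intro z hz
    rw [hg z hz]
    have := pow_pos (ui_pos hz) (2 * (3 * K) + 4)
    nlinarith
  have hB : ∀ f : ℂ → ℂ, DifferentiableOn ℂ f (Metric.ball 0 1) → ∀ C0 : ℝ,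
      (∀ z : ℂ, ‖z‖ < 1 → ‖f z‖ ^ 2 ≤ C0 * (mkB Q.P Λ hΛ n).k z) →
        ∀ z : ℂ, ‖z‖ < 1 → f z = 0 := hS
  refine ⟨dom (mkB Q.P Λ hΛ n), gm (mkB Q.P Λ hΛ n), (0, 0), isOpen_dom _,
    KdM.simplyConnected _, isKahler _, KdM.isComplete _ (3 * K) hg', KdM.nonpos _ hG,
    zero_mem _, KdM.curvDecay _ hG (3 * K) hΛ1 hg, ?_, not_stein hB⟩
  rintro ⟨Ω, h1, -, h3, h4⟩
  exact not_bounded hB h1 h3 h4

end Pool.Agent.Helper269.KdN
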