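import Mathlib

set_option autoImplicit false
open MeasureTheory

namespace Pool.Agent.Helper269.OneRadius

variable {n : ℕ}

/-- squared Euclidean norm on `ℂ^n` -/
def N (z : Fin n → ℂ) : ℝ := ∑ j, Complex.normSq (z j)

/-- Hermitian inner product on `ℂ^n` -/
def ip (w z : Fin n → ℂ) : ℂ := ∑ j, w j * starRingEnd ℂ (z j)

/-- the involutive automorphism of the ball -/
noncomputable def phi (z w : Fin n → ℂ) : Fin n → ℂ :=
  (1 - ∑ j, w j * starRingEnd ℂ (z j))⁻¹ •
        (z - ((∑ j, w j * starRingEnd ℂ (z j)) / (∑ j, z j * starRingEnd ℂ (z j))) • z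
          - ((Real.sqrt (1 - ∑ j, Complex.normSq (z j)) : ℝ) : ℂ) •
            (w - ((∑ j, w j * starRingEnd ℂ (z j)) / (∑ j, z j * starRingEnd ℂ (z j))) • z))

lemma N_nonneg (z : Fin n → ℂ) : 0 ≤ N z := Finset.sum_nonneg fun _ _ => Complex.normSq_nonneg _

lemma N_smul (c : ℂ) (z : Fin n → ℂ) : N (c • z) = Complex.normSq c * N z := by
  simp [N, Finset.mul_sum, Complex.normSq_mul]

lemma ip_self (z : Fin n → ℂ) : ip z z = (N z : ℂ) := by
  simp [ip, N, Complex.mul_conj]

lemma ip_conj (w z : Fin n → ℂ) : starRingEnd ℂ (ip w z) = ip z w := by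
  simp [ip, mul_comm]

lemma ip_smul_left (c : ℂ) (w z : Fin n → ℂ) : ip (c • w) z = c * ip w z := by
  simp [ip, Finset.mul_sum, mul_assoc]

lemma N_add (z w : Fin n → ℂ) : N (z + w) = N z + N w + 2 * (ip z w).re := by
  simp only [N, ip, Pi.add_apply, Complex.normSq_add, Finset.sum_add_distrib, Complex.re_sum,
    Finset.mul_sum]

lemma N_comb (a b : ℂ) (z w : Fin n → ℂ) :
    N (a • z + b • w) = Complex.normSq a * N z + Complex.normSq b * N w
      + 2 * (a * starRingEnd ℂ b * ip z w).re := by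
  rw [N_add, N_smul, N_smul]
  have : ip (a • z) (b • w) = a * starRingEnd ℂ b * ip z w := by
    simp only [ip, Pi.smul_apply, smul_eq_mul, map_mul, Finset.mul_sum]
    refine Finset.sum_congr rfl fun j _ => by ring
  rw [this]

lemma cauchy (w z : Fin n → ℂ) : Complex.normSq (ip w z) ≤ N w * N z := by
  have h := inner_mul_inner_self_le (𝕜 := ℂ) (WithLp.toLp 2 z : EuclideanSpace ℂ (Fin n))
    (WithLp.toLp 2 w : EuclideanSpace ℂ (Fin n))
  have e1 : ∀ a b : Fin n → ℂ, (inner ℂ (WithLp.toLp 2 a : EuclideanSpace ℂ (Fin n))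
      (WithLp.toLp 2 b : EuclideanSpace ℂ (Fin n))) = ip b a := by
    intro a b
    simp [ip, PiLp.inner_apply]
  rw [e1, e1, e1, e1, ip_self, ip_self] at h
  have h2 : ‖ip w z‖ * ‖ip z w‖ = Complex.normSq (ip w z) := by
    rw [← ip_conj w z, RCLike.norm_conj, Complex.normSq_eq_norm_sq]; ring
  rw [h2] at h
  simpa [mul_comm] using h

lemma normSq_one_sub_pos {z w : Fin n → ℂ} (hz : N z < 1) (hw : N w ≤ 1) :
    0 < Complex.normSq (1 - ip w z) := by
  rw [Complex.normSq_pos]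
  intro h
  have h1 : ip w z = 1 := by linear_combination -h
  have h2 := cauchy w z
  rw [h1] at h2
  simp at h2
  nlinarith [N_nonneg z, N_nonneg w]

/-- the basic identity for the automorphisms `phi z` -/
lemma one_sub_N_phi {z w : Fin n → ℂ} (hz : N z < 1) (hw : N w ≤ 1) :
    1 - N (phi z w) = (1 - N z) * (1 - N w) / Complex.normSq (1 - ip w z) := by
  have hpos := normSq_one_sub_pos hz hw
  set a : ℂ := ip w z with ha
  set s : ℝ := Real.sqrt (1 - N z) with hs
  have hs2 : s ^ 2 = 1 - N z := Real.sq_sqrt (by linarith)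
  have hphi : phi z w = (1 - a)⁻¹ • ((1 - (1 - s) * (a / (N z : ℂ))) • z + (-(s : ℂ)) • w) := by
    unfold phi
    have e1 : (∑ j, w j * starRingEnd ℂ (z j)) = a := rfl
    have e2 : (∑ j, z j * starRingEnd ℂ (z j)) = (N z : ℂ) := ip_self z
    have e3 : Real.sqrt (1 - ∑ j, Complex.normSq (z j)) = s := rfl
    rw [e1, e2, e3]
    congr 1
    ext j
    simp only [Pi.sub_apply, Pi.smul_apply, smul_eq_mul, Pi.add_apply]
    ring
  have hN : N ((1 - (1 - s) * (a / (N z : ℂ))) • z + (-(s : ℂ)) • w)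
      = N z - 2 * a.re + Complex.normSq a + (1 - N z) * N w := by
    rw [N_comb]
    have hconj : ip z w = starRingEnd ℂ a := (ip_conj w z).symm
    rw [hconj]
    by_cases h0 : N z = 0
    · have hz0 : z = 0 := by
        ext j
        have := (Finset.sum_eq_zero_iff_of_nonneg (fun i _ => Complex.normSq_nonneg (z i))).1 h0 j
          (Finset.mem_univ j)
        simpa using this
      have ha0 : a = 0 := by rw [ha, hz0]; simp [ip]
      have hs1 : s ^ 2 = 1 := by rw [hs2, h0]; ring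
      rw [ha0, h0]
      simp [Complex.normSq_apply]
      nlinarith
    · have hz' : (N z : ℂ) ≠ 0 := by exact_mod_cast h0
      have hN0 : N z = 1 - s ^ 2 := by linarith
      have h1s : (1 : ℝ) - s ^ 2 ≠ 0 := by rw [← hN0]; exact h0
      have e4 : a / (N z : ℂ) = ((a.re / N z : ℝ) : ℂ) + ((a.im / N z : ℝ) : ℂ) * Complex.I := by
        apply Complex.ext <;> simp
      rw [e4]
      simp only [Complex.normSq_apply, Complex.sub_re, Complex.sub_im, Complex.mul_re,
        Complex.mul_im, Complex.add_re, Complex.add_im, Complex.ofReal_re, Complex.ofReal_im,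
        Complex.one_re, Complex.one_im, Complex.I_re, Complex.I_im, Complex.neg_re,
        Complex.neg_im, Complex.conj_re, Complex.conj_im, map_neg, Complex.conj_ofReal]
      rw [hN0]
      field_simp
      ring
  rw [hphi, N_smul, hN, Complex.normSq_inv]
  have e5 : Complex.normSq (1 - a) = 1 - 2 * a.re + Complex.normSq a := by
    simp [Complex.normSq_apply]; ring
  have hne : Complex.normSq (1 - a) ≠ 0 := hpos.ne'
  field_simp
  rw [e5]
  ring


/-- the radial profile -/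
noncomputable def V (s : ℝ) : ℝ := s * Real.cos (Real.log (1 - Real.log (1 - s)))

/-- the counterexample -/
noncomputable def u (z : Fin n → ℂ) : ℝ := V (N z)

lemma abs_V_le {s : ℝ} (h0 : 0 ≤ s) : |V s| ≤ s := by
  unfold V
  rw [abs_mul, abs_of_nonneg h0]
  exact mul_le_of_le_one_right h0 (Real.abs_cos_le_one _)

lemma N_lt_one_phi {z w : Fin n → ℂ} (hz : N z < 1) (hw : N w < 1) : N (phi z w) < 1 := by
  have h := one_sub_N_phi hz hw.le
  have h2 : 0 < (1 - N z) * (1 - N w) / Complex.normSq (1 - ip w z) :=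
    div_pos (mul_pos (by linarith) (by linarith)) (normSq_one_sub_pos hz hw.le)
  linarith

lemma N_smul_unit (r : ℝ) {ζ : Fin n → ℂ} (hζ : N ζ = 1) : N ((r : ℂ) • ζ) = r ^ 2 := by
  rw [N_smul, hζ, Complex.normSq_ofReal]; ring

lemma log_close {a b C ε : ℝ} (hC : 0 ≤ C) (hε : 0 < ε) (hε1 : ε ≤ 1)
    (hab : |a - b| ≤ C) (hb : 4 * (C + 1) / ε ≤ b) :
    |Real.cos (Real.log a) - Real.cos (Real.log b)| ≤ ε / 2 := by
  have hb4 : 4 * (C + 1) ≤ b * ε := by
    have := (div_le_iff₀ hε).1 hb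
    linarith
  have hbpos : 0 < b := by
    by_contra h
    push Not at h
    nlinarith
  have hb2 : 4 * (C + 1) ≤ b := by nlinarith
  have hapos : b / 2 ≤ a := by
    have := (abs_le.1 hab).1
    linarith
  have ha0 : 0 < a := by linarith
  have h1 : |Real.cos (Real.log a) - Real.cos (Real.log b)| ≤ |Real.log a - Real.log b| := by
    have := Real.abs_cos_sub_cos_le (Real.log a) (Real.log b)
    exact this
  refine h1.trans ?_
  rw [← Real.log_div ha0.ne' hbpos.ne']
  have hab' := abs_le.1 hab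
  have hup : Real.log (a / b) ≤ a / b - 1 := Real.log_le_sub_one_of_pos (by positivity)
  have hlo : Real.log (b / a) ≤ b / a - 1 := Real.log_le_sub_one_of_pos (by positivity)
  have hinv : Real.log (b / a) = - Real.log (a / b) := by
    rw [← Real.log_inv, inv_div]
  rw [abs_le]
  constructor
  · rw [hinv] at hlo
    have : b / a - 1 ≤ ε / 2 := by
      rw [sub_le_iff_le_add, div_le_iff₀ ha0]
      nlinarith
    linarith
  · have : a / b - 1 ≤ ε / 2 := by
      rw [sub_le_iff_le_add, div_le_iff₀ hbpos]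
      nlinarith
    linarith


/-- bounds for `1 - N (phi z w)` on spheres centred at the origin -/
lemma phi_bounds {z : Fin n → ℂ} (hz : N z < 1) :
    ∃ A B : ℝ, 0 < A ∧ 0 < B ∧ ∀ w : Fin n → ℂ, N w < 1 →
      A * (1 - N w) ≤ 1 - N (phi z w) ∧ 1 - N (phi z w) ≤ B * (1 - N w) := by
  set q : ℝ := Real.sqrt (N z) with hq
  have hq0 : 0 ≤ q := Real.sqrt_nonneg _
  have hq2 : q ^ 2 = N z := Real.sq_sqrt (N_nonneg z)
  have hq1 : q < 1 := by nlinarith
  refine ⟨(1 - N z) / 4, (1 - N z) / (1 - q) ^ 2, by linarith,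
    div_pos (by linarith) (by nlinarith), fun w hw => ?_⟩
  have hc := cauchy w z
  have hnorm : ‖ip w z‖ ≤ q := by
    have h1 : ‖ip w z‖ ^ 2 ≤ q ^ 2 := by
      rw [← Complex.normSq_eq_norm_sq, hq2]
      refine hc.trans ?_
      nlinarith [N_nonneg z, N_nonneg w]
    exact abs_le_of_sq_le_sq' h1 hq0 |>.2
  have hup : Complex.normSq (1 - ip w z) ≤ 4 := by
    rw [Complex.normSq_eq_norm_sq]
    have : ‖1 - ip w z‖ ≤ 2 := by
      calc ‖1 - ip w z‖ ≤ ‖(1 : ℂ)‖ + ‖ip w z‖ := norm_sub_le _ _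
        _ ≤ 2 := by rw [norm_one]; linarith
    nlinarith [norm_nonneg (1 - ip w z)]
  have hlo : (1 - q) ^ 2 ≤ Complex.normSq (1 - ip w z) := by
    rw [Complex.normSq_eq_norm_sq]
    have : 1 - q ≤ ‖1 - ip w z‖ := by
      calc 1 - q ≤ ‖(1 : ℂ)‖ - ‖ip w z‖ := by rw [norm_one]; linarith
        _ ≤ ‖1 - ip w z‖ := norm_sub_norm_le _ _
    have h1q : 0 ≤ 1 - q := by linarith
    nlinarith
  have hpos := normSq_one_sub_pos hz hw.le
  have hnum : 0 ≤ (1 - N z) * (1 - N w) := mul_nonneg (by linarith) (by linarith)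
  rw [one_sub_N_phi hz hw.le]
  constructor
  · rw [le_div_iff₀ hpos]
    calc (1 - N z) / 4 * (1 - N w) * Complex.normSq (1 - ip w z)
        ≤ (1 - N z) / 4 * (1 - N w) * 4 := by
          apply mul_le_mul_of_nonneg_left hup
          have : (1 - N z) / 4 * (1 - N w) = (1 - N z) * (1 - N w) / 4 := by ring
          rw [this]; positivity
      _ = (1 - N z) * (1 - N w) := by ring
  · have h1q : 0 < (1 - q) ^ 2 := by nlinarith
    rw [div_mul_eq_mul_div, div_le_div_iff₀ hpos h1q]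
    exact mul_le_mul_of_nonneg_left hlo hnum

/-- the radius with parameter `τ` -/
noncomputable def rad (τ : ℝ) : ℝ := Real.sqrt (1 - Real.exp (1 - Real.exp τ))

lemma rad_sq {τ : ℝ} (hτ : 0 < τ) : rad τ ^ 2 = 1 - Real.exp (1 - Real.exp τ) := by
  unfold rad
  rw [Real.sq_sqrt]
  have : Real.exp (1 - Real.exp τ) ≤ 1 := by
    rw [Real.exp_le_one_iff]
    linarith [Real.one_le_exp hτ.le]
  linarith

lemma rad_pos {τ : ℝ} (hτ : 0 < τ) : 0 < rad τ := by
  unfold rad
  apply Real.sqrt_pos.2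
  have h1 : 1 < Real.exp τ := Real.one_lt_exp_iff.2 hτ
  have : Real.exp (1 - Real.exp τ) < 1 := by
    rw [Real.exp_lt_one_iff]
    linarith
  linarith

lemma rad_lt_one {τ : ℝ} (hτ : 0 < τ) : rad τ < 1 := by
  have h1 := rad_sq hτ
  have h2 := rad_pos hτ
  have h3 := Real.exp_pos (1 - Real.exp τ)
  nlinarith

lemma osc {z : Fin n → ℂ} (hz : N z < 1) {ε : ℝ} (hε : 0 < ε) (hε1 : ε ≤ 1) :
    ∃ T : ℝ, 0 < T ∧ ∀ τ : ℝ, T ≤ τ → ∀ ζ : Fin n → ℂ, N ζ = 1 →
      |u (phi z ((rad τ : ℂ) • ζ)) - Real.cos τ| ≤ ε := by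
  obtain ⟨A, B, hA, hB, hAB⟩ := phi_bounds hz
  set C : ℝ := |Real.log A| + |Real.log B| with hC
  have hC0 : 0 ≤ C := by positivity
  -- need exp τ ≥ 4 (C+1)/ε and B * exp (1 - exp τ) ≤ ε / 2
  set D : ℝ := max (4 * (C + 1) / ε) (1 + |Real.log (ε / (2 * B))|) with hD
  have hDpos : 0 < D := lt_of_lt_of_le (by positivity) (le_max_left _ _)
  refine ⟨max 1 (Real.log D), by positivity, fun τ hτ ζ hζ => ?_⟩
  have hτ0 : 0 < τ := lt_of_lt_of_le (by positivity) hτ
  have hDτ : D ≤ Real.exp τ := by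
    rw [← Real.log_le_iff_le_exp hDpos]
    exact (le_max_right _ _).trans hτ
  set x : ℝ := Real.exp (1 - Real.exp τ) with hx
  have hx0 : 0 < x := Real.exp_pos _
  have hr2 : rad τ ^ 2 = 1 - x := rad_sq hτ0
  have hNw : N ((rad τ : ℂ) • ζ) = 1 - x := by rw [N_smul_unit _ hζ, hr2]
  have hNw1 : N ((rad τ : ℂ) • ζ) < 1 := by rw [hNw]; linarith
  obtain ⟨hlo, hup⟩ := hAB _ hNw1
  rw [hNw] at hlo hup
  set t : ℝ := 1 - N (phi z ((rad τ : ℂ) • ζ)) with ht
  have hlo' : A * x ≤ t := by linarith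
  have hup' : t ≤ B * x := by linarith
  have ht0 : 0 < t := lt_of_lt_of_le (by positivity) hlo'
  have hlogx : Real.log x = 1 - Real.exp τ := Real.log_exp _
  have hlogt1 : Real.log A + Real.log x ≤ Real.log t := by
    rw [← Real.log_mul hA.ne' hx0.ne']
    exact Real.log_le_log (by positivity) hlo'
  have hlogt2 : Real.log t ≤ Real.log B + Real.log x := by
    rw [← Real.log_mul hB.ne' hx0.ne']
    exact Real.log_le_log ht0 hup'
  have hut : u (phi z ((rad τ : ℂ) • ζ)) = (1 - t) * Real.cos (Real.log (1 - Real.log t)) := by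
    have : N (phi z ((rad τ : ℂ) • ζ)) = 1 - t := by rw [ht]; ring
    unfold u V
    rw [this]
    ring_nf
  have hcosb : Real.cos τ = Real.cos (Real.log (Real.exp τ)) := by rw [Real.log_exp]
  have hclose : |Real.cos (Real.log (1 - Real.log t)) - Real.cos (Real.log (Real.exp τ))|
      ≤ ε / 2 := by
    apply log_close hC0 hε hε1 _ ((le_max_left _ _).trans hDτ)
    rw [abs_le]
    have a1 := abs_le.1 (le_refl |Real.log A|)
    have a2 := abs_le.1 (le_refl |Real.log B|)
    have a3 := abs_nonneg (Real.log A)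
    have a4 := abs_nonneg (Real.log B)
    constructor <;> linarith
  have htε : t ≤ ε / 2 := by
    refine hup'.trans ?_
    have h1 : 1 + |Real.log (ε / (2 * B))| ≤ Real.exp τ := (le_max_right _ _).trans hDτ
    have h2 : 1 - Real.exp τ ≤ Real.log (ε / (2 * B)) := by
      have := neg_abs_le (Real.log (ε / (2 * B)))
      linarith
    have h3 : x ≤ ε / (2 * B) := by
      rw [hx, ← Real.le_log_iff_exp_le (by positivity)]
      exact h2
    calc B * x ≤ B * (ε / (2 * B)) := mul_le_mul_of_nonneg_left h3 hB.le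
      _ = ε / 2 := by field_simp
  rw [hut, hcosb]
  have hfin : (1 - t) * Real.cos (Real.log (1 - Real.log t)) - Real.cos (Real.log (Real.exp τ))
      = (Real.cos (Real.log (1 - Real.log t)) - Real.cos (Real.log (Real.exp τ)))
        - t * Real.cos (Real.log (1 - Real.log t)) := by ring
  rw [hfin]
  refine (abs_sub _ _).trans ?_
  have hlast : |t * Real.cos (Real.log (1 - Real.log t))| ≤ ε / 2 := by
    rw [abs_mul, abs_of_pos ht0]
    calc t * |Real.cos (Real.log (1 - Real.log t))| ≤ t * 1 :=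
          mul_le_mul_of_nonneg_left (Real.abs_cos_le_one _) ht0.le
      _ ≤ ε / 2 := by linarith
  linarith


lemma continuous_N : Continuous (N : (Fin n → ℂ) → ℝ) := by
  unfold N
  exact continuous_finsetSum _ fun j _ => Complex.continuous_normSq.comp (continuous_apply j)

lemma continuous_ip (z : Fin n → ℂ) : Continuous fun w : Fin n → ℂ => ip w z := by
  unfold ip
  fun_prop

lemma one_le_aux {s : ℝ} (h0 : 0 ≤ s) (h1 : s < 1) : 1 ≤ 1 - Real.log (1 - s) := by
  have := Real.log_nonpos (by linarith : (0 : ℝ) ≤ 1 - s) (by linarith)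
  linarith

lemma continuousOn_V : ContinuousOn V (Set.Ico 0 1) := by
  unfold V
  intro s hs
  have hs1 : s < 1 := hs.2
  have h2 := one_le_aux hs.1 hs.2
  apply ContinuousAt.continuousWithinAt
  have h1 : (1 : ℝ) - s ≠ 0 := by linarith
  have h3 : (1 : ℝ) - Real.log (1 - s) ≠ 0 := by linarith
  fun_prop (disch := assumption)

lemma measurable_V : Measurable V := by
  unfold V
  fun_prop

lemma measurable_phi (z : Fin n → ℂ) : Measurable (phi z) := by
  have h := (continuous_ip z).measurable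
  unfold ip at h
  unfold phi
  fun_prop

lemma measurable_u : Measurable (u : (Fin n → ℂ) → ℝ) :=
  measurable_V.comp continuous_N.measurable

lemma abs_u_le (z : Fin n → ℂ) : |u z| ≤ N z := abs_V_le (N_nonneg z)

lemma continuousOn_u : ContinuousOn (u : (Fin n → ℂ) → ℝ) {z | N z < 1} :=
  continuousOn_V.comp continuous_N.continuousOn fun z hz => ⟨N_nonneg z, hz⟩

lemma continuousOn_phi {z : Fin n → ℂ} (hz : N z < 1) :
    ContinuousOn (phi z) {w | N w < 1} := by
  intro w hw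
  have h := normSq_one_sub_pos hz (le_of_lt hw)
  rw [Complex.normSq_pos] at h
  have hc : ContinuousAt (fun w : Fin n → ℂ => ∑ j, w j * starRingEnd ℂ (z j)) w :=
    (continuous_ip z).continuousAt
  apply ContinuousAt.continuousWithinAt
  unfold phi
  refine ContinuousAt.smul ((continuousAt_const.sub hc).inv₀ h) ?_
  have hd := hc.div_const (∑ j, z j * starRingEnd ℂ (z j))
  have hd2 : ContinuousAt (fun w : Fin n → ℂ => ((∑ j, w j * starRingEnd ℂ (z j)) /
      (∑ j, z j * starRingEnd ℂ (z j))) • z) w := hd.smul continuousAt_const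
  refine ContinuousAt.sub (continuousAt_const.sub hd2) ?_
  have h3 : ContinuousAt (fun w : Fin n → ℂ => w - ((∑ j, w j * starRingEnd ℂ (z j)) /
      (∑ j, z j * starRingEnd ℂ (z j))) • z) w := continuousAt_id.sub hd2
  exact ContinuousAt.const_smul (c := ((Real.sqrt (1 - ∑ j, Complex.normSq (z j)) : ℝ) : ℂ)) h3

lemma continuousOn_radial {z ζ : Fin n → ℂ} (hz : N z < 1) (hζ : N ζ = 1) :
    ContinuousOn (fun r : ℝ => u (phi z ((r : ℂ) • ζ))) (Set.Ioo 0 1) := by
  have h1 : ContinuousOn (fun r : ℝ => ((r : ℂ) • ζ)) (Set.Ioo 0 1) := by fun_prop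
  have h2 : Set.MapsTo (fun r : ℝ => ((r : ℂ) • ζ)) (Set.Ioo 0 1) {w | N w < 1} := by
    intro r hr
    show N _ < 1
    rw [N_smul_unit _ hζ]
    nlinarith [hr.1, hr.2]
  have h3 := (continuousOn_phi hz).comp h1 h2
  refine continuousOn_u.comp h3 fun r hr => ?_
  exact N_lt_one_phi hz (h2 hr)

/-- the one-radius property of `u`, for an arbitrary probability on the unit sphere -/
theorem one_radius {z : Fin n → ℂ} (hz : N z < 1) {Ω : Type*} [MeasurableSpace Ω]
    (P : Measure Ω) [IsProbabilityMeasure P] (ζ : Ω → Fin n → ℂ) (hm : Measurable ζ)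
    (hζ : ∀ᵐ ω ∂P, N (ζ ω) = 1) :
    ∃ r : ℝ, 0 < r ∧ r < 1 ∧ u z = ∫ ω, u (phi z ((r : ℂ) • ζ ω)) ∂P := by
  set M : ℝ → ℝ := fun r => ∫ ω, u (phi z ((r : ℂ) • ζ ω)) ∂P with hM
  have hmeas : ∀ r : ℝ, Measurable fun ω => u (phi z ((r : ℂ) • ζ ω)) := by
    intro r
    have h1 : Measurable fun ω => (r : ℂ) • ζ ω := by fun_prop
    exact measurable_u.comp ((measurable_phi z).comp h1)
  have hbd : ∀ r ∈ Set.Ioo (0 : ℝ) 1, ∀ᵐ ω ∂P, ‖u (phi z ((r : ℂ) • ζ ω))‖ ≤ 1 := by
    intro r hr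
    filter_upwards [hζ] with ω hω
    rw [Real.norm_eq_abs]
    refine (abs_u_le _).trans ?_
    have hlt : N ((r : ℂ) • ζ ω) < 1 := by
      rw [N_smul_unit _ hω]
      nlinarith [hr.1, hr.2]
    exact (N_lt_one_phi hz hlt).le
  have hcont : ContinuousOn M (Set.Ioo 0 1) := by
    apply continuousOn_of_dominated (bound := fun _ => (1 : ℝ))
    · intro r _
      exact (hmeas r).aestronglyMeasurable
    · exact hbd
    · exact integrable_const _
    · filter_upwards [hζ] with ω hω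
      exact continuousOn_radial hz hω
  have hint : ∀ r ∈ Set.Ioo (0 : ℝ) 1, Integrable (fun ω => u (phi z ((r : ℂ) • ζ ω))) P := by
    intro r hr
    exact Integrable.of_bound (hmeas r).aestronglyMeasurable 1 (hbd r hr)
  -- room between `|u z|` and `1`
  have huz : |u z| < 1 := (abs_u_le z).trans_lt hz
  set ε : ℝ := (1 - |u z|) / 2 with hε
  have hε0 : 0 < ε := by linarith
  have hε1 : ε ≤ 1 := by
    have := abs_nonneg (u z)
    linarith
  obtain ⟨T, hT0, hT⟩ := osc hz hε0 hε1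
  have hMclose : ∀ τ : ℝ, T ≤ τ → |M (rad τ) - Real.cos τ| ≤ ε := by
    intro τ hτ
    have hτ0 : 0 < τ := lt_of_lt_of_le hT0 hτ
    have hr : rad τ ∈ Set.Ioo (0 : ℝ) 1 := ⟨rad_pos hτ0, rad_lt_one hτ0⟩
    have h1 : M (rad τ) - Real.cos τ = ∫ ω, (u (phi z ((rad τ : ℂ) • ζ ω)) - Real.cos τ) ∂P := by
      rw [integral_sub (hint _ hr) (integrable_const _)]
      simp [hM]
    rw [h1, ← Real.norm_eq_abs]
    have h2 := norm_integral_le_of_norm_le_const (μ := P) (C := ε)
      (f := fun ω => u (phi z ((rad τ : ℂ) • ζ ω)) - Real.cos τ) (by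
        filter_upwards [hζ] with ω hω
        rw [Real.norm_eq_abs]
        exact hT τ hτ _ hω)
    simpa using h2
  -- two radii
  obtain ⟨k, hk⟩ := exists_nat_gt T
  have hk0 : (0 : ℝ) < k := hT0.trans hk
  have hpi := Real.pi_gt_three
  set τ₁ : ℝ := (k : ℝ) * (2 * Real.pi) with hτ₁
  set τ₂ : ℝ := (k : ℝ) * (2 * Real.pi) + Real.pi with hτ₂
  have hT1 : T ≤ τ₁ := by nlinarith
  have hT2 : T ≤ τ₂ := by nlinarith
  have hc1 : Real.cos τ₁ = 1 := Real.cos_nat_mul_two_pi k
  have hc2 : Real.cos τ₂ = -1 := by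
    rw [hτ₂, Real.cos_add_pi, Real.cos_nat_mul_two_pi]
  have hM1 := hMclose τ₁ hT1
  have hM2 := hMclose τ₂ hT2
  rw [hc1] at hM1
  rw [hc2] at hM2
  have hr1 : rad τ₁ ∈ Set.Ioo (0 : ℝ) 1 :=
    ⟨rad_pos (hT0.trans_le hT1), rad_lt_one (hT0.trans_le hT1)⟩
  have hr2 : rad τ₂ ∈ Set.Ioo (0 : ℝ) 1 :=
    ⟨rad_pos (hT0.trans_le hT2), rad_lt_one (hT0.trans_le hT2)⟩
  have hu1 := (abs_lt.1 huz).1
  have hu2 := (abs_lt.1 huz).2
  have hua := le_abs_self (u z)
  have hub := neg_abs_le (u z)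
  have hmem : u z ∈ Set.Icc (M (rad τ₂)) (M (rad τ₁)) := by
    constructor
    · have := (abs_le.1 hM2).2
      linarith
    · have := (abs_le.1 hM1).1
      linarith
  obtain ⟨r, hr, hr'⟩ := isPreconnected_Ioo.intermediate_value hr2 hr1 hcont hmem
  exact ⟨r, hr.1, hr.2, hr'.symm⟩

/-- the centred spherical means of `u` are the values of the profile -/
lemma u_phi_zero (r : ℝ) {ζ : Fin n → ℂ} (hζ : N ζ = 1) :
    u (phi 0 ((r : ℂ) • ζ)) = V (r ^ 2) := by
  have h0 : N (0 : Fin n → ℂ) = 0 := by simp [N]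
  have : phi 0 ((r : ℂ) • ζ) = (-1 : ℂ) • ((r : ℂ) • ζ) := by
    unfold phi
    ext j
    simp
  rw [this]
  unfold u
  rw [N_smul, N_smul_unit _ hζ]
  simp

lemma u_zero : u (0 : Fin n → ℂ) = 0 := by
  simp [u, V, N]

lemma V_quarter_pos : 0 < V (1 / 4) := by
  unfold V
  apply mul_pos (by norm_num)
  have h1 : Real.log (1 - 1 / 4) ≤ 0 := Real.log_nonpos (by norm_num) (by norm_num)
  have h2 : -1 ≤ Real.log (1 - 1 / 4) := by
    have h3 : Real.log ((1 - 1 / 4)⁻¹) ≤ (1 - 1 / 4)⁻¹ - 1 :=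
      Real.log_le_sub_one_of_pos (by norm_num)
    rw [Real.log_inv] at h3
    norm_num at h3 ⊢
    linarith
  have h4 : 0 ≤ Real.log (1 - Real.log (1 - 1 / 4)) := Real.log_nonneg (by linarith)
  have h5 : Real.log (1 - Real.log (1 - 1 / 4)) ≤ 1 := by
    have := Real.log_le_sub_one_of_pos (by linarith : 0 < 1 - Real.log (1 - 1 / 4))
    linarith
  apply Real.cos_pos_of_mem_Ioo
  constructor <;> linarith [Real.pi_gt_three]

/-- `u` is not `M`-harmonic: the mean over the sphere of radius `1/2` about the origin is wrong -/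
lemma not_mean {Ω : Type*} [MeasurableSpace Ω]
    (P : Measure Ω) [IsProbabilityMeasure P] (ζ : Ω → Fin n → ℂ)
    (hζ : ∀ᵐ ω ∂P, N (ζ ω) = 1) :
    u (0 : Fin n → ℂ) ≠ ∫ ω, u (phi 0 (((1 / 2 : ℝ) : ℂ) • ζ ω)) ∂P := by
  have h1 : ∫ ω, u (phi 0 (((1 / 2 : ℝ) : ℂ) • ζ ω)) ∂P = ∫ _ω, V (1 / 4) ∂P := by
    apply integral_congr_ae
    filter_upwards [hζ] with ω hω
    rw [u_phi_zero _ hω]
    norm_num
  rw [h1, u_zero]
  simp only [integral_const, probReal_univ, smul_eq_mul, one_mul]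
  exact V_quarter_pos.ne

end Pool.Agent.Helper269.OneRadius
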